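import Mathlib

open Classical Equiv

namespace IG

/-- The Klein four group of slow letters. -/
abbrev V4 := ZMod 2 × ZMod 2

/-- The set of copies. -/
abbrev K := Fin 8

/-- xor by `c` -/
def kx (c : K) : Perm K where
  toFun k := k ^^^ c
  invFun k := k ^^^ c
  left_inv := by revert c; decide
  right_inv := by revert c; decide

/-- the fibre used for the `k`-th site -/
def ph (k : K) : K := if k = 4 then 4 else 3

/-- The generating letters. -/
inductive Gen : Type
  | r : Perm (Option K) → Gen
  | a : Gen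
  | v : V4 → Gen
  | x : Gen
  | z : K → Gen

/-- A slow graph: `pa` and `pv` are the actions of the letters `a` and `v`. -/
structure SD where
  Y : Type
  pa : Perm Y
  pv : V4 → Perm Y
  e0 : Y
  e1 : Y
  mid : Y

/-- Properties of a slow graph used in the structural part. -/
structure SD.Ok (d : SD) : Prop where
  fin : Finite d.Y
  pa_e0 : d.pa d.e0 = d.e0
  pv_e1 : ∀ v, d.pv v d.e1 = d.e1
  pa_sq : d.pa * d.pa = 1
  pv_sq : ∀ v, d.pv v * d.pv v = 1
  pv_comm : ∀ v w, d.pv v * d.pv w = d.pv w * d.pv v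
  e01 : d.e0 ≠ d.e1
  me0 : d.mid ≠ d.e0
  me1 : d.mid ≠ d.e1
  conn : ∀ S : Set d.Y, d.mid ∈ S → (∀ y ∈ S, d.pa y ∈ S) → (∀ y ∈ S, ∀ v, d.pv v y ∈ S) →
    ∀ y, y ∈ S

/-- positions: a point `o` for the letter `a` and a tuple `s` for the other letters. -/
structure Pos (X : Type) where
  o : X
  s : K → X

/-- The fibre over a coordinate. -/
abbrev W (X : Type) (d : SD) : Type := (X × d.Y) × K

/-- transposition with the classical decidability instance -/
noncomputable def sw {Z : Type} (a b : Z) : Perm Z :=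
  @Equiv.swap Z (fun x y => propDecidable (x = y)) a b

/-- the three-cycle `a ↦ b ↦ c ↦ a` -/
noncomputable def c3 {Z : Type} (a b c : Z) : Perm Z := sw a b * sw b c

/-- act on the fibre over `x` -/
noncomputable def fibP {X Y : Type} (x : X) (π : Perm Y) : Perm (X × Y) where
  toFun p := if p.1 = x then (p.1, π p.2) else p
  invFun p := if p.1 = x then (p.1, π⁻¹ p.2) else p
  left_inv p := by
    by_cases h : p.1 = x
    · simp [h]
      rw [← h]
    · simp [h]
  right_inv p := by
    by_cases h : p.1 = x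
    · simp [h]
      rw [← h]
    · simp [h]

/-- `g × id` -/
def lX {X Y : Type} (g : Perm X) : Perm (X × Y) := Equiv.prodCongr g (Equiv.refl Y)

/-- `π × id` -/
def kk {Z : Type} (π : Perm Z) : Perm (Z × K) := Equiv.prodCongr π (Equiv.refl K)

/-- permute the sites `(u k, k)` by xor with `c`. -/
noncomputable def ze {Z : Type} (u : K → Z) (c : K) : Perm (Z × K) where
  toFun p := if p.1 = u p.2 then (u (kx c p.2), kx c p.2) else p
  invFun p := if p.1 = u p.2 then (u (kx c p.2), kx c p.2) else p
  left_inv p := by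
    have hk : ∀ k : K, kx c (kx c k) = k := by revert c; decide
    by_cases h : p.1 = u p.2
    · simp only [h, if_true, hk]
      rw [← h]
    · simp [h]
  right_inv p := by
    have hk : ∀ k : K, kx c (kx c k) = k := by revert c; decide
    by_cases h : p.1 = u p.2
    · simp only [h, if_true, hk]
      rw [← h]
    · simp [h]

/-- `g × id × id` on `W`. -/
def gW {X : Type} {d : SD} (g : Perm X) : Perm (W X d) := kk (lX g)

/-- The relative lamp of the letter `s`, attached to the position `P`, at the coordinate `t`. -/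
noncomputable def dl {X : Type} (d : SD) (s : Gen) (P : Pos X) (t : X) : Perm (W X d) :=
  match s with
  | Gen.r _ => 1
  | Gen.a => kk (fibP P.o d.pa)
  | Gen.v v => kk (fibP (P.s 0) (d.pv v))
  | Gen.x => kk (lX (sw (P.s 1) (P.s 2)))
  | Gen.z c => if t = P.s 0 then ze (fun k => (P.s (ph k), d.mid)) c else 1

/-- moved position -/
def Pos.map {X : Type} (g : Perm X) (P : Pos X) : Pos X := ⟨g P.o, fun k => g (P.s k)⟩

/-- next position -/
def Pos.nxt {X : Type} (d : SD) (P : Pos X) : Pos (X → W X d) :=
  ⟨fun _ => ((P.o, d.e0), 0), fun k _ => ((P.s 0, d.e1), k)⟩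

/-- relevant points of a position for a letter -/
def Rel {X : Type} (s : Gen) (P : Pos X) : Set X :=
  match s with
  | Gen.r _ => ∅
  | Gen.a => {P.o}
  | _ => Set.range P.s

/-- two positions agree for the letter `s` -/
def Agr {X : Type} (s : Gen) (P Q : Pos X) : Prop :=
  match s with
  | Gen.r _ => True
  | Gen.a => P.o = Q.o
  | _ => P.s = Q.s

/-- `s` is one of the letters attached to the tuple `s` of a position -/
def IsS (s : Gen) : Prop :=
  match s with
  | Gen.r _ => False
  | Gen.a => False
  | _ => True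

/-- compatibility of two positions for two letters: the tails will commute. -/
def OKp {X : Type} (s : Gen) (P : Pos X) (s' : Gen) (R : Pos X) : Prop :=
  Disjoint (Rel s P) (Rel s' R) ∨ (s = Gen.a ∧ s' = Gen.a ∧ P.o = R.o) ∨
    (s ≠ Gen.a ∧ s' ≠ Gen.a ∧ P.s = R.s ∧ Function.Injective P.s)

/-- `π` fixes the values of the next position which are relevant for `s`. -/
def FixV {X : Type} (d : SD) (s : Gen) (P : Pos X) (π : Perm (W X d)) : Prop :=
  match s with
  | Gen.r _ => True
  | Gen.a => π ((P.o, d.e0), 0) = ((P.o, d.e0), 0)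
  | _ => ∀ k : K, π ((P.s 0, d.e1), k) = ((P.s 0, d.e1), k)

/-- The wreath type permutation of `X → Y`. -/
def wr {X Y : Type} (σ : Perm X) (c : X → Perm Y) : Perm (X → Y) where
  toFun f := fun t => c t (f (σ⁻¹ t))
  invFun f := fun t => (c (σ t))⁻¹ (f (σ t))
  left_inv f := by
    funext t
    show (c (σ t))⁻¹ (c (σ t) (f (σ⁻¹ (σ t)))) = f t
    simp
  right_inv f := by
    funext t
    show c t ((c (σ (σ⁻¹ t)))⁻¹ (f (σ (σ⁻¹ t)))) = f t
    simp

/-- A level. -/
structure Lev where
  X : Type
  pos : Pos X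
  root : Gen → Perm X

/-- The next level of the tower. -/
noncomputable def next (L : Lev) (d : SD) : Lev where
  X := L.X → W L.X d
  pos := L.pos.nxt d
  root s := wr (L.root s) (fun t => dl d s L.pos t * gW (L.root s))

/-- The base level. -/
def L0 : Lev where
  X := Option K
  pos := ⟨none, some⟩
  root s := match s with
    | Gen.r ρ => ρ
    | _ => 1

/-- The tower. -/
noncomputable def T (D : ℕ → ℕ → SD) : ℕ → Lev
  | 0 => L0
  | M + 1 => next (T D M) (D M (Nat.card (T D M).X))

/-- The point sets. -/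
abbrev XX (D : ℕ → ℕ → SD) (M : ℕ) : Type := (T D M).X

/-- The slow graph at level `M`. -/
noncomputable abbrev DD (D : ℕ → ℕ → SD) (M : ℕ) : SD := D M (Nat.card (XX D M))

/-- The fibres. -/
abbrev WW (D : ℕ → ℕ → SD) (M : ℕ) : Type := W (XX D M) (DD D M)

/-- The ambient group. -/
abbrev Gam (D : ℕ → ℕ → SD) : Type := ∀ M, Perm (XX D M)

/-- The element with given root and relative portrait. -/
noncomputable def mk (D : ℕ → ℕ → SD) (σ : Perm (Option K))
    (δ : ∀ M, XX D M → Perm (WW D M)) : Gam D
  | 0 => σ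
  | M + 1 => wr (mk D σ δ M) (fun t => δ M t * gW (mk D σ δ M))

/-- The letters as elements of the ambient group. -/
noncomputable def Phi (D : ℕ → ℕ → SD) (s : Gen) : Gam D := fun M => (T D M).root s

/-- root of a letter -/
def r0 (s : Gen) : Perm (Option K) := L0.root s

/-- truncated letter: canonical above level `m`. -/
noncomputable def E (D : ℕ → ℕ → SD) (m : ℕ) (s : Gen) : Gam D :=
  mk D (r0 s) (fun M t => if M < m then dl (DD D M) s (T D M).pos t else 1)

/-- tail of a letter from level `m` on. -/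
noncomputable def tl (D : ℕ → ℕ → SD) (m : ℕ) (s : Gen) : Gam D :=
  mk D 1 (fun M t => if m ≤ M then dl (DD D M) s (T D M).pos t else 1)

/-- pure lamps on level `m`. -/
noncomputable def lamp (D : ℕ → ℕ → SD) (m : ℕ) (δ : XX D m → Perm (WW D m)) : Gam D :=
  mk D 1 (Pi.mulSingle m δ)

/-- pure lamp at one coordinate -/
noncomputable def lampS (D : ℕ → ℕ → SD) (m : ℕ) (t : XX D m) (π : Perm (WW D m)) : Gam D :=
  lamp D m (fun t' => if t' = t then π else 1)

/-- sequences of positions from level `m` on -/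
def Seq (D : ℕ → ℕ → SD) (m : ℕ) (Q : ∀ M, Pos (XX D M)) : Prop :=
  ∀ M, m ≤ M → Q (M + 1) = (Q M).nxt (DD D M)

/-- tail of a letter attached to a sequence of positions -/
noncomputable def tq (D : ℕ → ℕ → SD) (m : ℕ) (s : Gen) (Q : ∀ M, Pos (XX D M)) : Gam D :=
  mk D 1 (fun M t => if m ≤ M then dl (DD D M) s (Q M) t else 1)

/-- action of `g` on the lamps -/
noncomputable def lact {X : Type} {d : SD} (g : Perm X) (δ : X → Perm (W X d)) :
    X → Perm (W X d) := fun t => gW g * δ (g⁻¹ t) * (gW g)⁻¹

/-- elements which are canonical above level `m`. -/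
def Can (D : ℕ → ℕ → SD) (m : ℕ) (g : Gam D) : Prop :=
  ∃ σ δ, g = mk D σ δ ∧ ∀ M, m ≤ M → ∀ t, δ M t = 1

/-- even permutations (as a subgroup; trivial if the type is infinite). -/
noncomputable def Ev (Z : Type) : Subgroup (Perm Z) :=
  if h : Finite Z then @alternatingGroup Z (@Fintype.ofFinite Z h) (fun a b => propDecidable (a = b)) else ⊥

/-- pure even lamps on level `m` -/
def AA (D : ℕ → ℕ → SD) (m : ℕ) : Set (Gam D) :=
  {g | ∃ δ : XX D m → Perm (WW D m), (∀ t, δ t ∈ Ev (WW D m)) ∧ g = lamp D m δ}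

/-- canonical elements of depth `m` with even lamps. -/
def CC (D : ℕ → ℕ → SD) (m : ℕ) : Set (Gam D) :=
  {g | ∃ σ δ, g = mk D σ δ ∧ (∀ M, m ≤ M → ∀ t, δ M t = 1) ∧ ∀ M t, δ M t ∈ Ev (WW D M)}

/-- The group generated by the letters. -/
def GG (D : ℕ → ℕ → SD) : Subgroup (Gam D) := Subgroup.closure (Set.range (Phi D))

/-- product of a list of letters -/
noncomputable def ev (D : ℕ → ℕ → SD) : List Gen → Gam D
  | [] => 1
  | s :: l => Phi D s * ev D l

/-- product of the truncated letters -/
noncomputable def EE (D : ℕ → ℕ → SD) (m : ℕ) : List Gen → Gam D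
  | [] => 1
  | s :: l => E D m s * EE D m l

/-- product of the tails at the pulled back positions -/
noncomputable def Th (D : ℕ → ℕ → SD) (m : ℕ) : List Gen → Gam D
  | [] => 1
  | s :: l => (EE D m l)⁻¹ * tl D m s * EE D m l * Th D m l

end IG
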