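import Mathlib
import Pool.Agent.Helper529.IG.Defs

open Classical Equiv

namespace IG

variable {D : ℕ → ℕ → SD}

theorem wr_apply {X Y : Type} (σ : Perm X) (c : X → Perm Y) (f : X → Y) (t : X) :
    wr σ c f t = c t (f (σ⁻¹ t)) := rfl

theorem gW_apply {X : Type} {d : SD} (g : Perm X) (p : W X d) :
    gW g p = ((g p.1.1, p.1.2), p.2) := rfl

theorem mk_zero (σ : Perm (Option K)) (δ : ∀ M, XX D M → Perm (WW D M)) : mk D σ δ 0 = σ := rfl

theorem mk_succ (σ : Perm (Option K)) (δ : ∀ M, XX D M → Perm (WW D M)) (M : ℕ) :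
    mk D σ δ (M + 1) = wr (mk D σ δ M) (fun t => δ M t * gW (mk D σ δ M)) := rfl

theorem tl_eq (m : ℕ) (s : Gen) : tl D m s = tq D m s (fun M => (T D M).pos) := rfl

end IG
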