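import Mathlib
import Pool.Agent.Helper529.IG.Bas

open Classical Equiv

namespace IG

variable {D : ℕ → ℕ → SD}


theorem wr_mul {X Y : Type} (σ τ : Perm X) (c d : X → Perm Y) :
    wr σ c * wr τ d = wr (σ * τ) (fun t => c t * d (σ⁻¹ t)) := by
  ext f t
  simp [wr_apply, Perm.mul_apply, mul_inv_rev]

theorem wr_one {X Y : Type} : wr (1 : Perm X) (fun _ => (1 : Perm Y)) = 1 := by
  ext f t
  simp [wr_apply]

theorem wr_inv {X Y : Type} (σ : Perm X) (c : X → Perm Y) :
    (wr σ c)⁻¹ = wr σ⁻¹ (fun t => (c (σ t))⁻¹) := by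
  rw [inv_eq_iff_mul_eq_one, wr_mul, ← wr_one]
  congr 1
  · simp
  · funext t
    simp

theorem wr_inj {X Y : Type} [Nontrivial Y] (σ τ : Perm X) (c d : X → Perm Y)
    (h : wr σ c = wr τ d) : σ = τ ∧ c = d := by
  have hcd : c = d := by
    funext t
    ext y
    have h1 := congrArg (fun p : Perm (X → Y) => p (fun _ => y) t) h
    exact h1
  subst hcd
  refine ⟨?_, rfl⟩
  have hinv : ∀ t, σ⁻¹ t = τ⁻¹ t := by
    intro t
    by_contra hne
    obtain ⟨y0, y1, hy⟩ := exists_pair_ne Y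
    have h1 := congrArg (fun p : Perm (X → Y) => p (fun x => if x = σ⁻¹ t then y0 else y1) t) h
    have h2 : c t (if σ⁻¹ t = σ⁻¹ t then y0 else y1) = c t (if τ⁻¹ t = σ⁻¹ t then y0 else y1) := h1
    rw [if_pos rfl, if_neg (fun h3 => hne h3.symm)] at h2
    exact hy ((c t).injective h2)
  have : σ⁻¹ = τ⁻¹ := Equiv.ext hinv
  exact inv_injective this

theorem gW_one {X : Type} {d : SD} : (gW (1 : Perm X) : Perm (W X d)) = 1 := by
  ext p <;> rfl

theorem gW_mul {X : Type} {d : SD} (g h : Perm X) :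
    (gW (g * h) : Perm (W X d)) = gW g * gW h := by
  ext p <;> rfl

theorem gW_inv {X : Type} {d : SD} (g : Perm X) : (gW g⁻¹ : Perm (W X d)) = (gW g)⁻¹ := by
  rw [eq_comm, inv_eq_iff_mul_eq_one, ← gW_mul, mul_inv_cancel, gW_one]

theorem lact_one {X : Type} {d : SD} (δ : X → Perm (W X d)) : lact 1 δ = δ := by
  funext t
  unfold lact
  rw [gW_one, one_mul, inv_one, inv_one, mul_one]
  rfl

theorem lact_mul {X : Type} {d : SD} (g h : Perm X) (δ : X → Perm (W X d)) :
    lact (g * h) δ = lact g (lact h δ) := by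
  funext t
  unfold lact
  rw [gW_mul, mul_inv_rev, mul_inv_rev, Perm.mul_apply]
  simp only [mul_assoc]

theorem lact_pmul {X : Type} {d : SD} (g : Perm X) (δ ε : X → Perm (W X d)) :
    lact g (δ * ε) = lact g δ * lact g ε := by
  funext t
  rw [Pi.mul_apply]
  unfold lact
  rw [Pi.mul_apply]
  group

theorem lact_pone {X : Type} {d : SD} (g : Perm X) : lact g (fun _ => (1 : Perm (W X d))) = fun _ => 1 := by
  funext t
  unfold lact
  rw [mul_one, mul_inv_cancel]


end IG
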