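import Mathlib
import Pool.Agent.Helper529.IG.PA1

open Classical Equiv

namespace IG

variable {D : ℕ → ℕ → SD}


theorem mk_mul (σ τ : Perm (Option K)) (δ ε : ∀ M, XX D M → Perm (WW D M)) :
    mk D σ δ * mk D τ ε = mk D (σ * τ) (fun M t => δ M t * lact (mk D σ δ M) (ε M) t) := by
  funext M
  induction M with
  | zero => rfl
  | succ M ih =>
    rw [Pi.mul_apply] at ih ⊢
    rw [mk_succ, mk_succ, mk_succ, ← ih]
    refine (wr_mul (mk D σ δ M) (mk D τ ε M) (fun t => δ M t * gW (mk D σ δ M))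
      (fun t => ε M t * gW (mk D τ ε M))).trans ?_
    congr 1
    funext t
    rw [gW_mul]
    unfold lact
    group

theorem mk_one : mk D 1 (fun _ _ => 1) = 1 := by
  funext M
  induction M with
  | zero => rfl
  | succ M ih =>
    rw [Pi.one_apply] at ih ⊢
    rw [mk_succ, ih, gW_one]
    simp only [one_mul]
    exact wr_one

theorem mk_inv (σ : Perm (Option K)) (δ : ∀ M, XX D M → Perm (WW D M)) :
    (mk D σ δ)⁻¹ = mk D σ⁻¹ (fun M => lact (mk D σ δ M)⁻¹ (fun t => (δ M t)⁻¹)) := by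
  apply inv_eq_of_mul_eq_one_right
  rw [mk_mul]
  have : (fun (M : ℕ) (t : XX D M) => δ M t * lact (mk D σ δ M)
      (lact (mk D σ δ M)⁻¹ (fun t => (δ M t)⁻¹)) t) = fun _ _ => 1 := by
    funext M t
    rw [← lact_mul, mul_inv_cancel, lact_one, mul_inv_cancel]
  rw [this, mul_inv_cancel]
  exact mk_one

theorem mk_inj (σ τ : Perm (Option K)) (δ ε : ∀ M, XX D M → Perm (WW D M))
    (h : mk D σ δ = mk D τ ε) : σ = τ ∧ δ = ε := by
  refine ⟨congrFun h 0, ?_⟩
  funext M
  have h1 := congrFun h (M + 1)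
  rw [mk_succ, mk_succ] at h1
  haveI : Nonempty (XX D M) := ⟨(T D M).pos.o⟩
  haveI : Nonempty (DD D M).Y := ⟨(DD D M).e0⟩
  haveI : Nontrivial (WW D M) := by
    unfold WW W
    infer_instance
  obtain ⟨h2, h3⟩ := wr_inj _ _ _ _ h1
  funext t
  have h4 := congrFun h3 t
  simp only [h2] at h4
  exact mul_right_cancel h4

theorem mk_triv (m : ℕ) (δ : ∀ M, XX D M → Perm (WW D M)) (h : ∀ M < m, ∀ t, δ M t = 1) :
    ∀ M ≤ m, mk D 1 δ M = 1 := by
  intro M
  induction M with
  | zero => intro _; rfl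
  | succ M ih =>
    intro hM
    rw [mk_succ, ih (by omega), gW_one]
    have : (fun t => δ M t * 1) = fun _ => (1 : Perm (WW D M)) := by
      funext t
      rw [h M (by omega) t, one_mul]
    rw [this]
    exact wr_one

theorem Phi_eq (s : Gen) : Phi D s = mk D (r0 s) (fun M t => dl (DD D M) s (T D M).pos t) := by
  funext M
  induction M with
  | zero => rfl
  | succ M ih =>
    rw [mk_succ, ← ih]
    rfl


end IG
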