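import Mathlib
import Pool.Agent.Helper529.IG.PA2

open Classical Equiv

namespace IG

variable {D : ℕ → ℕ → SD}


theorem can_nontriv (M : ℕ) : Nontrivial (WW D M) :=
  ⟨((((T D M).pos.o, (DD D M).e0), 0) : WW D M), (((T D M).pos.o, (DD D M).e0), 1), by
    intro h
    have h2 : (0 : K) = 1 := congrArg Prod.snd h
    exact absurd h2 (by decide)⟩

theorem can_one (m : ℕ) : Can D m 1 :=
  ⟨1, fun _ _ => 1, mk_one.symm, fun _ _ _ => rfl⟩

theorem can_mul (m : ℕ) (g h : Gam D) (hg : Can D m g) (hh : Can D m h) : Can D m (g * h) := by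
  obtain ⟨σ, δ, rfl, hδ⟩ := hg
  obtain ⟨τ, ε, rfl, hε⟩ := hh
  refine ⟨_, _, mk_mul σ τ δ ε, fun M hM t => ?_⟩
  have e : ε M = fun _ => 1 := funext fun t => hε M hM t
  rw [hδ M hM t, e, lact_pone, one_mul]

theorem can_inv (m : ℕ) (g : Gam D) (hg : Can D m g) : Can D m g⁻¹ := by
  obtain ⟨σ, δ, rfl, hδ⟩ := hg
  refine ⟨_, _, mk_inv σ δ, fun M hM t => ?_⟩
  have e : (fun t => (δ M t)⁻¹) = fun _ => (1 : Perm (WW D M)) := by
    funext t
    rw [hδ M hM t, inv_one]
  rw [e, lact_pone]

theorem can_mono (m m' : ℕ) (h : m ≤ m') (g : Gam D) (hg : Can D m g) : Can D m' g := by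
  obtain ⟨σ, δ, rfl, hδ⟩ := hg
  exact ⟨σ, δ, rfl, fun M hM t => hδ M (h.trans hM) t⟩

theorem can_succ (m M : ℕ) (h : m ≤ M) (g : Gam D) (hg : Can D m g) :
    g (M + 1) = wr (g M) (fun _ => gW (g M)) := by
  obtain ⟨σ, δ, rfl, hδ⟩ := hg
  rw [mk_succ]
  congr 1
  funext t
  rw [hδ M h t, one_mul]

theorem can_ext (m : ℕ) (g h : Gam D) (hg : Can D m g) (hh : Can D m h) (e : g m = h m) :
    g = h := by
  have hup : ∀ k, g (m + k) = h (m + k) := by
    intro k
    induction k with
    | zero => exact e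
    | succ k ih =>
      have h1 := can_succ m (m + k) (Nat.le_add_right m k) g hg
      have h2 := can_succ m (m + k) (Nat.le_add_right m k) h hh
      show g (m + k + 1) = h (m + k + 1)
      rw [h1, h2, ih]
  have hdown : ∀ k, k ≤ m → g (m - k) = h (m - k) := by
    intro k
    induction k with
    | zero => intro _; exact e
    | succ k ih =>
      intro hk
      have h1 := ih (by omega)
      obtain ⟨M, hM⟩ : ∃ M, M = m - (k + 1) := ⟨_, rfl⟩
      have hM1 : m - k = M + 1 := by omega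
      rw [hM1] at h1
      rw [← hM]
      obtain ⟨σ, δ, rfl, -⟩ := hg
      obtain ⟨τ, ε, rfl, -⟩ := hh
      rw [mk_succ, mk_succ] at h1
      have := can_nontriv (D := D) M
      exact (wr_inj _ _ _ _ h1).1
  funext M
  rcases le_total M m with hM | hM
  · have := hdown (m - M) (by omega)
    rwa [show m - (m - M) = M by omega] at this
  · have := hup (M - m)
    rwa [show m + (M - m) = M by omega] at this


end IG
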