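import Mathlib
import Pool.Agent.Helper529.IG.PB1

open Classical Equiv

namespace IG

variable {D : ℕ → ℕ → SD}


theorem h170_ms_same (m : ℕ) (δ : XX D m → Perm (WW D m)) :
    (Pi.mulSingle m δ : ∀ M, XX D M → Perm (WW D M)) m = δ :=
  Pi.mulSingle_eq_same (M := fun M => XX D M → Perm (WW D M)) m δ

theorem h170_ms_ne (m : ℕ) (δ : XX D m → Perm (WW D m)) (M : ℕ) (h : M ≠ m) :
    (Pi.mulSingle m δ : ∀ M, XX D M → Perm (WW D M)) M = fun _ => 1 :=
  Pi.mulSingle_eq_of_ne (M := fun M => XX D M → Perm (WW D M)) h δ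

theorem lamp_le (m : ℕ) (δ : XX D m → Perm (WW D m)) (M : ℕ) (h : M ≤ m) : lamp D m δ M = 1 := by
  refine mk_triv m _ (fun M' hM' t => ?_) M h
  rw [h170_ms_ne m δ M' (by omega)]

theorem lamp_at (m : ℕ) (δ : XX D m → Perm (WW D m)) : lamp D m δ (m + 1) = wr 1 δ := by
  have h1 := lamp_le m δ m le_rfl
  unfold lamp at h1 ⊢
  rw [mk_succ, h1, h170_ms_same, gW_one]
  simp only [mul_one]

theorem lamp_can (m : ℕ) (δ : XX D m → Perm (WW D m)) : Can D (m + 1) (lamp D m δ) := by
  refine ⟨1, Pi.mulSingle m δ, rfl, fun M hM t => ?_⟩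
  rw [h170_ms_ne m δ M (by omega)]

theorem lamp_mul (m : ℕ) (δ ε : XX D m → Perm (WW D m)) :
    lamp D m δ * lamp D m ε = lamp D m (δ * ε) := by
  unfold lamp
  rw [mk_mul, one_mul]
  congr 1
  funext M t
  by_cases hM : M = m
  · subst hM
    have h1 := lamp_le M δ M le_rfl
    unfold lamp at h1
    rw [h1, h170_ms_same, h170_ms_same, h170_ms_same, lact_one]
    rfl
  · rw [h170_ms_ne m δ M hM, h170_ms_ne m ε M hM, h170_ms_ne m (δ * ε) M hM, lact_pone, mul_one]

theorem lamp_one (m : ℕ) : lamp D m (fun _ => 1) = 1 := by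
  unfold lamp
  rw [← mk_one]
  congr 1
  funext M t
  by_cases hM : M = m
  · subst hM
    rw [h170_ms_same]
  · rw [h170_ms_ne m _ M hM]

theorem lamp_inv (m : ℕ) (δ : XX D m → Perm (WW D m)) :
    (lamp D m δ)⁻¹ = lamp D m (fun t => (δ t)⁻¹) := by
  refine inv_eq_of_mul_eq_one_right ?_
  rw [lamp_mul, ← lamp_one m]
  congr 1
  funext t
  exact mul_inv_cancel (δ t)

theorem lamp_inj (m : ℕ) (δ ε : XX D m → Perm (WW D m)) (h : lamp D m δ = lamp D m ε) :
    δ = ε := by
  unfold lamp at h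
  have h1 := (mk_inj _ _ _ _ h).2
  have h2 := congrFun h1 m
  rwa [h170_ms_same, h170_ms_same] at h2

theorem lamp_conj (m : ℕ) (g : Gam D) (hg : Can D m g) (δ : XX D m → Perm (WW D m)) :
    g * lamp D m δ * g⁻¹ = lamp D m (lact (g m) δ) := by
  obtain ⟨σ, δ', hgd, hδ'⟩ := hg
  rw [mul_inv_eq_iff_eq_mul]
  have hgM : ∀ M, mk D σ δ' M = g M := fun M => by rw [hgd]
  have e1 : g * lamp D m δ = mk D σ (fun M t => δ' M t * lact (g M)
      ((Pi.mulSingle m δ : ∀ M, XX D M → Perm (WW D M)) M) t) := by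
    unfold lamp
    conv_lhs => rw [hgd]
    rw [mk_mul, mul_one]
    simp only [hgM]
  have e2 : lamp D m (lact (g m) δ) * g = mk D σ (fun M t =>
      (Pi.mulSingle m (lact (g m) δ) : ∀ M, XX D M → Perm (WW D M)) M t *
        lact (lamp D m (lact (g m) δ) M) (δ' M) t) := by
    conv_lhs =>
      rhs
      rw [hgd]
    unfold lamp
    rw [mk_mul, one_mul]
  rw [e1, e2]
  congr 1
  funext M t
  rcases lt_trichotomy M m with hM | hM | hM
  · rw [h170_ms_ne m _ M (by omega), h170_ms_ne m _ M (by omega), lact_pone, lamp_le m _ M hM.le, lact_one,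
      mul_one, one_mul]
  · subst hM
    rw [h170_ms_same, h170_ms_same, lamp_le M _ M le_rfl, lact_one, hδ' M le_rfl t, mul_one, one_mul]
  · have h1 : δ' M = fun _ => 1 := funext fun t => hδ' M hM.le t
    rw [h170_ms_ne m _ M (by omega), h170_ms_ne m _ M (by omega), lact_pone, h1, lact_pone]

theorem lampS_mul (m : ℕ) (t : XX D m) (π ρ : Perm (WW D m)) :
    lampS D m t π * lampS D m t ρ = lampS D m t (π * ρ) := by
  unfold lampS
  rw [lamp_mul]
  congr 1
  funext t'
  show (if t' = t then π else 1) * (if t' = t then ρ else 1) = if t' = t then π * ρ else 1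
  split_ifs
  · rfl
  · exact mul_one 1

theorem lampS_conj (m : ℕ) (g : Gam D) (hg : Can D m g) (t : XX D m) (π : Perm (WW D m)) :
    g * lampS D m t π * g⁻¹ = lampS D m (g m t) (gW (g m) * π * (gW (g m))⁻¹) := by
  unfold lampS
  rw [lamp_conj m g hg]
  congr 1
  funext t'
  unfold lact
  show gW (g m) * (if (g m)⁻¹ t' = t then π else 1) * (gW (g m))⁻¹ = _
  by_cases h : t' = g m t
  · have h2 : (g m)⁻¹ t' = t := by
      rw [h]
      exact (g m).symm_apply_apply t
    rw [if_pos h, if_pos h2]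
  · have h2 : ¬ (g m)⁻¹ t' = t := by
      intro h2
      apply h
      rw [← h2]
      exact ((g m).apply_symm_apply t').symm
    rw [if_neg h, if_neg h2, mul_one, mul_inv_cancel]


end IG
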