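import Mathlib
import Pool.Agent.Helper529.IG.PB2

open Classical Equiv

namespace IG

variable {D : ℕ → ℕ → SD}


theorem c1_fib {X : Type} {d : SD} (g : Perm X) (x : X) (π : Perm d.Y) :
    (gW g : Perm (W X d)) * kk (fibP x π) * (gW g)⁻¹ = kk (fibP (g x) π) := by
  rw [mul_inv_eq_iff_eq_mul]
  refine Equiv.ext ?_
  rintro ⟨⟨y, z⟩, k⟩
  show gW g (kk (fibP x π) ((y, z), k)) = kk (fibP (g x) π) (gW g ((y, z), k))
  by_cases h : y = x
  · subst h
    simp [gW, kk, lX, fibP]
  · have h2 : g y ≠ g x := fun e => h (g.injective e)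
    simp [gW, kk, lX, fibP, h]

theorem c1_sw {X : Type} {d : SD} (g : Perm X) (a b : X) :
    (gW g : Perm (W X d)) * kk (lX (sw a b)) * (gW g)⁻¹ = kk (lX (sw (g a) (g b))) := by
  rw [mul_inv_eq_iff_eq_mul]
  refine Equiv.ext ?_
  rintro ⟨⟨y, z⟩, k⟩
  show ((g (sw a b y), z), k) = ((sw (g a) (g b) (g y), z), k)
  have h : sw (g a) (g b) (g y) = g (sw a b y) := by
    unfold sw
    exact g.injective.swap_apply a b y
  rw [h]

theorem c1_ze {X : Type} {d : SD} (g : Perm X) (u : K → X) (c : K) :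
    (gW g : Perm (W X d)) * ze (fun k => (u k, d.mid)) c * (gW g)⁻¹ =
      ze (fun k => (g (u k), d.mid)) c := by
  rw [mul_inv_eq_iff_eq_mul]
  refine Equiv.ext ?_
  rintro ⟨⟨y, z⟩, k⟩
  show gW g (ze (fun k => (u k, d.mid)) c ((y, z), k)) =
    ze (fun k => (g (u k), d.mid)) c (gW g ((y, z), k))
  by_cases h : y = u k ∧ z = d.mid
  · obtain ⟨h1, h2⟩ := h
    subst h1 h2
    simp [gW, kk, lX, ze]
  · have h2 : ¬ (g y = g (u k) ∧ z = d.mid) := fun e => h ⟨g.injective e.1, e.2⟩
    have h3 : ¬ ((y, z) = (u k, d.mid)) := by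
      rw [Prod.mk.injEq]; exact h
    have h4 : ¬ ((g y, z) = (g (u k), d.mid)) := by
      rw [Prod.mk.injEq]; exact h2
    have e1 : ze (fun k => (u k, d.mid)) c ((y, z), k) = ((y, z), k) := if_neg h3
    have e2 : ze (fun k => (g (u k), d.mid)) c ((g y, z), k) = ((g y, z), k) := if_neg h4
    rw [e1, gW_apply]
    exact e2.symm

theorem dl_conj {X : Type} {d : SD} (g : Perm X) (s : Gen) (P : Pos X) :
    lact g (dl d s P) = dl d s (P.map g) := by
  funext t
  unfold lact
  cases s with
  | r ρ => simp [dl]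
  | a => exact c1_fib g P.o d.pa
  | v v => exact c1_fib g (P.s 0) (d.pv v)
  | x => exact c1_sw g (P.s 1) (P.s 2)
  | z c =>
    simp only [dl]
    by_cases h : t = g (P.s 0)
    · have h1 : g⁻¹ t = P.s 0 := by rw [h]; simp
      have h2 : t = (P.map g).s 0 := h
      rw [if_pos h1, if_pos h2]
      exact c1_ze g (fun k => P.s (ph k)) c
    · have h1 : ¬ (g⁻¹ t = P.s 0) := fun e => h (by rw [← e]; simp)
      have h2 : ¬ (t = (P.map g).s 0) := h
      rw [if_neg h1, if_neg h2]
      simp

theorem dl_agr {X : Type} {d : SD} (s : Gen) (P Q : Pos X) (h : Agr s P Q) :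
    dl d s P = dl d s Q := by
  funext t
  cases s with
  | r ρ => rfl
  | a =>
    have h' : P.o = Q.o := h
    simp only [dl, h']
  | v v =>
    have h' : P.s = Q.s := h
    simp only [dl, h']
  | x =>
    have h' : P.s = Q.s := h
    simp only [dl, h']
  | z c =>
    have h' : P.s = Q.s := h
    simp only [dl, h']

theorem nxt_map {X : Type} {d : SD} (g : Perm X) (P : Pos X) :
    (P.nxt d).map (wr g (fun _ => gW g)) = (P.map g).nxt d := rfl

theorem agr_refl {X : Type} (s : Gen) (P : Pos X) : Agr s P P := by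
  cases s <;> first | exact trivial | exact rfl

theorem agr_symm {X : Type} (s : Gen) (P Q : Pos X) (h : Agr s P Q) : Agr s Q P := by
  cases s with
  | r ρ => exact trivial
  | a => exact Eq.symm h
  | v v => exact Eq.symm h
  | x => exact Eq.symm h
  | z c => exact Eq.symm h

theorem agr_trans {X : Type} (s : Gen) (P Q R : Pos X) (h : Agr s P Q) (h' : Agr s Q R) :
    Agr s P R := by
  cases s with
  | r ρ => exact trivial
  | a => exact Eq.trans h h'
  | v v => exact Eq.trans h h'
  | x => exact Eq.trans h h'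
  | z c => exact Eq.trans h h'

theorem agr_map {X : Type} (s : Gen) (g : Perm X) (P Q : Pos X) (h : Agr s P Q) :
    Agr s (P.map g) (Q.map g) := by
  cases s with
  | r ρ => exact trivial
  | a => exact congrArg g h
  | v v =>
    have h' : P.s = Q.s := h
    show (fun k => g (P.s k)) = (fun k => g (Q.s k))
    rw [h']
  | x =>
    have h' : P.s = Q.s := h
    show (fun k => g (P.s k)) = (fun k => g (Q.s k))
    rw [h']
  | z c =>
    have h' : P.s = Q.s := h
    show (fun k => g (P.s k)) = (fun k => g (Q.s k))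
    rw [h']

theorem agr_nxt {X : Type} {d : SD} (s : Gen) (P Q : Pos X) (h : Agr s P Q) :
    Agr s (P.nxt d) (Q.nxt d) := by
  cases s with
  | r ρ => exact trivial
  | a =>
    have h' : P.o = Q.o := h
    show (fun _ => ((P.o, d.e0), (0 : K))) = (fun _ : X => ((Q.o, d.e0), (0 : K)))
    rw [h']
  | v v =>
    have h' : P.s = Q.s := h
    show (fun k _ => ((P.s 0, d.e1), k)) = (fun (k : K) (_ : X) => ((Q.s 0, d.e1), k))
    rw [h']
  | x =>
    have h' : P.s = Q.s := h
    show (fun k _ => ((P.s 0, d.e1), k)) = (fun (k : K) (_ : X) => ((Q.s 0, d.e1), k))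
    rw [h']
  | z c =>
    have h' : P.s = Q.s := h
    show (fun k _ => ((P.s 0, d.e1), k)) = (fun (k : K) (_ : X) => ((Q.s 0, d.e1), k))
    rw [h']


end IG
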