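import Mathlib
import Pool.Agent.Helper529.IG.PC1

open Classical Equiv

namespace IG

variable {D : ℕ → ℕ → SD}


/-- refined support of a lamp -/
def SuppH {X : Type} (s : Gen) (P : Pos X) : Set X :=
  match s with
  | Gen.r _ => ∅
  | Gen.a => {P.o}
  | Gen.v _ => {P.s 0}
  | Gen.x => {P.s 1, P.s 2}
  | Gen.z _ => {P.s 3, P.s 4}

theorem fibP_fix_h {X Y : Type} (x : X) (π : Perm Y) (p : X × Y) (h : p.1 ≠ x) : fibP x π p = p := by
  show (if p.1 = x then (p.1, π p.2) else p) = p
  rw [if_neg h]

theorem fibP_on_h {X Y : Type} (x : X) (π : Perm Y) (p : X × Y) (h : p.1 = x) :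
    fibP x π p = (p.1, π p.2) := by
  show (if p.1 = x then (p.1, π p.2) else p) = _
  rw [if_pos h]

theorem ze_on_h {Z : Type} (u : K → Z) (c : K) (p : Z × K) (h : p.1 = u p.2) :
    ze u c p = (u (kx c p.2), kx c p.2) := by
  show (if p.1 = u p.2 then _ else p) = _
  rw [if_pos h]

theorem ze_off_h {Z : Type} (u : K → Z) (c : K) (p : Z × K) (h : p.1 ≠ u p.2) :
    ze u c p = p := by
  show (if p.1 = u p.2 then _ else p) = _
  rw [if_neg h]

theorem suppH_sub {X : Type} (s : Gen) (P : Pos X) : SuppH s P ⊆ Rel s P := by
  intro y hy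
  cases s with
  | r ρ => exact hy
  | a => exact hy
  | v v => exact ⟨0, (Set.mem_singleton_iff.mp hy).symm⟩
  | x =>
    rcases hy with rfl | hy
    · exact ⟨1, rfl⟩
    · exact ⟨2, (Set.mem_singleton_iff.mp hy).symm⟩
  | z c =>
    rcases hy with rfl | hy
    · exact ⟨3, rfl⟩
    · exact ⟨4, (Set.mem_singleton_iff.mp hy).symm⟩

theorem dl_fix_h {X : Type} {d : SD} (s : Gen) (P : Pos X) (t : X) (p : W X d)
    (h : p.1.1 ∉ SuppH s P) : dl d s P t p = p := by
  cases s with
  | r ρ => rfl
  | a =>
    show (fibP P.o d.pa p.1, p.2) = p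
    rw [fibP_fix_h _ _ _ (fun e => h e)]
  | v v =>
    show (fibP (P.s 0) (d.pv v) p.1, p.2) = p
    rw [fibP_fix_h _ _ _ (fun e => h e)]
  | x =>
    show ((sw (P.s 1) (P.s 2) p.1.1, p.1.2), p.2) = p
    have h1 : sw (P.s 1) (P.s 2) p.1.1 = p.1.1 := by
      unfold sw
      exact Equiv.swap_apply_of_ne_of_ne (fun e => h (Or.inl e)) (fun e => h (Or.inr e))
    rw [h1]
  | z c =>
    show (if t = P.s 0 then ze (fun k => (P.s (ph k), d.mid)) c else 1) p = p
    split_ifs with ht
    · apply ze_off_h
      intro e
      apply h
      rw [e]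
      show P.s (ph p.2) ∈ ({P.s 3, P.s 4} : Set X)
      unfold ph
      split_ifs
      · exact Or.inr rfl
      · exact Or.inl rfl
    · rfl

theorem comm_of_supp_h {X : Type} {d : SD} (s s' : Gen) (P R : Pos X) (t : X)
    (h : Disjoint (SuppH s P) (SuppH s' R)) : Commute (dl d s P t) (dl d s' R t) := by
  apply Equiv.Perm.Disjoint.commute
  intro p
  by_cases hp : p.1.1 ∈ SuppH s P
  · right
    exact dl_fix_h s' R t p (fun h' => Set.disjoint_left.mp h hp h')
  · left
    exact dl_fix_h s P t p hp

theorem okp_comm {X : Type} {d : SD} (hd : d.Ok) (s s' : Gen) (P R : Pos X) (h : OKp s P s' R)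
    (t : X) : Commute (dl d s P t) (dl d s' R t) := by
  rcases h with h | ⟨rfl, rfl, ho⟩ | ⟨hs, hs', he, hinj⟩
  · exact comm_of_supp_h s s' P R t (Set.disjoint_of_subset (suppH_sub s P) (suppH_sub s' R) h)
  · have : dl d Gen.a P t = dl d Gen.a R t := by
      show kk (fibP P.o d.pa) = kk (fibP R.o d.pa)
      rw [ho]
    rw [this]
  · have hne : ∀ i j : K, i ≠ j → P.s i ≠ P.s j := fun i j hij h => hij (hinj h)
    cases s with
    | r ρ => exact Commute.one_left _
    | a => exact absurd rfl hs
    | v v =>
      cases s' with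
      | r ρ => exact Commute.one_right _
      | a => exact absurd rfl hs'
      | v v' =>
        show kk (fibP (P.s 0) (d.pv v)) * kk (fibP (R.s 0) (d.pv v')) =
          kk (fibP (R.s 0) (d.pv v')) * kk (fibP (P.s 0) (d.pv v))
        rw [← he]
        apply Equiv.ext
        intro p
        show (fibP (P.s 0) (d.pv v) (fibP (P.s 0) (d.pv v') p.1), p.2) =
          (fibP (P.s 0) (d.pv v') (fibP (P.s 0) (d.pv v) p.1), p.2)
        by_cases hp : p.1.1 = P.s 0
        · rw [fibP_on_h _ (d.pv v') p.1 hp, fibP_on_h _ (d.pv v) p.1 hp,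
            fibP_on_h _ _ (p.1.1, d.pv v' p.1.2) hp, fibP_on_h _ _ (p.1.1, d.pv v p.1.2) hp]
          have h1 := congrArg (fun π : Perm d.Y => π p.1.2) (hd.pv_comm v v')
          simp only [Equiv.Perm.mul_apply] at h1
          simp only [h1]
        · rw [fibP_fix_h _ (d.pv v') p.1 hp, fibP_fix_h _ (d.pv v) p.1 hp,
            fibP_fix_h _ (d.pv v') p.1 hp]
      | x =>
        apply comm_of_supp_h
        rw [Set.disjoint_left]
        intro y hy hy'
        change y = P.s 0 at hy
        change y = R.s 1 ∨ y = R.s 2 at hy'
        rw [← he, hy] at hy'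
        rcases hy' with h1 | h1
        · exact hne 0 1 (by decide) h1
        · exact hne 0 2 (by decide) h1
      | z c =>
        apply comm_of_supp_h
        rw [Set.disjoint_left]
        intro y hy hy'
        change y = P.s 0 at hy
        change y = R.s 3 ∨ y = R.s 4 at hy'
        rw [← he, hy] at hy'
        rcases hy' with h1 | h1
        · exact hne 0 3 (by decide) h1
        · exact hne 0 4 (by decide) h1
    | x =>
      cases s' with
      | r ρ => exact Commute.one_right _
      | a => exact absurd rfl hs'
      | v v' =>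
        apply comm_of_supp_h
        rw [Set.disjoint_left]
        intro y hy hy'
        change y = P.s 1 ∨ y = P.s 2 at hy
        change y = R.s 0 at hy'
        rw [← he] at hy'
        rw [hy'] at hy
        rcases hy with h1 | h1
        · exact hne 0 1 (by decide) h1
        · exact hne 0 2 (by decide) h1
      | x =>
        have : dl d Gen.x P t = dl d Gen.x R t := by
          show kk (lX (sw (P.s 1) (P.s 2))) = kk (lX (sw (R.s 1) (R.s 2)))
          rw [he]
        rw [this]
      | z c =>
        apply comm_of_supp_h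
        rw [Set.disjoint_left]
        intro y hy hy'
        change y = P.s 1 ∨ y = P.s 2 at hy
        change y = R.s 3 ∨ y = R.s 4 at hy'
        rw [← he] at hy'
        rcases hy with h1 | h1 <;> rcases hy' with h2 | h2
        · exact hne 1 3 (by decide) (h1.symm.trans h2)
        · exact hne 1 4 (by decide) (h1.symm.trans h2)
        · exact hne 2 3 (by decide) (h1.symm.trans h2)
        · exact hne 2 4 (by decide) (h1.symm.trans h2)
    | z c =>
      cases s' with
      | r ρ => exact Commute.one_right _
      | a => exact absurd rfl hs'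
      | v v' =>
        apply comm_of_supp_h
        rw [Set.disjoint_left]
        intro y hy hy'
        change y = P.s 3 ∨ y = P.s 4 at hy
        change y = R.s 0 at hy'
        rw [← he] at hy'
        rw [hy'] at hy
        rcases hy with h1 | h1
        · exact hne 0 3 (by decide) h1
        · exact hne 0 4 (by decide) h1
      | x =>
        apply comm_of_supp_h
        rw [Set.disjoint_left]
        intro y hy hy'
        change y = P.s 3 ∨ y = P.s 4 at hy
        change y = R.s 1 ∨ y = R.s 2 at hy'
        rw [← he] at hy'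
        rcases hy with h1 | h1 <;> rcases hy' with h2 | h2
        · exact hne 3 1 (by decide) (h1.symm.trans h2)
        · exact hne 3 2 (by decide) (h1.symm.trans h2)
        · exact hne 4 1 (by decide) (h1.symm.trans h2)
        · exact hne 4 2 (by decide) (h1.symm.trans h2)
      | z c' =>
        show (if t = P.s 0 then ze (fun k => (P.s (ph k), d.mid)) c else 1) *
          (if t = R.s 0 then ze (fun k => (R.s (ph k), d.mid)) c' else 1) =
          (if t = R.s 0 then ze (fun k => (R.s (ph k), d.mid)) c' else 1) *
          (if t = P.s 0 then ze (fun k => (P.s (ph k), d.mid)) c else 1)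
        rw [← he]
        split_ifs with ht
        · apply Equiv.ext
          intro p
          generalize (fun k : K => (P.s (ph k), d.mid)) = U
          rw [Equiv.Perm.mul_apply, Equiv.Perm.mul_apply]
          have hon : ∀ (c : K) (q : W X d), q.1 = U q.2 → ze U c q = (U (kx c q.2), kx c q.2) := by
            intro c q hq
            exact ze_on_h U c q hq
          have hoff : ∀ (c : K) (q : W X d), q.1 ≠ U q.2 → ze U c q = q := by
            intro c q hq
            exact ze_off_h U c q hq
          have hkk : ∀ (c c' k : K), kx c (kx c' k) = kx c' (kx c k) := by decide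
          by_cases hp : p.1 = U p.2
          · rw [hon c' p hp, hon c p hp, hon c _ rfl, hon c' _ rfl, hkk]
          · rw [hoff c' p hp, hoff c p hp, hoff c' p hp]
        · rfl


end IG
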