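import Mathlib
import Pool.Agent.Helper529.IG.PC2

open Classical Equiv

namespace IG

variable {D : ℕ → ℕ → SD}


theorem kk_ap {Z : Type} (π : Perm Z) (z : Z) (k : K) : kk π (z, k) = (π z, k) := rfl

theorem lX_ap {X Y : Type} (g : Perm X) (x : X) (y : Y) : lX g (x, y) = (g x, y) := rfl

theorem fibP_ap {X Y : Type} (x : X) (π : Perm Y) (p : X × Y) :
    fibP x π p = if p.1 = x then (p.1, π p.2) else p := rfl

theorem ze_ap {Z : Type} (u : K → Z) (c : K) (p : Z × K) :
    ze u c p = if p.1 = u p.2 then (u (kx c p.2), kx c p.2) else p := rfl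

theorem fibP_of_ne {X Y : Type} {x : X} (π : Perm Y) {z : X} {y : Y} (h : z ≠ x) :
    fibP x π (z, y) = (z, y) := by
  rw [fibP_ap, if_neg h]

theorem fibP_of_fix {X Y : Type} {x : X} (π : Perm Y) {z : X} {y : Y} (h : π y = y) :
    fibP x π (z, y) = (z, y) := by
  rw [fibP_ap]
  split_ifs
  · simp only [h]
  · rfl

theorem kk_sq {Z : Type} {π : Perm Z} (h : π * π = 1) : kk π * kk π = 1 := by
  ext1 p
  obtain ⟨z, k⟩ := p
  rw [Perm.mul_apply, kk_ap, kk_ap, ← Perm.mul_apply, h]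
  rfl

theorem fibP_sq {X Y : Type} (x : X) {π : Perm Y} (h : π * π = 1) : fibP x π * fibP x π = 1 := by
  have h' : ∀ y, π (π y) = y := fun y => by rw [← Perm.mul_apply, h]; rfl
  ext1 p
  obtain ⟨z, y⟩ := p
  by_cases hz : z = x
  · subst hz
    simp [fibP_ap, h']
  · simp [fibP_ap, hz]

theorem lX_sq {X Y : Type} {g : Perm X} (h : g * g = 1) : (lX g : Perm (X × Y)) * lX g = 1 := by
  ext1 p
  obtain ⟨z, y⟩ := p
  rw [Perm.mul_apply, lX_ap, lX_ap, ← Perm.mul_apply, h]
  rfl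

theorem sw_sq {Z : Type} (a b : Z) : sw a b * sw a b = 1 := by
  letI : DecidableEq Z := fun x y => propDecidable (x = y)
  exact Equiv.swap_mul_self a b

theorem sw_of_ne {Z : Type} {a b x : Z} (h1 : x ≠ a) (h2 : x ≠ b) : sw a b x = x := by
  letI : DecidableEq Z := fun x y => propDecidable (x = y)
  exact Equiv.swap_apply_of_ne_of_ne h1 h2

theorem kx_kx (c k : K) : kx c (kx c k) = k := by revert c k; decide

theorem ze_sq {Z : Type} (u : K → Z) (c : K) : ze u c * ze u c = 1 := by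
  ext1 p
  obtain ⟨z, k⟩ := p
  rw [Perm.mul_apply]
  by_cases hz : z = u k
  · subst hz
    simp [ze_ap, kx_kx]
  · simp [ze_ap, hz]

theorem ze_of_ne {Z : Type} {u : K → Z} {c : K} {z : Z} {k : K} (h : z ≠ u k) :
    ze u c (z, k) = (z, k) := by
  rw [ze_ap, if_neg h]

theorem dl_sq {X : Type} {d : SD} (hd : d.Ok) (s : Gen) (hs : ∀ ρ, s ≠ Gen.r ρ) (P : Pos X)
    (t : X) : dl d s P t * dl d s P t = 1 := by
  cases s with
  | r ρ => exact absurd rfl (hs ρ)
  | a => exact kk_sq (fibP_sq _ hd.pa_sq)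
  | v v => exact kk_sq (fibP_sq _ (hd.pv_sq v))
  | x => exact kk_sq (lX_sq (sw_sq _ _))
  | z c =>
    show (if t = P.s 0 then ze (fun k => (P.s (ph k), d.mid)) c else 1) *
      (if t = P.s 0 then ze (fun k => (P.s (ph k), d.mid)) c else 1) = 1
    split_ifs
    · exact ze_sq _ _
    · rfl

theorem isS_iff (s : Gen) : IsS s ↔ (∀ ρ, s ≠ Gen.r ρ) ∧ s ≠ Gen.a := by
  cases s <;> simp [IsS]

theorem rel_of_isS {X : Type} {s : Gen} (hs : IsS s) (P : Pos X) : Rel s P = Set.range P.s := by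
  cases s <;> first | rfl | exact False.elim hs

theorem fixV_of_isS {X : Type} {d : SD} {s : Gen} (hs : IsS s) (P : Pos X) (π : Perm (W X d)) :
    FixV d s P π ↔ ∀ k : K, π ((P.s 0, d.e1), k) = ((P.s 0, d.e1), k) := by
  cases s <;> first | exact Iff.rfl | exact False.elim hs

theorem agr_of_isS {X : Type} {s : Gen} (hs : IsS s) (P Q : Pos X) : Agr s P Q ↔ P.s = Q.s := by
  cases s <;> first | exact Iff.rfl | exact False.elim hs

theorem gen_cases (s : Gen) : (∃ ρ, s = Gen.r ρ) ∨ s = Gen.a ∨ IsS s := by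
  cases s with
  | r ρ => exact Or.inl ⟨ρ, rfl⟩
  | a => exact Or.inr (Or.inl rfl)
  | v v => exact Or.inr (Or.inr trivial)
  | x => exact Or.inr (Or.inr trivial)
  | z c => exact Or.inr (Or.inr trivial)

theorem isS_ne_a {s : Gen} (hs : IsS s) : s ≠ Gen.a := ((isS_iff s).1 hs).2

theorem okp_aS {X : Type} {s' : Gen} (hs' : IsS s') {P R : Pos X} (h : OKp Gen.a P s' R) (k : K) :
    R.s k ≠ P.o := by
  rcases h with h | h | h
  · rw [rel_of_isS hs'] at h
    intro he
    exact Set.disjoint_left.1 h (show P.o ∈ Rel Gen.a P from rfl) ⟨k, he⟩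
  · exact absurd h.2.1 (isS_ne_a hs')
  · exact absurd rfl h.1

theorem okp_Sa {X : Type} {s : Gen} (hs : IsS s) {P R : Pos X} (h : OKp s P Gen.a R) (k : K) :
    R.o ≠ P.s k := by
  rcases h with h | h | h
  · rw [rel_of_isS hs] at h
    intro he
    exact Set.disjoint_left.1 h ⟨k, he.symm⟩ (show R.o ∈ Rel Gen.a R from rfl)
  · exact absurd h.1 (isS_ne_a hs)
  · exact absurd rfl h.2.1

theorem okp_SS {X : Type} {s s' : Gen} (hs : IsS s) (hs' : IsS s') {P R : Pos X}
    (h : OKp s P s' R) (k l : K) (hkl : k ≠ l) : R.s k ≠ P.s l := by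
  rcases h with h | h | h
  · rw [rel_of_isS hs, rel_of_isS hs'] at h
    intro he
    exact Set.disjoint_left.1 h ⟨l, rfl⟩ ⟨k, he⟩
  · exact absurd h.1 (isS_ne_a hs)
  · intro he
    rw [← h.2.2.1] at he
    exact hkl (h.2.2.2 he)

theorem okp_fix {X : Type} {d : SD} (hd : d.Ok) (s s' : Gen) (P R : Pos X) (h : OKp s P s' R)
    (t : X) : FixV d s' R (dl d s P t) := by
  rcases gen_cases s' with ⟨ρ, rfl⟩ | rfl | hs'
  · trivial
  · show dl d s P t ((R.o, d.e0), 0) = ((R.o, d.e0), 0)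
    cases s with
    | r ρ => rfl
    | a =>
      show kk (fibP P.o d.pa) ((R.o, d.e0), 0) = ((R.o, d.e0), 0)
      rw [kk_ap, fibP_of_fix _ hd.pa_e0]
    | v v =>
      show kk (fibP (P.s 0) (d.pv v)) ((R.o, d.e0), 0) = ((R.o, d.e0), 0)
      rw [kk_ap, fibP_of_ne _ (okp_Sa (s := Gen.v v) trivial h 0)]
    | x =>
      show kk (lX (sw (P.s 1) (P.s 2))) ((R.o, d.e0), 0) = ((R.o, d.e0), 0)
      rw [kk_ap, lX_ap, sw_of_ne (okp_Sa (s := Gen.x) trivial h 1) (okp_Sa (s := Gen.x) trivial h 2)]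
    | z c =>
      show (if t = P.s 0 then ze (fun k => (P.s (ph k), d.mid)) c else 1) ((R.o, d.e0), 0) =
        ((R.o, d.e0), 0)
      split_ifs
      · exact ze_of_ne (fun he => hd.me0 (Prod.mk.inj he).2.symm)
      · rfl
  · rw [fixV_of_isS hs']
    intro k
    cases s with
    | r ρ => rfl
    | a =>
      show kk (fibP P.o d.pa) ((R.s 0, d.e1), k) = ((R.s 0, d.e1), k)
      rw [kk_ap, fibP_of_ne _ (okp_aS hs' h 0)]
    | v v =>
      show kk (fibP (P.s 0) (d.pv v)) ((R.s 0, d.e1), k) = ((R.s 0, d.e1), k)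
      rw [kk_ap, fibP_of_fix _ (hd.pv_e1 v)]
    | x =>
      show kk (lX (sw (P.s 1) (P.s 2))) ((R.s 0, d.e1), k) = ((R.s 0, d.e1), k)
      rw [kk_ap, lX_ap, sw_of_ne (okp_SS (s := Gen.x) trivial hs' h 0 1 (by decide))
        (okp_SS (s := Gen.x) trivial hs' h 0 2 (by decide))]
    | z c =>
      show (if t = P.s 0 then ze (fun k => (P.s (ph k), d.mid)) c else 1) ((R.s 0, d.e1), k) =
        ((R.s 0, d.e1), k)
      split_ifs
      · exact ze_of_ne (fun he => hd.me1 (Prod.mk.inj he).2.symm)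
      · rfl

theorem okp_symm {X : Type} (s s' : Gen) (P R : Pos X) (h : OKp s P s' R) : OKp s' R s P := by
  rcases h with h | h | h
  · exact Or.inl h.symm
  · exact Or.inr (Or.inl ⟨h.2.1, h.1, h.2.2.symm⟩)
  · exact Or.inr (Or.inr ⟨h.2.1, h.1, h.2.2.1.symm, h.2.2.1 ▸ h.2.2.2⟩)

theorem nxt_o {X : Type} {d : SD} (P : Pos X) : (P.nxt d).o = fun _ => ((P.o, d.e0), 0) := rfl

theorem nxt_s {X : Type} {d : SD} (P : Pos X) (k : K) :
    (P.nxt d).s k = fun _ => ((P.s 0, d.e1), k) := rfl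

theorem okp_nxt_aS {X : Type} {d : SD} (hd : d.Ok) (s' : Gen) (hs' : IsS s') (P R : Pos X) :
    OKp Gen.a (P.nxt d) s' (R.nxt d) := by
  left
  rw [rel_of_isS hs', Set.disjoint_left]
  rintro f hf ⟨k, hk⟩
  have hf' : f = (P.nxt d).o := hf
  rw [hf', nxt_o, nxt_s] at hk
  have h1 := congrFun hk P.o
  exact hd.e01 (Prod.mk.inj (Prod.mk.inj h1).1).2.symm

theorem okp_nxt {X : Type} {d : SD} (hd : d.Ok) (s s' : Gen) (P R : Pos X) :
    OKp s (P.nxt d) s' (R.nxt d) := by
  rcases gen_cases s with ⟨ρ, rfl⟩ | rfl | hs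
  · left
    show Disjoint (∅ : Set _) _
    exact disjoint_bot_left
  · rcases gen_cases s' with ⟨ρ, rfl⟩ | rfl | hs'
    · left
      show Disjoint _ (∅ : Set _)
      exact disjoint_bot_right
    · by_cases ho : P.o = R.o
      · right; left
        exact ⟨rfl, rfl, by rw [nxt_o, nxt_o, ho]⟩
      · left
        rw [Set.disjoint_left]
        intro f hf hf'
        have h1 : f = (P.nxt d).o := hf
        have h2 : f = (R.nxt d).o := hf'
        rw [h1, nxt_o, nxt_o] at h2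
        have h3 := congrFun h2 P.o
        exact ho (Prod.mk.inj (Prod.mk.inj h3).1).1
    · exact okp_nxt_aS hd s' hs' P R
  · rcases gen_cases s' with ⟨ρ, rfl⟩ | rfl | hs'
    · left
      show Disjoint _ (∅ : Set _)
      exact disjoint_bot_right
    · exact okp_symm _ _ _ _ (okp_nxt_aS hd s hs R P)
    · by_cases ho : P.s 0 = R.s 0
      · right; right
        refine ⟨isS_ne_a hs, isS_ne_a hs', ?_, ?_⟩
        · funext k
          rw [nxt_s, nxt_s, ho]
        · intro k l hkl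
          rw [nxt_s, nxt_s] at hkl
          exact (Prod.mk.inj (congrFun hkl P.o)).2
      · left
        rw [rel_of_isS hs, rel_of_isS hs', Set.disjoint_left]
        rintro f ⟨k, rfl⟩ ⟨l, hl⟩
        rw [nxt_s, nxt_s] at hl
        have h3 := congrFun hl P.o
        exact ho (Prod.mk.inj (Prod.mk.inj h3).1).1.symm

theorem rel_map {X : Type} (s : Gen) (g : Perm X) (P : Pos X) :
    Rel s (P.map g) = g '' Rel s P := by
  rcases gen_cases s with ⟨ρ, rfl⟩ | rfl | hs
  · show (∅ : Set X) = g '' ∅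
    rw [Set.image_empty]
  · show ({g P.o} : Set X) = g '' {P.o}
    rw [Set.image_singleton]
  · rw [rel_of_isS hs, rel_of_isS hs, ← Set.range_comp]
    rfl

theorem okp_map {X : Type} (s s' : Gen) (g : Perm X) (P R : Pos X) (h : OKp s P s' R) :
    OKp s (P.map g) s' (R.map g) := by
  rcases h with h | h | h
  · left
    rw [rel_map, rel_map]
    exact (Set.disjoint_image_iff g.injective).2 h
  · right; left
    exact ⟨h.1, h.2.1, congrArg g h.2.2⟩
  · right; right
    refine ⟨h.1, h.2.1, ?_, ?_⟩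
    · funext k
      exact congrArg g (congrFun h.2.2.1 k)
    · intro k l hkl
      exact h.2.2.2 (g.injective hkl)

theorem fixv_agr {X : Type} {d : SD} (s : Gen) (R : Pos X) (δ : X → Perm (W X d))
    (h : ∀ t, FixV d s R (δ t)) : Agr s ((R.nxt d).map (wr 1 δ)) (R.nxt d) := by
  rcases gen_cases s with ⟨ρ, rfl⟩ | rfl | hs
  · trivial
  · show wr 1 δ (R.nxt d).o = (R.nxt d).o
    funext t
    rw [wr_apply]
    exact h t
  · rw [agr_of_isS hs]
    funext k
    show wr 1 δ ((R.nxt d).s k) = (R.nxt d).s k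
    funext t
    rw [wr_apply]
    exact (fixV_of_isS hs _ _).1 (h t) k


end IG
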