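import Mathlib
import Pool.Agent.Helper529.IG.PC3

open Classical Equiv

namespace IG

variable {D : ℕ → ℕ → SD}


theorem seq_pos (m : ℕ) : Seq D m (fun M => (T D M).pos) := by
  intro M _
  rfl

theorem seq_map (m : ℕ) (g : Gam D) (hg : Can D m g) (Q : ∀ M, Pos (XX D M)) (hQ : Seq D m Q) :
    Seq D m (fun M => (Q M).map (g M)) := by
  intro M hM
  show (Q (M + 1)).map (g (M + 1)) = ((Q M).map (g M)).nxt (DD D M)
  rw [hQ M hM, can_succ m M hM g hg]
  exact nxt_map (g M) (Q M)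

theorem seq_mono (m m' : ℕ) (h : m ≤ m') (Q : ∀ M, Pos (XX D M)) (hQ : Seq D m Q) :
    Seq D m' Q := by
  intro M hM
  exact hQ M (h.trans hM)

theorem seq_agr (m : ℕ) (s : Gen) (Q R : ∀ M, Pos (XX D M)) (hQ : Seq D m Q) (hR : Seq D m R)
    (h : Agr s (Q m) (R m)) : ∀ M, m ≤ M → Agr s (Q M) (R M) := by
  intro M hM
  induction M, hM using Nat.le_induction with
  | base => exact h
  | succ M hM ih =>
    rw [hQ M hM, hR M hM]
    exact agr_nxt s (Q M) (R M) ih

theorem tq_conj (m : ℕ) (s : Gen) (g : Gam D) (hg : Can D m g) (Q : ∀ M, Pos (XX D M)) :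
    g * tq D m s Q * g⁻¹ = tq D m s (fun M => (Q M).map (g M)) := by
  rw [mul_inv_eq_iff_eq_mul]
  obtain ⟨σ, δ, hgm, hδ⟩ := hg
  have htriv : ∀ M ≤ m, tq D m s (fun M => (Q M).map (g M)) M = 1 := by
    intro M hM
    unfold tq
    refine mk_triv m _ ?_ M hM
    intro M' hM' t
    rw [if_neg (by omega)]
  have h1 : g * tq D m s Q = mk D (σ * 1) (fun M t => δ M t *
      lact (mk D σ δ M) (fun t => if m ≤ M then dl (DD D M) s (Q M) t else 1) t) := by
    rw [hgm]
    unfold tq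
    rw [mk_mul]
  have h2 : tq D m s (fun M => (Q M).map (g M)) * g = mk D (1 * σ) (fun M t =>
      (if m ≤ M then dl (DD D M) s ((Q M).map (g M)) t else 1) *
      lact (tq D m s (fun M => (Q M).map (g M)) M) (δ M) t) := by
    conv_lhs => rw [hgm]
    unfold tq
    rw [mk_mul, ← hgm]
  rw [h1, h2, mul_one, one_mul, ← hgm]
  congr 1
  funext M t
  by_cases hM : m ≤ M
  · have hδM : δ M = fun _ => 1 := funext fun t => hδ M hM t
    rw [hδM, lact_pone]
    simp only [if_pos hM, one_mul, mul_one]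
    exact congrFun (dl_conj (g M) s (Q M)) t
  · have hM' : M ≤ m := by omega
    rw [htriv M hM', lact_one]
    simp only [if_neg hM, one_mul]
    rw [lact_pone, mul_one]

theorem tq_agr (m : ℕ) (s : Gen) (Q R : ∀ M, Pos (XX D M)) (hQ : Seq D m Q) (hR : Seq D m R)
    (h : Agr s (Q m) (R m)) : tq D m s Q = tq D m s R := by
  unfold tq
  congr 1
  funext M t
  by_cases hM : m ≤ M
  · rw [if_pos hM, if_pos hM, dl_agr s (Q M) (R M) (seq_agr m s Q R hQ hR h M hM)]
  · rw [if_neg hM, if_neg hM]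

theorem can_fix (m : ℕ) (g : Gam D) (hg : Can D m g) (s : Gen) (R : ∀ M, Pos (XX D M))
    (hR : Seq D m R) (h : Agr s ((R m).map (g m)) (R m)) :
    ∀ M, m ≤ M → Agr s ((R M).map (g M)) (R M) :=
  seq_agr m s (fun M => (R M).map (g M)) R (seq_map m g hg R hR) hR h

theorem can_comm_tq (m : ℕ) (g : Gam D) (hg : Can D m g) (s : Gen) (R : ∀ M, Pos (XX D M))
    (hR : Seq D m R) (h : Agr s ((R m).map (g m)) (R m)) : Commute g (tq D m s R) := by
  have h1 := tq_conj m s g hg R
  rw [tq_agr m s (fun M => (R M).map (g M)) R (seq_map m g hg R hR) hR h,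
    mul_inv_eq_iff_eq_mul] at h1
  exact h1


end IG
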