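import Mathlib
import Pool.Agent.Helper529.IG.PD1

open Classical Equiv

namespace IG

variable {D : ℕ → ℕ → SD}


theorem pos_map_one {X : Type} (P : Pos X) : P.map (1 : Perm X) = P := by
  cases P
  rfl

theorem agr_wr {X : Type} {d : SD} (s : Gen) (R : Pos X) (g : Perm X) (δ : X → Perm (W X d))
    (h1 : Agr s (R.map g) R) (h2 : ∀ t, FixV d s R (δ t)) :
    Agr s ((R.nxt d).map (wr g (fun t => δ t * gW g))) (R.nxt d) := by
  have key : ∀ k : K, g (R.s 0) = R.s 0 → (∀ t, ∀ k : K, δ t ((R.s 0, d.e1), k) = ((R.s 0, d.e1), k)) →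
      wr g (fun t => δ t * gW g) (fun _ => ((R.s 0, d.e1), k)) = fun _ => ((R.s 0, d.e1), k) := by
    intro k hg hf
    funext t
    rw [wr_apply, Perm.mul_apply, gW_apply]
    simp only [hg]
    exact hf t k
  have keyo : g R.o = R.o → (∀ t, δ t ((R.o, d.e0), 0) = ((R.o, d.e0), 0)) →
      wr g (fun t => δ t * gW g) (fun _ => ((R.o, d.e0), 0)) = fun _ => ((R.o, d.e0), 0) := by
    intro hg hf
    funext t
    rw [wr_apply, Perm.mul_apply, gW_apply]
    simp only [hg]
    exact hf t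
  cases s with
  | r ρ => trivial
  | a =>
    exact keyo h1 h2
  | v w =>
    funext k
    exact key k (congrFun h1 0) h2
  | x =>
    funext k
    exact key k (congrFun h1 0) h2
  | z c =>
    funext k
    exact key k (congrFun h1 0) h2

theorem tq_fix (hD : ∀ M n, (D M n).Ok) (m : ℕ) (s s' : Gen) (Q R : ∀ M, Pos (XX D M))
    (hQ : Seq D m Q) (hR : Seq D m R) (h : OKp s (Q m) s' (R m)) :
    ∀ M, m ≤ M → Agr s' ((R M).map (tq D m s Q M)) (R M) ∧ OKp s (Q M) s' (R M) := by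
  intro M hM
  induction M, hM using Nat.le_induction with
  | base =>
    refine ⟨?_, h⟩
    have h1 : tq D m s Q m = 1 := by
      apply mk_triv m _ _ m le_rfl
      intro M hM t
      rw [if_neg (by omega)]
    rw [h1, pos_map_one]
    exact agr_refl _ _
  | succ M hM ih =>
    have e1 : tq D m s Q (M + 1) =
        wr (tq D m s Q M) (fun t => dl (DD D M) s (Q M) t * gW (tq D m s Q M)) := by
      show mk D 1 _ (M + 1) = _
      rw [mk_succ]
      simp only [if_pos hM]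
      rfl
    rw [hQ M hM, hR M hM, e1]
    refine ⟨?_, okp_nxt (hD _ _) s s' (Q M) (R M)⟩
    exact agr_wr s' (R M) (tq D m s Q M) (dl (DD D M) s (Q M)) ih.1
      (okp_fix (hD _ _) s s' (Q M) (R M) ih.2)

theorem lact_dl_fix (hD : ∀ M n, (D M n).Ok) (m : ℕ) (s s' : Gen) (Q R : ∀ M, Pos (XX D M))
    (hQ : Seq D m Q) (hR : Seq D m R) (h : OKp s (Q m) s' (R m)) (M : ℕ) (hM : m ≤ M) :
    lact (tq D m s Q M) (dl (DD D M) s' (R M)) = dl (DD D M) s' (R M) := by
  rw [dl_conj]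
  exact dl_agr s' _ _ (tq_fix hD m s s' Q R hQ hR h M hM).1

theorem tq_comm (hD : ∀ M n, (D M n).Ok) (m : ℕ) (s s' : Gen) (Q R : ∀ M, Pos (XX D M))
    (hQ : Seq D m Q) (hR : Seq D m R) (h : OKp s (Q m) s' (R m)) :
    Commute (tq D m s Q) (tq D m s' R) := by
  have e1 : tq D m s Q * tq D m s' R = mk D (1 * 1) _ := mk_mul _ _ _ _
  have e2 : tq D m s' R * tq D m s Q = mk D (1 * 1) _ := mk_mul _ _ _ _
  show tq D m s Q * tq D m s' R = tq D m s' R * tq D m s Q
  rw [e1, e2]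
  congr 1
  funext M t
  by_cases hM : m ≤ M
  · simp only [if_pos hM]
    have h1 := lact_dl_fix hD m s s' Q R hQ hR h M hM
    have h2 := lact_dl_fix hD m s' s R Q hR hQ (okp_symm _ _ _ _ h) M hM
    have h1' := congrFun h1 t
    have h2' := congrFun h2 t
    have hc := okp_comm (d := DD D M) (hD _ _) s s' (Q M) (R M)
      (tq_fix hD m s s' Q R hQ hR h M hM).2 t
    calc dl (DD D M) s (Q M) t * lact (tq D m s Q M) (dl (DD D M) s' (R M)) t
        = dl (DD D M) s (Q M) t * dl (DD D M) s' (R M) t := by rw [h1']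
      _ = dl (DD D M) s' (R M) t * dl (DD D M) s (Q M) t := hc
      _ = dl (DD D M) s' (R M) t * lact (tq D m s' R M) (dl (DD D M) s (Q M)) t := by rw [h2']
  · simp only [if_neg hM]
    have a1 := congrFun (lact_pone (d := DD D M) (tq D m s Q M)) t
    have a2 := congrFun (lact_pone (d := DD D M) (tq D m s' R M)) t
    calc (1 : Perm (WW D M)) * lact (tq D m s Q M) (fun _ => 1) t
        = 1 * 1 := by rw [a1]
      _ = 1 * lact (tq D m s' R M) (fun _ => 1) t := by rw [a2]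

theorem tq_sq (hD : ∀ M n, (D M n).Ok) (m : ℕ) (s : Gen) (hs : ∀ ρ, s ≠ Gen.r ρ)
    (Q : ∀ M, Pos (XX D M)) (hQ : Seq D m Q) (h : OKp s (Q m) s (Q m)) :
    tq D m s Q * tq D m s Q = 1 := by
  have e1 : tq D m s Q * tq D m s Q = mk D (1 * 1) _ := mk_mul _ _ _ _
  rw [e1, mul_one, ← mk_one]
  congr 1
  funext M t
  by_cases hM : m ≤ M
  · simp only [if_pos hM]
    have h1 := congrFun (lact_dl_fix hD m s s Q Q hQ hQ h M hM) t
    calc dl (DD D M) s (Q M) t * lact (tq D m s Q M) (dl (DD D M) s (Q M)) t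
        = dl (DD D M) s (Q M) t * dl (DD D M) s (Q M) t := by rw [h1]
      _ = 1 := dl_sq (hD _ _) s hs (Q M) t
  · simp only [if_neg hM]
    have a1 := congrFun (lact_pone (d := DD D M) (tq D m s Q M)) t
    calc (1 : Perm (WW D M)) * lact (tq D m s Q M) (fun _ => 1) t
        = 1 * 1 := by rw [a1]
      _ = 1 := one_mul 1

theorem lamp_agr (m : ℕ) (δ : XX D m → Perm (WW D m)) (s : Gen) (R : ∀ M, Pos (XX D M))
    (hR : Seq D m R) (h : ∀ t, FixV (DD D m) s (R m) (δ t)) :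
    Agr s ((R (m + 1)).map (lamp D m δ (m + 1))) (R (m + 1)) := by
  rw [lamp_at, hR m le_rfl]
  exact fixv_agr s (R m) δ h

theorem tq_step (hD : ∀ M n, (D M n).Ok) (m : ℕ) (s : Gen) (Q : ∀ M, Pos (XX D M))
    (hQ : Seq D m Q) (h : OKp s (Q m) s (Q m)) :
    tq D m s Q = lamp D m (dl (DD D m) s (Q m)) * tq D (m + 1) s Q := by
  have e1 : lamp D m (dl (DD D m) s (Q m)) * tq D (m + 1) s Q = mk D (1 * 1) _ :=
    mk_mul _ _ _ _
  have hfix : ∀ t, FixV (DD D m) s (Q m) (dl (DD D m) s (Q m) t) :=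
    okp_fix (hD _ _) s s (Q m) (Q m) h
  have hag := lamp_agr m (dl (DD D m) s (Q m)) s Q hQ hfix
  rw [e1, mul_one]
  show mk D 1 _ = mk D 1 _
  congr 1
  funext M t
  rcases lt_trichotomy M m with hM | hM | hM
  · have n1 : ¬ m ≤ M := by omega
    have n2 : ¬ m + 1 ≤ M := by omega
    simp only [if_neg n1, if_neg n2, Pi.mulSingle_eq_of_ne (ne_of_lt hM), Pi.one_apply]
    have a1 := congrFun (lact_pone (d := DD D M)
      (mk D 1 (Pi.mulSingle m (dl (DD D m) s (Q m))) M)) t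
    calc (1 : Perm (WW D M)) = 1 * 1 := (one_mul 1).symm
      _ = 1 * lact (mk D 1 (Pi.mulSingle m (dl (DD D m) s (Q m))) M) (fun _ => 1) t := by
        rw [a1]
  · subst hM
    have n2 : ¬ M + 1 ≤ M := by omega
    simp only [if_pos le_rfl, if_neg n2, Pi.mulSingle_eq_same]
    have a1 := congrFun (lact_pone (d := DD D M)
      (mk D 1 (Pi.mulSingle M (dl (DD D M) s (Q M))) M)) t
    calc dl (DD D M) s (Q M) t = dl (DD D M) s (Q M) t * 1 := (mul_one _).symm
      _ = dl (DD D M) s (Q M) t *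
          lact (mk D 1 (Pi.mulSingle M (dl (DD D M) s (Q M))) M) (fun _ => 1) t := by
        rw [a1]
  · have n1 : m ≤ M := by omega
    have n2 : m + 1 ≤ M := by omega
    simp only [if_pos n1, if_pos n2, Pi.mulSingle_eq_of_ne (ne_of_gt hM), Pi.one_apply, one_mul]
    have hag2 := can_fix (m + 1) _ (lamp_can m (dl (DD D m) s (Q m))) s Q
      (seq_mono m (m + 1) (Nat.le_succ m) Q hQ) hag M n2
    have e2 : lact (lamp D m (dl (DD D m) s (Q m)) M) (dl (DD D M) s (Q M)) =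
        dl (DD D M) s (Q M) := by
      rw [dl_conj]
      exact dl_agr s _ _ hag2
    exact (congrFun e2 t).symm

theorem lamp_comm_tq (m : ℕ) (δ : XX D m → Perm (WW D m)) (s : Gen) (R : ∀ M, Pos (XX D M))
    (hR : Seq D m R) (h : ∀ t, FixV (DD D m) s (R m) (δ t)) :
    Commute (lamp D m δ) (tq D (m + 1) s R) :=
  can_comm_tq (m + 1) _ (lamp_can m δ) s R (seq_mono m (m + 1) (Nat.le_succ m) R hR)
    (lamp_agr m δ s R hR h)


end IG
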