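import Mathlib
import Pool.Agent.Helper529.IG.PD2

open Classical Equiv

namespace IG

variable {D : ℕ → ℕ → SD}


theorem fin_W396 {X : Type} [Finite X] {d : SD} (hd : d.Ok) : Finite (W X d) := by
  have := hd.fin
  unfold W
  infer_instance

theorem fin_XX (hD : ∀ M n, (D M n).Ok) (M : ℕ) : Finite (XX D M) := by
  induction M with
  | zero => exact (inferInstance : Finite (Option K))
  | succ M ih =>
    have h1 : Finite (W (XX D M) (DD D M)) := fin_W396 (hD _ _)
    have : Finite (XX D M → W (XX D M) (DD D M)) := inferInstance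
    exact this

theorem pos_inj (hD : ∀ M n, (D M n).Ok) (M : ℕ) :
    Function.Injective (T D M).pos.s ∧ ∀ k, (T D M).pos.o ≠ (T D M).pos.s k := by
  cases M with
  | zero =>
    constructor
    · intro a b h
      exact Option.some_injective _ h
    · intro k h
      have h' : (none : Option K) = some k := h
      cases h'
  | succ M =>
    constructor
    · intro a b h
      have h1 : (fun _ : XX D M => (((T D M).pos.s 0, (DD D M).e1), a)) =
          (fun _ => (((T D M).pos.s 0, (DD D M).e1), b)) := h
      have h2 := congrFun h1 (T D M).pos.o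
      exact congrArg Prod.snd h2
    · intro k h
      have h1 : (fun _ : XX D M => (((T D M).pos.o, (DD D M).e0), (0 : K))) =
          (fun _ => (((T D M).pos.s 0, (DD D M).e1), k)) := h
      have h2 := congrFun h1 (T D M).pos.o
      have h3 : (DD D M).e0 = (DD D M).e1 := congrArg (fun p => p.1.2) h2
      exact (hD _ _).e01 h3

theorem okp_pos (hD : ∀ M n, (D M n).Ok) (s s' : Gen) (M : ℕ) :
    OKp s (T D M).pos s' (T D M).pos := by
  obtain ⟨h1, h2⟩ := pos_inj hD M
  have hao : Disjoint ({(T D M).pos.o} : Set (T D M).X) (Set.range (T D M).pos.s) := by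
    rw [Set.disjoint_singleton_left]
    rintro ⟨k, hk⟩
    exact h2 k hk.symm
  have hoa := hao.symm
  unfold OKp
  cases s <;> cases s' <;>
    first
    | exact Or.inl (Set.empty_disjoint _)
    | exact Or.inl (Set.disjoint_empty _)
    | exact Or.inr (Or.inl ⟨rfl, rfl, rfl⟩)
    | exact Or.inl hao
    | exact Or.inl hoa
    | exact Or.inr (Or.inr ⟨by simp, by simp, rfl, h1⟩)

theorem pos_fix (hD : ∀ M n, (D M n).Ok) (s : Gen) (M : ℕ) :
    Agr s ((T D M).pos.map ((T D M).root s)) (T D M).pos := by
  induction M with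
  | zero =>
    cases s with
    | r ρ => trivial
    | a => rfl
    | v v => rfl
    | x => rfl
    | z c => rfl
  | succ M ih =>
    have hfix := fun t => okp_fix (hD M (Nat.card (T D M).X)) s s (T D M).pos (T D M).pos (okp_pos hD s s M) t
    cases s with
    | r ρ => trivial
    | a =>
      have ih' : (T D M).root Gen.a (T D M).pos.o = (T D M).pos.o := ih
      show (wr ((T D M).root Gen.a) (fun t => dl (DD D M) Gen.a (T D M).pos t *
        gW ((T D M).root Gen.a))) (fun _ => (((T D M).pos.o, (DD D M).e0), (0 : K))) =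
        (fun _ => (((T D M).pos.o, (DD D M).e0), (0 : K)))
      funext t
      rw [wr_apply, Equiv.Perm.mul_apply, gW_apply]
      simp only
      rw [ih']
      exact hfix t
    | v v =>
      have ih' : (fun k => (T D M).root (Gen.v v) ((T D M).pos.s k)) = (T D M).pos.s := ih
      show (fun k : K => (wr ((T D M).root (Gen.v v)) (fun t => dl (DD D M) (Gen.v v) (T D M).pos t *
        gW ((T D M).root (Gen.v v)))) (fun _ => (((T D M).pos.s 0, (DD D M).e1), k))) =
        (fun k _ => (((T D M).pos.s 0, (DD D M).e1), k))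
      funext k t
      rw [wr_apply, Equiv.Perm.mul_apply, gW_apply]
      simp only
      rw [show (T D M).root (Gen.v v) ((T D M).pos.s 0) = (T D M).pos.s 0 from congrFun ih' 0]
      exact hfix t k
    | x =>
      have ih' : (fun k => (T D M).root Gen.x ((T D M).pos.s k)) = (T D M).pos.s := ih
      show (fun k : K => (wr ((T D M).root Gen.x) (fun t => dl (DD D M) Gen.x (T D M).pos t *
        gW ((T D M).root Gen.x))) (fun _ => (((T D M).pos.s 0, (DD D M).e1), k))) =
        (fun k _ => (((T D M).pos.s 0, (DD D M).e1), k))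
      funext k t
      rw [wr_apply, Equiv.Perm.mul_apply, gW_apply]
      simp only
      rw [show (T D M).root Gen.x ((T D M).pos.s 0) = (T D M).pos.s 0 from congrFun ih' 0]
      exact hfix t k
    | z c =>
      have ih' : (fun k => (T D M).root (Gen.z c) ((T D M).pos.s k)) = (T D M).pos.s := ih
      show (fun k : K => (wr ((T D M).root (Gen.z c)) (fun t => dl (DD D M) (Gen.z c) (T D M).pos t *
        gW ((T D M).root (Gen.z c)))) (fun _ => (((T D M).pos.s 0, (DD D M).e1), k))) =
        (fun k _ => (((T D M).pos.s 0, (DD D M).e1), k))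
      funext k t
      rw [wr_apply, Equiv.Perm.mul_apply, gW_apply]
      simp only
      rw [show (T D M).root (Gen.z c) ((T D M).pos.s 0) = (T D M).pos.s 0 from congrFun ih' 0]
      exact hfix t k

theorem card_W396 {X : Type} [Finite X] {d : SD} (hd : d.Ok) :
    Nat.card (W X d) = Nat.card X * Nat.card d.Y * 8 := by
  have := hd.fin
  unfold W
  rw [Nat.card_prod, Nat.card_prod, Nat.card_eq_fintype_card (α := K), Fintype.card_fin]

theorem card_Y396 {d : SD} (hd : d.Ok) : 1 ≤ Nat.card d.Y := by
  have := hd.fin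
  have : Nonempty d.Y := ⟨d.e0⟩
  exact Nat.card_pos

theorem card_XX (hD : ∀ M n, (D M n).Ok) (M : ℕ) : M + 9 ≤ Nat.card (XX D M) := by
  induction M with
  | zero =>
    have h : Nat.card (Option K) = 9 := by
      rw [Nat.card_eq_fintype_card, Fintype.card_option, Fintype.card_fin]
    show 0 + 9 ≤ Nat.card (Option K)
    rw [h]
  | succ M ih =>
    have := fin_XX hD M
    have hY := card_Y396 (hD M (Nat.card (XX D M)))
    have hW := card_W396 (X := XX D M) (hD M (Nat.card (XX D M)))
    have h2 : Nat.card (XX D (M + 1)) = Nat.card (W (XX D M) (DD D M)) ^ Nat.card (XX D M) :=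
      Nat.card_fun
    rw [h2]
    have h3 : 2 ≤ Nat.card (W (XX D M) (DD D M)) := by
      rw [hW]
      nlinarith
    calc M + 1 + 9 ≤ Nat.card (XX D M) + 1 := by omega
      _ ≤ 2 ^ Nat.card (XX D M) := Nat.lt_two_pow_self
      _ ≤ Nat.card (W (XX D M) (DD D M)) ^ Nat.card (XX D M) := Nat.pow_le_pow_left h3 _

theorem card_WW (hD : ∀ M n, (D M n).Ok) (M : ℕ) : M + 9 ≤ Nat.card (WW D M) := by
  have := fin_XX hD M
  have hY := card_Y396 (hD M (Nat.card (XX D M)))
  have hW := card_W396 (X := XX D M) (hD M (Nat.card (XX D M)))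
  have hX := card_XX hD M
  show M + 9 ≤ Nat.card (W (XX D M) (DD D M))
  rw [hW]
  nlinarith

theorem fin_WW (hD : ∀ M n, (D M n).Ok) (M : ℕ) : Finite (WW D M) := by
  have := fin_XX hD M
  exact fin_W396 (hD _ _)


end IG
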