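import Mathlib
import Pool.Agent.Helper529.IG.PE1

open Classical Equiv

namespace IG

variable {D : ℕ → ℕ → SD}


theorem E_can (m : ℕ) (s : Gen) : Can D m (E D m s) := by
  refine ⟨r0 s, _, rfl, ?_⟩
  intro M hM t
  simp [Nat.not_lt.mpr hM]

theorem E_le (m : ℕ) (s : Gen) (M : ℕ) (h : M ≤ m) : E D m s M = Phi D s M := by
  rw [Phi_eq]
  unfold E
  induction M with
  | zero => rw [mk_zero, mk_zero]
  | succ M ih =>
    have hM : M < m := h
    rw [mk_succ, mk_succ, ih hM.le]
    congr 1
    funext t
    rw [if_pos hM]

theorem Phi_split (hD : ∀ M n, (D M n).Ok) (m : ℕ) (s : Gen) :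
    Phi D s = E D m s * tl D m s := by
  have key : ∀ M, m ≤ M → Agr s ((T D M).pos.map (E D m s M)) (T D M).pos := by
    apply can_fix m (E D m s) (E_can m s) s (fun M => (T D M).pos) (seq_pos m)
    show Agr s ((T D m).pos.map (E D m s m)) (T D m).pos
    rw [E_le m s m le_rfl]
    exact pos_fix hD s m
  rw [Phi_eq]
  have h1 : E D m s * tl D m s = mk D (r0 s * 1) (fun M t =>
      (if M < m then dl (DD D M) s (T D M).pos t else 1) *
        lact (E D m s M) (fun t => if m ≤ M then dl (DD D M) s (T D M).pos t else 1) t) := by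
    unfold tl
    conv_lhs => unfold E
    rw [mk_mul]
    rfl
  rw [h1, mul_one]
  congr 1
  funext M t
  by_cases hM : M < m
  · have hM' : ¬ m ≤ M := Nat.not_le.mpr hM
    simp only [hM, hM', if_true, if_false]
    rw [lact_pone, mul_one]
  · have hM' : m ≤ M := Nat.not_lt.mp hM
    simp only [hM, hM', if_true, if_false]
    have h2 : lact (E D m s M) (fun t => dl (DD D M) s (T D M).pos t) =
        dl (DD D M) s (T D M).pos := by
      have h3 := dl_conj (d := DD D M) (E D m s M) s (T D M).pos
      have h4 := dl_agr (d := DD D M) s _ _ (key M hM')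
      exact h3.trans h4
    rw [h2, one_mul]

theorem EE_can (m : ℕ) (l : List Gen) : Can D m (EE D m l) := by
  induction l with
  | nil => exact can_one m
  | cons s l ih => exact can_mul m _ _ (E_can m s) ih

theorem EE_le (m : ℕ) (l : List Gen) (M : ℕ) (h : M ≤ m) : EE D m l M = ev D l M := by
  induction l with
  | nil => rfl
  | cons s l ih =>
    show E D m s M * EE D m l M = Phi D s M * ev D l M
    rw [ih, E_le m s M h]

theorem ev_split (hD : ∀ M n, (D M n).Ok) (m : ℕ) (l : List Gen) :
    ev D l = EE D m l * Th D m l := by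
  induction l with
  | nil => exact (mul_one (1 : Gam D)).symm
  | cons s l ih =>
    show Phi D s * ev D l = (E D m s * EE D m l) *
      ((EE D m l)⁻¹ * tl D m s * EE D m l * Th D m l)
    rw [ih, Phi_split hD m s]
    group

theorem ev_append (l l' : List Gen) : ev D (l ++ l') = ev D l * ev D l' := by
  induction l with
  | nil => exact (one_mul _).symm
  | cons s l ih =>
    show Phi D s * ev D (l ++ l') = (Phi D s * ev D l) * ev D l'
    rw [ih, mul_assoc]


end IG
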