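import Mathlib
import Pool.Agent.Helper529.IG.PE2

open Classical Equiv

namespace IG

variable {D : ℕ → ℕ → SD}


theorem r0_one (s : Gen) (hs : ∀ ρ, s ≠ Gen.r ρ) : r0 s = 1 := by
  cases s with
  | r ρ => exact absurd rfl (hs ρ)
  | a => rfl
  | v _ => rfl
  | x => rfl
  | z _ => rfl

theorem Phi_r (ρ : Perm (Option K)) : Phi D (Gen.r ρ) = mk D ρ (fun _ _ => 1) := by
  rw [Phi_eq]
  rfl

theorem Phi_sq (hD : ∀ M n, (D M n).Ok) (s : Gen) (hs : ∀ ρ, s ≠ Gen.r ρ) :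
    Phi D s * Phi D s = 1 := by
  have h1 : E D 0 s = 1 := by
    unfold E
    rw [r0_one s hs, ← mk_one]
    congr 1
  rw [Phi_split hD 0 s, h1, one_mul, tl_eq]
  exact tq_sq hD 0 s hs _ (seq_pos 0) (okp_pos hD s s 0)

theorem Phi_r_inv (ρ : Perm (Option K)) : (Phi D (Gen.r ρ))⁻¹ = Phi D (Gen.r ρ⁻¹) := by
  apply inv_eq_of_mul_eq_one_right
  rw [Phi_r, Phi_r, mk_mul, mul_inv_cancel, ← mk_one]
  congr 1
  funext M t
  rw [lact_pone, one_mul]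

theorem Phi_inv (hD : ∀ M n, (D M n).Ok) (s : Gen) : ∃ s', (Phi D s)⁻¹ = Phi D s' := by
  by_cases h : ∃ ρ, s = Gen.r ρ
  · obtain ⟨ρ, rfl⟩ := h
    exact ⟨_, Phi_r_inv ρ⟩
  · refine ⟨s, ?_⟩
    apply inv_eq_of_mul_eq_one_right
    exact Phi_sq hD s (fun ρ h' => h ⟨ρ, h'⟩)

theorem ev_inv (hD : ∀ M n, (D M n).Ok) (l : List Gen) : ∃ l', ev D l' = (ev D l)⁻¹ := by
  induction l with
  | nil => exact ⟨[], by show (1 : Gam D) = (1 : Gam D)⁻¹; rw [inv_one]⟩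
  | cons s l ih =>
    obtain ⟨l', hl'⟩ := ih
    obtain ⟨s', hs'⟩ := Phi_inv hD s
    refine ⟨l' ++ [s'], ?_⟩
    rw [ev_append, hl']
    show (ev D l)⁻¹ * (Phi D s' * 1) = (Phi D s * ev D l)⁻¹
    rw [mul_one, ← hs', mul_inv_rev]

theorem GG_iff (hD : ∀ M n, (D M n).Ok) (g : Gam D) : g ∈ GG D ↔ ∃ l, ev D l = g := by
  constructor
  · intro hg
    unfold GG at hg
    induction hg using Subgroup.closure_induction with
    | mem x hx =>
      obtain ⟨s, rfl⟩ := hx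
      refine ⟨[s], ?_⟩
      show Phi D s * 1 = Phi D s
      rw [mul_one]
    | one => exact ⟨[], rfl⟩
    | mul x y _ _ hx hy =>
      obtain ⟨l, rfl⟩ := hx
      obtain ⟨l', rfl⟩ := hy
      exact ⟨l ++ l', ev_append l l'⟩
    | inv x _ hx =>
      obtain ⟨l, rfl⟩ := hx
      exact ev_inv hD l
  · rintro ⟨l, rfl⟩
    induction l with
    | nil => exact (GG D).one_mem
    | cons s l ih => exact (GG D).mul_mem (Subgroup.subset_closure ⟨s, rfl⟩) ih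

theorem GG_mk (hD : ∀ M n, (D M n).Ok) (g : Gam D) (hg : g ∈ GG D) : ∃ σ δ, g = mk D σ δ := by
  obtain ⟨l, rfl⟩ := (GG_iff hD g).1 hg
  induction l with
  | nil => exact ⟨1, fun _ _ => 1, mk_one.symm⟩
  | cons s l ih =>
    obtain ⟨σ, δ, h⟩ := ih ((GG_iff hD _).2 ⟨l, rfl⟩)
    refine ⟨r0 s * σ, fun M t => dl (DD D M) s (T D M).pos t *
        lact (mk D (r0 s) (fun M t => dl (DD D M) s (T D M).pos t) M) (δ M) t, ?_⟩
    show Phi D s * ev D l = _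
    rw [h, Phi_eq, mk_mul]


end IG
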