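import Mathlib
import Pool.Agent.Helper529.IG.PE3

open Classical Equiv

namespace IG

variable {D : ℕ → ℕ → SD}


theorem sw_eq {Z : Type} (a b : Z) : sw a b = swap a b := rfl

theorem Ev_mem_iff {Z : Type} [Fintype Z] (s : Perm Z) : s ∈ Ev Z ↔ Perm.sign s = 1 := by
  have h : Finite Z := inferInstance
  unfold Ev
  rw [dif_pos h]
  have hft : (@Fintype.ofFinite Z h) = (inferInstance : Fintype Z) := Subsingleton.elim _ _
  rw [hft]
  exact Perm.mem_alternatingGroup

theorem Ev_eq {Z : Type} [Fintype Z] : Ev Z = alternatingGroup Z := by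
  ext s
  rw [Ev_mem_iff, Perm.mem_alternatingGroup]

theorem ev_three {Z : Type} [Finite Z] (a b c : Z) (hab : a ≠ b) (hbc : b ≠ c) (hac : a ≠ c) :
    c3 a b c ∈ Ev Z := by
  letI := Fintype.ofFinite Z
  have _ := hac
  rw [Ev_mem_iff, c3, sw_eq, sw_eq, Perm.sign_mul, Perm.sign_swap hab, Perm.sign_swap hbc]
  rfl

theorem ev_conj {Z : Type} (g π : Perm Z) (h : π ∈ Ev Z) : g * π * g⁻¹ ∈ Ev Z := by
  by_cases hf : Finite Z
  · letI := Fintype.ofFinite Z
    rw [Ev_mem_iff] at h ⊢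
    rw [Perm.sign_mul, Perm.sign_mul, h, mul_one, Perm.sign_inv]
    exact Int.units_mul_self _
  · unfold Ev at h ⊢
    rw [dif_neg hf, Subgroup.mem_bot] at h ⊢
    rw [h]
    simp

theorem ev_le_of_three {Z : Type} [Finite Z] (Λ : Subgroup (Perm Z))
    (h : ∀ a b c : Z, a ≠ b → b ≠ c → a ≠ c → c3 a b c ∈ Λ) : Ev Z ≤ Λ := by
  letI := Fintype.ofFinite Z
  rw [Ev_eq, ← Perm.closure_three_cycles_eq_alternating, Subgroup.closure_le]
  intro s hs
  have hs3 : s.IsThreeCycle := hs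
  have hne : s.support.Nonempty := by
    rw [← Finset.card_pos, hs3.card_support]
    norm_num
  obtain ⟨a, ha⟩ := hne
  have h1 := hs3.eq_swap_mul_swap_iff_mem_support.2 ha
  have h2 := hs3.nodup_iff_mem_support.2 ha
  simp only [List.nodup_cons, List.mem_cons, List.not_mem_nil, or_false, not_or] at h2
  have h3 := h a (s a) (s (s a)) h2.1.1 h2.2.1 h2.1.2
  rw [c3, sw_eq, sw_eq, ← h1] at h3
  exact h3

theorem ev_simple {Z : Type} [Finite Z] (h5 : 5 ≤ Nat.card Z) (N : Subgroup (Perm Z))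
    (hN : N ≤ Ev Z) (hn : ∀ s ∈ Ev Z, ∀ n ∈ N, s * n * s⁻¹ ∈ N) (hb : N ≠ ⊥) : Ev Z ≤ N := by
  letI := Fintype.ofFinite Z
  rw [Ev_eq] at hN hn ⊢
  haveI : IsSimpleGroup (alternatingGroup Z) := alternatingGroup.isSimpleGroup h5
  haveI hnorm : (N.subgroupOf (alternatingGroup Z)).Normal := by
    constructor
    intro n hnn g
    rw [Subgroup.mem_subgroupOf] at hnn ⊢
    exact hn g g.2 n hnn
  rcases IsSimpleGroup.eq_bot_or_eq_top_of_normal (N.subgroupOf (alternatingGroup Z)) hnorm with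
    h | h
  · exfalso
    apply hb
    rw [Subgroup.subgroupOf_eq_bot] at h
    exact disjoint_self.1 (h.mono_right hN)
  · exact Subgroup.subgroupOf_eq_top.1 h

theorem two_more {Z : Type} [Finite Z] (h5 : 5 ≤ Nat.card Z) (a b : Z) :
    ∃ u v : Z, u ≠ v ∧ u ≠ a ∧ u ≠ b ∧ v ≠ a ∧ v ≠ b := by
  letI := Fintype.ofFinite Z
  have h1 : 1 < (Finset.univ \ {a, b} : Finset Z).card := by
    have h2 := Finset.le_card_sdiff ({a, b} : Finset Z) Finset.univ
    have h3 : ({a, b} : Finset Z).card ≤ 2 := Finset.card_le_two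
    rw [Finset.card_univ, ← Nat.card_eq_fintype_card] at h2
    omega
  obtain ⟨u, hu, v, hv, huv⟩ := Finset.one_lt_card.1 h1
  simp only [Finset.mem_sdiff, Finset.mem_univ, true_and, Finset.mem_insert,
    Finset.mem_singleton, not_or] at hu hv
  exact ⟨u, v, huv, hu.1, hu.2, hv.1, hv.2⟩

theorem ev_nc {Z : Type} [Finite Z] (h5 : 5 ≤ Nat.card Z) (s : Perm Z) (hs : s ∈ Ev Z)
    (h1 : s ≠ 1) : ∃ s' ∈ Ev Z, s * s' ≠ s' * s := by
  have _ := hs
  obtain ⟨a, ha⟩ : ∃ a, s a ≠ a := by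
    by_contra hc
    push Not at hc
    exact h1 (Equiv.ext hc)
  obtain ⟨u, v, huv, hua, hub, hva, hvb⟩ := two_more h5 a (s a)
  refine ⟨c3 a u v, ev_three a u v hua.symm huv hva.symm, fun hc => ?_⟩
  have e1 := Equiv.congr_fun hc a
  rw [Perm.mul_apply, Perm.mul_apply] at e1
  have e2 : c3 a u v a = u := by
    rw [c3, sw_eq, sw_eq, Perm.mul_apply, swap_apply_of_ne_of_ne hua.symm hva.symm,
      swap_apply_left]
  have e3 : c3 a u v (s a) = s a := by
    rw [c3, sw_eq, sw_eq, Perm.mul_apply, swap_apply_of_ne_of_ne hub.symm hvb.symm,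
      swap_apply_of_ne_of_ne ha hub.symm]
  rw [e2, e3] at e1
  exact hua (s.injective e1)

theorem ev_trans2 {Z : Type} [Finite Z] (h5 : 5 ≤ Nat.card Z) (a b c d : Z) (hab : a ≠ b)
    (hcd : c ≠ d) : ∃ s ∈ Ev Z, s a = c ∧ s b = d := by
  letI := Fintype.ofFinite Z
  obtain ⟨p, hpa, hpb⟩ : ∃ p : Perm Z, p a = c ∧ p b = d := by
    refine ⟨swap (swap a c b) d * swap a c, ?_, ?_⟩
    · rw [Perm.mul_apply, swap_apply_left]
      have h1 : c ≠ swap a c b := by
        intro h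
        apply hab
        apply (swap a c).injective
        rw [swap_apply_left]
        exact h
      rw [swap_apply_of_ne_of_ne h1 hcd]
    · rw [Perm.mul_apply, swap_apply_left]
  rcases Int.units_eq_one_or (Perm.sign p) with h | h
  · exact ⟨p, (Ev_mem_iff p).2 h, hpa, hpb⟩
  · obtain ⟨u, v, huv, hua, hub, hva, hvb⟩ := two_more h5 a b
    refine ⟨p * swap u v, ?_, ?_, ?_⟩
    · rw [Ev_mem_iff, Perm.sign_mul, h, Perm.sign_swap huv]
      rfl
    · rw [Perm.mul_apply, swap_apply_of_ne_of_ne hua.symm hva.symm, hpa]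
    · rw [Perm.mul_apply, swap_apply_of_ne_of_ne hub.symm hvb.symm, hpb]


end IG
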