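import Mathlib
import Pool.Agent.Helper529.IG.PG1

open Classical Equiv

namespace IG

variable {D : ℕ → ℕ → SD}


theorem mem_Ev_iff {Z : Type} [Fintype Z] [DecidableEq Z] (π : Perm Z) :
    π ∈ Ev Z ↔ Equiv.Perm.sign π = 1 := by
  have hf : Finite Z := inferInstance
  unfold Ev
  rw [dif_pos hf]
  have key := @Equiv.Perm.mem_alternatingGroup Z (@Fintype.ofFinite Z hf)
    (fun a b => propDecidable (a = b)) π
  refine key.trans ?_
  constructor <;> intro h <;> convert h

theorem ev_kk {Z : Type} [Finite Z] (π : Perm Z) : kk π ∈ Ev (Z × K) := by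
  have : Fintype Z := Fintype.ofFinite Z
  rw [mem_Ev_iff]
  have h : (kk π : Perm (Z × K)) = Equiv.prodCongrLeft (fun _ : K => π) := by
    ext1 p
    rfl
  rw [h, Equiv.Perm.sign_prodCongrLeft, Finset.prod_const, Finset.card_univ, Fintype.card_fin]
  rcases Int.units_eq_one_or (Equiv.Perm.sign π) with h1 | h1
  · rw [h1, one_pow]
  · rw [h1]; rfl

theorem sign_kx (c : K) : Equiv.Perm.sign (kx c) = 1 := by
  revert c
  decide +kernel

theorem ev_ze {Z : Type} [Finite Z] (u : K → Z) (c : K) : ze u c ∈ Ev (Z × K) := by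
  have : Fintype Z := Fintype.ofFinite Z
  let Θ : Perm (Z × K) := Equiv.prodCongrLeft (fun k : K => Equiv.swap (u k) (u 0))
  let R : Perm (Z × K) := Equiv.prodCongrRight (fun z : Z => if z = u 0 then kx c else 1)
  have hR : R ∈ Ev (Z × K) := by
    rw [mem_Ev_iff, Equiv.Perm.sign_prodCongrRight]
    refine Finset.prod_eq_one (fun z _ => ?_)
    split_ifs
    · have := sign_kx c
      convert this
    · simp
  have hmain : Θ * ze u c = R * Θ := by
    ext1 p
    obtain ⟨z, k⟩ := p
    change Θ (ze u c (z, k)) = R (Θ (z, k))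
    have hΘ : ∀ (z : Z) (k : K), Θ (z, k) = (Equiv.swap (u k) (u 0) z, k) := fun _ _ => rfl
    have hRv : ∀ (z : Z) (k : K), R (z, k) = (z, (if z = u 0 then kx c else 1) k) := fun _ _ => rfl
    rw [hΘ z k, hRv]
    by_cases hz : z = u k
    · have h1 : ze u c (z, k) = (u (kx c k), kx c k) := by
        change (if z = u k then (u (kx c k), kx c k) else (z, k)) = _
        rw [if_pos hz]
      rw [h1, hΘ, hz, Equiv.swap_apply_left, Equiv.swap_apply_left, if_pos rfl]
    · have h1 : ze u c (z, k) = (z, k) := by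
        change (if z = u k then (u (kx c k), kx c k) else (z, k)) = _
        rw [if_neg hz]
      have h2 : Equiv.swap (u k) (u 0) z ≠ u 0 := by
        intro h
        rw [Equiv.swap_apply_eq_iff, Equiv.swap_apply_right] at h
        exact hz h
      rw [h1, hΘ, if_neg h2]
      rfl
  have hze : ze u c = Θ⁻¹ * R * Θ⁻¹⁻¹ := by
    rw [inv_inv, mul_assoc, ← hmain, inv_mul_cancel_left]
  rw [hze]
  exact ev_conj Θ⁻¹ R hR

theorem ev_dl {X : Type} [Finite X] {d : SD} (hd : d.Ok) (s : Gen) (P : Pos X) (t : X) :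
    dl d s P t ∈ Ev (W X d) := by
  have : Finite d.Y := hd.fin
  cases s with
  | r ρ => exact one_mem _
  | a => exact ev_kk _
  | v v => exact ev_kk _
  | x => exact ev_kk _
  | z c =>
    change (if t = P.s 0 then ze (fun k => (P.s (ph k), d.mid)) c else 1) ∈ Ev (W X d)
    split_ifs
    · exact ev_ze _ c
    · exact one_mem _


end IG
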