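import Mathlib
import Pool.Agent.Helper529.IG.PG2

open Classical Equiv

namespace IG

variable {D : ℕ → ℕ → SD}


theorem sw_conj {Z : Type} (g : Perm Z) (a b : Z) : g * sw a b * g⁻¹ = sw (g a) (g b) := by
  unfold sw
  rw [@Equiv.mul_swap_eq_swap_mul Z (fun x y => propDecidable (x = y)) g a b, mul_assoc,
    mul_inv_cancel, mul_one]

theorem c3_conj {Z : Type} (g : Perm Z) (a b c : Z) :
    g * c3 a b c * g⁻¹ = c3 (g a) (g b) (g c) := by
  unfold c3
  rw [← sw_conj g a b, ← sw_conj g b c]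
  group

theorem c3_fix {Z : Type} (a b c w : Z) (h1 : w ≠ a) (h2 : w ≠ b) (h3 : w ≠ c) :
    c3 a b c w = w := by
  unfold c3 sw
  rw [Perm.mul_apply, Equiv.swap_apply_of_ne_of_ne h2 h3, Equiv.swap_apply_of_ne_of_ne h1 h2]

theorem c3_a {Z : Type} (a b c : Z) (hab : a ≠ b) (hac : a ≠ c) : c3 a b c a = b := by
  unfold c3 sw
  rw [Perm.mul_apply, Equiv.swap_apply_of_ne_of_ne hab hac, Equiv.swap_apply_left]

theorem c3_b {Z : Type} (a b c : Z) (hac : a ≠ c) (hbc : b ≠ c) : c3 a b c b = c := by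
  unfold c3 sw
  rw [Perm.mul_apply, Equiv.swap_apply_left, Equiv.swap_apply_of_ne_of_ne hac.symm hbc.symm]

theorem c3_c {Z : Type} (a b c : Z) : c3 a b c c = a := by
  unfold c3 sw
  rw [Perm.mul_apply, Equiv.swap_apply_right, Equiv.swap_apply_right]

theorem ze_hit {Z : Type} (u : K → Z) (k : K) : ze u 1 (u k, k) = (u (kx 1 k), kx 1 k) :=
  if_pos rfl

theorem ze_miss {Z : Type} (u : K → Z) (z : Z) (k : K) (h : z ≠ u k) : ze u 1 (z, k) = (z, k) :=
  if_neg h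

theorem ze_inv {Z : Type} (u : K → Z) : (ze u 1)⁻¹ = ze u 1 := by
  apply Equiv.ext
  intro p
  rfl

theorem ze_comm {Z : Type} (u u' : K → Z) (h4 : u 4 = u' 4) (h5 : ∀ k, k ≠ 4 → u k ≠ u' k) :
    ze u 1 * ze u' 1 * (ze u 1)⁻¹ * (ze u' 1)⁻¹ = c3 (u 4, 4) (u 5, 5) (u' 5, 5) := by
  have k4 : kx 1 4 = 5 := by decide
  have k5 : kx 1 5 = 4 := by decide
  have kk2 : ∀ k : K, kx 1 (kx 1 k) = k := by decide
  have kne : ∀ k : K, k ≠ 5 → kx 1 k ≠ 4 := by decide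
  have u5 : u 5 ≠ u' 5 := h5 5 (by decide)
  have z4 : ze u 1 (u 4, 4) = (u 5, 5) := by rw [ze_hit, k4]
  have z5 : ze u 1 (u 5, 5) = (u 4, 4) := by rw [ze_hit, k5]
  have z4' : ze u' 1 (u 4, 4) = (u' 5, 5) := by rw [h4, ze_hit, k4]
  have z5' : ze u' 1 (u' 5, 5) = (u 4, 4) := by rw [ze_hit, k5, h4]
  have m5 : ze u 1 (u' 5, 5) = (u' 5, 5) := ze_miss u _ _ u5.symm
  have m5' : ze u' 1 (u 5, 5) = (u 5, 5) := ze_miss u' _ _ u5
  rw [ze_inv, ze_inv]
  apply Equiv.ext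
  rintro ⟨z, k⟩
  simp only [Perm.mul_apply]
  have n45 : (4 : K) ≠ 5 := by decide
  have ne45 : ((u 4, 4) : Z × K) ≠ (u 5, 5) := fun h => n45 (congrArg Prod.snd h)
  have ne45' : ((u 4, 4) : Z × K) ≠ (u' 5, 5) := fun h => n45 (congrArg Prod.snd h)
  have ne55' : ((u 5, 5) : Z × K) ≠ (u' 5, 5) := fun h => u5 (congrArg Prod.fst h)
  by_cases hk4 : k = 4
  · subst hk4
    by_cases hz : z = u 4
    · subst hz
      rw [z4', m5, z5', z4, c3_a _ _ _ ne45 ne45']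
    · have hz' : z ≠ u' 4 := by rw [← h4]; exact hz
      rw [ze_miss u' z 4 hz', ze_miss u z 4 hz, ze_miss u' z 4 hz', ze_miss u z 4 hz, c3_fix]
      · exact fun h => hz (congrArg Prod.fst h)
      · exact fun h => n45 (congrArg Prod.snd h)
      · exact fun h => n45 (congrArg Prod.snd h)
  by_cases hk5 : k = 5
  · subst hk5
    by_cases hz : z = u 5
    · subst hz
      rw [m5', z5, z4', m5, c3_b _ _ _ ne45' ne55']
    · by_cases hz' : z = u' 5
      · subst hz'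
        rw [z5', z4, m5', z5, c3_c]
      · rw [ze_miss u' z 5 hz', ze_miss u z 5 hz, ze_miss u' z 5 hz', ze_miss u z 5 hz, c3_fix]
        · exact fun h => n45.symm (congrArg Prod.snd h)
        · exact fun h => hz (congrArg Prod.fst h)
        · exact fun h => hz' (congrArg Prod.fst h)
  have hf : c3 ((u 4, 4) : Z × K) (u 5, 5) (u' 5, 5) (z, k) = (z, k) := by
    apply c3_fix
    · exact fun h => hk4 (congrArg Prod.snd h)
    · exact fun h => hk5 (congrArg Prod.snd h)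
    · exact fun h => hk5 (congrArg Prod.snd h)
  rw [hf]
  have hk' : kx 1 k ≠ 4 := kne k hk5
  by_cases hz : z = u k
  · subst hz
    have e1 : u k ≠ u' k := h5 k hk4
    have e2 : u (kx 1 k) ≠ u' (kx 1 k) := h5 _ hk'
    rw [ze_miss u' _ _ e1, ze_hit, ze_miss u' _ _ e2, ze_hit, kk2]
  · by_cases hz' : z = u' k
    · subst hz'
      have e2 : u' (kx 1 k) ≠ u (kx 1 k) := (h5 _ hk').symm
      rw [ze_hit, ze_miss u _ _ e2, ze_hit, kk2, ze_miss u _ _ hz]
    · rw [ze_miss u' _ _ hz', ze_miss u _ _ hz, ze_miss u' _ _ hz', ze_miss u _ _ hz]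


end IG
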