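import Mathlib
import Pool.Agent.Helper529.IG.PG3

open Classical Equiv

namespace IG

variable {D : ℕ → ℕ → SD}


theorem CC_can (m : ℕ) (g : Gam D) (hg : g ∈ CC D m) : Can D m g := by
  obtain ⟨σ, δ, h1, h2, _⟩ := hg
  exact ⟨σ, δ, h1, h2⟩

theorem CC_one (m : ℕ) : (1 : Gam D) ∈ CC D m :=
  ⟨1, fun _ _ => 1, mk_one.symm, fun _ _ _ => rfl, fun _ _ => one_mem _⟩

theorem CC_mul (m : ℕ) (g h : Gam D) (hg : g ∈ CC D m) (hh : h ∈ CC D m) : g * h ∈ CC D m := by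
  obtain ⟨σ, δ, rfl, h2, h3⟩ := hg
  obtain ⟨τ, ε, rfl, h5, h6⟩ := hh
  refine ⟨σ * τ, _, mk_mul σ τ δ ε, fun M hM t => ?_, fun M t => ?_⟩
  · have e : ε M = fun _ => 1 := funext fun t => h5 M hM t
    show δ M t * lact (mk D σ δ M) (ε M) t = 1
    rw [h2 M hM t, e, lact_pone, one_mul]
  · exact mul_mem (h3 M t) (ev_conj _ _ (h6 M _))

theorem CC_inv (m : ℕ) (g : Gam D) (hg : g ∈ CC D m) : g⁻¹ ∈ CC D m := by
  obtain ⟨σ, δ, rfl, h2, h3⟩ := hg
  refine ⟨σ⁻¹, _, mk_inv σ δ, fun M hM t => ?_, fun M t => ?_⟩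
  · have e : (fun t => (δ M t)⁻¹) = fun _ => 1 := funext fun t => by rw [h2 M hM t, inv_one]
    show lact (mk D σ δ M)⁻¹ (fun t => (δ M t)⁻¹) t = 1
    rw [e, lact_pone]
  · exact ev_conj _ _ (inv_mem (h3 M _))

theorem CC_mono (m m' : ℕ) (h : m ≤ m') (g : Gam D) (hg : g ∈ CC D m) : g ∈ CC D m' := by
  obtain ⟨σ, δ, h1, h2, h3⟩ := hg
  exact ⟨σ, δ, h1, fun M hM => h2 M (h.trans hM), h3⟩

theorem AA_CC (m : ℕ) (g : Gam D) (hg : g ∈ AA D m) : g ∈ CC D (m + 1) := by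
  obtain ⟨δ, h1, rfl⟩ := hg
  refine ⟨1, Pi.mulSingle m δ, rfl, fun M hM t => ?_, fun M t => ?_⟩
  · have hne : M ≠ m := by omega
    rw [Pi.mulSingle_eq_of_ne hne]
    rfl
  · by_cases hM : M = m
    · subst hM
      rw [Pi.mulSingle_eq_same]
      exact h1 t
    · rw [Pi.mulSingle_eq_of_ne hM]
      exact one_mem _

theorem CC_succ (m : ℕ) (g : Gam D) (hg : g ∈ CC D (m + 1)) :
    ∃ a ∈ AA D m, ∃ h ∈ CC D m, g = a * h := by
  obtain ⟨σ, δ, rfl, h2, h3⟩ := hg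
  refine ⟨lamp D m (δ m), ⟨δ m, fun t => h3 m t, rfl⟩,
    mk D σ (fun M t => if M < m then δ M t else 1), ⟨σ, _, rfl, fun M hM t => ?_, fun M t => ?_⟩, ?_⟩
  · exact if_neg (not_lt.2 hM)
  · by_cases hM : M < m
    · show (if M < m then δ M t else 1) ∈ Ev (WW D M)
      rw [if_pos hM]
      exact h3 M t
    · show (if M < m then δ M t else 1) ∈ Ev (WW D M)
      rw [if_neg hM]
      exact one_mem _
  · rw [lamp, mk_mul, one_mul]
    congr 1
    funext M t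
    rcases lt_trichotomy M m with hM | hM | hM
    · have e1 : mk D 1 (Pi.mulSingle m (δ m)) M = 1 := lamp_le m (δ m) M hM.le
      rw [Pi.mulSingle_eq_of_ne hM.ne, e1, lact_one]
      simp only [if_pos hM]
      show δ M t = 1 * δ M t
      rw [one_mul]
    · subst hM
      rw [Pi.mulSingle_eq_same]
      simp only [lt_irrefl, if_false]
      rw [lact_pone, mul_one]
    · rw [Pi.mulSingle_eq_of_ne hM.ne', h2 M hM t]
      simp only [if_neg hM.not_gt]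
      rw [lact_pone]
      rfl

theorem AA_conj (m : ℕ) (g : Gam D) (hg : g ∈ CC D m) (a : Gam D) (ha : a ∈ AA D m) :
    g * a * g⁻¹ ∈ AA D m := by
  obtain ⟨δ, h1, rfl⟩ := ha
  exact ⟨lact (g m) δ, fun t => ev_conj _ _ (h1 _), lamp_conj m g (CC_can m g hg) δ⟩


end IG
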