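import Mathlib
import Pool.Agent.Helper529.IG.PH1

open Classical Equiv

namespace IG

variable {D : ℕ → ℕ → SD}


theorem CC_finite (hD : ∀ M n, (D M n).Ok) (m : ℕ) : (CC D m).Finite := by
  induction m with
  | zero =>
    refine (Set.finite_range (fun σ : Perm (Option K) => mk D σ (fun _ _ => 1))).subset ?_
    rintro g ⟨σ, δ, rfl, h1, -⟩
    refine ⟨σ, ?_⟩
    have : δ = fun _ _ => 1 := by
      funext M t
      exact h1 M (Nat.zero_le _) t
    rw [this]
  | succ m ih =>
    haveI := fin_XX hD m
    haveI : Finite (DD D m).Y := (hD m _).fin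
    haveI : Finite (WW D m) := by
      show Finite ((XX D m × (DD D m).Y) × K)
      infer_instance
    have hA : (AA D m).Finite := by
      refine (Set.finite_range (fun δ : XX D m → Perm (WW D m) => lamp D m δ)).subset ?_
      rintro g ⟨δ, -, rfl⟩
      exact ⟨δ, rfl⟩
    refine (hA.image2 (fun a h => a * h) ih).subset ?_
    intro g hg
    obtain ⟨a, ha, h, hh, rfl⟩ := CC_succ m g hg
    exact ⟨a, ha, h, hh, rfl⟩

theorem lampS_AA (hD : ∀ M n, (D M n).Ok) (m : ℕ) (t : XX D m) (π : Perm (WW D m))
    (hπ : π ∈ Ev (WW D m)) : lampS D m t π ∈ AA D m := by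
  refine ⟨fun t' => if t' = t then π else 1, fun t' => ?_, rfl⟩
  dsimp only
  split_ifs
  · exact hπ
  · exact one_mem _

theorem AA_of_single (hD : ∀ M n, (D M n).Ok) (m : ℕ) (H : Subgroup (Gam D))
    (h : ∀ t, ∀ π ∈ Ev (WW D m), lampS D m t π ∈ H) : AA D m ⊆ H := by
  haveI := fin_XX hD m
  haveI := Fintype.ofFinite (XX D m)
  rintro g ⟨δ, hδ, rfl⟩
  have key : ∀ S : Finset (XX D m), lamp D m (fun t => if t ∈ S then δ t else 1) ∈ H := by
    intro S
    induction S using Finset.induction_on with
    | empty =>
      have : (fun t : XX D m => if t ∈ (∅ : Finset (XX D m)) then δ t else 1) = fun _ => 1 := by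
        funext t
        simp
      rw [this, lamp_one]
      exact one_mem _
    | insert a S ha ih =>
      have : (fun t : XX D m => if t ∈ insert a S then δ t else 1) =
          (fun t' : XX D m => if t' = a then δ a else 1) * (fun t => if t ∈ S then δ t else 1) := by
        funext t
        simp only [Pi.mul_apply, Finset.mem_insert]
        by_cases h1 : t = a
        · subst h1
          simp [ha]
        · simp [h1]
      rw [this, ← lamp_mul]
      exact mul_mem (h a (δ a) (hδ a)) ih
  have := key Finset.univ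
  simpa using this

theorem E_CC (hD : ∀ M n, (D M n).Ok) (m : ℕ) (s : Gen) : E D m s ∈ CC D m := by
  refine ⟨r0 s, _, rfl, ?_, ?_⟩
  · intro M hM t
    rw [if_neg (by omega)]
  · intro M t
    split_ifs
    · haveI := fin_XX hD M
      exact ev_dl (hD M _) s _ t
    · exact one_mem _

theorem EE_CC (hD : ∀ M n, (D M n).Ok) (m : ℕ) (l : List Gen) : EE D m l ∈ CC D m := by
  induction l with
  | nil => exact CC_one m
  | cons s l ih => exact CC_mul m _ _ (E_CC hD m s) ih


end IG
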