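import Mathlib
import Pool.Agent.Helper529.IG.PH1b

open Classical Equiv

namespace IG

variable {D : ℕ → ℕ → SD}


theorem H2_third {Z : Type} [Finite Z] (h5 : 5 ≤ Nat.card Z) (a b : Z) : ∃ c, c ≠ a ∧ c ≠ b := by
  by_contra hcon
  push Not at hcon
  have h1 : Function.Surjective (fun t : Bool => if t then a else b) := by
    intro c
    by_cases hc : c = a
    · exact ⟨true, by simp [hc]⟩
    · exact ⟨false, by simp [hcon c hc]⟩
  have h2 := Nat.card_le_card_of_surjective _ h1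
  have h3 : Nat.card Bool = 2 := by simp
  omega

theorem H2_sw_left {Z : Type} (a b : Z) : sw a b a = b := by
  unfold sw
  exact @Equiv.swap_apply_left Z (_) a b

theorem H2_sw_ne {Z : Type} (a b c : Z) (h1 : c ≠ a) (h2 : c ≠ b) : sw a b c = c := by
  unfold sw
  exact @Equiv.swap_apply_of_ne_of_ne Z (_) a b c h1 h2

theorem H2_c3 {Z : Type} (a b c : Z) (hab : a ≠ b) (hac : a ≠ c) : c3 a b c a = b := by
  unfold c3
  rw [Perm.mul_apply, H2_sw_ne b c a hab hac, H2_sw_left]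

theorem H2_mk0 (σ : Perm (Option K)) : mk D σ (fun _ _ => 1) ∈ CC D 0 :=
  ⟨σ, fun _ _ => 1, rfl, fun _ _ _ => rfl, fun _ _ => one_mem _⟩

theorem H2_lamp' (m : ℕ) (δ : XX D m → Perm (WW D m)) (x y : XX D m → WW D m)
    (h : ∀ t, δ t (x t) = y t) : lamp D m δ (m + 1) x = y := by
  rw [lamp_at]
  exact funext h

/-- value of the positions -/
noncomputable def H2_w (D : ℕ → ℕ → SD) (m : ℕ) (k : K) : WW D m :=
  (((T D m).pos.s 0, (DD D m).e1), k)

theorem H2_wne (m : ℕ) (k l : K) (h : k ≠ l) : H2_w D m k ≠ H2_w D m l :=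
  fun h' => h (congrArg Prod.snd h')

theorem H2_pos (m : ℕ) (k : K) : (T D (m + 1)).pos.s k = fun _ => H2_w D m k := rfl

theorem AA_trans (hD : ∀ M n, (D M n).Ok) (m : ℕ) (x y : XX D (m + 1)) :
    ∃ g ∈ AA D m, g (m + 1) x = y := by
  have hfin := fin_WW hD m
  have h5 : 5 ≤ Nat.card (WW D m) := by have := card_WW hD m; omega
  have h1 : ∀ t : XX D m, ∃ s ∈ Ev (WW D m), s ((x : XX D m → WW D m) t) =
      (y : XX D m → WW D m) t := by
    intro t
    obtain ⟨b, hb, -⟩ := H2_third h5 ((x : XX D m → WW D m) t) ((x : XX D m → WW D m) t)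
    obtain ⟨d', hd, -⟩ := H2_third h5 ((y : XX D m → WW D m) t) ((y : XX D m → WW D m) t)
    obtain ⟨s, hs, hs1, hs2⟩ := ev_trans2 h5 _ b _ d' hb.symm hd.symm
    exact ⟨s, hs, hs1⟩
  choose δ hδ1 hδ2 using h1
  exact ⟨lamp D m δ, ⟨δ, hδ1, rfl⟩, H2_lamp' m δ x y hδ2⟩

theorem CC_trans (hD : ∀ M n, (D M n).Ok) (m : ℕ) (x y : XX D m) :
    ∃ g ∈ CC D m, g m x = y := by
  cases m with
  | zero =>
    refine ⟨mk D (sw x y) (fun _ _ => 1), H2_mk0 _, ?_⟩
    rw [mk_zero]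
    exact H2_sw_left _ _
  | succ m =>
    obtain ⟨g, hg, h⟩ := AA_trans hD m x y
    exact ⟨g, AA_CC m g hg, h⟩

theorem H2_zero : 
      sw (some 3) (none : Option K) (some 0) = some 0 ∧
      sw (some 3) (none : Option K) (some 4) = some 4 ∧
      sw (some 3) (some 5 : Option K) (some 0) = some 0 ∧
      sw (some 3) (some 5 : Option K) (some 4) = some 4 ∧
      sw (some 3) (none : Option K) (some 3) ≠ some 3 ∧
      sw (some 3) (none : Option K) (some 3) ≠ some 4 ∧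
      sw (some 3) (some 5 : Option K) (some 3) ≠ some 3 ∧
      sw (some 3) (some 5 : Option K) (some 3) ≠ some 4 ∧
      sw (some 3) (none : Option K) (some 3) ≠ sw (some 3) (some 5 : Option K) (some 3) := by
  have e1 : sw (some 3) (none : Option K) (some 3) = none := H2_sw_left _ _
  have e2 : sw (some 3) (some 5 : Option K) (some 3) = some 5 := H2_sw_left _ _
  have n1 : (some 0 : Option K) ≠ some 3 := by simp
  have n2 : (some 4 : Option K) ≠ some 3 := by simp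
  have n3 : (some 0 : Option K) ≠ some 5 := by simp
  have n4 : (some 4 : Option K) ≠ some 5 := by simp
  have n5 : ∀ k : K, (some k : Option K) ≠ none := fun k => Option.some_ne_none k
  refine ⟨H2_sw_ne _ _ _ n1 (n5 _), H2_sw_ne _ _ _ n2 (n5 _), H2_sw_ne _ _ _ n1 n3,
    H2_sw_ne _ _ _ n2 n4, ?_, ?_, ?_, ?_, ?_⟩
  · rw [e1]; exact (n5 _).symm
  · rw [e1]; exact (n5 _).symm
  · rw [e2]; simp
  · rw [e2]; exact n4.symm
  · rw [e1, e2]; exact (n5 _).symm

theorem CC_mover (hD : ∀ M n, (D M n).Ok) (m : ℕ) :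
    ∃ g ∈ CC D m, ∃ g' ∈ CC D m,
      g m ((T D m).pos.s 0) = (T D m).pos.s 0 ∧ g m ((T D m).pos.s 4) = (T D m).pos.s 4 ∧
      g' m ((T D m).pos.s 0) = (T D m).pos.s 0 ∧ g' m ((T D m).pos.s 4) = (T D m).pos.s 4 ∧
      g m ((T D m).pos.s 3) ≠ (T D m).pos.s 3 ∧ g m ((T D m).pos.s 3) ≠ (T D m).pos.s 4 ∧
      g' m ((T D m).pos.s 3) ≠ (T D m).pos.s 3 ∧ g' m ((T D m).pos.s 3) ≠ (T D m).pos.s 4 ∧
      g m ((T D m).pos.s 3) ≠ g' m ((T D m).pos.s 3) := by
  cases m with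
  | zero =>
    exact ⟨mk D (sw (some 3) none) (fun _ _ => 1), H2_mk0 _,
      mk D (sw (some 3) (some 5)) (fun _ _ => 1), H2_mk0 _, H2_zero⟩
  | succ m =>
    have hfin := fin_WW hD m
    have hinj := (pos_inj hD (m + 1)).1
    have hmem : ∀ a b c : K, a ≠ b → b ≠ c → a ≠ c →
        lamp D m (fun _ => c3 (H2_w D m a) (H2_w D m b) (H2_w D m c)) ∈ CC D (m + 1) := by
      intro a b c h1 h2 h3
      exact AA_CC m _ ⟨_, fun _ => ev_three _ _ _ (H2_wne _ _ _ h1) (H2_wne _ _ _ h2)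
        (H2_wne _ _ _ h3), rfl⟩
    have hfix : ∀ a b c k : K, k ≠ a → k ≠ b → k ≠ c →
        lamp D m (fun _ => c3 (H2_w D m a) (H2_w D m b) (H2_w D m c)) (m + 1)
          ((T D (m + 1)).pos.s k) = (T D (m + 1)).pos.s k := by
      intro a b c k h1 h2 h3
      exact H2_lamp' m _ _ _ (fun t => c3_fix _ _ _ _ (H2_wne _ _ _ h1) (H2_wne _ _ _ h2)
        (H2_wne _ _ _ h3))
    have hmove : ∀ a b c : K, a ≠ b → a ≠ c →
        lamp D m (fun _ => c3 (H2_w D m a) (H2_w D m b) (H2_w D m c)) (m + 1)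
          ((T D (m + 1)).pos.s a) = (T D (m + 1)).pos.s b := by
      intro a b c h1 h2
      exact H2_lamp' m _ _ _ (fun t => H2_c3 _ _ _ (H2_wne _ _ _ h1) (H2_wne _ _ _ h2))
    refine ⟨_, hmem 3 5 6 (by decide) (by decide) (by decide),
      _, hmem 3 6 7 (by decide) (by decide) (by decide), ?_, ?_, ?_, ?_, ?_, ?_, ?_, ?_, ?_⟩
    · exact hfix _ _ _ _ (by decide) (by decide) (by decide)
    · exact hfix _ _ _ _ (by decide) (by decide) (by decide)
    · exact hfix _ _ _ _ (by decide) (by decide) (by decide)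
    · exact hfix _ _ _ _ (by decide) (by decide) (by decide)
    · rw [hmove 3 5 6 (by decide) (by decide)]; exact hinj.ne (by decide)
    · rw [hmove 3 5 6 (by decide) (by decide)]; exact hinj.ne (by decide)
    · rw [hmove 3 6 7 (by decide) (by decide)]; exact hinj.ne (by decide)
    · rw [hmove 3 6 7 (by decide) (by decide)]; exact hinj.ne (by decide)
    · rw [hmove 3 5 6 (by decide) (by decide), hmove 3 6 7 (by decide) (by decide)]
      exact hinj.ne (by decide)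

theorem CC_adj (hD : ∀ M n, (D M n).Ok) (m : ℕ) (x h : XX D m) :
    ∃ x', ∃ g ∈ CC D m, ∃ g' ∈ CC D m,
      g m ((T D m).pos.s 1) = x ∧ g m ((T D m).pos.s 2) = x' ∧
      g' m ((T D m).pos.s 1) = x' ∧ g' m ((T D m).pos.s 2) = h := by
  cases m with
  | zero =>
    have h5 : 5 ≤ Nat.card (Option K) := by simp
    have hn : (some 1 : Option K) ≠ some 2 := by simp
    obtain ⟨x', hx1, hx2⟩ := H2_third h5 x h
    obtain ⟨σ, -, h1, h2⟩ := ev_trans2 h5 (some 1) (some 2) x x' hn hx1.symm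
    obtain ⟨σ', -, h1', h2'⟩ := ev_trans2 h5 (some 1) (some 2) x' h hn hx2
    exact ⟨x', mk D σ (fun _ _ => 1), H2_mk0 _, mk D σ' (fun _ _ => 1), H2_mk0 _, h1, h2, h1', h2'⟩
  | succ m =>
    have hfin := fin_WW hD m
    have h5 : 5 ≤ Nat.card (WW D m) := by have := card_WW hD m; omega
    have h1 : ∀ t : XX D m, ∃ c : WW D m, c ≠ (x : XX D m → WW D m) t ∧
        c ≠ (h : XX D m → WW D m) t := fun t => H2_third h5 _ _
    choose x' hx1 hx2 using h1
    have h2 : ∀ t : XX D m, ∃ s ∈ Ev (WW D m), s (H2_w D m 1) = (x : XX D m → WW D m) t ∧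
        s (H2_w D m 2) = x' t :=
      fun t => ev_trans2 h5 _ _ _ _ (H2_wne _ _ _ (by decide)) (hx1 t).symm
    have h3 : ∀ t : XX D m, ∃ s ∈ Ev (WW D m), s (H2_w D m 1) = x' t ∧
        s (H2_w D m 2) = (h : XX D m → WW D m) t :=
      fun t => ev_trans2 h5 _ _ _ _ (H2_wne _ _ _ (by decide)) (hx2 t)
    choose δ hδ1 hδ2 hδ3 using h2
    choose δ' hδ1' hδ2' hδ3' using h3
    exact ⟨x', lamp D m δ, AA_CC m _ ⟨δ, hδ1, rfl⟩, lamp D m δ', AA_CC m _ ⟨δ', hδ1', rfl⟩,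
      H2_lamp' m _ _ _ hδ2, H2_lamp' m _ _ _ hδ3, H2_lamp' m _ _ _ hδ2', H2_lamp' m _ _ _ hδ3'⟩


end IG
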