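import Mathlib
import Pool.Agent.Helper529.IG.PH2

open Classical Equiv

namespace IG

variable {D : ℕ → ℕ → SD}


theorem cl_a {Z : Type} (a b c : Z) (hab : a ≠ b) (hac : a ≠ c) : c3 a b c a = b := by
  show sw a b (sw b c a) = b
  unfold sw
  rw [Equiv.swap_apply_of_ne_of_ne hab hac, Equiv.swap_apply_left]

theorem cl_b {Z : Type} (a b c : Z) (hac : a ≠ c) (hbc : b ≠ c) : c3 a b c b = c := by
  show sw a b (sw b c b) = c
  unfold sw
  rw [Equiv.swap_apply_left, Equiv.swap_apply_of_ne_of_ne hac.symm hbc.symm]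

theorem cl_c {Z : Type} (a b c : Z) : c3 a b c c = a := by
  show sw a b (sw b c c) = a
  unfold sw
  rw [Equiv.swap_apply_right, Equiv.swap_apply_right]

theorem cl_inv {Z : Type} (a b c : Z) : (c3 a b c)⁻¹ = c3 c b a := by
  unfold c3 sw
  rw [mul_inv_rev, Equiv.swap_inv, Equiv.swap_inv, Equiv.swap_comm b c, Equiv.swap_comm a b]

theorem cl_Rinv {Z : Type} {Λ : Subgroup (Perm Z)} {a b c : Z} (h : c3 a b c ∈ Λ) :
    c3 c b a ∈ Λ := by
  rw [← cl_inv]; exact Λ.inv_mem h

theorem cl_Rrot {Z : Type} {Λ : Subgroup (Perm Z)} {a b c : Z} (hab : a ≠ b) (hbc : b ≠ c)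
    (hac : a ≠ c) (h : c3 a b c ∈ Λ) : c3 b c a ∈ Λ := by
  have h1 : c3 a b c * c3 a b c * (c3 a b c)⁻¹ ∈ Λ := Λ.mul_mem (Λ.mul_mem h h) (Λ.inv_mem h)
  rw [c3_conj, cl_a a b c hab hac, cl_b a b c hac hbc, cl_c] at h1
  exact h1

theorem cl_four {Z : Type} {Λ : Subgroup (Perm Z)} {a b c e : Z} (hab : a ≠ b) (hac : a ≠ c)
    (hae : a ≠ e) (hbc : b ≠ c) (hbe : b ≠ e) (hce : c ≠ e) (h1 : c3 a b c ∈ Λ)
    (h2 : c3 a b e ∈ Λ) : c3 b c e ∈ Λ ∧ c3 a c e ∈ Λ := by
  constructor
  · have h3 : c3 a b c * c3 a b e * (c3 a b c)⁻¹ ∈ Λ := Λ.mul_mem (Λ.mul_mem h1 h2) (Λ.inv_mem h1)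
    rw [c3_conj, cl_a a b c hab hac, cl_b a b c hac hbc,
      c3_fix a b c e hae.symm hbe.symm hce.symm] at h3
    exact h3
  · have h1' := cl_Rinv h1
    have h3 : c3 c b a * c3 a b e * (c3 c b a)⁻¹ ∈ Λ :=
      Λ.mul_mem (Λ.mul_mem h1' h2) (Λ.inv_mem h1')
    rw [c3_conj, cl_c, cl_b c b a hac.symm hab.symm,
      c3_fix c b a e hce.symm hbe.symm hae.symm] at h3
    have h4 := cl_Rinv h3
    exact cl_Rrot hae.symm hac hce.symm h4

/-- the closure class -/
def CS0 {Z : Type} (Λ : Subgroup (Perm Z)) (p q w : Z) : Prop :=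
  w = p ∨ w = q ∨ c3 p q w ∈ Λ

theorem cl_A {Z : Type} {Λ : Subgroup (Perm Z)} {p q : Z} (hpq : p ≠ q) {b c : Z}
    (hb : CS0 Λ p q b) (hc : CS0 Λ p q c) (hbc : b ≠ c) (hbp : b ≠ p) (hcp : c ≠ p) :
    c3 p b c ∈ Λ := by
  by_cases hbq : b = q
  · subst hbq
    rcases hc with h | h | h
    · exact absurd h hcp
    · exact absurd h hbc.symm
    · exact h
  · have hb' : c3 p q b ∈ Λ := by
      rcases hb with h | h | h
      · exact absurd h hbp
      · exact absurd h hbq
      · exact h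
    by_cases hcq : c = q
    · subst hcq
      -- c3 p b c from c3 p c b
      have h1 := cl_Rinv hb'
      have h2 := cl_Rrot hbc hpq.symm hbp h1
      exact cl_Rrot hpq.symm hbp.symm hbc.symm h2
    · have hc' : c3 p q c ∈ Λ := by
        rcases hc with h | h | h
        · exact absurd h hcp
        · exact absurd h hcq
        · exact h
      exact (cl_four hpq hbp.symm hcp.symm (Ne.symm hbq) (Ne.symm hcq) hbc hb' hc').2

theorem cl_i {Z : Type} {Λ : Subgroup (Perm Z)} {p q : Z} (hpq : p ≠ q) {a b c : Z}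
    (ha : CS0 Λ p q a) (hb : CS0 Λ p q b) (hc : CS0 Λ p q c) (hab : a ≠ b) (hbc : b ≠ c)
    (hac : a ≠ c) : c3 a b c ∈ Λ := by
  by_cases hap : a = p
  · subst hap
    exact cl_A hpq hb hc hbc hab.symm hac.symm
  by_cases hbp : b = p
  · subst hbp
    have h1 := cl_A hpq hc ha hac.symm hbc.symm hab
    have h2 := cl_Rrot hbc hac.symm hab.symm h1
    exact cl_Rrot hac.symm hab hbc.symm h2
  by_cases hcp : c = p
  · subst hcp
    have h1 := cl_A hpq ha hb hab hac hbc
    exact cl_Rrot hac.symm hab hbc.symm h1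
  have h1 := cl_A hpq ha hb hab hap hbp
  have h2 := cl_A hpq ha hc hac hap hcp
  exact (cl_four (Ne.symm hap) (Ne.symm hbp) (Ne.symm hcp) hab hac hbc h1 h2).1

theorem cl_ii {Z : Type} {Λ : Subgroup (Perm Z)} {p q : Z} (hpq : p ≠ q) {a b c : Z}
    (hb : CS0 Λ p q b) (hc : CS0 Λ p q c) (hab : a ≠ b) (hbc : b ≠ c)
    (hac : a ≠ c) (h : c3 a b c ∈ Λ) : CS0 Λ p q a := by
  by_cases hap : a = p
  · exact Or.inl hap
  by_cases haq : a = q
  · exact Or.inr (Or.inl haq)
  have hSp : CS0 Λ p q p := Or.inl rfl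
  have hSq : CS0 Λ p q q := Or.inr (Or.inl rfl)
  have key : ∃ r, CS0 Λ p q r ∧ r ≠ p ∧ r ≠ a ∧ c3 p r a ∈ Λ := by
    by_cases hbp : b = p
    · subst hbp
      exact ⟨c, hc, hbc.symm, hac.symm, cl_Rrot hab hbc hac h⟩
    by_cases hcp : c = p
    · subst hcp
      refine ⟨b, hb, hbc, hab.symm, ?_⟩
      exact cl_Rinv h
    · have h1 : c3 b c p ∈ Λ := cl_i hpq hb hc hSp hbc hcp hbp
      have h2 : c3 b c a ∈ Λ := cl_Rrot hab hbc hac h
      have h3 := (cl_four hbc hbp hab.symm hcp hac.symm (Ne.symm hap) h1 h2).2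
      -- c3 b p a
      have h4 := cl_Rinv h3
      -- c3 a p b
      exact ⟨b, hb, hbp, hab.symm, cl_Rrot hap (Ne.symm hbp) hab h4⟩
  obtain ⟨r, hr, hrp, hra, h1⟩ := key
  by_cases hrq : r = q
  · subst hrq
    exact Or.inr (Or.inr h1)
  · have h2 : c3 p r q ∈ Λ := cl_i hpq hSp hr hSq hrp.symm hrq hpq
    have h3 := (cl_four hrp.symm (Ne.symm hap) hpq hra hrq haq h1 h2).2
    -- c3 p a q
    have h4 := cl_Rinv h3
    -- c3 q a p
    have h5 := cl_Rrot (Ne.symm haq) hap hpq.symm h4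
    -- c3 a p q
    exact Or.inr (Or.inr (cl_Rrot hap hpq haq h5))

theorem kk_app {Z : Type} (π : Perm Z) (z : Z) (k : K) : kk π (z, k) = (π z, k) := rfl

theorem fibP_app {X Y : Type} (x : X) (π : Perm Y) (a : X) (b : Y) :
    fibP x π (a, b) = if a = x then (a, π b) else (a, b) := rfl

theorem lX_app {X Y : Type} (g : Perm X) (a : X) (b : Y) : lX g (a, b) = (g a, b) := rfl

theorem ze_app {Z : Type} (u : K → Z) (c : K) (z : Z) (k : K) :
    ze u c (z, k) = if z = u k then (u (kx c k), kx c k) else (z, k) := rfl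

theorem kx_four' : ∀ k : K, kx (4 ^^^ k) 4 = k := by decide

theorem map_one' {X : Type} (P : Pos X) : P.map 1 = P := by
  cases P; rfl

/-- The combinatorial closure argument. -/
theorem clos {X : Type} [Finite X] (d : SD) (hd : d.Ok) (P : Pos X)
    (hP : Function.Injective P.s) (C : Set (Perm X)) (Λ : Subgroup (Perm (W X d)))
    (x1 x2 : X) (h12 : x1 ≠ x2) (h13 : x1 ≠ P.s 3) (h14 : x1 ≠ P.s 4) (h23 : x2 ≠ P.s 3)
    (h24 : x2 ≠ P.s 4)
    (b1 : c3 ((P.s 4, d.mid), (4 : K)) ((P.s 3, d.mid), 5) ((x1, d.mid), 5) ∈ Λ)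
    (b2 : c3 ((P.s 4, d.mid), (4 : K)) ((P.s 3, d.mid), 5) ((x2, d.mid), 5) ∈ Λ)
    (mv : ∀ g ∈ C, ∀ s, ∀ π ∈ Λ, FixV d s (P.map g) π →
      dl d s (P.map g) (P.s 0) * π * (dl d s (P.map g) (P.s 0))⁻¹ ∈ Λ)
    (one : (1 : Perm X) ∈ C) (tr : ∀ x, ∃ g ∈ C, g (P.s 0) = x) (tro : ∀ x, ∃ g ∈ C, g P.o = x)
    (adj : ∀ x h : X, ∃ x', ∃ g ∈ C, ∃ g' ∈ C, g (P.s 1) = x ∧ g (P.s 2) = x' ∧
      g' (P.s 1) = x' ∧ g' (P.s 2) = h) : Ev (W X d) ≤ Λ := by
  haveI := hd.fin
  have h34 : P.s 4 ≠ P.s 3 := fun h => absurd (hP h) (by decide)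
  set p : W X d := ((P.s 4, d.mid), (4 : K)) with hp
  set q : W X d := ((P.s 3, d.mid), (5 : K)) with hq
  have hpq : p ≠ q := by
    intro h
    exact h34 (congrArg (fun w : W X d => w.1.1) h)
  let S : W X d → Prop := fun w => CS0 Λ p q w
  have Sp : S p := Or.inl rfl
  have Sq : S q := Or.inr (Or.inl rfl)
  have S1 : S ((x1, d.mid), 5) := Or.inr (Or.inr b1)
  have S2 : S ((x2, d.mid), 5) := Or.inr (Or.inr b2)
  -- picking two known points outside of two fibres
  have pick : ∀ x x' : X, ∃ u u' : W X d, S u ∧ S u' ∧ u.1.1 ≠ u'.1.1 ∧ u.1.1 ≠ x ∧ u.1.1 ≠ x' ∧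
      u'.1.1 ≠ x ∧ u'.1.1 ≠ x' ∧ u.1.2 = d.mid ∧ u'.1.2 = d.mid := by
    intro x x'
    let pts : Fin 4 → W X d := ![p, q, ((x1, d.mid), 5), ((x2, d.mid), 5)]
    have hS : ∀ i, S (pts i) := by
      intro i; fin_cases i
      · exact Sp
      · exact Sq
      · exact S1
      · exact S2
    have hmid : ∀ i, (pts i).1.2 = d.mid := by
      intro i; fin_cases i <;> rfl
    have hinj : Function.Injective (fun i => (pts i).1.1) := by
      intro i j hij
      have e : (pts i).1.1 = (pts j).1.1 := hij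
      fin_cases i <;> fin_cases j <;> first
        | rfl
        | exact absurd e h34
        | exact absurd e h34.symm
        | exact absurd e h14.symm
        | exact absurd e h24.symm
        | exact absurd e h13.symm
        | exact absurd e h23.symm
        | exact absurd e h14
        | exact absurd e h24
        | exact absurd e h13
        | exact absurd e h23
        | exact absurd e h12
        | exact absurd e h12.symm
    have hc1 : ∀ z : X, (Finset.univ.filter (fun i : Fin 4 => (pts i).1.1 = z)).card ≤ 1 := by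
      intro z
      rw [Finset.card_le_one]
      intro i hi j hj
      rw [Finset.mem_filter] at hi hj
      exact hinj (hi.2.trans hj.2.symm)
    have hc2 : (Finset.univ.filter (fun i : Fin 4 => (pts i).1.1 = x ∨ (pts i).1.1 = x')).card ≤ 2 := by
      rw [Finset.filter_or]
      refine (Finset.card_union_le _ _).trans ?_
      have := hc1 x
      have := hc1 x'
      omega
    have hc3 : 1 < (Finset.univ.filter (fun i : Fin 4 => ¬ ((pts i).1.1 = x ∨ (pts i).1.1 = x'))).card := by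
      have h := Finset.card_filter_add_card_filter_not (s := (Finset.univ : Finset (Fin 4)))
        (fun i : Fin 4 => (pts i).1.1 = x ∨ (pts i).1.1 = x')
      rw [Finset.card_univ, Fintype.card_fin] at h
      omega
    rw [Finset.one_lt_card] at hc3
    obtain ⟨i, hi, j, hj, hij⟩ := hc3
    rw [Finset.mem_filter] at hi hj
    have hi2 := hi.2
    have hj2 := hj.2
    push Not at hi2 hj2
    exact ⟨pts i, pts j, hS i, hS j, fun h => hij (hinj h), hi2.1, hi2.2, hj2.1, hj2.2,
      hmid i, hmid j⟩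
  -- the moves
  have M : ∀ g ∈ C, ∀ s, ∀ w u u' : W X d, S w → S u → S u' → w ≠ u → u ≠ u' → w ≠ u' →
      dl d s (P.map g) (P.s 0) u = u → dl d s (P.map g) (P.s 0) u' = u' →
      FixV d s (P.map g) (c3 w u u') → S (dl d s (P.map g) (P.s 0) w) := by
    intro g hg s w u u' hw hu hu' hwu huu hwu' hfu hfu' hF
    have h1 : c3 w u u' ∈ Λ := cl_i hpq hw hu hu' hwu huu hwu'
    have h2 := mv g hg s _ h1 hF
    rw [c3_conj, hfu, hfu'] at h2
    refine cl_ii hpq hu hu' ?_ huu ?_ h2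
    · intro h
      apply hwu
      apply (dl d s (P.map g) (P.s 0)).injective
      rw [h, hfu]
    · intro h
      apply hwu'
      apply (dl d s (P.map g) (P.s 0)).injective
      rw [h, hfu']
  -- v-moves
  have mvV : ∀ (x : X) (y : d.Y) (k : K) (v : V4), S ((x, y), k) → S ((x, d.pv v y), k) := by
    intro x y k v hw
    by_cases hy : y = d.e1
    · rw [hy, hd.pv_e1, ← hy]; exact hw
    obtain ⟨g, hg, hgx⟩ := tr x
    obtain ⟨⟨⟨a, b⟩, l⟩, ⟨⟨a', b'⟩, l'⟩, hu, hu', haa, hax, -, hax', -, hb, hb'⟩ := pick x x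
    simp only at haa hax hax' hb hb'
    have hf : ∀ (a : X) (b : d.Y) (l : K), dl d (Gen.v v) (P.map g) (P.s 0) ((a, b), l) =
        (if a = x then (a, d.pv v b) else (a, b), l) := by
      intro a b l
      show kk (fibP (g (P.s 0)) (d.pv v)) ((a, b), l) = _
      rw [hgx, kk_app, fibP_app]
    have h := M g hg (Gen.v v) ((x, y), k) ((a, b), l) ((a', b'), l') hw hu hu'
      (fun h => hax (congrArg (fun w : W X d => w.1.1) h).symm)
      (fun h => haa (congrArg (fun w : W X d => w.1.1) h))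
      (fun h => hax' (congrArg (fun w : W X d => w.1.1) h).symm)
      (by rw [hf, if_neg hax]) (by rw [hf, if_neg hax']) (by
        show ∀ k' : K, c3 _ _ _ ((g (P.s 0), d.e1), k') = ((g (P.s 0), d.e1), k')
        intro k'
        apply c3_fix
        · intro h; exact hy (congrArg (fun w : W X d => w.1.2) h).symm
        · intro h; exact hd.me1 (hb.symm.trans (congrArg (fun w : W X d => w.1.2) h).symm)
        · intro h; exact hd.me1 (hb'.symm.trans (congrArg (fun w : W X d => w.1.2) h).symm))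
    rw [hf, if_pos rfl] at h
    exact h
  -- a-moves
  have mvA : ∀ (x : X) (y : d.Y) (k : K), S ((x, y), k) → S ((x, d.pa y), k) := by
    intro x y k hw
    by_cases hy : y = d.e0
    · rw [hy, hd.pa_e0, ← hy]; exact hw
    obtain ⟨g, hg, hgx⟩ := tro x
    obtain ⟨⟨⟨a, b⟩, l⟩, ⟨⟨a', b'⟩, l'⟩, hu, hu', haa, hax, -, hax', -, hb, hb'⟩ := pick x x
    simp only at haa hax hax' hb hb'
    have hf : ∀ (a : X) (b : d.Y) (l : K), dl d Gen.a (P.map g) (P.s 0) ((a, b), l) =
        (if a = x then (a, d.pa b) else (a, b), l) := by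
      intro a b l
      show kk (fibP (g P.o) d.pa) ((a, b), l) = _
      rw [hgx, kk_app, fibP_app]
    have h := M g hg Gen.a ((x, y), k) ((a, b), l) ((a', b'), l') hw hu hu'
      (fun h => hax (congrArg (fun w : W X d => w.1.1) h).symm)
      (fun h => haa (congrArg (fun w : W X d => w.1.1) h))
      (fun h => hax' (congrArg (fun w : W X d => w.1.1) h).symm)
      (by rw [hf, if_neg hax]) (by rw [hf, if_neg hax']) (by
        show c3 _ _ _ ((g P.o, d.e0), 0) = ((g P.o, d.e0), 0)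
        apply c3_fix
        · intro h; exact hy (congrArg (fun w : W X d => w.1.2) h).symm
        · intro h; exact hd.me0 (hb.symm.trans (congrArg (fun w : W X d => w.1.2) h).symm)
        · intro h; exact hd.me0 (hb'.symm.trans (congrArg (fun w : W X d => w.1.2) h).symm))
    rw [hf, if_pos rfl] at h
    exact h
  -- x-moves
  have mvX : ∀ g ∈ C, ∀ (x : X) (k : K), S ((x, d.mid), k) →
      S ((sw (g (P.s 1)) (g (P.s 2)) x, d.mid), k) := by
    intro g hg x k hw
    by_cases hx : x = g (P.s 1) ∨ x = g (P.s 2)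
    swap
    · push Not at hx
      have : sw (g (P.s 1)) (g (P.s 2)) x = x := by
        unfold sw; exact Equiv.swap_apply_of_ne_of_ne hx.1 hx.2
      rw [this]; exact hw
    obtain ⟨⟨⟨a, b⟩, l⟩, ⟨⟨a', b'⟩, l'⟩, hu, hu', haa, ha1, ha2, ha1', ha2', hb, hb'⟩ :=
      pick (g (P.s 1)) (g (P.s 2))
    simp only at haa ha1 ha2 ha1' ha2' hb hb'
    have hf : ∀ (a : X) (b : d.Y) (l : K), dl d Gen.x (P.map g) (P.s 0) ((a, b), l) =
        ((sw (g (P.s 1)) (g (P.s 2)) a, b), l) := by
      intro a b l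
      rfl
    have hfix : ∀ a : X, a ≠ g (P.s 1) → a ≠ g (P.s 2) → sw (g (P.s 1)) (g (P.s 2)) a = a := by
      intro a h1 h2
      unfold sw; exact Equiv.swap_apply_of_ne_of_ne h1 h2
    have hxa : x ≠ a := by
      rintro rfl
      rcases hx with hx | hx
      · exact ha1 hx
      · exact ha2 hx
    have hxa' : x ≠ a' := by
      rintro rfl
      rcases hx with hx | hx
      · exact ha1' hx
      · exact ha2' hx
    have h := M g hg Gen.x ((x, d.mid), k) ((a, b), l) ((a', b'), l') hw hu hu'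
      (fun h => hxa (congrArg (fun w : W X d => w.1.1) h))
      (fun h => haa (congrArg (fun w : W X d => w.1.1) h))
      (fun h => hxa' (congrArg (fun w : W X d => w.1.1) h))
      (by rw [hf, hfix a ha1 ha2]) (by rw [hf, hfix a' ha1' ha2']) (by
        show ∀ k' : K, c3 _ _ _ ((g (P.s 0), d.e1), k') = ((g (P.s 0), d.e1), k')
        intro k'
        apply c3_fix
        · intro h; exact hd.me1 (congrArg (fun w : W X d => w.1.2) h).symm
        · intro h; exact hd.me1 (hb.symm.trans (congrArg (fun w : W X d => w.1.2) h).symm)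
        · intro h; exact hd.me1 (hb'.symm.trans (congrArg (fun w : W X d => w.1.2) h).symm))
    rw [hf] at h
    exact h
  have allX : ∀ (x h : X) (k : K), S ((x, d.mid), k) → S ((h, d.mid), k) := by
    intro x h k hw
    obtain ⟨x', g, hg, g', hg', e1, e2, e3, e4⟩ := adj x h
    have w1 := mvX g hg x k hw
    have e5 : sw (g (P.s 1)) (g (P.s 2)) x = x' := by
      rw [e1, e2]; unfold sw; exact Equiv.swap_apply_left _ _
    rw [e5] at w1
    have w2 := mvX g' hg' x' k w1
    have e6 : sw (g' (P.s 1)) (g' (P.s 2)) x' = h := by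
      rw [e3, e4]; unfold sw; exact Equiv.swap_apply_left _ _
    rw [e6] at w2
    exact w2
  -- z-moves
  have mvZ : ∀ k : K, S ((P.s (ph k), d.mid), k) := by
    intro k
    have hf : ∀ (a : X) (b : d.Y) (l : K),
        dl d (Gen.z (4 ^^^ k)) (P.map 1) (P.s 0) ((a, b), l) =
        ze (fun k => (P.s (ph k), d.mid)) (4 ^^^ k) ((a, b), l) := by
      intro a b l
      rw [map_one']
      show (if P.s 0 = P.s 0 then ze (fun k => (P.s (ph k), d.mid)) (4 ^^^ k) else 1)
        ((a, b), l) = _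
      rw [if_pos rfl]
    have hph : ∀ l : K, ph l = 4 ∨ ph l = 3 := by
      intro l; unfold ph; split_ifs
      · exact Or.inl rfl
      · exact Or.inr rfl
    have hfx : ∀ x : X, x ≠ P.s 3 → x ≠ P.s 4 → ∀ l : K,
        dl d (Gen.z (4 ^^^ k)) (P.map 1) (P.s 0) ((x, d.mid), l) = ((x, d.mid), l) := by
      intro x hx3 hx4 l
      rw [hf, ze_app, if_neg]
      intro h
      have h' : x = P.s (ph l) := congrArg Prod.fst h
      rcases hph l with h2 | h2
      · rw [h2] at h'; exact hx4 h'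
      · rw [h2] at h'; exact hx3 h'
    have h := M 1 one (Gen.z (4 ^^^ k)) p ((x1, d.mid), 5) ((x2, d.mid), 5) Sp S1 S2
      (fun h => h14 (congrArg (fun w : W X d => w.1.1) h).symm)
      (fun h => h12 (congrArg (fun w : W X d => w.1.1) h))
      (fun h => h24 (congrArg (fun w : W X d => w.1.1) h).symm)
      (hfx x1 h13 h14 5) (hfx x2 h23 h24 5) (by
        show ∀ k' : K, c3 _ _ _ (((1 : Perm X) (P.s 0), d.e1), k') =
          (((1 : Perm X) (P.s 0), d.e1), k')
        intro k'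
        apply c3_fix
        · intro h; exact hd.me1 (congrArg (fun w : W X d => w.1.2) h).symm
        · intro h; exact hd.me1 (congrArg (fun w : W X d => w.1.2) h).symm
        · intro h; exact hd.me1 (congrArg (fun w : W X d => w.1.2) h).symm)
    have hkx : kx (4 ^^^ k) 4 = k := kx_four' k
    rw [hp, hf, ze_app, hkx, if_pos (by
      show (P.s 4, d.mid) = (P.s (ph 4), d.mid)
      rfl)] at h
    exact h
  have allK : ∀ (x : X) (k : K), S ((x, d.mid), k) := fun x k => allX _ x k (mvZ k)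
  have all : ∀ (x : X) (y : d.Y) (k : K), S ((x, y), k) := by
    intro x y k
    exact hd.conn {y | S ((x, y), k)} (allK x k) (fun y hy => mvA x y k hy)
      (fun y hy v => mvV x y k v hy) y
  apply ev_le_of_three
  rintro ⟨⟨a, b⟩, l⟩ ⟨⟨a', b'⟩, l'⟩ ⟨⟨a'', b''⟩, l''⟩ h1 h2 h3
  exact cl_i hpq (all _ _ _) (all _ _ _) (all _ _ _) h1 h2 h3


end IG
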