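import Mathlib
import Pool.Agent.Helper529.IG.PI

open Classical Equiv

namespace IG

variable {D : ℕ → ℕ → SD}


theorem tl_GG (hD : ∀ M n, (D M n).Ok) (m : ℕ) (hC : CC D m ⊆ GG D) (s : Gen) :
    tl D m s ∈ GG D := by
  have h := Phi_split hD m s
  have h2 : tl D m s = (E D m s)⁻¹ * Phi D s := by rw [h, inv_mul_cancel_left]
  rw [h2]
  exact (GG D).mul_mem ((GG D).inv_mem (hC (E_CC hD m s))) (Subgroup.subset_closure ⟨s, rfl⟩)

theorem h45_fixv_one {X : Type} (d : SD) (s : Gen) (P : Pos X) :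
    FixV d s P (1 : Perm (W X d)) := by
  cases s <;> simp [FixV]

theorem h45_lampS_inv (m : ℕ) (t : XX D m) (π : Perm (WW D m)) :
    (lampS D m t π)⁻¹ = lampS D m t π⁻¹ := by
  unfold lampS
  rw [lamp_inv]
  congr 1
  funext t'
  split_ifs
  · rfl
  · exact inv_one

theorem lamp_mv (hD : ∀ M n, (D M n).Ok) (m : ℕ) (hC : CC D m ⊆ GG D) (g : Gam D)
    (hg : g ∈ CC D m) (s : Gen) (t : XX D m) (π : Perm (WW D m))
    (hπ : FixV (DD D m) s ((T D m).pos.map (g m)) π) (h : lampS D m t π ∈ GG D) :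
    lampS D m t (dl (DD D m) s ((T D m).pos.map (g m)) t * π *
      (dl (DD D m) s ((T D m).pos.map (g m)) t)⁻¹) ∈ GG D := by
  have hcan : Can D m g := CC_can m g hg
  have hR : Seq D m (fun M => ((T D M).pos).map (g M)) := seq_map m g hcan _ (seq_pos m)
  have hok : OKp s ((T D m).pos.map (g m)) s ((T D m).pos.map (g m)) :=
    okp_map s s (g m) _ _ (okp_pos hD s s m)
  have e1 : g * tl D m s * g⁻¹ = tq D m s (fun M => ((T D M).pos).map (g M)) := by
    rw [tl_eq]
    exact tq_conj m s g hcan _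
  have e2 := tq_step hD m s (fun M => ((T D M).pos).map (g M)) hR hok
  have hmem : g * tl D m s * g⁻¹ ∈ GG D :=
    (GG D).mul_mem ((GG D).mul_mem (hC hg) (tl_GG hD m hC s)) ((GG D).inv_mem (hC hg))
  have hcomm : Commute (lampS D m t π) (tq D (m + 1) s (fun M => ((T D M).pos).map (g M))) := by
    apply lamp_comm_tq m _ s _ hR
    intro t'
    split_ifs
    · exact hπ
    · exact h45_fixv_one _ _ _
  have hmem2 : (g * tl D m s * g⁻¹) * lampS D m t π * (g * tl D m s * g⁻¹)⁻¹ ∈ GG D :=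
    (GG D).mul_mem ((GG D).mul_mem hmem h) ((GG D).inv_mem hmem)
  rw [e1, e2] at hmem2
  have e3 : lamp D m (dl (DD D m) s ((T D m).pos.map (g m))) *
      tq D (m + 1) s (fun M => ((T D M).pos).map (g M)) * lampS D m t π *
      (lamp D m (dl (DD D m) s ((T D m).pos.map (g m))) *
      tq D (m + 1) s (fun M => ((T D M).pos).map (g M)))⁻¹ =
      lamp D m (dl (DD D m) s ((T D m).pos.map (g m))) * lampS D m t π *
      (lamp D m (dl (DD D m) s ((T D m).pos.map (g m))))⁻¹ := by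
    have hc := hcomm.eq
    generalize tq D (m + 1) s (fun M => ((T D M).pos).map (g M)) = B at *
    generalize lampS D m t π = L at *
    generalize lamp D m (dl (DD D m) s ((T D m).pos.map (g m))) = A at *
    rw [mul_inv_rev, mul_assoc A B L, ← hc]
    group
  rw [e3] at hmem2
  have e4 : lamp D m (dl (DD D m) s ((T D m).pos.map (g m))) * lampS D m t π *
      (lamp D m (dl (DD D m) s ((T D m).pos.map (g m))))⁻¹ =
      lampS D m t (dl (DD D m) s ((T D m).pos.map (g m)) t * π *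
      (dl (DD D m) s ((T D m).pos.map (g m)) t)⁻¹) := by
    unfold lampS
    rw [lamp_inv, lamp_mul, lamp_mul]
    congr 1
    funext t'
    show dl (DD D m) s ((T D m).pos.map (g m)) t' * (if t' = t then π else 1) *
      (dl (DD D m) s ((T D m).pos.map (g m)) t')⁻¹ = _
    by_cases ht : t' = t
    · subst ht
      rw [if_pos rfl, if_pos rfl]
    · rw [if_neg ht, if_neg ht, mul_one, mul_inv_cancel]
  rw [e4] at hmem2
  exact hmem2

theorem lamp_first (hD : ∀ M n, (D M n).Ok) (m : ℕ) (hC : CC D m ⊆ GG D) (g : Gam D)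
    (hg : g ∈ CC D m) (h0 : g m ((T D m).pos.s 0) = (T D m).pos.s 0)
    (h4 : g m ((T D m).pos.s 4) = (T D m).pos.s 4)
    (h3 : g m ((T D m).pos.s 3) ≠ (T D m).pos.s 3)
    (h34 : g m ((T D m).pos.s 3) ≠ (T D m).pos.s 4) :
    lampS D m ((T D m).pos.s 0) (c3 (((T D m).pos.s 4, (DD D m).mid), (4 : K))
      (((T D m).pos.s 3, (DD D m).mid), 5) ((g m ((T D m).pos.s 3), (DD D m).mid), 5)) ∈ GG D := by
  have hcan : Can D m g := CC_can m g hg
  have hok := okp_pos hD (Gen.z 1) (Gen.z 1) m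
  have hseq : Seq D m (fun M => (T D M).pos) := seq_pos m
  have e2 := tq_step hD m (Gen.z 1) (fun M => (T D M).pos) hseq hok
  have htl : tl D m (Gen.z 1) ∈ GG D := tl_GG hD m hC (Gen.z 1)
  rw [tl_eq, e2] at htl
  have hg' : g ∈ GG D := hC hg
  -- the two lamps
  have ea1 : lamp D m (dl (DD D m) (Gen.z 1) (T D m).pos) = lampS D m ((T D m).pos.s 0)
      (ze (fun k => ((T D m).pos.s (ph k), (DD D m).mid)) 1) := rfl
  have ea2 : g * lamp D m (dl (DD D m) (Gen.z 1) (T D m).pos) * g⁻¹ =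
      lampS D m ((T D m).pos.s 0)
      (ze (fun k => (g m ((T D m).pos.s (ph k)), (DD D m).mid)) 1) := by
    rw [lamp_conj m g hcan, dl_conj]
    unfold lampS
    congr 1
    funext t'
    show (if t' = g m ((T D m).pos.s 0) then _ else _) = _
    rw [h0]
    rfl
  have hc1 : Commute (lamp D m (dl (DD D m) (Gen.z 1) (T D m).pos))
      (tq D (m + 1) (Gen.z 1) (fun M => (T D M).pos)) := by
    apply lamp_comm_tq m _ (Gen.z 1) _ hseq
    intro t'
    exact okp_fix (hD m _) (Gen.z 1) (Gen.z 1) _ _ hok t'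
  have hcg : Commute g (tq D (m + 1) (Gen.z 1) (fun M => (T D M).pos)) := by
    apply can_comm_tq (m + 1) g (can_mono m (m + 1) (Nat.le_succ m) g hcan) (Gen.z 1)
      (fun M => (T D M).pos) (seq_mono m (m + 1) (Nat.le_succ m) _ hseq)
    have h1 := can_succ m m le_rfl g hcan
    show (((T D (m + 1)).pos).map (g (m + 1))).s = ((T D (m + 1)).pos).s
    rw [h1]
    funext k
    funext t
    show ((g m ((T D m).pos.s 0), (DD D m).e1), k) = (((T D m).pos.s 0, (DD D m).e1), k)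
    rw [h0]
  have hc2 : Commute (g * lamp D m (dl (DD D m) (Gen.z 1) (T D m).pos) * g⁻¹)
      (tq D (m + 1) (Gen.z 1) (fun M => (T D M).pos)) :=
    (hcg.mul_left hc1).mul_left hcg.inv_left
  have hmem1 : g * (lamp D m (dl (DD D m) (Gen.z 1) (T D m).pos) *
      tq D (m + 1) (Gen.z 1) (fun M => (T D M).pos)) * g⁻¹ ∈ GG D :=
    (GG D).mul_mem ((GG D).mul_mem hg' htl) ((GG D).inv_mem hg')
  have e3 : g * (lamp D m (dl (DD D m) (Gen.z 1) (T D m).pos) *
      tq D (m + 1) (Gen.z 1) (fun M => (T D M).pos)) * g⁻¹ =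
      (g * lamp D m (dl (DD D m) (Gen.z 1) (T D m).pos) * g⁻¹) *
      tq D (m + 1) (Gen.z 1) (fun M => (T D M).pos) := by
    have h1 := hcg.inv_left.eq
    generalize tq D (m + 1) (Gen.z 1) (fun M => (T D M).pos) = B at *
    rw [mul_assoc g _ g⁻¹, mul_assoc _ B g⁻¹, ← h1]
    group
  rw [e3, ea2] at hmem1
  rw [ea2] at hc2
  rw [ea1] at htl hc1
  have hcomm : ∀ a b t : Gam D, Commute a t → Commute b t → a * t ∈ GG D → b * t ∈ GG D →
      a * b * a⁻¹ * b⁻¹ ∈ GG D := by
    intro a b t ha hb h1 h2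
    have h5 : a * t * (b * t) * (a * t)⁻¹ * (b * t)⁻¹ ∈ GG D :=
      (GG D).mul_mem ((GG D).mul_mem ((GG D).mul_mem h1 h2) ((GG D).inv_mem h1))
        ((GG D).inv_mem h2)
    have h6 : a * t * (b * t) * (a * t)⁻¹ * (b * t)⁻¹ = a * b * a⁻¹ * b⁻¹ := by
      have h7 : Commute (b * a⁻¹) t := hb.mul_left ha.inv_left
      have h8 : t * (b * a⁻¹) * t⁻¹ = b * a⁻¹ := by
        rw [← h7.eq, mul_assoc, mul_inv_cancel, mul_one]
      calc a * t * (b * t) * (a * t)⁻¹ * (b * t)⁻¹ = a * (t * (b * a⁻¹) * t⁻¹) * b⁻¹ := by group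
        _ = a * b * a⁻¹ * b⁻¹ := by rw [h8]; group
    rw [h6] at h5
    exact h5
  have hfin := hcomm _ _ _ hc1 hc2 htl hmem1
  rw [h45_lampS_inv, h45_lampS_inv, lampS_mul, lampS_mul, lampS_mul] at hfin
  have hz := ze_comm (fun k => ((T D m).pos.s (ph k), (DD D m).mid))
    (fun k => (g m ((T D m).pos.s (ph k)), (DD D m).mid)) (by
      show ((T D m).pos.s (ph 4), (DD D m).mid) = (g m ((T D m).pos.s (ph 4)), (DD D m).mid)
      have : ph 4 = 4 := rfl
      rw [this, h4]) (by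
      intro k hk heq
      have h9 : ph k = 3 := if_neg hk
      have h10 := congrArg Prod.fst heq
      simp only [h9] at h10
      exact h3 h10.symm)
  rw [hz] at hfin
  exact hfin


end IG
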