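import Mathlib
import Pool.Agent.Helper529.IG.PJ1

open Classical Equiv

namespace IG

variable {D : ℕ → ℕ → SD}


theorem lampS_one_9783 (m : ℕ) (t : XX D m) : lampS D m t 1 = 1 := by
  unfold lampS
  rw [← lamp_one (D := D) m]
  congr 1
  funext t'
  split_ifs <;> rfl

theorem AA_step (hD : ∀ M n, (D M n).Ok) (m : ℕ) (hC : CC D m ⊆ GG D) : AA D m ⊆ GG D := by
  haveI := fin_XX hD m
  let Λ : Subgroup (Perm (WW D m)) :=
    { carrier := {π | lampS D m ((T D m).pos.s 0) π ∈ GG D}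
      mul_mem' := by
        intro a b ha hb
        show lampS D m _ (a * b) ∈ GG D
        rw [← lampS_mul]
        exact (GG D).mul_mem ha hb
      one_mem' := by
        show lampS D m _ 1 ∈ GG D
        rw [lampS_one_9783]
        exact (GG D).one_mem
      inv_mem' := by
        intro a ha
        show lampS D m _ a⁻¹ ∈ GG D
        have e : lampS D m ((T D m).pos.s 0) a * lampS D m ((T D m).pos.s 0) a⁻¹ = 1 := by
          rw [lampS_mul, mul_inv_cancel, lampS_one_9783]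
        have e' : lampS D m ((T D m).pos.s 0) a⁻¹ = (lampS D m ((T D m).pos.s 0) a)⁻¹ :=
          (inv_eq_of_mul_eq_one_right e).symm
        rw [e']
        exact (GG D).inv_mem ha }
  have hΛ : ∀ π, π ∈ Λ ↔ lampS D m ((T D m).pos.s 0) π ∈ GG D := fun π => Iff.rfl
  obtain ⟨g, hg, g', hg', q0, q4, q0', q4', q3, q34, q3', q34', q33⟩ := CC_mover hD m
  have key : Ev (W (XX D m) (DD D m)) ≤ Λ := by
    refine clos (X := XX D m) (DD D m) (hD _ _) (T D m).pos (pos_inj hD m).1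
      {x | ∃ g ∈ CC D m, g m = x} Λ (g m ((T D m).pos.s 3)) (g' m ((T D m).pos.s 3))
      q33 q3 q34 q3' q34' ?_ ?_ ?_ ?_ ?_ ?_ ?_
    · rw [hΛ]
      exact lamp_first hD m hC g hg q0 q4 q3 q34
    · rw [hΛ]
      exact lamp_first hD m hC g' hg' q0' q4' q3' q34'
    · rintro _ ⟨g0, hg0, rfl⟩ s π hπ hfix
      rw [hΛ] at hπ ⊢
      exact lamp_mv hD m hC g0 hg0 s _ π hfix hπ
    · exact ⟨1, CC_one m, rfl⟩
    · intro x
      obtain ⟨g, hg, hx⟩ := CC_trans hD m ((T D m).pos.s 0) x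
      exact ⟨g m, ⟨g, hg, rfl⟩, hx⟩
    · intro x
      obtain ⟨g, hg, hx⟩ := CC_trans hD m (T D m).pos.o x
      exact ⟨g m, ⟨g, hg, rfl⟩, hx⟩
    · intro x h
      obtain ⟨x', g, hg, g', hg', r1, r2, r3, r4⟩ := CC_adj hD m x h
      exact ⟨x', g m, ⟨g, hg, rfl⟩, g' m, ⟨g', hg', rfl⟩, r1, r2, r3, r4⟩
  refine AA_of_single hD m (GG D) fun t π hπ => ?_
  obtain ⟨h, hh, ht⟩ := CC_trans hD m ((T D m).pos.s 0) t
  have hπ' : (gW (h m))⁻¹ * π * gW (h m) ∈ Ev (WW D m) := by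
    have := ev_conj ((gW (h m))⁻¹ : Perm (WW D m)) π hπ
    rwa [inv_inv] at this
  have hin : lampS D m ((T D m).pos.s 0) ((gW (h m))⁻¹ * π * gW (h m)) ∈ GG D := key hπ'
  have e := lampS_conj m h (CC_can m h hh) ((T D m).pos.s 0) ((gW (h m))⁻¹ * π * gW (h m))
  have e2 : gW (h m) * ((gW (h m))⁻¹ * π * gW (h m)) * (gW (h m))⁻¹ = π := by group
  rw [e2, ht] at e
  rw [← e]
  exact (GG D).mul_mem ((GG D).mul_mem (hC hh) hin) ((GG D).inv_mem (hC hh))

theorem CC_GG (hD : ∀ M n, (D M n).Ok) (m : ℕ) : CC D m ⊆ GG D := by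
  induction m with
  | zero =>
    rintro g ⟨σ, δ, rfl, h1, -⟩
    have e : mk D σ δ = Phi D (Gen.r σ) := by
      rw [Phi_eq]
      have hδ : δ = fun M t => dl (DD D M) (Gen.r σ) (T D M).pos t := by
        funext M t
        rw [h1 M (Nat.zero_le M) t]
        rfl
      rw [hδ]
      rfl
    rw [e]
    exact Subgroup.subset_closure ⟨_, rfl⟩
  | succ m ih =>
    intro g hg
    obtain ⟨a, ha, h, hh, rfl⟩ := CC_succ m g hg
    exact (GG D).mul_mem (AA_step hD m ih ha) (ih hh)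

theorem AA_GG (hD : ∀ M n, (D M n).Ok) (m : ℕ) : AA D m ⊆ GG D := by
  exact AA_step hD m (CC_GG hD m)


end IG
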