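import Mathlib
import Pool.Agent.Helper529.IG.PJ2

open Classical Equiv

namespace IG

variable {D : ℕ → ℕ → SD}


theorem F1 (hD : ∀ M n, (D M n).Ok) (H : Subgroup (Gam D)) (hH : H ≤ GG D)
    (hn : ∀ g ∈ GG D, ∀ h ∈ H, g * h * g⁻¹ ∈ H) (hfin : (H.subgroupOf (GG D)).FiniteIndex) :
    ∃ m0, ∀ m, m0 ≤ m → AA D m ⊆ H := by
  refine ⟨Nat.card (GG D ⧸ H.subgroupOf (GG D)), fun m hm => ?_⟩
  refine AA_of_single hD m H fun t => ?_
  have hfw : Finite (WW D m) := fin_WW hD m
  have hcw : m + 9 ≤ Nat.card (WW D m) := card_WW hD m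
  have l1 : lampS D m t 1 = 1 := by
    have h := lampS_mul (D := D) m t 1 1
    rw [mul_one] at h
    exact mul_eq_left.mp h
  have linv : ∀ π : Perm (WW D m), (lampS D m t π)⁻¹ = lampS D m t π⁻¹ := by
    intro π
    rw [inv_eq_iff_mul_eq_one, lampS_mul, mul_inv_cancel, l1]
  have hG : ∀ π ∈ Ev (WW D m), lampS D m t π ∈ GG D := fun π hπ =>
    AA_GG hD m (lampS_AA hD m t π hπ)
  let N : Subgroup (Perm (WW D m)) :=
    { carrier := {π | π ∈ Ev (WW D m) ∧ lampS D m t π ∈ H}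
      mul_mem' := by
        rintro a b ⟨ha, ha'⟩ ⟨hb, hb'⟩
        refine ⟨mul_mem ha hb, ?_⟩
        rw [← lampS_mul]
        exact mul_mem ha' hb'
      one_mem' := by
        refine ⟨one_mem _, ?_⟩
        rw [l1]
        exact one_mem _
      inv_mem' := by
        rintro a ⟨ha, ha'⟩
        refine ⟨inv_mem ha, ?_⟩
        rw [← linv]
        exact inv_mem ha' }
  have hNmem : ∀ π, π ∈ N ↔ π ∈ Ev (WW D m) ∧ lampS D m t π ∈ H := fun π => Iff.rfl
  have hNb : N ≠ ⊥ := by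
    intro hbot
    have hnt : Nontrivial (WW D m) := by
      rw [← Finite.one_lt_card_iff_nontrivial]
      omega
    obtain ⟨a, b, hab⟩ := exists_pair_ne (WW D m)
    have hch : ∀ z : WW D m, ∃ s ∈ Ev (WW D m), s a = z := by
      intro z
      obtain ⟨w, hw⟩ := exists_ne z
      obtain ⟨s, hs, h1, _⟩ := ev_trans2 (Z := WW D m) (by omega) a b z w hab hw.symm
      exact ⟨s, hs, h1⟩
    choose S hS hSa using hch
    have hfq : Finite (GG D ⧸ H.subgroupOf (GG D)) := Subgroup.finite_quotient_of_finiteIndex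
    let f : WW D m → GG D ⧸ H.subgroupOf (GG D) := fun z =>
      QuotientGroup.mk ⟨lampS D m t (S z), hG _ (hS z)⟩
    have hinj : Function.Injective f := by
      intro z z' h
      have h1 := QuotientGroup.eq.1 h
      rw [Subgroup.mem_subgroupOf] at h1
      have h2 : (lampS D m t (S z))⁻¹ * lampS D m t (S z') ∈ H := h1
      rw [linv, lampS_mul] at h2
      have h3 : (S z)⁻¹ * S z' ∈ N := (hNmem _).2 ⟨mul_mem (inv_mem (hS z)) (hS z'), h2⟩
      rw [hbot, Subgroup.mem_bot, inv_mul_eq_one] at h3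
      rw [← hSa z, ← hSa z', h3]
    have := Nat.card_le_card_of_injective f hinj
    omega
  have hle := ev_simple (Z := WW D m) (by omega) N (fun π hπ => hπ.1) (by
    rintro s hs n ⟨hn1, hn2⟩
    refine ⟨mul_mem (mul_mem hs hn1) (inv_mem hs), ?_⟩
    rw [← lampS_mul, ← lampS_mul, ← linv]
    exact hn _ (hG s hs) _ hn2) hNb
  intro π hπ
  exact (hle hπ).2


end IG
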