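import Mathlib
import Pool.Agent.Helper529.IG.PK1

open Classical Equiv

namespace IG

variable {D : ℕ → ℕ → SD}


theorem Th_comm_aux (m : ℕ) (t : XX D m) (π : Perm (WW D m)) (f : XX D m → WW D m)
    (h : π (f t) = f t) : (lampS D m t π (m + 1) : Perm (XX D m → WW D m)) f = f := by
  unfold lampS
  have h1 := lamp_at (D := D) m (fun t' => if t' = t then π else 1)
  rw [h1]
  funext t'
  show (if t' = t then π else 1 : Perm (WW D m)) (f ((1 : Perm (XX D m))⁻¹ t')) = f t'
  have h2 : (1 : Perm (XX D m))⁻¹ t' = t' := by simp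
  rw [h2]
  by_cases h3 : t' = t
  · subst h3
    simp [h]
  · simp [h3]

theorem Th_comm_aux2 (m : ℕ) (t : XX D m) (π : Perm (WW D m)) (s : Gen)
    (P : Pos (XX D m → WW D m)) (ho : π (P.o t) = P.o t) (hs : ∀ k, π (P.s k t) = P.s k t) :
    Agr s (P.map (lampS D m t π (m + 1) : Perm (XX D m → WW D m))) P := by
  have h1 : (lampS D m t π (m + 1) : Perm (XX D m → WW D m)) P.o = P.o := Th_comm_aux m t π _ ho
  have h2 : (fun k => (lampS D m t π (m + 1) : Perm (XX D m → WW D m)) (P.s k)) = P.s :=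
    funext fun k => Th_comm_aux m t π _ (hs k)
  cases s with
  | r ρ => trivial
  | a => exact h1
  | v v => exact h2
  | x => exact h2
  | z c => exact h2

theorem Th_comm_aux3 (m : ℕ) (t : XX D m) (s : Gen) (g : Gam D) (hg : Can D (m + 1) g) :
    ∃ B : Finset (WW D m), B.card ≤ 9 ∧ ∀ π : Perm (WW D m), (∀ w ∈ B, π w = w) →
      Commute (lampS D m t π) (g * tl D (m + 1) s * g⁻¹) := by
  have hR : Seq D (m + 1) (fun M => (T D M).pos.map (g M)) :=
    seq_map (m + 1) g hg _ (seq_pos (m + 1))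
  have h1 : g * tl D (m + 1) s * g⁻¹ = tq D (m + 1) s (fun M => (T D M).pos.map (g M)) := by
    rw [tl_eq, tq_conj _ _ _ hg]
  let P : Pos (XX D m → WW D m) := (T D (m + 1)).pos.map (g (m + 1))
  refine ⟨insert (P.o t) (Finset.univ.image fun k : K => P.s k t), ?_, ?_⟩
  · refine (Finset.card_insert_le _ _).trans ?_
    have h2 : (Finset.univ.image fun k : K => P.s k t).card ≤ (Finset.univ : Finset K).card :=
      Finset.card_image_le
    have h3 : (Finset.univ : Finset K).card = 8 := by simp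
    omega
  · intro π hπ
    rw [h1]
    refine can_comm_tq (m + 1) _ (lamp_can m _) s _ hR ?_
    exact Th_comm_aux2 m t π s P (hπ _ (Finset.mem_insert_self _ _))
      (fun k => hπ _ (Finset.mem_insert_of_mem (Finset.mem_image_of_mem _ (Finset.mem_univ k))))

theorem Th_comm (hD : ∀ M n, (D M n).Ok) (m : ℕ) (t : XX D m) (l : List Gen) :
    ∃ B : Finset (WW D m), B.card ≤ 9 * l.length ∧ ∀ π : Perm (WW D m), (∀ w ∈ B, π w = w) →
      Commute (lampS D m t π) (Th D (m + 1) l) := by
  induction l with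
  | nil => exact ⟨∅, by simp, fun π _ => Commute.one_right _⟩
  | cons s l ih =>
    obtain ⟨B, hB, hc⟩ := ih
    obtain ⟨B', hB', hc'⟩ := Th_comm_aux3 m t s (EE D (m + 1) l)⁻¹
      (can_inv _ _ (EE_can (m + 1) l))
    rw [inv_inv] at hc'
    refine ⟨B ∪ B', ?_, fun π hπ => ?_⟩
    · refine (Finset.card_union_le _ _).trans ?_
      rw [List.length_cons]
      omega
    · exact (hc' π fun w hw => hπ w (Finset.mem_union_right _ hw)).mul_right
        (hc π fun w hw => hπ w (Finset.mem_union_left _ hw))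


end IG
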