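import Mathlib
import Pool.Agent.Helper529.IG.PK2

open Classical Equiv

namespace IG

variable {D : ℕ → ℕ → SD}


theorem ev_move {Z : Type} [Finite Z] (h5 : 5 ≤ Nat.card Z) (w : Z) : ∃ s ∈ Ev Z, s w ≠ w := by
  haveI : Nontrivial Z := Finite.one_lt_card_iff_nontrivial.1 (by omega)
  obtain ⟨d, hd⟩ := exists_ne w
  obtain ⟨s, hs, h1, h2⟩ := ev_trans2 h5 w d d w hd.symm hd
  exact ⟨s, hs, by rw [h1]; exact hd⟩

theorem lampS_one (m : ℕ) (t : XX D m) : lampS D m t 1 = 1 := by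
  unfold lampS
  rw [← lamp_one m]
  congr 1
  funext t'
  by_cases h : t' = t
  · rw [if_pos h]
  · rw [if_neg h]

theorem lampS_inv (m : ℕ) (t : XX D m) (π : Perm (WW D m)) : (lampS D m t π)⁻¹ = lampS D m t π⁻¹ := by
  rw [inv_eq_iff_mul_eq_one, lampS_mul, mul_inv_cancel, lampS_one]

theorem F2core (hD : ∀ M n, (D M n).Ok) (m : ℕ) (R : Subgroup (Gam D))
    (hn : ∀ a ∈ AA D m, ∀ x ∈ R, a * x * a⁻¹ ∈ R) (t : XX D m) (π : Perm (WW D m))
    (hπ : π ∈ Ev (WW D m)) (h1 : π ≠ 1) (δ : XX D m → Perm (WW D m)) (hδ : δ t = 1)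
    (h : lamp D m δ * lampS D m t π ∈ R) : ∀ π' ∈ Ev (WW D m), lampS D m t π' ∈ R := by
  haveI := fin_WW hD m
  have h5 : 5 ≤ Nat.card (WW D m) := by have := card_WW hD m; omega
  obtain ⟨s', hs', hne⟩ := ev_nc h5 π hπ h1
  have hb := lampS_AA hD m t s' hs'
  have hx := hn _ hb _ (R.inv_mem h)
  have hxx := R.mul_mem h hx
  have hid : (lamp D m δ * lampS D m t π) * (lampS D m t s' * (lamp D m δ * lampS D m t π)⁻¹ *
      (lampS D m t s')⁻¹) = lampS D m t (π * s' * π⁻¹ * s'⁻¹) := by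
    unfold lampS
    rw [lamp_mul, lamp_inv, lamp_inv, lamp_mul, lamp_mul, lamp_mul]
    congr 1
    funext t'
    simp only [Pi.mul_apply]
    by_cases ht : t' = t
    · rw [if_pos ht, if_pos ht, if_pos ht, ht, hδ]
      group
    · rw [if_neg ht, if_neg ht, if_neg ht]
      group
  rw [hid] at hxx
  set N : Subgroup (Perm (WW D m)) :=
    { carrier := {π' | π' ∈ Ev (WW D m) ∧ lampS D m t π' ∈ R}
      mul_mem' := fun {a b} ha hb => ⟨(Ev (WW D m)).mul_mem ha.1 hb.1, by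
        rw [← lampS_mul]
        exact R.mul_mem ha.2 hb.2⟩
      one_mem' := ⟨(Ev (WW D m)).one_mem, by
        rw [lampS_one]
        exact R.one_mem⟩
      inv_mem' := fun {a} ha => ⟨(Ev (WW D m)).inv_mem ha.1, by
        rw [← lampS_inv]
        exact R.inv_mem ha.2⟩ } with hN
  have hle : Ev (WW D m) ≤ N := by
    apply ev_simple h5 N (fun x hx => hx.1)
    · rintro s hs n ⟨hn1, hn2⟩
      refine ⟨(Ev (WW D m)).mul_mem ((Ev (WW D m)).mul_mem hs hn1) ((Ev (WW D m)).inv_mem hs), ?_⟩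
      rw [← lampS_mul, ← lampS_mul, ← lampS_inv]
      exact hn _ (lampS_AA hD m t s hs) _ hn2
    · intro hbot
      have hmem : π * s' * π⁻¹ * s'⁻¹ ∈ N :=
        ⟨(Ev (WW D m)).mul_mem ((Ev (WW D m)).mul_mem ((Ev (WW D m)).mul_mem hπ hs')
          ((Ev (WW D m)).inv_mem hπ)) ((Ev (WW D m)).inv_mem hs'), hxx⟩
      rw [hbot, Subgroup.mem_bot] at hmem
      apply hne
      rw [mul_inv_eq_one, mul_inv_eq_iff_eq_mul] at hmem
      exact hmem
  intro π' hπ'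
  exact (hle hπ').2

theorem F2canon (hD : ∀ M n, (D M n).Ok) (m : ℕ) (R : Subgroup (Gam D))
    (hn : ∀ a ∈ AA D m, ∀ x ∈ R, a * x * a⁻¹ ∈ R) (r : Gam D) (hr : r ∈ R) (hc : Can D m r)
    (t : XX D m) (ht : r m t ≠ t) : ∀ π' ∈ Ev (WW D m), lampS D m t π' ∈ R := by
  haveI := fin_WW hD m
  have h5 : 5 ≤ Nat.card (WW D m) := by have := card_WW hD m; omega
  haveI : Nontrivial (WW D m) := Finite.one_lt_card_iff_nontrivial.1 (by omega)
  obtain ⟨w, -⟩ := exists_pair_ne (WW D m)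
  obtain ⟨π, hπ, hπw⟩ := ev_move h5 w
  have hπ1 : π ≠ 1 := fun h => hπw (by rw [h]; rfl)
  have hb := lampS_AA hD m t π hπ
  have hx := R.mul_mem hr (hn _ hb _ (R.inv_mem hr))
  have e1 : r * (lampS D m t π * r⁻¹ * (lampS D m t π)⁻¹) =
      (r * lampS D m t π * r⁻¹) * (lampS D m t π)⁻¹ := by group
  rw [e1, lampS_conj m r hc, lampS_inv] at hx
  exact F2core hD m R hn t π⁻¹ ((Ev (WW D m)).inv_mem hπ) (by rwa [ne_eq, inv_eq_one])
    (fun t' => if t' = r m t then gW (r m) * π * (gW (r m))⁻¹ else 1) (if_neg ht.symm) hx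

theorem F2step (hD : ∀ M n, (D M n).Ok) (m : ℕ) (R : Subgroup (Gam D))
    (hn : ∀ a ∈ AA D (m + 1), ∀ x ∈ R, a * x * a⁻¹ ∈ R) (t : XX D m)
    (h : ∀ π' ∈ Ev (WW D m), lampS D m t π' ∈ R) : AA D (m + 1) ⊆ R := by
  haveI := fin_WW hD m
  have h5 : 5 ≤ Nat.card (WW D m) := by have := card_WW hD m; omega
  apply AA_of_single hD (m + 1) R
  intro t'
  obtain ⟨π', hπ', hm⟩ := ev_move h5 (t' t)
  apply F2canon hD (m + 1) R hn (lampS D m t π') (h π' hπ') (lamp_can m _) t'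
  intro heq
  apply hm
  have h2 : lampS D m t π' (m + 1) = wr 1 (fun t'' => if t'' = t then π' else 1) := lamp_at m _
  rw [h2] at heq
  have h3 := congrFun heq t
  have h4 : (if t = t then π' else 1) (t' ((1 : Perm (XX D m))⁻¹ t)) = t' t := h3
  rw [if_pos rfl] at h4
  exact h4


end IG
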