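import Mathlib
import Pool.Agent.Helper529.IG.PK3

open Classical Equiv

namespace IG

variable {D : ℕ → ℕ → SD}


theorem F2x_lampS_inv (m : ℕ) (t : XX D m) (π : Perm (WW D m)) :
    (lampS D m t π)⁻¹ = lampS D m t π⁻¹ := by
  unfold lampS
  rw [lamp_inv]
  congr 1
  funext t'
  by_cases h : t' = t
  · simp [h]
  · simp [h]

theorem F2x_three {Z : Type} [Finite Z] (B : Finset Z) (n : ℕ) (hB : B.card ≤ n)
    (hZ : n + 9 ≤ Nat.card Z) : ∃ a b c : Z, a ≠ b ∧ b ≠ c ∧ a ≠ c ∧ a ∉ B ∧ b ∉ B ∧ c ∉ B := by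
  haveI : Fintype Z := Fintype.ofFinite Z
  have h1 : 2 < (Finset.univ \ B).card := by
    rw [Finset.card_sdiff_of_subset (Finset.subset_univ _), Finset.card_univ]
    rw [Nat.card_eq_fintype_card] at hZ
    omega
  obtain ⟨a, b, c, ha, hb, hc, hab, hac, hbc⟩ := Finset.two_lt_card_iff.mp h1
  refine ⟨a, b, c, hab, hbc, hac, ?_, ?_, ?_⟩
  · exact (Finset.mem_sdiff.mp ha).2
  · exact (Finset.mem_sdiff.mp hb).2
  · exact (Finset.mem_sdiff.mp hc).2

theorem F2x_c3_ne {Z : Type} (a b c : Z) (hab : a ≠ b) (hbc : b ≠ c) (hac : a ≠ c) :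
    c3 a b c ≠ 1 := by
  intro h
  have h1 := congrArg (fun g : Perm Z => g a) h
  simp only [c3, sw, Perm.mul_apply, Perm.one_apply] at h1
  rw [@Equiv.swap_apply_of_ne_of_ne Z (fun x y => propDecidable (x = y)) b c a hab hac,
    @Equiv.swap_apply_left Z (fun x y => propDecidable (x = y))] at h1
  exact hab h1.symm

theorem F2first (hD : ∀ M n, (D M n).Ok) (m : ℕ) (R : Subgroup (Gam D))
    (hn : ∀ a ∈ AA D m, ∀ x ∈ R, a * x * a⁻¹ ∈ R) (l : List Gen) (hr : ev D l ∈ R)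
    (t : XX D m) (ht : ev D l m t ≠ t) (hm : 9 * l.length ≤ m) :
    ∀ π' ∈ Ev (WW D m), lampS D m t π' ∈ R := by
  haveI := fin_WW hD m
  obtain ⟨B, hB1, hB2⟩ := Th_comm hD m t l
  obtain ⟨a, b, c, hab, hbc, hac, haB, hbB, hcB⟩ :=
    F2x_three B m (hB1.trans hm) (card_WW hD m)
  have hπE : c3 a b c ∈ Ev (WW D m) := ev_three a b c hab hbc hac
  have hπ1 : c3 a b c ≠ 1 := F2x_c3_ne a b c hab hbc hac
  have hcomm := hB2 (c3 a b c) (fun w hw => c3_fix a b c w
    (fun h => haB (h ▸ hw)) (fun h => hbB (h ▸ hw)) (fun h => hcB (h ▸ hw)))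
  set π := c3 a b c with hπ
  have hlam : lampS D m t π ∈ AA D m := lampS_AA hD m t π hπE
  have hsplit := ev_split hD (m + 1) l
  obtain ⟨a', ha', h, hh, hEE⟩ := CC_succ m _ (EE_CC hD (m + 1) l)
  obtain ⟨δ', hδ'E, hδ'⟩ := ha'
  have hmt : h m t = ev D l m t := by
    have h1 : EE D (m + 1) l m = ev D l m := EE_le (m + 1) l m (Nat.le_succ m)
    have h2 : a' m = 1 := by
      rw [hδ']
      exact lamp_le m δ' m le_rfl
    rw [← h1, hEE]
    show h m t = (a' m * h m) t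
    rw [h2, one_mul]
  have hconj : h * lampS D m t π * h⁻¹ =
      lampS D m (h m t) (gW (h m) * π * (gW (h m))⁻¹) := lampS_conj m h (CC_can m h hh) t π
  have hTh : Th D (m + 1) l * lampS D m t π * (Th D (m + 1) l)⁻¹ = lampS D m t π := by
    rw [← hcomm.eq, mul_inv_cancel_right]
  have hx : ev D l * (lampS D m t π * (ev D l)⁻¹ * (lampS D m t π)⁻¹) =
      lamp D m (fun t' => δ' t' * (if t' = h m t then (gW (h m) * π * (gW (h m))⁻¹) else 1) *
        (δ' t')⁻¹) * lampS D m t π⁻¹ := by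
    rw [← F2x_lampS_inv, ← mul_assoc, ← mul_assoc]
    congr 1
    have e1 : ev D l * lampS D m t π * (ev D l)⁻¹ =
        EE D (m + 1) l * (Th D (m + 1) l * lampS D m t π * (Th D (m + 1) l)⁻¹) *
          (EE D (m + 1) l)⁻¹ := by
      rw [hsplit]
      group
    rw [e1, hTh, hEE]
    have e2 : a' * h * lampS D m t π * (a' * h)⁻¹ = a' * (h * lampS D m t π * h⁻¹) * a'⁻¹ := by
      group
    rw [e2, hconj, hδ', lamp_inv, lampS, lamp_mul, lamp_mul]
    rfl
  refine F2core hD m R hn t π⁻¹ ((Ev (WW D m)).inv_mem hπE) (inv_ne_one.mpr hπ1)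
    (fun t' => δ' t' * (if t' = h m t then (gW (h m) * π * (gW (h m))⁻¹) else 1) *
        (δ' t')⁻¹) ?_ ?_
  · have h3 : t ≠ h m t := by
      rw [hmt]
      exact ht.symm
    simp only [h3, if_false, mul_one, mul_inv_cancel]
  · rw [← hx]
    exact R.mul_mem hr (hn _ hlam _ (R.inv_mem hr))

theorem F2 (hD : ∀ M n, (D M n).Ok) (R : Subgroup (Gam D)) (hR : R ≤ GG D) (r : Gam D)
    (hr : r ∈ R) (hr1 : r ≠ 1) (m0 : ℕ)
    (hn : ∀ m, m0 ≤ m → ∀ a ∈ AA D m, ∀ x ∈ R, a * x * a⁻¹ ∈ R) :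
    ∃ m1, ∀ m, m1 ≤ m → AA D m ⊆ R := by
  obtain ⟨l, hl⟩ := (GG_iff hD r).mp (hR hr)
  obtain ⟨σ, δ, hmk⟩ := GG_mk hD r (hR hr)
  obtain ⟨M0, hM0⟩ : ∃ M0, r M0 ≠ 1 := by
    by_contra hcon
    push Not at hcon
    exact hr1 (funext hcon)
  have hup : ∀ M, M0 ≤ M → r M ≠ 1 := by
    intro M hM
    induction M, hM using Nat.le_induction with
    | base => exact hM0
    | succ M hM ih =>
      intro h
      apply ih
      haveI : Nontrivial (WW D M) := by
        haveI := fin_WW hD M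
        have h9 := card_WW hD M
        exact Finite.one_lt_card_iff_nontrivial.mp (by omega)
      have h1 : r (M + 1) = wr (r M) (fun t => δ M t * gW (r M)) := by
        rw [hmk]
        exact mk_succ σ δ M
      have h2 : wr (r M) (fun t => δ M t * gW (r M)) = wr (1 : Perm (XX D M)) (fun _ => (1 : Perm (WW D M))) := by
        rw [← h1, wr_one]
        exact h
      exact (wr_inj _ _ _ _ h2).1
  set m := max m0 (max M0 (9 * l.length)) with hm
  have hm1 : m0 ≤ m := le_max_left _ _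
  have hm2 : M0 ≤ m := (le_max_left _ _).trans (le_max_right _ _)
  have hm3 : 9 * l.length ≤ m := (le_max_right _ _).trans (le_max_right _ _)
  obtain ⟨t, ht⟩ : ∃ t, r m t ≠ t := by
    by_contra hcon
    push Not at hcon
    exact hup m hm2 (Equiv.ext hcon)
  have hfirst := F2first hD m R (hn m hm1) l (hl ▸ hr) t (by rw [hl]; exact ht) hm3
  have hstep := F2step hD m R (hn (m + 1) (by omega)) t hfirst
  refine ⟨m + 1, fun m' hm' => ?_⟩
  induction m', hm' using Nat.le_induction with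
  | base => exact hstep
  | succ k hk ih =>
    haveI := fin_XX hD k
    have h9 := card_XX hD k
    haveI : Nonempty (XX D k) := (Nat.card_pos_iff.mp (by omega)).1
    obtain ⟨t'⟩ := ‹Nonempty (XX D k)›
    exact F2step hD k R (hn (k + 1) (by omega)) t' (fun π' hπ' => ih (lampS_AA hD k t' π' hπ'))


end IG
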