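import Mathlib
import Pool.Agent.Helper529.IG.PK4

open Classical Equiv

namespace IG

variable {D : ℕ → ℕ → SD}


/-- a finite set of commuting involutions generates a finite subgroup -/
theorem fin_gen_aux {Q : Type} [Group Q] (Θ : Set Q)
    (comm : ∀ a ∈ Θ, ∀ b ∈ Θ, a * b = b * a) (sq : ∀ a ∈ Θ, a * a = 1) (S : Finset Q) :
    (S : Set Q) ⊆ Θ → ((Subgroup.closure (S : Set Q) : Subgroup Q) : Set Q).Finite := by
  classical
  induction S using Finset.induction_on with
  | empty =>
    intro _
    rw [Finset.coe_empty, Subgroup.closure_empty, Subgroup.coe_bot]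
    exact Set.finite_singleton 1
  | insert a S ha ih =>
    intro hS
    have hSΘ : (S : Set Q) ⊆ Θ := fun x hx => hS (by simp [Finset.mem_coe.1 hx])
    have haΘ : a ∈ Θ := hS (by simp)
    have hfin := ih hSΘ
    -- `a` commutes with the closure
    have hcomm : ∀ x ∈ Subgroup.closure (S : Set Q), a * x = x * a := by
      intro x hx
      induction hx using Subgroup.closure_induction with
      | mem x hx => exact comm a haΘ x (hSΘ hx)
      | one => simp
      | mul x y _ _ h1 h2 => rw [← mul_assoc, h1, mul_assoc, h2, mul_assoc]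
      | inv x _ h1 =>
        have : x⁻¹ * (a * x) * x⁻¹ = x⁻¹ * (x * a) * x⁻¹ := by rw [h1]
        simpa [mul_assoc] using this.symm
    have haa : a * a = 1 := sq a haΘ
    have key : ∀ x ∈ Subgroup.closure ((insert a S : Finset Q) : Set Q),
        x ∈ Subgroup.closure (S : Set Q) ∨ a * x ∈ Subgroup.closure (S : Set Q) := by
      intro x hx
      induction hx using Subgroup.closure_induction with
      | mem x hx =>
        rw [Finset.coe_insert] at hx
        rcases hx with rfl | hx
        · right; rw [haa]; exact Subgroup.one_mem _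
        · left; exact Subgroup.subset_closure hx
      | one => left; exact Subgroup.one_mem _
      | mul x y _ _ h1 h2 =>
        rcases h1 with h1 | h1
        · rcases h2 with h2 | h2
          · exact Or.inl (Subgroup.mul_mem _ h1 h2)
          · right
            have : a * (x * y) = x * (a * y) := by
              rw [← mul_assoc, hcomm x h1, mul_assoc]
            rw [this]
            exact Subgroup.mul_mem _ h1 h2
        · rcases h2 with h2 | h2
          · right
            rw [← mul_assoc]
            exact Subgroup.mul_mem _ h1 h2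
          · left
            have h3 : a * (a * x) = a * x * a := hcomm _ h1
            have h4 : x * y = (a * x) * (a * y) := by
              rw [← mul_assoc (a * x) a y, ← h3, ← mul_assoc a a x, haa, one_mul]
            rw [h4]
            exact Subgroup.mul_mem _ h1 h2
      | inv x _ h1 =>
        rcases h1 with h1 | h1
        · exact Or.inl (Subgroup.inv_mem _ h1)
        · right
          have h3 : a * (a * x) = a * x * a := hcomm _ h1
          have h5 : x = a * x * a := by rw [← h3, ← mul_assoc, haa, one_mul]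
          have hai : a⁻¹ = a := inv_eq_of_mul_eq_one_left haa
          have h4 : a * x⁻¹ = (a * x)⁻¹ := by
            rw [mul_inv_rev, hai]
            have h6 : x⁻¹ = a * x⁻¹ * a := by
              conv_lhs => rw [h5]
              rw [mul_inv_rev, mul_inv_rev, hai, mul_assoc]
            calc a * x⁻¹ = a * (a * x⁻¹ * a) := by rw [← h6]
              _ = (a * a) * x⁻¹ * a := by simp only [mul_assoc]
              _ = x⁻¹ * a := by rw [haa, one_mul]
          rw [h4]
          exact Subgroup.inv_mem _ h1
    refine (hfin.union (hfin.image (fun x => a * x))).subset ?_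
    intro x hx
    rcases key x hx with h | h
    · exact Or.inl h
    · right
      refine ⟨a * x, h, ?_⟩
      show a * (a * x) = x
      rw [← mul_assoc, haa, one_mul]

theorem fin_gen {Q : Type} [Group Q] (C : Subgroup Q) (hC : Finite C) (Θ : Set Q)
    (hΘ : Θ.Finite) (comm : ∀ a ∈ Θ, ∀ b ∈ Θ, a * b = b * a) (sq : ∀ a ∈ Θ, a * a = 1)
    (conj : ∀ c ∈ C, ∀ a ∈ Θ, c * a * c⁻¹ ∈ Θ)
    (gen : Subgroup.closure ((C : Set Q) ∪ Θ) = ⊤) : Finite Q := by
  have hN : ((Subgroup.closure Θ : Subgroup Q) : Set Q).Finite := by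
    have := fin_gen_aux Θ comm sq hΘ.toFinset (by rw [hΘ.coe_toFinset])
    rwa [hΘ.coe_toFinset] at this
  have hnorm : ∀ c ∈ C, ∀ n ∈ Subgroup.closure Θ, c * n * c⁻¹ ∈ Subgroup.closure Θ := by
    intro c hc n hn
    induction hn using Subgroup.closure_induction with
    | mem x hx => exact Subgroup.subset_closure (conj c hc x hx)
    | one => simp
    | mul x y _ _ h1 h2 =>
      have : c * (x * y) * c⁻¹ = (c * x * c⁻¹) * (c * y * c⁻¹) := by group
      rw [this]
      exact Subgroup.mul_mem _ h1 h2
    | inv x _ h1 =>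
      have : c * x⁻¹ * c⁻¹ = (c * x * c⁻¹)⁻¹ := by group
      rw [this]
      exact Subgroup.inv_mem _ h1
  have key : ∀ x ∈ Subgroup.closure ((C : Set Q) ∪ Θ), ∃ c ∈ C, ∃ n ∈ Subgroup.closure Θ,
      x = c * n := by
    intro x hx
    induction hx using Subgroup.closure_induction with
    | mem x hx =>
      rcases hx with hx | hx
      · exact ⟨x, hx, 1, Subgroup.one_mem _, (mul_one x).symm⟩
      · exact ⟨1, C.one_mem, x, Subgroup.subset_closure hx, (one_mul x).symm⟩
    | one => exact ⟨1, C.one_mem, 1, Subgroup.one_mem _, (mul_one 1).symm⟩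
    | mul x y _ _ h1 h2 =>
      obtain ⟨c, hc, n, hn, rfl⟩ := h1
      obtain ⟨c', hc', n', hn', rfl⟩ := h2
      refine ⟨c * c', C.mul_mem hc hc', c'⁻¹ * n * (c'⁻¹)⁻¹ * n', ?_, by group⟩
      exact Subgroup.mul_mem _ (hnorm _ (C.inv_mem hc') n hn) hn'
    | inv x _ h1 =>
      obtain ⟨c, hc, n, hn, rfl⟩ := h1
      refine ⟨c⁻¹, C.inv_mem hc, c * n⁻¹ * c⁻¹, hnorm c hc _ (Subgroup.inv_mem _ hn), by group⟩
  have hfN : Finite (Subgroup.closure Θ : Subgroup Q) := hN
  refine Finite.of_surjective
    (fun p : C × (Subgroup.closure Θ : Subgroup Q) => (p.1 : Q) * (p.2 : Q)) ?_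
  intro x
  obtain ⟨c, hc, n, hn, rfl⟩ := key x (by rw [gen]; trivial)
  exact ⟨(⟨c, hc⟩, ⟨n, hn⟩), rfl⟩


end IG
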