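import Mathlib
import Pool.Agent.Helper529.IG.PK5

open Classical Equiv

namespace IG

variable {D : ℕ → ℕ → SD}


theorem Gen_finite_9792 : Finite Gen := by
  let f : Perm (Option K) ⊕ Unit ⊕ V4 ⊕ Unit ⊕ K → Gen := fun x =>
    match x with
    | Sum.inl ρ => Gen.r ρ
    | Sum.inr (Sum.inl _) => Gen.a
    | Sum.inr (Sum.inr (Sum.inl v)) => Gen.v v
    | Sum.inr (Sum.inr (Sum.inr (Sum.inl _))) => Gen.x
    | Sum.inr (Sum.inr (Sum.inr (Sum.inr c))) => Gen.z c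
  refine Finite.of_surjective f ?_
  intro s
  cases s with
  | r ρ => exact ⟨Sum.inl ρ, rfl⟩
  | a => exact ⟨Sum.inr (Sum.inl ()), rfl⟩
  | v v => exact ⟨Sum.inr (Sum.inr (Sum.inl v)), rfl⟩
  | x => exact ⟨Sum.inr (Sum.inr (Sum.inr (Sum.inl ()))), rfl⟩
  | z c => exact ⟨Sum.inr (Sum.inr (Sum.inr (Sum.inr c))), rfl⟩

theorem tl_r_9792 (m : ℕ) (ρ : Perm (Option K)) : tl D m (Gen.r ρ) = 1 := by
  rw [tl, ← mk_one]
  congr 1
  funext M t
  show (if m ≤ M then (1 : Perm (WW D M)) else 1) = 1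
  split_ifs <;> rfl

theorem tl_split_9792 (hD : ∀ M n, (D M n).Ok) (m : ℕ) (s : Gen) :
    ∃ a ∈ AA D m, tl D m s = a * tl D (m + 1) s := by
  haveI := fin_XX hD m
  refine ⟨lamp D m (dl (DD D m) s (T D m).pos), ⟨dl (DD D m) s (T D m).pos, fun t =>
    ev_dl (hD _ _) s (T D m).pos t, rfl⟩, ?_⟩
  rw [tl_eq, tl_eq]
  exact tq_step hD m s (fun M => (T D M).pos) (seq_pos m) (okp_pos hD s s m)

theorem tlc_eq_9792 (m : ℕ) (s : Gen) (g : Gam D) (hg : g ∈ CC D m) :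
    g * tl D (m + 1) s * g⁻¹ = tq D (m + 1) s (fun M => ((T D M).pos).map (g M)) := by
  rw [tl_eq]
  exact tq_conj (m + 1) s g (CC_can _ _ (CC_mono m (m + 1) (Nat.le_succ m) g hg)) _

theorem tlc_seq_9792 (m : ℕ) (g : Gam D) (hg : g ∈ CC D m) :
    Seq D (m + 1) (fun M => ((T D M).pos).map (g M)) :=
  seq_map (m + 1) g (CC_can _ _ (CC_mono m (m + 1) (Nat.le_succ m) g hg)) _
    (seq_mono m (m + 1) (Nat.le_succ m) _ (seq_pos m))

theorem tlc_okp_9792 (hD : ∀ M n, (D M n).Ok) (m : ℕ) (s s' : Gen) (g g' : Gam D)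
    (hg : g ∈ CC D m) (hg' : g' ∈ CC D m) :
    OKp s (((T D (m + 1)).pos).map (g (m + 1))) s' (((T D (m + 1)).pos).map (g' (m + 1))) := by
  have h1 := seq_map m g (CC_can _ _ hg) _ (seq_pos m) m le_rfl
  have h2 := seq_map m g' (CC_can _ _ hg') _ (seq_pos m) m le_rfl
  simp only at h1 h2
  rw [h1, h2]
  exact okp_nxt (hD _ _) s s' _ _

theorem tlc_comm_9792 (hD : ∀ M n, (D M n).Ok) (m : ℕ) (s s' : Gen) (g g' : Gam D)
    (hg : g ∈ CC D m) (hg' : g' ∈ CC D m) :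
    (g * tl D (m + 1) s * g⁻¹) * (g' * tl D (m + 1) s' * g'⁻¹) =
      (g' * tl D (m + 1) s' * g'⁻¹) * (g * tl D (m + 1) s * g⁻¹) := by
  rw [tlc_eq_9792 m s g hg, tlc_eq_9792 m s' g' hg']
  exact tq_comm hD (m + 1) s s' _ _ (tlc_seq_9792 m g hg) (tlc_seq_9792 m g' hg')
    (tlc_okp_9792 hD m s s' g g' hg hg')

theorem tlc_sq_9792 (hD : ∀ M n, (D M n).Ok) (m : ℕ) (s : Gen) (g : Gam D)
    (hg : g ∈ CC D m) :
    (g * tl D (m + 1) s * g⁻¹) * (g * tl D (m + 1) s * g⁻¹) = 1 := by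
  by_cases hs : ∀ ρ, s ≠ Gen.r ρ
  · rw [tlc_eq_9792 m s g hg]
    exact tq_sq hD (m + 1) s hs _ (tlc_seq_9792 m g hg) (tlc_okp_9792 hD m s s g g hg hg)
  · push Not at hs
    obtain ⟨ρ, rfl⟩ := hs
    rw [tl_r_9792]
    simp

theorem F3 (hD : ∀ M n, (D M n).Ok) (H : Subgroup (GG D)) (hn : H.Normal) (m : ℕ)
    (h : ∀ g : GG D, (g : Gam D) ∈ AA D m → g ∈ H) : H.FiniteIndex := by
  haveI := hn
  haveI := Gen_finite_9792
  have hCG := CC_GG hD m
  have hCG' := CC_GG hD (m + 1)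
  have hAG := AA_GG hD m
  let π : GG D →* (GG D ⧸ H) := QuotientGroup.mk' H
  let C0 : Subgroup (Gam D) :=
    { carrier := CC D m
      mul_mem' := fun {a b} ha hb => CC_mul m a b ha hb
      one_mem' := CC_one m
      inv_mem' := fun {a} ha => CC_inv m a ha }
  have hC0 : ∀ x : Gam D, x ∈ C0 ↔ x ∈ CC D m := fun _ => Iff.rfl
  let C : Subgroup (GG D ⧸ H) := (C0.subgroupOf (GG D)).map π
  let Θ0 : Set (GG D) := {x : GG D | ∃ g ∈ CC D m, ∃ s : Gen, (x : Gam D) = g * tl D m s * g⁻¹}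
  -- the classes of the conjugated tails
  have key : ∀ x : GG D, ∀ g ∈ CC D m, ∀ s : Gen, (x : Gam D) = g * tl D m s * g⁻¹ →
      ∃ y : GG D, (y : Gam D) = g * tl D (m + 1) s * g⁻¹ ∧ π x = π y := by
    intro x g hg s hx
    have hgG : g ∈ GG D := hCG hg
    obtain ⟨a, ha, hta⟩ := tl_split_9792 hD m s
    have hy : g * tl D (m + 1) s * g⁻¹ ∈ GG D :=
      (GG D).mul_mem ((GG D).mul_mem hgG (tl_GG hD (m + 1) hCG' s)) ((GG D).inv_mem hgG)
    have hA : g * a * g⁻¹ ∈ AA D m := AA_conj m g hg a ha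
    have hAH : (⟨g * a * g⁻¹, hAG hA⟩ : GG D) ∈ H := h _ hA
    refine ⟨⟨_, hy⟩, rfl, ?_⟩
    have e : x = ⟨g * a * g⁻¹, hAG hA⟩ * ⟨g * tl D (m + 1) s * g⁻¹, hy⟩ := by
      apply Subtype.ext
      rw [hx, hta]
      show _ = (g * a * g⁻¹) * (g * tl D (m + 1) s * g⁻¹)
      group
    rw [e, map_mul]
    have e2 : π ⟨g * a * g⁻¹, hAG hA⟩ = 1 := (QuotientGroup.eq_one_iff _).2 hAH
    rw [e2, one_mul]
  have hfinC0 : Finite C0 := (CC_finite hD m).to_subtype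
  have hfinC1 : Finite (C0.subgroupOf (GG D)) := by
    refine Finite.of_injective (fun x : C0.subgroupOf (GG D) => (⟨(x : GG D), x.2⟩ : C0)) ?_
    intro x y hxy
    apply Subtype.ext
    apply Subtype.ext
    exact congrArg (fun z : C0 => (z : Gam D)) hxy
  have hfinC : Finite C := by
    have : (C : Set (GG D ⧸ H)) = π '' ((C0.subgroupOf (GG D) : Subgroup (GG D)) : Set (GG D)) :=
      Subgroup.coe_map _ _
    have h2 : (C : Set (GG D ⧸ H)).Finite := by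
      rw [this]
      exact Set.Finite.image _ (Set.toFinite _)
    exact h2.to_subtype
  have hΘ0 : Θ0.Finite := by
    have h1 : (Set.image2 (fun (g : Gam D) (s : Gen) => g * tl D m s * g⁻¹) (CC D m)
        Set.univ).Finite := Set.Finite.image2 _ (CC_finite hD m) (Set.toFinite _)
    refine Set.Finite.of_finite_image (f := fun x : GG D => (x : Gam D)) (h1.subset ?_)
      (Subtype.val_injective.injOn)
    rintro _ ⟨x, ⟨g, hg, s, hx⟩, rfl⟩
    exact ⟨g, hg, s, Set.mem_univ s, hx.symm⟩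
  have hQ : Finite (GG D ⧸ H) := by
    refine fin_gen C hfinC (π '' Θ0) (hΘ0.image _) ?_ ?_ ?_ ?_
    · rintro _ ⟨x, ⟨g, hg, s, hx⟩, rfl⟩ _ ⟨x', ⟨g', hg', s', hx'⟩, rfl⟩
      obtain ⟨y, hy, e⟩ := key x g hg s hx
      obtain ⟨y', hy', e'⟩ := key x' g' hg' s' hx'
      rw [e, e', ← map_mul, ← map_mul]
      congr 1
      apply Subtype.ext
      show (y : Gam D) * (y' : Gam D) = (y' : Gam D) * (y : Gam D)
      rw [hy, hy']
      exact tlc_comm_9792 hD m s s' g g' hg hg'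
    · rintro _ ⟨x, ⟨g, hg, s, hx⟩, rfl⟩
      obtain ⟨y, hy, e⟩ := key x g hg s hx
      rw [e, ← map_mul]
      have e1 : y * y = 1 := by
        apply Subtype.ext
        show (y : Gam D) * (y : Gam D) = 1
        rw [hy]
        exact tlc_sq_9792 hD m s g hg
      rw [e1, map_one]
    · rintro _ ⟨c, hc, rfl⟩ _ ⟨x, ⟨g, hg, s, hx⟩, rfl⟩
      have hc' : (c : Gam D) ∈ CC D m := hc
      refine ⟨c * x * c⁻¹, ⟨(c : Gam D) * g, CC_mul m _ _ hc' hg, s, ?_⟩, ?_⟩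
      · show (c : Gam D) * (x : Gam D) * (c : Gam D)⁻¹ = _
        rw [hx]
        group
      · rw [map_mul, map_mul, map_inv]
    · rw [eq_top_iff]
      intro q _
      obtain ⟨x, rfl⟩ := QuotientGroup.mk'_surjective H q
      let S : Subgroup (GG D ⧸ H) := Subgroup.closure ((C : Set (GG D ⧸ H)) ∪ π '' Θ0)
      have hle : GG D ≤ (S.comap π).map (GG D).subtype := by
        refine (Subgroup.closure_le _).2 ?_
        rintro _ ⟨s, rfl⟩
        have hE : E D m s ∈ CC D m := E_CC hD m s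
        have hEG : E D m s ∈ GG D := hCG hE
        have htG : tl D m s ∈ GG D := tl_GG hD m hCG s
        have h1 : π ⟨E D m s, hEG⟩ ∈ S :=
          Subgroup.subset_closure (Or.inl ⟨⟨E D m s, hEG⟩, hE, rfl⟩)
        have h2 : π ⟨tl D m s, htG⟩ ∈ S := by
          refine Subgroup.subset_closure (Or.inr ⟨⟨tl D m s, htG⟩, ⟨1, CC_one m, s, ?_⟩, rfl⟩)
          simp
        refine ⟨⟨E D m s, hEG⟩ * ⟨tl D m s, htG⟩, ?_, ?_⟩
        · show π (⟨E D m s, hEG⟩ * ⟨tl D m s, htG⟩) ∈ S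
          rw [map_mul]
          exact S.mul_mem h1 h2
        · show E D m s * tl D m s = Phi D s
          exact (Phi_split hD m s).symm
      obtain ⟨y, hy, hyx⟩ := hle x.2
      have e : y = x := Subtype.ext hyx
      rw [← e]
      exact hy
  exact Subgroup.finiteIndex_of_finite_quotient


end IG
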