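import Mathlib
import Pool.Agent.Helper529.IG.PK6

open Classical Equiv

namespace IG

variable {D : ℕ → ℕ → SD}


/-- Abstract criterion for all finite-index subgroups to be just-infinite. -/
theorem crit {G : Type} [Group G] (A : ℕ → Set G)
    (F1 : ∀ H : Subgroup G, H.Normal → H.FiniteIndex → ∃ m0, ∀ m ≥ m0, A m ⊆ H)
    (F2 : ∀ r : G, r ≠ 1 → ∀ R : Subgroup G, r ∈ R → ∀ m0,
      (∀ m ≥ m0, ∀ a ∈ A m, ∀ x ∈ R, a * x * a⁻¹ ∈ R) → ∃ m1, ∀ m ≥ m1, A m ⊆ R)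
    (F3 : ∀ H : Subgroup G, H.Normal → ∀ m, A m ⊆ H → H.FiniteIndex) :
    ∀ H : Subgroup G, H.FiniteIndex → ∀ N : Subgroup H, N.Normal → N ≠ ⊥ → N.FiniteIndex := by
  intro H hH N hN hNb
  set R : Subgroup G := N.map H.subtype with hR
  have hRH : ∀ h ∈ H, ∀ x ∈ R, h * x * h⁻¹ ∈ R := by
    intro h hh x hx
    obtain ⟨y, hy, rfl⟩ := Subgroup.mem_map.mp hx
    refine Subgroup.mem_map.mpr ⟨⟨h, hh⟩ * y * ⟨h, hh⟩⁻¹, hN.conj_mem y hy ⟨h, hh⟩, ?_⟩
    simp
  haveI := hH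
  have hcore : H.normalCore.FiniteIndex := inferInstance
  obtain ⟨m0, hm0⟩ := F1 H.normalCore inferInstance hcore
  have hex : ∃ n : H, n ∈ N ∧ n ≠ 1 := by
    obtain ⟨a, ha⟩ := Subgroup.ne_bot_iff_exists_ne_one.mp hNb
    exact ⟨(a : H), a.2, fun h => ha (Subtype.ext h)⟩
  obtain ⟨n, hn, hn1⟩ := hex
  have hr0 : (n : G) ∈ R := Subgroup.mem_map.mpr ⟨n, hn, rfl⟩
  have hr1 : (n : G) ≠ 1 := by
    intro h
    apply hn1
    exact Subtype.ext h
  have hF2 : ∀ g : G, ∃ m1, ∀ m ≥ m1, ∀ a ∈ A m, g⁻¹ * a * g ∈ R := by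
    intro g
    obtain ⟨m1, hm1⟩ := F2 (g * n * g⁻¹) (by
      intro h
      apply hr1
      have h2 : (n : G) = g⁻¹ * (g * n * g⁻¹) * g := by group
      rw [h2, h]
      group) (R.map (MulAut.conj g).toMonoidHom) (Subgroup.mem_map.mpr ⟨n, hr0, by simp⟩) m0 (by
      intro m hm a ha x hx
      obtain ⟨y, hy, rfl⟩ := Subgroup.mem_map.mp hx
      have ha2 : g⁻¹ * a * (g⁻¹)⁻¹ ∈ H.normalCore :=
        (inferInstance : H.normalCore.Normal).conj_mem a (hm0 m hm ha) g⁻¹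
      have ha3 : g⁻¹ * a * g ∈ H := by
        have := H.normalCore_le ha2
        simpa using this
      refine Subgroup.mem_map.mpr ⟨(g⁻¹ * a * g) * y * (g⁻¹ * a * g)⁻¹, hRH _ ha3 y hy, ?_⟩
      simp only [MulEquiv.coe_toMonoidHom, MulAut.conj_apply]
      group)
    refine ⟨m1, fun m hm a ha => ?_⟩
    obtain ⟨y, hy, hy2⟩ := Subgroup.mem_map.mp (hm1 m hm ha)
    have h3 : g⁻¹ * a * g = y := by
      rw [← hy2]
      simp only [MulEquiv.coe_toMonoidHom, MulAut.conj_apply]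
      group
    rw [h3]
    exact hy
  choose m1 hm1 using hF2
  haveI : Finite (G ⧸ H) := Subgroup.finite_quotient_of_finiteIndex
  haveI := Fintype.ofFinite (G ⧸ H)
  set M : ℕ := Finset.univ.sup (fun c : G ⧸ H => m1 c.out) with hM
  have hall : ∀ a ∈ A M, ∀ g : G, g⁻¹ * a * g ∈ R := by
    intro a ha g
    set c : G ⧸ H := (QuotientGroup.mk g) with hc
    have h1 : m1 c.out ≤ M := Finset.le_sup (f := fun c : G ⧸ H => m1 c.out) (Finset.mem_univ c)
    have h2 := hm1 c.out M h1 a ha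
    have h3 : c.out⁻¹ * g ∈ H := by
      rw [← QuotientGroup.eq, QuotientGroup.out_eq']
    have h4 : (c.out⁻¹ * g)⁻¹ ∈ H := H.inv_mem h3
    have h5 := hRH _ h4 _ h2
    have h6 : (c.out⁻¹ * g)⁻¹ * (c.out⁻¹ * a * c.out) * ((c.out⁻¹ * g)⁻¹)⁻¹ = g⁻¹ * a * g := by
      group
    rw [h6] at h5
    exact h5
  have hK : A M ⊆ R.normalCore := by
    intro a ha g
    have := hall a ha g⁻¹
    simpa using this
  have hKf : R.normalCore.FiniteIndex := F3 R.normalCore inferInstance M hK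
  haveI := hKf
  have hRf : R.FiniteIndex := Subgroup.finiteIndex_of_le R.normalCore_le
  haveI := hRf
  have hNR : N = R.subgroupOf H := by
    rw [hR, Subgroup.subgroupOf, Subgroup.comap_map_eq_self_of_injective H.subtype_injective]
  rw [hNR]
  infer_instance


end IG
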