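import Mathlib
import Pool.Agent.Helper529.IG.PK7

open Classical Equiv

namespace IG

variable {D : ℕ → ℕ → SD}


theorem hji (hD : ∀ M n, (D M n).Ok) (H : Subgroup (GG D)) (hH : H.FiniteIndex)
    (N : Subgroup H) (hN : N.Normal) (hb : N ≠ ⊥) : N.FiniteIndex := by
  refine crit (G := GG D) (fun m => {g : GG D | (g : Gam D) ∈ AA D m}) ?_ ?_ ?_ H hH N hN hb
  · intro H hHn hHf
    have hmap : (H.map (GG D).subtype).subgroupOf (GG D) = H :=
      Subgroup.comap_map_eq_self_of_injective (Subgroup.subtype_injective _) H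
    obtain ⟨m0, hm0⟩ := F1 hD (H.map (GG D).subtype) (Subgroup.map_subtype_le H) (by
      rintro g hg h ⟨h', hh', rfl⟩
      exact ⟨⟨g, hg⟩ * h' * ⟨g, hg⟩⁻¹, hHn.conj_mem h' hh' ⟨g, hg⟩, rfl⟩) (by
      rw [hmap]; exact hHf)
    refine ⟨m0, fun m hm g hg => ?_⟩
    obtain ⟨g', hg', he⟩ := hm0 m hm hg
    have : g' = g := Subtype.ext he
    rw [← this]; exact hg'
  · intro r hr R hrR m0 hn
    obtain ⟨m1, hm1⟩ := F2 hD (R.map (GG D).subtype) (Subgroup.map_subtype_le R) (r : Gam D)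
      ⟨r, hrR, rfl⟩ (fun h => hr (Subtype.ext h)) m0 (by
      rintro m hm a ha x ⟨x', hx', rfl⟩
      exact ⟨⟨a, AA_GG hD m ha⟩ * x' * ⟨a, AA_GG hD m ha⟩⁻¹,
        hn m hm ⟨a, AA_GG hD m ha⟩ ha x' hx', rfl⟩)
    refine ⟨m1, fun m hm g hg => ?_⟩
    obtain ⟨g', hg', he⟩ := hm1 m hm hg
    have : g' = g := Subtype.ext he
    rw [← this]; exact hg'
  · intro H hHn m h
    exact F3 hD H hHn m (fun g hg => h hg)

theorem exists_lampS_ne (hD : ∀ M n, (D M n).Ok) (m : ℕ) :
    ∃ g : GG D, (∀ M, M ≤ m → (g : Gam D) M = 1) ∧ (g : Gam D) (m + 1) ≠ 1 := by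
  haveI := fin_WW hD m
  have hc := card_WW hD m
  haveI : Nontrivial (WW D m) := by
    rw [← Finite.one_lt_card_iff_nontrivial]
    omega
  obtain ⟨a, b, hab⟩ := exists_pair_ne (WW D m)
  obtain ⟨π, hπ, h1, h2⟩ := ev_trans2 (Z := WW D m) (by omega) a b b a hab hab.symm
  have hπ1 : π ≠ 1 := by
    rintro rfl
    exact hab h1
  set t : XX D m := (T D m).pos.o with ht
  refine ⟨⟨lampS D m t π, AA_GG hD m (lampS_AA hD m t π hπ)⟩, ?_, ?_⟩
  · intro M hM
    exact lamp_le m _ M hM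
  · intro h
    have e : wr (1 : Perm (XX D m)) (fun t' => if t' = t then π else 1) =
        wr (1 : Perm (XX D m)) (fun _ => (1 : Perm (WW D m))) := by
      rw [wr_one]
      exact (lamp_at m _).symm.trans h
    have := (wr_inj _ _ _ _ e).2
    have := congrFun this t
    simp only [if_true] at this
    exact hπ1 this

theorem GG_infinite (hD : ∀ M n, (D M n).Ok) : Infinite (GG D) := by
  choose f hf1 hf2 using exists_lampS_ne (D := D) hD
  refine Infinite.of_injective f ?_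
  intro m m' h
  by_contra hne
  rcases lt_or_gt_of_ne hne with hlt | hlt
  · apply hf2 m
    rw [h]
    exact hf1 m' (m + 1) hlt
  · apply hf2 m'
    rw [← h]
    exact hf1 m (m' + 1) hlt

theorem GG_rf (hD : ∀ M n, (D M n).Ok) (g : GG D) (hg : g ≠ 1) :
    ∃ H : Subgroup (GG D), H.index ≠ 0 ∧ g ∉ H := by
  have hg' : (g : Gam D) ≠ 1 := fun h => hg (Subtype.ext h)
  obtain ⟨M, hM⟩ := Function.ne_iff.mp hg'
  haveI := fin_XX hD M
  haveI : Finite (Perm (XX D M)) := inferInstance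
  let φ : GG D →* Perm (XX D M) := (Pi.evalMonoidHom (fun M => Perm (XX D M)) M).comp (GG D).subtype
  refine ⟨φ.ker, ?_, ?_⟩
  · rw [Subgroup.index_ker]
    haveI : Finite φ.range := inferInstance
    exact Nat.card_pos.ne'
  · intro h
    exact hM h


end IG
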