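import Mathlib
import Pool.Agent.Helper529.IG.Defs

open Classical Equiv

namespace IG

/-- action data for the slow letters: `a`, the Klein group `v` and the lamp letter `z`. -/
structure AV (Y : Type) where
  a : Perm Y
  v : V4 → Perm Y
  z : Perm Y

structure AV.Ok {Y : Type} (A : AV Y) : Prop where
  a_sq : A.a * A.a = 1
  v_zero : A.v 0 = 1
  v_add : ∀ x y, A.v (x + y) = A.v x * A.v y
  z_sq : A.z * A.z = 1
  z_comm : ∀ x, A.z * A.v x = A.v x * A.z

/-- the automorphism b -> c -> d -> b -/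
def psi (x : V4) : V4 := (x.2, x.1 + x.2)

/-- b, c -> 1, d -> 0 -/
def om (x : V4) : ZMod 2 := x.1 + x.2

/-- `p` on `Y × {false}` and `q` on `Y × {true}` -/
def fw {Y : Type} (p q : Perm Y) : Perm (Y × Bool) where
  toFun u := (bif u.2 then q u.1 else p u.1, u.2)
  invFun u := (bif u.2 then q⁻¹ u.1 else p⁻¹ u.1, u.2)
  left_inv u := by rcases u with ⟨y, _ | _⟩ <;> simp
  right_inv u := by rcases u with ⟨y, _ | _⟩ <;> simp

/-- the Grigorchuk doubling -/
def AV.dbl {Y : Type} (A : AV Y) : AV (Y × Bool) where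
  a := Equiv.prodCongr (Equiv.refl Y) Equiv.boolNot
  v x := fw (if om x = 1 then A.a else 1) (A.v (psi x))
  z := fw 1 A.z

/-- iterated doubling -/
def UY (Y : Type) : ℕ → Type
  | 0 => Y
  | r + 1 => UY Y r × Bool

def AV.pow {Y : Type} (A : AV Y) : (r : ℕ) → AV (UY Y r)
  | 0 => A
  | r + 1 => (A.pow r).dbl

def tip {Y : Type} (y : Y) : (r : ℕ) → UY Y r
  | 0 => y
  | r + 1 => (tip y r, true)

def bas {Y : Type} : (r : ℕ) → UY Y r → Y
  | 0 => fun y => y
  | r + 1 => fun u => bas r u.1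

/-- pairs (2j, 2j+1) on Fin (2q) -/
def pa0 (q : ℕ) : Perm (Fin (2 * q)) where
  toFun y := if h : (y : ℕ) % 2 = 0 then ⟨y + 1, by omega⟩ else ⟨y - 1, by omega⟩
  invFun y := if h : (y : ℕ) % 2 = 0 then ⟨y + 1, by omega⟩ else ⟨y - 1, by omega⟩
  left_inv y := by
    by_cases h : (y : ℕ) % 2 = 0
    · have h' : ((y : ℕ) + 1) % 2 ≠ 0 := by omega
      simp [h, h']
    · have h' : ((y : ℕ) - 1) % 2 = 0 := by omega
      have h'' : (y : ℕ) - 1 + 1 = y := by omega
      simp [h, h', h'']
  right_inv y := by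
    by_cases h : (y : ℕ) % 2 = 0
    · have h' : ((y : ℕ) + 1) % 2 ≠ 0 := by omega
      simp [h, h']
    · have h' : ((y : ℕ) - 1) % 2 = 0 := by omega
      have h'' : (y : ℕ) - 1 + 1 = y := by omega
      simp [h, h', h'']

/-- the function of `pb0` -/
def fb0 (q : ℕ) (y : Fin (2 * q)) : Fin (2 * q) :=
  if h : (y : ℕ) % 2 = 1 ∧ (y : ℕ) + 1 < 2 * q then ⟨y + 1, by omega⟩
  else if h' : (y : ℕ) % 2 = 0 ∧ 0 < (y : ℕ) then ⟨y - 1, by omega⟩ else y

theorem fb0_val (q : ℕ) (y : Fin (2 * q)) : ((fb0 q y : Fin (2 * q)) : ℕ) =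
    if (y : ℕ) % 2 = 1 ∧ (y : ℕ) + 1 < 2 * q then (y : ℕ) + 1
    else if (y : ℕ) % 2 = 0 ∧ 0 < (y : ℕ) then (y : ℕ) - 1 else y := by
  unfold fb0
  split_ifs <;> rfl

theorem fb0_inv (q : ℕ) (y : Fin (2 * q)) : fb0 q (fb0 q y) = y := by
  apply Fin.ext
  rw [fb0_val, fb0_val]
  have hy := y.2
  split_ifs <;> omega

/-- pairs (2j+1, 2j+2) on Fin (2q), both ends fixed -/
def pb0 (q : ℕ) : Perm (Fin (2 * q)) where
  toFun := fb0 q
  invFun := fb0 q
  left_inv := fb0_inv q
  right_inv := fb0_inv q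

/-- the path with `2q` vertices -/
def path (q : ℕ) : AV (Fin (2 * q)) where
  a := pa0 q
  v x := if x.1 = 1 then pb0 q else 1
  z := 1

/-- half length of the path -/
def hq (r : ℕ) : ℕ := 4 ^ (r + 1)

theorem hq_pos (r : ℕ) : 0 < hq r := by unfold hq; positivity

abbrev Bq (r : ℕ) : Type := Fin (2 * hq r)

/-- the generic action on the slow graph -/
def gA (r : ℕ) : AV (UY (Bq r) r) := (path (hq r)).pow r

def b0 (r : ℕ) : Bq r := ⟨0, by have := hq_pos r; omega⟩
def bm (r : ℕ) : Bq r := ⟨hq r, by have := hq_pos r; omega⟩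
def bl (r : ℕ) : Bq r := ⟨2 * hq r - 1, by have := hq_pos r; omega⟩

/-- the slow graph -/
noncomputable def slow (r : ℕ) : SD where
  Y := Option (UY (Bq r) r)
  pa := Equiv.optionCongr (gA r).a
  pv x := if x.1 = 1 then Equiv.optionCongr ((gA r).v x) * sw none (some (tip (bl r) r))
    else Equiv.optionCongr ((gA r).v x)
  e0 := none
  e1 := some (tip (b0 r) r)
  mid := some (tip (bm r) r)

/-- position along the path -/
def pp (r : ℕ) : Option (UY (Bq r) r) → ℕ
  | none => 2 * hq r
  | some u => ((bas r u : Bq r) : ℕ)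

/-- slow letters; the identity letter is `v 0 false`. -/
inductive Sl : Type
  | a : Sl
  | v : V4 → Bool → Sl

def Sl.id : Sl := Sl.v 0 false

/-- action of a slow letter -/
def aw {Y : Type} (A : AV Y) : Sl → Perm Y
  | Sl.a => A.a
  | Sl.v x i => A.v x * (if i = true then A.z else 1)

/-- action of a word in a set of letters -/
def wa {S Y : Type} (th : S → Perm Y) : List S → Perm Y
  | [] => 1
  | s :: l => th s * wa th l

def w4 (x : V4) : ℕ := if x = 0 then 0 else if x = (1, 0) then 6 else if x = (0, 1) then 4 else 2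

def wt : Sl → ℕ
  | Sl.a => 5
  | Sl.v x i => w4 x + (if i = true then 1 else 0)

def wtl : List Sl → ℕ
  | [] => 0
  | s :: l => wt s + wtl l

def isA : Sl → Bool
  | Sl.a => true
  | Sl.v _ _ => false

/-- alternating words -/
def Red : List Sl → Prop
  | [] => True
  | [_] => True
  | s :: t :: l => isA s ≠ isA t ∧ Red (t :: l)

/-- inverted orbit of `e` -/
def iO {S Y : Type} (th : S → Perm Y) (e : Y) : List S → Set Y
  | [] => {e}
  | s :: l => {(wa th (s :: l))⁻¹ e} ∪ iO th e l

/-- portraits of depth `r` -/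
def Dat : ℕ → Type
  | 0 => List Sl
  | r + 1 => Bool × Dat r × Dat r

def Dat.act {Y : Type} (A : AV Y) : (r : ℕ) → Dat r → UY Y r → UY Y r
  | 0, d, y => wa (aw A) (d : List Sl) (y : Y)
  | r + 1, d, u => (bif u.2 then Dat.act A r d.2.2 u.1 else Dat.act A r d.2.1 u.1, xor u.2 d.1)

def Dat.wt : (r : ℕ) → Dat r → ℕ
  | 0, d => wtl d
  | r + 1, d => Dat.wt r d.2.1 + Dat.wt r d.2.2

def Dat.len : (r : ℕ) → Dat r → ℕ
  | 0, d => List.length (d : List Sl)
  | r + 1, d => Dat.len r d.2.1 + Dat.len r d.2.2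

def Dat.red : (r : ℕ) → Dat r → Prop
  | 0, d => Red d
  | r + 1, d => Dat.red r d.2.1 ∧ Dat.red r d.2.2

/-- lamp version of `A`: lamps at the Klein orbit of `e`. -/
noncomputable def AV.lmp {Y : Type} (A : AV Y) (e : Y) : AV (Y × Bool) where
  a := Equiv.prodCongr A.a (Equiv.refl Bool)
  v x := Equiv.prodCongr (A.v x) (Equiv.refl Bool)
  z := { toFun := fun p => (p.1, if ∃ x, p.1 = A.v x e then !p.2 else p.2)
         invFun := fun p => (p.1, if ∃ x, p.1 = A.v x e then !p.2 else p.2)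
         left_inv := fun p => by
          by_cases h : ∃ x, p.1 = A.v x e
          · simp only [h, if_true, Bool.not_not]
          · simp only [h, if_false]
         right_inv := fun p => by
          by_cases h : ∃ x, p.1 = A.v x e
          · simp only [h, if_true, Bool.not_not]
          · simp only [h, if_false] }

/-- generic data: skew product structure outside an exceptional set. -/
structure Skew (F L S : Type) where
  gen : S → F → F
  sec : S → F → Sl
  th : Sl → Perm L
  E : Set L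
  act : S → Perm (F × L)

structure Skew.Ok {F L S : Type} (k : Skew F L S) : Prop where
  h : ∀ s f y, y ∉ k.E → k.act s (f, y) = (k.gen s f, k.th (k.sec s f) y)

def Skew.genl {F L S : Type} (k : Skew F L S) : List S → F → F
  | [] => fun f => f
  | s :: l => fun f => k.gen s (k.genl l f)

def Skew.secl {F L S : Type} (k : Skew F L S) : List S → F → List Sl
  | [] => fun _ => []
  | s :: l => fun f => k.sec s (k.genl l f) :: k.secl l f

/-- points whose generic trajectory hits the exceptional set -/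
def Skew.Exc {F L S : Type} (k : Skew F L S) (l : List S) : Set (F × L) :=
  {p | ∃ l1 l2, l = l1 ++ l2 ∧ wa k.th (k.secl l2 p.1) p.2 ∈ k.E}

/-- parameters of the tower -/
noncomputable abbrev DR (rho : ℕ → ℕ → ℕ) : ℕ → ℕ → SD := fun M k => slow (rho M k)

noncomputable abbrev rr (rho : ℕ → ℕ → ℕ) (M : ℕ) : ℕ := rho M (Nat.card (XX (DR rho) M))

/-- action of the letters on X on the bulk -/
noncomputable def bX (D : ℕ → ℕ → SD) (M : ℕ) (s : Gen) : Perm (XX D M) :=
  match s with
  | Gen.x => sw ((T D M).pos.s 1) ((T D M).pos.s 2) * (T D M).root s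
  | _ => (T D M).root s

/-- bulk action on `X × Y`. -/
noncomputable def bb (D : ℕ → ℕ → SD) (M : ℕ) (s : Gen) : Perm (XX D M × (DD D M).Y) :=
  match s with
  | Gen.a => fibP (T D M).pos.o (DD D M).pa * lX (bX D M s)
  | Gen.v v => fibP ((T D M).pos.s 0) ((DD D M).pv v) * lX (bX D M s)
  | _ => lX (bX D M s)

/-- action on pairs (coordinate, value). -/
noncomputable def pA (D : ℕ → ℕ → SD) (M : ℕ) (s : Gen) : Perm (XX D M × WW D M) where
  toFun p := ((T D M).root s p.1, dl (DD D M) s (T D M).pos ((T D M).root s p.1)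
    (gW ((T D M).root s) p.2))
  invFun p := (((T D M).root s)⁻¹ p.1, (gW ((T D M).root s))⁻¹
    ((dl (DD D M) s (T D M).pos p.1)⁻¹ p.2))
  left_inv p := by simp
  right_inv p := by simp

/-- section letter -/
noncomputable def scl (D : ℕ → ℕ → SD) (M : ℕ) (s : Gen) (x : XX D M) : Sl :=
  match s with
  | Gen.a => if (T D M).root s x = (T D M).pos.o then Sl.a else Sl.id
  | Gen.v v => if (T D M).root s x = (T D M).pos.s 0 then Sl.v v false else Sl.id
  | _ => Sl.id

/-- generic slow action on `Option`. -/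
def thY (r : ℕ) (s : Sl) : Perm (Option (UY (Bq r) r)) := Equiv.optionCongr (aw (gA r) s)

/-- the exceptional points -/
def exE (r : ℕ) : Set (Option (UY (Bq r) r)) :=
  {none, some (tip (bl r) r), some (tip (bm r) r), some (tip (b0 r) r)}

/-- reordering -/
def reo (X Y : Type) : X × ((X × Y) × K) ≃ (X × X × K) × Y where
  toFun p := ((p.1, p.2.1.1, p.2.2), p.2.1.2)
  invFun p := (p.1.1, ((p.1.2.1, p.2), p.1.2.2))
  left_inv _ := rfl
  right_inv _ := rfl

noncomputable def sys1 (rho : ℕ → ℕ → ℕ) (M : ℕ) :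
    Skew (XX (DR rho) M × XX (DR rho) M × K) (Option (UY (Bq (rr rho M)) (rr rho M))) Gen where
  gen s f := ((T (DR rho) M).root s f.1, bX (DR rho) M s f.2.1, f.2.2)
  sec s f := scl (DR rho) M s f.2.1
  th := thY (rr rho M)
  E := exE (rr rho M)
  act s := ((reo (XX (DR rho) M) (Option (UY (Bq (rr rho M)) (rr rho M)))).symm.trans
    (pA (DR rho) M s)).trans (reo (XX (DR rho) M) (Option (UY (Bq (rr rho M)) (rr rho M))))

noncomputable def sys2 (rho : ℕ → ℕ → ℕ) (M : ℕ) :
    Skew (XX (DR rho) M) (Option (UY (Bq (rr rho M)) (rr rho M))) Gen where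
  gen s x := bX (DR rho) M s x
  sec s x := scl (DR rho) M s x
  th := thY (rr rho M)
  E := exE (rr rho M)
  act s := bb (DR rho) M s

/-- position of level `M+1` with base point `p`. -/
def cpos {D : ℕ → ℕ → SD} {M : ℕ} (p : XX D M × (DD D M).Y) : Pos (XX D (M + 1)) :=
  ⟨fun _ => (p, 0), fun k _ => (p, k)⟩

end IG
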