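import Mathlib
import Pool.Agent.Helper529.IG.SDefs

open Classical Equiv

namespace IG


theorem fw_mul_fw {Y : Type} (p q p' q' : Perm Y) :
    fw p q * fw p' q' = fw (p * p') (q * q') := by
  ext u
  · rcases u with ⟨y, _ | _⟩ <;> rfl
  · rcases u with ⟨y, _ | _⟩ <;> rfl

theorem fw_one_one {Y : Type} : fw (1 : Perm Y) 1 = 1 := by
  ext u
  · rcases u with ⟨y, _ | _⟩ <;> rfl
  · rcases u with ⟨y, _ | _⟩ <;> rfl

theorem psi_add (x y : V4) : psi (x + y) = psi x + psi y := by
  unfold psi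
  ext
  · rfl
  · simp only [Prod.fst_add, Prod.snd_add]; ring

theorem om_add (x y : V4) : om (x + y) = om x + om y := by
  unfold om
  simp only [Prod.fst_add, Prod.snd_add]; ring

theorem psi_zero : psi 0 = 0 := by decide

theorem om_zero : om 0 = 0 := by decide

theorem zmod2_cases (x : ZMod 2) : x = 0 ∨ x = 1 := by
  revert x; decide

theorem if_one_add {G : Type*} [Group G] (a : G) (ha : a * a = 1) (x y : ZMod 2) :
    (if x + y = 1 then a else 1) = (if x = 1 then a else 1) * (if y = 1 then a else 1) := by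
  have h01 : ¬ ((0 : ZMod 2) = 1) := by decide
  have h11 : (1 : ZMod 2) + 1 = 0 := by decide
  rcases zmod2_cases x with rfl | rfl <;> rcases zmod2_cases y with rfl | rfl
  · simp [h01]
  · simp [h01]
  · simp [h01]
  · rw [h11]; simp [h01, ha]

theorem dbl_ok {Y : Type} (A : AV Y) (hA : A.Ok) : A.dbl.Ok := by
  refine ⟨?_, ?_, ?_, ?_, ?_⟩
  · ext u
    · rfl
    · rcases u with ⟨y, _ | _⟩ <;> rfl
  · show fw (if om 0 = 1 then A.a else 1) (A.v (psi 0)) = 1
    rw [om_zero, psi_zero, hA.v_zero]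
    have h01 : ¬ ((0 : ZMod 2) = 1) := by decide
    rw [if_neg h01]
    exact fw_one_one
  · intro x y
    show fw (if om (x + y) = 1 then A.a else 1) (A.v (psi (x + y))) =
      fw (if om x = 1 then A.a else 1) (A.v (psi x)) *
      fw (if om y = 1 then A.a else 1) (A.v (psi y))
    rw [fw_mul_fw, om_add, psi_add, hA.v_add, if_one_add A.a hA.a_sq]
  · show fw 1 A.z * fw 1 A.z = 1
    rw [fw_mul_fw, hA.z_sq, one_mul]
    exact fw_one_one
  · intro x
    show fw 1 A.z * fw (if om x = 1 then A.a else 1) (A.v (psi x)) =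
      fw (if om x = 1 then A.a else 1) (A.v (psi x)) * fw 1 A.z
    rw [fw_mul_fw, fw_mul_fw, hA.z_comm, one_mul, mul_one]

theorem pow_ok {Y : Type} (A : AV Y) (hA : A.Ok) (r : ℕ) : (A.pow r).Ok := by
  induction r with
  | zero => exact hA
  | succ r ih => exact dbl_ok _ ih

theorem pa0_sq (q : ℕ) : pa0 q * pa0 q = 1 := by
  ext y
  have h := (pa0 q).left_inv y
  exact congrArg Fin.val h

theorem pb0_sq (q : ℕ) : pb0 q * pb0 q = 1 := by
  ext y
  have h := fb0_inv q y
  exact congrArg Fin.val h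

theorem path_ok (q : ℕ) : (path q).Ok := by
  refine ⟨?_, ?_, ?_, ?_, ?_⟩
  · exact pa0_sq q
  · show (if (0 : V4).1 = 1 then pb0 q else 1) = 1
    have h01 : ¬ ((0 : V4).1 = 1) := by decide
    rw [if_neg h01]
  · intro x y
    show (if (x + y).1 = 1 then pb0 q else 1) =
      (if x.1 = 1 then pb0 q else 1) * (if y.1 = 1 then pb0 q else 1)
    rw [Prod.fst_add]
    exact if_one_add (pb0 q) (pb0_sq q) x.1 y.1
  · show (1 : Perm (Fin (2 * q))) * 1 = 1
    exact mul_one 1
  · intro x
    show (1 : Perm (Fin (2 * q))) * _ = _ * 1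
    rw [one_mul, mul_one]

theorem gA_ok (r : ℕ) : (gA r).Ok := pow_ok _ (path_ok _) r


end IG
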