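import Mathlib
import Pool.Agent.Helper529.IG.QP1

open Classical Equiv

namespace IG


theorem finite_UY (Y : Type) [Finite Y] (r : ℕ) : Finite (UY Y r) := by
  induction r with
  | zero => exact (inferInstance : Finite Y)
  | succ r ih =>
    have := ih
    exact (inferInstance : Finite (UY Y r × Bool))

theorem card_UY (Y : Type) [Finite Y] (r : ℕ) : Nat.card (UY Y r) = 2 ^ r * Nat.card Y := by
  induction r with
  | zero =>
    change Nat.card Y = 2 ^ 0 * Nat.card Y
    rw [pow_zero, one_mul]
  | succ r ih =>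
    change Nat.card (UY Y r × Bool) = 2 ^ (r + 1) * Nat.card Y
    rw [Nat.card_prod, ih, Nat.card_eq_fintype_card (α := Bool), Fintype.card_bool]
    ring

theorem bas_tip {Y : Type} (y : Y) (r : ℕ) : bas r (tip y r) = y := by
  induction r with
  | zero => rfl
  | succ r ih => exact ih

theorem pow_v_tip {Y : Type} (A : AV Y) (r : ℕ) (x : V4) (y : Y) :
    (A.pow r).v x (tip y r) = tip (A.v (psi^[r] x) y) r := by
  induction r generalizing x with
  | zero => rfl
  | succ r ih =>
    change (((A.pow r).v (psi x) (tip y r), true) : UY Y r × Bool) =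
      (tip (A.v (psi^[r] (psi x)) y) r, true)
    rw [ih]

theorem path_v_fix (q : ℕ) (x : V4) (y : Fin (2 * q))
    (hy : (y : ℕ) = 0 ∨ (y : ℕ) = 2 * q - 1) : (path q).v x y = y := by
  have h1 : (path q).v x = if x.1 = 1 then pb0 q else 1 := rfl
  rw [h1]
  split_ifs with h
  · change fb0 q y = y
    apply Fin.ext
    rw [fb0_val]
    have := y.2
    split_ifs <;> omega
  · rfl

theorem gA_v_b0 (r : ℕ) (x : V4) : (gA r).v x (tip (b0 r) r) = tip (b0 r) r := by
  change ((path (hq r)).pow r).v x (tip (b0 r) r) = tip (b0 r) r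
  rw [pow_v_tip, path_v_fix _ _ _ (Or.inl rfl)]

theorem gA_v_bl (r : ℕ) (x : V4) : (gA r).v x (tip (bl r) r) = tip (bl r) r := by
  change ((path (hq r)).pow r).v x (tip (bl r) r) = tip (bl r) r
  rw [pow_v_tip, path_v_fix _ _ _ (Or.inr rfl)]

theorem path_z (q r : ℕ) : ((path q).pow r).z = 1 := by
  induction r with
  | zero => rfl
  | succ r ih =>
    change fw 1 ((path q).pow r).z = 1
    rw [ih]
    ext u : 1
    rcases u with ⟨y, _ | _⟩ <;> rfl


end IG
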