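import Mathlib
import Pool.Agent.Helper529.IG.QP2

open Classical Equiv

namespace IG


/-- base coordinate of a moved point: unchanged or moved by `a` or `v`. -/
theorem bas_pow_a {Y : Type} (A : AV Y) (r : ℕ) (u : UY Y r) :
    bas r ((A.pow r).a u) = bas r u ∨ bas r ((A.pow r).a u) = A.a (bas r u) := by
  cases r with
  | zero => exact Or.inr rfl
  | succ r => exact Or.inl rfl

theorem bas_pow_v {Y : Type} (A : AV Y) (r : ℕ) (x : V4) (u : UY Y r) :
    bas r ((A.pow r).v x u) = bas r u ∨ bas r ((A.pow r).v x u) = A.a (bas r u) ∨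
      ∃ x', bas r ((A.pow r).v x u) = A.v x' (bas r u) := by
  induction r generalizing x with
  | zero => exact Or.inr (Or.inr ⟨x, rfl⟩)
  | succ r ih =>
    obtain ⟨u, b⟩ := u
    cases b with
    | false =>
      have h1 : bas (r + 1) ((A.pow (r + 1)).v x (u, false)) =
          bas r ((if om x = 1 then (A.pow r).a else 1) u) := rfl
      have h2 : bas (r + 1) ((u, false) : UY Y (r + 1)) = bas r u := rfl
      rw [h1, h2]
      by_cases h : om x = 1
      · rw [if_pos h]
        rcases bas_pow_a A r u with h3 | h3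
        · exact Or.inl h3
        · exact Or.inr (Or.inl h3)
      · rw [if_neg h]
        exact Or.inl rfl
    | true =>
      have h1 : bas (r + 1) ((A.pow (r + 1)).v x (u, true)) =
          bas r ((A.pow r).v (psi x) u) := rfl
      have h2 : bas (r + 1) ((u, true) : UY Y (r + 1)) = bas r u := rfl
      rw [h1, h2]
      exact ih (psi x) u

theorem pp_pa0 (q : ℕ) (y : Fin (2 * q)) : ((pa0 q y : Fin (2 * q)) : ℕ) ≤ (y : ℕ) + 1 ∧
    (y : ℕ) ≤ ((pa0 q y : Fin (2 * q)) : ℕ) + 1 := by
  have h : ((pa0 q y : Fin (2 * q)) : ℕ) = if (y : ℕ) % 2 = 0 then (y : ℕ) + 1 else (y : ℕ) - 1 := by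
    show (((if h : (y : ℕ) % 2 = 0 then ⟨y + 1, by omega⟩ else ⟨y - 1, by omega⟩ : Fin (2 * q))) : ℕ)
      = _
    split_ifs <;> rfl
  rw [h]
  split_ifs <;> omega

theorem pp_pb0 (q : ℕ) (y : Fin (2 * q)) : ((pb0 q y : Fin (2 * q)) : ℕ) ≤ (y : ℕ) + 1 ∧
    (y : ℕ) ≤ ((pb0 q y : Fin (2 * q)) : ℕ) + 1 := by
  have h : ((pb0 q y : Fin (2 * q)) : ℕ) = ((fb0 q y : Fin (2 * q)) : ℕ) := rfl
  rw [h, fb0_val]
  split_ifs <;> omega

theorem pp_a_aux (r : ℕ) (u : UY (Bq r) r) :
    ((bas r ((gA r).a u) : Bq r) : ℕ) ≤ ((bas r u : Bq r) : ℕ) + 1 ∧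
    ((bas r u : Bq r) : ℕ) ≤ ((bas r ((gA r).a u) : Bq r) : ℕ) + 1 := by
  rcases bas_pow_a (path (hq r)) r u with h | h
  · have h' : bas r ((gA r).a u) = bas r u := h
    rw [h']; omega
  · have h' : bas r ((gA r).a u) = pa0 (hq r) (bas r u) := h
    rw [h']
    exact pp_pa0 (hq r) (bas r u)

theorem pp_v_aux (r : ℕ) (x : V4) (u : UY (Bq r) r) :
    ((bas r ((gA r).v x u) : Bq r) : ℕ) ≤ ((bas r u : Bq r) : ℕ) + 1 ∧
    ((bas r u : Bq r) : ℕ) ≤ ((bas r ((gA r).v x u) : Bq r) : ℕ) + 1 := by
  rcases bas_pow_v (path (hq r)) r x u with h | h | ⟨x', h⟩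
  · have h' : bas r ((gA r).v x u) = bas r u := h
    rw [h']; omega
  · have h' : bas r ((gA r).v x u) = pa0 (hq r) (bas r u) := h
    rw [h']
    exact pp_pa0 (hq r) (bas r u)
  · have h' : bas r ((gA r).v x u) = (if x'.1 = 1 then pb0 (hq r) else 1) (bas r u) := h
    rw [h']
    by_cases hx : x'.1 = 1
    · rw [if_pos hx]
      exact pp_pb0 (hq r) (bas r u)
    · rw [if_neg hx]
      have h2 : (1 : Perm (Bq r)) (bas r u) = bas r u := rfl
      rw [h2]; omega

/-- slow letters move the position by at most one. -/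
theorem pp_a (r : ℕ) (y : (slow r).Y) :
    pp r ((slow r).pa y) ≤ pp r y + 1 ∧ pp r y ≤ pp r ((slow r).pa y) + 1 := by
  have hy : ∀ y : Option (UY (Bq r) r), pp r (Equiv.optionCongr (gA r).a y) ≤ pp r y + 1 ∧
      pp r y ≤ pp r (Equiv.optionCongr (gA r).a y) + 1 := by
    intro y
    cases y with
    | none =>
      rw [Equiv.optionCongr_apply, Option.map_none]
      omega
    | some u =>
      rw [Equiv.optionCongr_apply, Option.map_some]
      exact pp_a_aux r u
  exact hy y

theorem pp_v (r : ℕ) (x : V4) (y : (slow r).Y) :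
    pp r ((slow r).pv x y) ≤ pp r y + 1 ∧ pp r y ≤ pp r ((slow r).pv x y) + 1 := by
  have hgen : ∀ y : Option (UY (Bq r) r), pp r (Equiv.optionCongr ((gA r).v x) y) ≤ pp r y + 1 ∧
      pp r y ≤ pp r (Equiv.optionCongr ((gA r).v x) y) + 1 := by
    intro y
    cases y with
    | none =>
      rw [Equiv.optionCongr_apply, Option.map_none]
      omega
    | some u =>
      rw [Equiv.optionCongr_apply, Option.map_some]
      exact pp_v_aux r x u
  have hbl : pp r (some (tip (bl r) r)) = 2 * hq r - 1 := by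
    show ((bas r (tip (bl r) r) : Bq r) : ℕ) = _
    rw [bas_tip]; rfl
  have hnone : pp r none = 2 * hq r := rfl
  have hpos := hq_pos r
  have hy : ∀ y : Option (UY (Bq r) r),
      pp r ((if x.1 = 1 then Equiv.optionCongr ((gA r).v x) * sw none (some (tip (bl r) r))
        else Equiv.optionCongr ((gA r).v x)) y) ≤ pp r y + 1 ∧
      pp r y ≤ pp r ((if x.1 = 1 then Equiv.optionCongr ((gA r).v x) *
        sw none (some (tip (bl r) r)) else Equiv.optionCongr ((gA r).v x)) y) + 1 := by
    intro y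
    by_cases hx : x.1 = 1
    · rw [if_pos hx, Equiv.Perm.mul_apply]
      by_cases h1 : y = none
      · rw [h1]
        have h2 : sw none (some (tip (bl r) r)) (none : Option (UY (Bq r) r)) =
            some (tip (bl r) r) := by
          unfold sw; exact @Equiv.swap_apply_left _ (fun x y => propDecidable (x = y)) _ _
        rw [h2, Equiv.optionCongr_apply, Option.map_some, gA_v_bl, hbl, hnone]
        omega
      · by_cases h3 : y = some (tip (bl r) r)
        · rw [h3]
          have h2 : sw none (some (tip (bl r) r)) (some (tip (bl r) r) : Option (UY (Bq r) r)) =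
              none := by
            unfold sw; exact @Equiv.swap_apply_right _ (fun x y => propDecidable (x = y)) _ _
          rw [h2, Equiv.optionCongr_apply, Option.map_none, hbl, hnone]
          omega
        · have h2 : sw none (some (tip (bl r) r)) y = y := by
            unfold sw; exact @Equiv.swap_apply_of_ne_of_ne _ (fun x y => propDecidable (x = y)) _ _ _ h1 h3
          rw [h2]
          exact hgen y
    · rw [if_neg hx]
      exact hgen y
  exact hy y


end IG
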