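import Mathlib
import Pool.Agent.Helper529.IG.QP3

open Classical Equiv

namespace IG


theorem sw_left_866 {Z : Type} (a b : Z) : sw a b a = b :=
  @Equiv.swap_apply_left Z (fun x y => propDecidable (x = y)) a b

theorem sw_right_866 {Z : Type} (a b : Z) : sw a b b = a :=
  @Equiv.swap_apply_right Z (fun x y => propDecidable (x = y)) a b

theorem sw_ne_866 {Z : Type} (a b c : Z) (h1 : c ≠ a) (h2 : c ≠ b) : sw a b c = c :=
  @Equiv.swap_apply_of_ne_of_ne Z (fun x y => propDecidable (x = y)) a b c h1 h2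

theorem psi_surj_866 : ∀ x : V4, ∃ x' : V4, psi x' = x := by
  decide

/-- a set closed under the moves of a transitive pair. -/
theorem pow_conn {Y : Type} (A : AV Y)
    (hA : ∀ S : Set Y, S.Nonempty → (∀ y ∈ S, A.a y ∈ S) → (∀ y ∈ S, ∀ x, A.v x y ∈ S) →
      ∀ y, y ∈ S) (r : ℕ) (S : Set (UY Y r)) (hne : S.Nonempty)
    (h1 : ∀ u ∈ S, (A.pow r).a u ∈ S) (h2 : ∀ u ∈ S, ∀ x, (A.pow r).v x u ∈ S) :
    ∀ u, u ∈ S := by
  induction r with
  | zero => exact hA S hne h1 h2
  | succ r ih =>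
    have ha : ∀ (u : UY Y r) (b : Bool), ((u, b) : UY Y r × Bool) ∈ S →
        ((u, !b) : UY Y r × Bool) ∈ S := fun u b hu => h1 (u, b) hu
    have hvt : ∀ (u : UY Y r) (x : V4), ((u, true) : UY Y r × Bool) ∈ S →
        (((A.pow r).v (psi x) u, true) : UY Y r × Bool) ∈ S := fun u x hu => h2 (u, true) hu x
    have hvf : ∀ (u : UY Y r), ((u, false) : UY Y r × Bool) ∈ S →
        (((A.pow r).a u, false) : UY Y r × Bool) ∈ S := by
      intro u hu
      have h3 := h2 (u, false) hu (1, 0)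
      have h4 : om (1, 0) = 1 := by decide
      have h5 : (A.pow (r + 1)).v (1, 0) (u, false) =
          (((if om (1, 0) = 1 then (A.pow r).a else 1) u, false) : UY Y r × Bool) := rfl
      rw [h5, if_pos h4] at h3
      exact h3
    have key : ∀ u : UY Y r, ((u, true) : UY Y r × Bool) ∈ S := by
      refine ih {u | ((u, true) : UY Y r × Bool) ∈ S} ?_ ?_ ?_
      · obtain ⟨⟨u, b⟩, hp⟩ := hne
        cases b with
        | true => exact ⟨u, hp⟩
        | false => exact ⟨u, ha u false hp⟩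
      · intro u hu
        exact ha _ false (hvf u (ha u true hu))
      · intro u hu x
        obtain ⟨x', rfl⟩ := psi_surj_866 x
        exact hvt u x' hu
    rintro ⟨u, b⟩
    cases b with
    | true => exact key u
    | false => exact ha u true (key u)

theorem path_conn (q : ℕ) (S : Set (Fin (2 * q))) (hne : S.Nonempty)
    (h1 : ∀ u ∈ S, (path q).a u ∈ S) (h2 : ∀ u ∈ S, ∀ x, (path q).v x u ∈ S) :
    ∀ u, u ∈ S := by
  have ha : ∀ u ∈ S, pa0 q u ∈ S := h1
  have hb : ∀ u ∈ S, pb0 q u ∈ S := by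
    intro u hu
    have h3 := h2 u hu (1, 0)
    have h4 : (path q).v (1, 0) = pb0 q := by
      show (if ((1, 0) : V4).1 = 1 then pb0 q else 1) = pb0 q
      rw [if_pos rfl]
    rwa [h4] at h3
  have hpa : ∀ u : Fin (2 * q), ((pa0 q u : Fin (2 * q)) : ℕ) =
      if (u : ℕ) % 2 = 0 then (u : ℕ) + 1 else (u : ℕ) - 1 := by
    intro u
    show ((if h : (u : ℕ) % 2 = 0 then (⟨u + 1, by omega⟩ : Fin (2 * q)) else ⟨u - 1, by omega⟩ :
      Fin (2 * q)) : ℕ) = _
    split_ifs <;> rfl
  have hpb : ∀ u : Fin (2 * q), ((pb0 q u : Fin (2 * q)) : ℕ) =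
      if (u : ℕ) % 2 = 1 ∧ (u : ℕ) + 1 < 2 * q then (u : ℕ) + 1
      else if (u : ℕ) % 2 = 0 ∧ 0 < (u : ℕ) then (u : ℕ) - 1 else u := fun u => fb0_val q u
  have hup : ∀ u ∈ S, ∀ h : (u : ℕ) + 1 < 2 * q, (⟨(u : ℕ) + 1, h⟩ : Fin (2 * q)) ∈ S := by
    intro u hu h
    by_cases hpar : (u : ℕ) % 2 = 0
    · have h3 : pa0 q u = ⟨(u : ℕ) + 1, h⟩ := by
        apply Fin.ext
        rw [hpa, if_pos hpar]
      rw [← h3]
      exact ha u hu
    · have h3 : pb0 q u = ⟨(u : ℕ) + 1, h⟩ := by
        apply Fin.ext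
        rw [hpb, if_pos ⟨by omega, h⟩]
      rw [← h3]
      exact hb u hu
  have hdn : ∀ u ∈ S, ∀ h : 0 < (u : ℕ), (⟨(u : ℕ) - 1, by omega⟩ : Fin (2 * q)) ∈ S := by
    intro u hu h
    by_cases hpar : (u : ℕ) % 2 = 0
    · have h3 : pb0 q u = ⟨(u : ℕ) - 1, by omega⟩ := by
        apply Fin.ext
        rw [hpb, if_neg (by omega), if_pos ⟨hpar, h⟩]
      rw [← h3]
      exact hb u hu
    · have h3 : pa0 q u = ⟨(u : ℕ) - 1, by omega⟩ := by
        apply Fin.ext
        rw [hpa, if_neg hpar]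
      rw [← h3]
      exact ha u hu
  obtain ⟨u0, hu0⟩ := hne
  have hupk : ∀ k : ℕ, ∀ h : (u0 : ℕ) + k < 2 * q, (⟨(u0 : ℕ) + k, h⟩ : Fin (2 * q)) ∈ S := by
    intro k
    induction k with
    | zero => intro h; exact hu0
    | succ k ih => intro h; exact hup _ (ih (by omega)) h
  have hdnk : ∀ k : ℕ, ∀ h : k ≤ (u0 : ℕ), (⟨(u0 : ℕ) - k, by omega⟩ : Fin (2 * q)) ∈ S := by
    intro k
    induction k with
    | zero => intro h; exact hu0
    | succ k ih =>
      intro h
      have h3 := hdn _ (ih (by omega)) (by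
        show 0 < (u0 : ℕ) - k
        omega)
      exact h3
  intro u
  rcases le_total (u0 : ℕ) (u : ℕ) with h | h
  · have h3 := hupk ((u : ℕ) - u0) (by omega)
    have h4 : (⟨(u0 : ℕ) + ((u : ℕ) - u0), by omega⟩ : Fin (2 * q)) = u := by
      apply Fin.ext
      show (u0 : ℕ) + ((u : ℕ) - u0) = u
      omega
    rw [← h4]
    exact h3
  · have h3 := hdnk ((u0 : ℕ) - u) (by omega)
    have h4 : (⟨(u0 : ℕ) - ((u0 : ℕ) - u), by omega⟩ : Fin (2 * q)) = u := by
      apply Fin.ext
      show (u0 : ℕ) - ((u0 : ℕ) - u) = u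
      omega
    rw [← h4]
    exact h3

/-- connectivity from any starting point -/
theorem slow_conn (r : ℕ) (S : Set (slow r).Y) (hne : S.Nonempty)
    (h1 : ∀ u ∈ S, (slow r).pa u ∈ S) (h2 : ∀ u ∈ S, ∀ x, (slow r).pv x u ∈ S) :
    ∀ u, u ∈ S := by
  have H1 : ∀ (x : V4) (y : Option (UY (Bq r) r)), x.1 = 1 →
      y ∈ (show Set (Option (UY (Bq r) r)) from S) →
      Equiv.optionCongr ((gA r).v x) (sw none (some (tip (bl r) r)) y) ∈
        (show Set (Option (UY (Bq r) r)) from S) := by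
    intro x y hx hy
    have h3 := h2 y hy x
    have h4 : (slow r).pv x =
      Equiv.optionCongr ((gA r).v x) * sw none (some (tip (bl r) r)) := if_pos hx
    rw [h4] at h3
    exact h3
  have H0 : ∀ (x : V4) (y : Option (UY (Bq r) r)), ¬ x.1 = 1 →
      y ∈ (show Set (Option (UY (Bq r) r)) from S) →
      Equiv.optionCongr ((gA r).v x) y ∈ (show Set (Option (UY (Bq r) r)) from S) := by
    intro x y hx hy
    have h3 := h2 y hy x
    have h4 : (slow r).pv x = Equiv.optionCongr ((gA r).v x) := if_neg hx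
    rw [h4] at h3
    exact h3
  -- from `none`
  have hnone : (none : Option (UY (Bq r) r)) ∈ (show Set (Option (UY (Bq r) r)) from S) →
      (some (tip (bl r) r) : Option (UY (Bq r) r)) ∈
        (show Set (Option (UY (Bq r) r)) from S) := by
    intro h
    have h3 := H1 (1, 0) none rfl h
    rw [sw_left_866] at h3
    have h4 : Equiv.optionCongr ((gA r).v (1, 0)) (some (tip (bl r) r)) =
        some (tip (bl r) r) := by
      simp [gA_v_bl]
    rwa [h4] at h3
  have htip : (some (tip (bl r) r) : Option (UY (Bq r) r)) ∈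
      (show Set (Option (UY (Bq r) r)) from S) →
      (none : Option (UY (Bq r) r)) ∈ (show Set (Option (UY (Bq r) r)) from S) := by
    intro h
    have h3 := H1 (1, 0) _ rfl h
    rw [sw_right_866] at h3
    exact h3
  have key : ∀ u : UY (Bq r) r, (some u : Option (UY (Bq r) r)) ∈
      (show Set (Option (UY (Bq r) r)) from S) := by
    refine pow_conn (path (hq r)) (path_conn (hq r)) r
      {u : UY (Bq r) r | (some u : Option (UY (Bq r) r)) ∈
        (show Set (Option (UY (Bq r) r)) from S)} ?_ ?_ ?_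
    · obtain ⟨u, hu⟩ := hne
      cases u with
      | none => exact ⟨_, hnone hu⟩
      | some u => exact ⟨u, hu⟩
    · intro u hu
      exact h1 (some u) hu
    · intro u hu x
      show (some ((gA r).v x u) : Option (UY (Bq r) r)) ∈
        (show Set (Option (UY (Bq r) r)) from S)
      by_cases hx : x.1 = 1
      · by_cases hut : u = tip (bl r) r
        · rw [hut, gA_v_bl, ← hut]
          exact hu
        · have h3 := H1 x (some u) hx hu
          rw [sw_ne_866 _ _ _ (by simp) (fun h => hut (Option.some.inj h))] at h3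
          exact h3
      · exact H0 x (some u) hx hu
  intro u
  cases u with
  | none => exact htip (key _)
  | some u => exact key u


end IG
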