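import Mathlib
import Pool.Agent.Helper529.IG.QP4

open Classical Equiv

namespace IG


theorem sw_left {Z : Type} (a b : Z) : sw a b a = b := by
  unfold sw
  exact Equiv.swap_apply_left a b

theorem sw_right {Z : Type} (a b : Z) : sw a b b = a := by
  unfold sw
  exact Equiv.swap_apply_right a b

theorem sw_ne {Z : Type} {a b x : Z} (h1 : x ≠ a) (h2 : x ≠ b) : sw a b x = x := by
  unfold sw
  exact Equiv.swap_apply_of_ne_of_ne h1 h2

theorem sw_mul_self {Z : Type} (a b : Z) : sw a b * sw a b = 1 := by
  unfold sw
  exact Equiv.swap_mul_self a b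

theorem sw_comm_of_fix {Z : Type} (a b : Z) (π : Perm Z) (ha : π a = a) (hb : π b = b) :
    π * sw a b = sw a b * π := by
  ext x
  show π (sw a b x) = sw a b (π x)
  by_cases h1 : x = a
  · subst h1
    rw [sw_left, ha, hb, sw_left]
  · by_cases h2 : x = b
    · subst h2
      rw [sw_right, ha, hb, sw_right]
    · rw [sw_ne h1 h2, sw_ne]
      · intro h
        exact h1 (π.injective (h.trans ha.symm))
      · intro h
        exact h2 (π.injective (h.trans hb.symm))

theorem oc_mul {Y : Type} (p q : Perm Y) :
    (Equiv.optionCongr p : Perm (Option Y)) * Equiv.optionCongr q = Equiv.optionCongr (p * q) := by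
  ext x
  cases x <;> rfl

theorem oc_one {Y : Type} : (Equiv.optionCongr (1 : Perm Y) : Perm (Option Y)) = 1 := by
  ext x
  cases x <;> rfl

theorem oc_none {Y : Type} (p : Perm Y) : (Equiv.optionCongr p : Perm (Option Y)) none = none := rfl

theorem oc_some {Y : Type} (p : Perm Y) (y : Y) :
    (Equiv.optionCongr p : Perm (Option Y)) (some y) = some (p y) := rfl

theorem slow_pv_one (r : ℕ) {x : V4} (h : x.1 = 1) : (slow r).pv x =
    Equiv.optionCongr ((gA r).v x) * sw none (some (tip (bl r) r)) := by
  show (if x.1 = 1 then Equiv.optionCongr ((gA r).v x) * sw none (some (tip (bl r) r))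
    else Equiv.optionCongr ((gA r).v x)) = _
  rw [if_pos h]

theorem slow_pv_ne (r : ℕ) {x : V4} (h : x.1 ≠ 1) : (slow r).pv x =
    Equiv.optionCongr ((gA r).v x) := by
  show (if x.1 = 1 then Equiv.optionCongr ((gA r).v x) * sw none (some (tip (bl r) r))
    else Equiv.optionCongr ((gA r).v x)) = _
  rw [if_neg h]

/-- the common form -/
theorem slow_pv_form (r : ℕ) (x : V4) : (slow r).pv x =
    Equiv.optionCongr ((gA r).v x) *
      (if x.1 = 1 then sw none (some (tip (bl r) r)) else 1) := by
  by_cases h : x.1 = 1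
  · rw [slow_pv_one r h, if_pos h]
  · rw [slow_pv_ne r h, if_neg h, mul_one]

theorem tip_inj {Y : Type} (r : ℕ) {y y' : Y} (h : tip y r = tip y' r) : y = y' := by
  rw [← bas_tip y r, h, bas_tip]

theorem oc_sw_comm (r : ℕ) (x : V4) :
    (Equiv.optionCongr ((gA r).v x) : Perm (Option (UY (Bq r) r))) *
      sw none (some (tip (bl r) r)) =
    sw none (some (tip (bl r) r)) * Equiv.optionCongr ((gA r).v x) :=
  sw_comm_of_fix _ _ _ (oc_none _) (by rw [oc_some, gA_v_bl])

theorem v4_add_self (x : V4) : x + x = 0 := by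
  revert x
  decide

theorem gA_v_sq (r : ℕ) (x : V4) : (gA r).v x * (gA r).v x = 1 := by
  rw [← (gA_ok r).v_add, v4_add_self, (gA_ok r).v_zero]

theorem gA_v_comm (r : ℕ) (x y : V4) : (gA r).v x * (gA r).v y = (gA r).v y * (gA r).v x := by
  rw [← (gA_ok r).v_add, ← (gA_ok r).v_add, add_comm]

theorem slow_conn_P5 (r : ℕ) (S : Set (slow r).Y) (h0 : (slow r).mid ∈ S)
    (h1 : ∀ y ∈ S, (slow r).pa y ∈ S) (h2 : ∀ y ∈ S, ∀ v, (slow r).pv v y ∈ S) :
    ∀ y, y ∈ S := by
  have key : ∀ u : UY (Bq r) r, (some u : (slow r).Y) ∈ S := by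
    refine pow_conn (path (hq r)) (path_conn (hq r)) r {u | (some u : (slow r).Y) ∈ S}
      ⟨tip (bm r) r, h0⟩ ?_ ?_
    · intro u hu
      exact h1 (some u) hu
    · intro u hu x
      show (some ((gA r).v x u) : (slow r).Y) ∈ S
      by_cases hx : x.1 = 1
      · by_cases hub : u = tip (bl r) r
        · rw [hub, gA_v_bl, ← hub]
          exact hu
        · have h3 := h2 (some u) hu x
          rw [slow_pv_one r hx] at h3
          have h4 : (Equiv.optionCongr ((gA r).v x) * sw none (some (tip (bl r) r)) :
              Perm (Option (UY (Bq r) r))) (some u) = some ((gA r).v x u) := by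
            show Equiv.optionCongr ((gA r).v x) (sw none (some (tip (bl r) r)) (some u)) = _
            rw [sw_ne (by simp) (by
              intro h
              exact hub (Option.some.inj h))]
            rfl
          have h5 : (Equiv.optionCongr ((gA r).v x) * sw none (some (tip (bl r) r)) :
              Perm (Option (UY (Bq r) r))) (some u) ∈ S := h3
          rw [h4] at h5
          exact h5
      · have h3 := h2 (some u) hu x
        rw [slow_pv_ne r hx] at h3
        exact h3
  intro y
  cases y with
  | some u => exact key u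
  | none =>
    have h3 := h2 (some (tip (bl r) r)) (key _) (1, 0)
    rw [slow_pv_one r rfl] at h3
    have h4 : (Equiv.optionCongr ((gA r).v (1, 0)) * sw none (some (tip (bl r) r)) :
        Perm (Option (UY (Bq r) r))) (some (tip (bl r) r)) = none := by
      show Equiv.optionCongr ((gA r).v (1, 0)) (sw none (some (tip (bl r) r))
        (some (tip (bl r) r))) = _
      rw [sw_right]
      rfl
    have h5 : (Equiv.optionCongr ((gA r).v (1, 0)) * sw none (some (tip (bl r) r)) :
        Perm (Option (UY (Bq r) r))) (some (tip (bl r) r)) ∈ S := h3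
    rw [h4] at h5
    exact h5

theorem b0_ne_bl (r : ℕ) : b0 r ≠ bl r := by
  intro h
  have h1 := congrArg Fin.val h
  have h2 : (0 : ℕ) = 2 * hq r - 1 := h1
  have := hq_pos r
  omega

theorem slow_ok (r : ℕ) : (slow r).Ok where
  fin := by
    haveI := finite_UY (Bq r) r
    show Finite (Option (UY (Bq r) r))
    infer_instance
  pa_e0 := rfl
  pv_e1 := by
    intro x
    have hfix : (Equiv.optionCongr ((gA r).v x) : Perm (Option (UY (Bq r) r)))
        (some (tip (b0 r) r)) = some (tip (b0 r) r) := by rw [oc_some, gA_v_b0]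
    by_cases hx : x.1 = 1
    · rw [slow_pv_one r hx]
      show Equiv.optionCongr ((gA r).v x) (sw none (some (tip (bl r) r))
        (some (tip (b0 r) r))) = some (tip (b0 r) r)
      rw [sw_ne (by simp) (by
        intro h
        exact b0_ne_bl r (tip_inj r (Option.some.inj h)))]
      exact hfix
    · rw [slow_pv_ne r hx]
      exact hfix
  pa_sq := by
    show (Equiv.optionCongr (gA r).a : Perm (Option (UY (Bq r) r))) *
      Equiv.optionCongr (gA r).a = 1
    rw [oc_mul, (gA_ok r).a_sq, oc_one]
  pv_sq := by
    intro x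
    have hO : (Equiv.optionCongr ((gA r).v x) : Perm (Option (UY (Bq r) r))) *
        Equiv.optionCongr ((gA r).v x) = 1 := by rw [oc_mul, gA_v_sq, oc_one]
    by_cases hx : x.1 = 1
    · rw [slow_pv_one r hx]
      show (Equiv.optionCongr ((gA r).v x) * sw none (some (tip (bl r) r)) :
        Perm (Option (UY (Bq r) r))) *
        (Equiv.optionCongr ((gA r).v x) * sw none (some (tip (bl r) r))) = 1
      rw [mul_assoc, ← mul_assoc (sw none (some (tip (bl r) r))), ← oc_sw_comm, mul_assoc,
        sw_mul_self, mul_one, hO]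
    · rw [slow_pv_ne r hx]
      exact hO
  pv_comm := by
    intro x y
    have hO : (Equiv.optionCongr ((gA r).v x) : Perm (Option (UY (Bq r) r))) *
        Equiv.optionCongr ((gA r).v y) = Equiv.optionCongr ((gA r).v y) *
        Equiv.optionCongr ((gA r).v x) := by rw [oc_mul, oc_mul, gA_v_comm]
    have hx1 := oc_sw_comm r x
    have hy1 := oc_sw_comm r y
    have cx : Commute (Equiv.optionCongr ((gA r).v x) : Perm (Option (UY (Bq r) r)))
      (Equiv.optionCongr ((gA r).v y)) := hO
    have cxs : Commute (Equiv.optionCongr ((gA r).v x) : Perm (Option (UY (Bq r) r)))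
      (sw none (some (tip (bl r) r))) := hx1
    have cys : Commute (Equiv.optionCongr ((gA r).v y) : Perm (Option (UY (Bq r) r)))
      (sw none (some (tip (bl r) r))) := hy1
    by_cases hx : x.1 = 1
    · by_cases hy : y.1 = 1
      · rw [slow_pv_one r hx, slow_pv_one r hy]
        exact ((cx.mul_right cxs).mul_left (cys.symm.mul_right (Commute.refl _))).eq
      · rw [slow_pv_one r hx, slow_pv_ne r hy]
        exact (cx.mul_left cys.symm).eq
    · by_cases hy : y.1 = 1
      · rw [slow_pv_ne r hx, slow_pv_one r hy]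
        exact (cx.mul_right cxs).eq
      · rw [slow_pv_ne r hx, slow_pv_ne r hy]
        exact hO
  e01 := by
    intro h
    cases h
  me0 := by
    intro h
    cases h
  me1 := by
    intro h
    have h1 : (some (tip (bm r) r) : Option (UY (Bq r) r)) = some (tip (b0 r) r) := h
    have h2 := tip_inj r (Option.some.inj h1)
    have h3 := congrArg Fin.val h2
    have h4 : hq r = 0 := h3
    have := hq_pos r
    omega
  conn := slow_conn_P5 r

theorem card_slow (r : ℕ) : Nat.card (slow r).Y = 8 ^ (r + 1) + 1 := by
  haveI := finite_UY (Bq r) r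
  show Nat.card (Option (UY (Bq r) r)) = _
  rw [Finite.card_option, card_UY, Nat.card_eq_fintype_card, Fintype.card_fin]
  congr 1
  unfold hq
  have h8 : (8 : ℕ) ^ (r + 1) = 2 ^ (r + 1) * 4 ^ (r + 1) := by
    rw [← Nat.mul_pow]
  rw [h8, pow_succ 2 r]
  ring


end IG
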