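import Mathlib
import Pool.Agent.Helper529.IG.QP5

open Classical Equiv

namespace IG


theorem wa_append {S Y : Type} (th : S → Perm Y) (l l' : List S) :
    wa th (l ++ l') = wa th l * wa th l' := by
  induction l with
  | nil => simp [wa]
  | cons s l ih =>
    rw [List.cons_append]
    show th s * wa th (l ++ l') = th s * wa th l * wa th l'
    rw [ih, mul_assoc]

theorem red_tail_aux (s : Sl) (l : List Sl) (h : Red (s :: l)) : Red l := by
  cases l with
  | nil => trivial
  | cons t l => exact h.2

theorem w4_add_aux (x y : V4) : w4 (x + y) ≤ w4 x + w4 y := by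
  have h : ∀ x y : V4, (if x + y = 0 then 0 else if x + y = (1, 0) then 6 else if x + y = (0, 1) then 4 else 2)
      ≤ (if x = 0 then 0 else if x = (1, 0) then 6 else if x = (0, 1) then 4 else 2)
        + (if y = 0 then 0 else if y = (1, 0) then 6 else if y = (0, 1) then 4 else 2) := by
    decide
  have e : ∀ x : V4, w4 x = (if x = 0 then 0 else if x = (1, 0) then 6 else if x = (0, 1) then 4 else 2) := by
    intro x; unfold w4; split_ifs <;> rfl
  rw [e, e, e]
  exact h x y

theorem reduce (l : List Sl) : ∃ l', Red l' ∧ wtl l' ≤ wtl l ∧
    ∀ (Y : Type) (A : AV Y), A.Ok → wa (aw A) l' = wa (aw A) l := by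
  induction l with
  | nil => exact ⟨[], trivial, le_refl _, fun _ _ _ => rfl⟩
  | cons s l ih =>
    obtain ⟨l', hr, hw, ha⟩ := ih
    have hwc : ∀ (t : Sl) (m : List Sl), wtl (t :: m) = wt t + wtl m := fun _ _ => rfl
    have hac : ∀ (Y : Type) (A : AV Y) (t : Sl) (m : List Sl), wa (aw A) (t :: m) = aw A t * wa (aw A) m :=
      fun _ _ _ _ => rfl
    cases s with
    | a =>
      cases l' with
      | nil =>
        refine ⟨[Sl.a], trivial, ?_, ?_⟩
        · rw [hwc, hwc]; omega
        · intro Y A hA
          rw [hac, hac, ha Y A hA]
      | cons t m =>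
        cases t with
        | a =>
          refine ⟨m, red_tail_aux _ _ hr, ?_, ?_⟩
          · rw [hwc] at hw ⊢; omega
          · intro Y A hA
            rw [hac, ← ha Y A hA, hac, ← mul_assoc]
            show _ = A.a * A.a * _
            rw [hA.a_sq, one_mul]
        | v x i =>
          refine ⟨Sl.a :: Sl.v x i :: m, ⟨by simp [isA], hr⟩, ?_, ?_⟩
          · rw [hwc, hwc Sl.a l]; omega
          · intro Y A hA
            rw [hac, hac Y A Sl.a l, ha Y A hA]
    | v x i =>
      cases l' with
      | nil =>
        refine ⟨[Sl.v x i], trivial, ?_, ?_⟩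
        · rw [hwc, hwc]; omega
        · intro Y A hA
          rw [hac, hac, ha Y A hA]
      | cons t m =>
        cases t with
        | a =>
          refine ⟨Sl.v x i :: Sl.a :: m, ⟨by simp [isA], hr⟩, ?_, ?_⟩
          · rw [hwc, hwc (Sl.v x i) l]; omega
          · intro Y A hA
            rw [hac, hac Y A (Sl.v x i) l, ha Y A hA]
        | v x' i' =>
          refine ⟨Sl.v (x + x') (xor i i') :: m, ?_, ?_, ?_⟩
          · cases m with
            | nil => trivial
            | cons u m => exact ⟨hr.1, hr.2⟩
          · rw [hwc] at hw ⊢
            rw [hwc]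
            have h1 := w4_add_aux x x'
            have h2 : wt (Sl.v (x + x') (xor i i')) ≤ wt (Sl.v x i) + wt (Sl.v x' i') := by
              simp only [wt]
              cases i <;> cases i' <;> simp <;> omega
            omega
          · intro Y A hA
            rw [hac, hac, ← ha Y A hA, hac, ← mul_assoc]
            congr 1
            simp only [aw]
            rw [hA.v_add]
            cases i <;> cases i'
            · simp
            · simp [mul_assoc]
            · simp [mul_assoc, hA.z_comm]
            · simp only [Bool.xor_self, Bool.false_eq_true, if_false, if_true, mul_one]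
              rw [mul_assoc (A.v x), ← mul_assoc A.z, hA.z_comm, mul_assoc (A.v x'), hA.z_sq, mul_one]

theorem red_len_aux (l : List Sl) (h : Red l) : l.length ≤ wtl l + 1 ∧
    ∀ m, l = Sl.a :: m → l.length ≤ wtl l := by
  induction l with
  | nil => exact ⟨by simp, by simp⟩
  | cons s l ih =>
    have hwc : ∀ (t : Sl) (m : List Sl), wtl (t :: m) = wt t + wtl m := fun _ _ => rfl
    obtain ⟨h1, h2⟩ := ih (red_tail_aux _ _ h)
    cases s with
    | a =>
      have : wt Sl.a = 5 := rfl
      rw [hwc, List.length_cons, this]
      exact ⟨by omega, fun _ _ => by omega⟩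
    | v x i =>
      refine ⟨?_, by simp⟩
      rw [hwc, List.length_cons]
      cases l with
      | nil => simp
      | cons t m =>
        cases t with
        | a =>
          have := h2 m rfl
          omega
        | v x' i' => exact absurd rfl h.1

theorem red_len (l : List Sl) (h : Red l) : l.length ≤ wtl l + 1 :=
  (red_len_aux l h).1


end IG
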