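import Mathlib
import Pool.Agent.Helper529.IG.QP6

open Classical Equiv

namespace IG


def secF : Bool → Sl → List Sl
  | _, Sl.a => []
  | false, Sl.v x _ => if om x = 1 then [Sl.a] else []
  | true, Sl.v x i => [Sl.v (psi x) i]

def bL : List Sl → Bool
  | [] => false
  | Sl.a :: l => !(bL l)
  | Sl.v _ _ :: l => bL l

def sL : List Sl → Bool → List Sl
  | [], _ => []
  | s :: l, j => secF (xor j (bL l)) s ++ sL l j

theorem wtl_append (l l' : List Sl) : wtl (l ++ l') = wtl l + wtl l' := by
  induction l with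
  | nil => simp [wtl]
  | cons s l ih => simp only [List.cons_append, wtl, ih]; ring

theorem sigma_le (x : V4) (i : Bool) :
    8 * (wtl (secF false (Sl.v x i)) + wtl (secF true (Sl.v x i))) ≤ 7 * (wt (Sl.v x i) + 5) := by
  have hx : x = 0 ∨ x = (1, 0) ∨ x = (0, 1) ∨ x = (1, 1) := by
    revert x; decide
  have h10 : ((1 : ZMod 2), (0 : ZMod 2)) ≠ 0 := by decide
  have h01 : ((0 : ZMod 2), (1 : ZMod 2)) ≠ 0 := by decide
  have h11 : ((1 : ZMod 2), (1 : ZMod 2)) ≠ 0 := by decide
  have h0110 : ((0 : ZMod 2), (1 : ZMod 2)) ≠ (1, 0) := by decide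
  have h1110 : ((1 : ZMod 2), (1 : ZMod 2)) ≠ (1, 0) := by decide
  have h1101 : ((1 : ZMod 2), (1 : ZMod 2)) ≠ (0, 1) := by decide
  have w0 : w4 0 = 0 := by simp [w4]
  have w10 : w4 (1, 0) = 6 := by unfold w4; rw [if_neg h10, if_pos rfl]
  have w01 : w4 (0, 1) = 4 := by unfold w4; rw [if_neg h01, if_neg h0110, if_pos rfl]
  have w11 : w4 (1, 1) = 2 := by unfold w4; rw [if_neg h11, if_neg h1110, if_neg h1101]
  have p0 : psi 0 = 0 := by decide
  have p10 : psi (1, 0) = (0, 1) := by decide
  have p01 : psi (0, 1) = (1, 1) := by decide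
  have p11 : psi (1, 1) = (1, 0) := by decide
  have o0 : om 0 ≠ 1 := by decide
  have o10 : om (1, 0) = 1 := by decide
  have o01 : om (0, 1) = 1 := by decide
  have o11 : om (1, 1) ≠ 1 := by decide
  rcases hx with rfl | rfl | rfl | rfl
  · simp only [secF]
    rw [if_neg o0, p0]
    simp only [wtl, wt]
    rw [w0]
    rcases i with _ | _ <;> simp
  · simp only [secF]
    rw [if_pos o10, p10]
    simp only [wtl, wt]
    rw [w01, w10]
    rcases i with _ | _ <;> simp
  · simp only [secF]
    rw [if_pos o01, p01]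
    simp only [wtl, wt]
    rw [w01, w11]
    rcases i with _ | _ <;> simp
  · simp only [secF]
    rw [if_neg o11, p11]
    simp only [wtl, wt]
    rw [w11, w10]
    rcases i with _ | _ <;> simp

theorem total_cons (s : Sl) (l : List Sl) :
    wtl (sL (s :: l) false) + wtl (sL (s :: l) true)
      = (wtl (secF false s) + wtl (secF true s)) + (wtl (sL l false) + wtl (sL l true)) := by
  simp only [sL, wtl_append]
  rcases bL l with _ | _ <;> simp <;> ring

theorem Red.tail {s : Sl} {l : List Sl} (h : Red (s :: l)) : Red l := by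
  cases l with
  | nil => trivial
  | cons t l => exact h.2

theorem sections_wt : ∀ (l : List Sl), Red l →
    8 * (wtl (sL l false) + wtl (sL l true)) ≤ 7 * (wtl l + 5) ∧
    ((∀ s l', l = s :: l' → isA s = true) → 8 * (wtl (sL l false) + wtl (sL l true)) ≤ 7 * wtl l) := by
  intro l
  induction l with
  | nil => intro _; simp [sL, wtl]
  | cons s l ih =>
    intro h
    obtain ⟨ih1, ih2⟩ := ih h.tail
    rw [total_cons]
    cases s with
    | a =>
      have e1 : wtl (secF false Sl.a) = 0 := rfl
      have e2 : wtl (secF true Sl.a) = 0 := rfl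
      have e3 : wtl (Sl.a :: l) = 5 + wtl l := rfl
      rw [e1, e2, e3]
      constructor
      · omega
      · intro _; omega
    | v x i =>
      have hs := sigma_le x i
      have h2 : ∀ s l', l = s :: l' → isA s = true := by
        rintro s l' rfl
        have h3 : isA (Sl.v x i) ≠ isA s := h.1
        cases hs : isA s with
        | true => rfl
        | false => exact absurd hs.symm (by simpa [isA] using h3)
      have h4 := ih2 h2
      have e3 : wtl (Sl.v x i :: l) = wt (Sl.v x i) + wtl l := rfl
      rw [e3]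
      constructor
      · omega
      · intro h5
        have := h5 (Sl.v x i) l rfl
        simp [isA] at this

theorem one_letter {Y : Type} (A : AV Y) (s : Sl) (y : Y) (j : Bool) :
    aw A.dbl s (y, j) = (wa (aw A) (secF j s) y, xor j (isA s)) := by
  cases s with
  | a =>
    cases j <;> rfl
  | v x i =>
    cases j with
    | false =>
      by_cases ho : om x = 1
      · cases i <;> simp [aw, AV.dbl, fw, secF, ho, wa, isA]
      · cases i <;> simp [aw, AV.dbl, fw, secF, ho, wa, isA]
    | true =>
      cases i <;> simp [aw, AV.dbl, fw, secF, wa, isA]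

theorem bL_cons (s : Sl) (l : List Sl) : bL (s :: l) = xor (bL l) (isA s) := by
  cases s <;> simp [bL, isA]

theorem sections_act {Y : Type} (A : AV Y) (l : List Sl) (y : Y) (j : Bool) :
    wa (aw A.dbl) l (y, j) = (wa (aw A) (sL l j) y, xor j (bL l)) := by
  induction l with
  | nil => simp [wa, sL, bL]
  | cons s l ih =>
    have h1 : wa (aw A.dbl) (s :: l) (y, j) = aw A.dbl s (wa (aw A.dbl) l (y, j)) := rfl
    rw [h1, ih, one_letter, bL_cons]
    simp only [sL]
    rw [wa_append, Equiv.Perm.mul_apply, Bool.xor_assoc]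

/-- contraction -/
theorem sections (l : List Sl) (h : Red l) : ∃ (l0 l1 : List Sl) (b : Bool),
    8 * (wtl l0 + wtl l1) ≤ 7 * (wtl l + 5) ∧
    ∀ (Y : Type) (A : AV Y), A.Ok → ∀ (y : Y) (j : Bool),
      wa (aw A.dbl) l (y, j) = (wa (aw A) (bif j then l1 else l0) y, xor j b) := by
  refine ⟨sL l false, sL l true, bL l, (sections_wt l h).1, ?_⟩
  intro Y A _ y j
  rw [sections_act]
  cases j <;> rfl


end IG
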