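import Mathlib
import Pool.Agent.Helper529.IG.QP7

open Classical Equiv

namespace IG


theorem exists_dat (r : ℕ) (l : List Sl) : ∃ d : Dat r, Dat.red r d ∧
    (Dat.wt r d : ℝ) ≤ (7 / 8 : ℝ) ^ r * wtl l + 35 / 9 * (2 ^ r - (7 / 8 : ℝ) ^ r) ∧
    ∀ (Y : Type) (A : AV Y), A.Ok → ∀ u, wa (aw (A.pow r)) l u = Dat.act A r d u := by
  induction r generalizing l with
  | zero =>
    obtain ⟨l', h1, h2, h3⟩ := reduce l
    refine ⟨l', h1, ?_, ?_⟩
    · have h4 : ((wtl l' : ℕ) : ℝ) ≤ wtl l := by exact_mod_cast h2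
      show ((wtl l' : ℕ) : ℝ) ≤ _
      simpa using h4
    · intro Y A hA u
      show wa (aw A) l u = wa (aw A) l' u
      rw [h3 Y A hA]
  | succ r ih =>
    obtain ⟨l', h1, h2, h3⟩ := reduce l
    obtain ⟨l0, l1, b, hw, hs⟩ := sections l' h1
    obtain ⟨d0, hd0, hw0, ha0⟩ := ih l0
    obtain ⟨d1, hd1, hw1, ha1⟩ := ih l1
    let d : Dat (r + 1) := ((b, d0, d1) : Bool × Dat r × Dat r)
    refine ⟨d, ⟨hd0, hd1⟩, ?_, ?_⟩
    · have e1 : (8:ℝ) * (wtl l0 + wtl l1) ≤ 7 * (wtl l' + 5) := by exact_mod_cast hw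
      have e2 : ((wtl l' : ℕ) : ℝ) ≤ wtl l := by exact_mod_cast h2
      show (((Dat.wt r d0 + Dat.wt r d1 : ℕ)) : ℝ) ≤ _
      push_cast
      have e3 : (0:ℝ) ≤ (7 / 8 : ℝ) ^ r := by positivity
      have e4 : (7 / 8 : ℝ) ^ r * (wtl l0 + wtl l1) ≤ (7 / 8 : ℝ) ^ r * (7 / 8 * (wtl l + 5)) := by
        apply mul_le_mul_of_nonneg_left _ e3
        linarith
      rw [pow_succ, pow_succ]
      nlinarith [e4, hw0, hw1]
    · intro Y A hA u
      have hdbl : (A.pow r).dbl.Ok := dbl_ok _ (pow_ok A hA r)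
      have e1 : wa (aw (A.pow (r + 1))) l u = wa (aw (A.pow r).dbl) l' u := by
        rw [h3 _ _ hdbl]
        rfl
      rw [e1]
      obtain ⟨y, j⟩ := u
      refine (hs _ (A.pow r) (pow_ok A hA r) y j).trans ?_
      show _ = ((bif j then Dat.act A r d1 y else Dat.act A r d0 y, xor j b) : UY Y r × Bool)
      cases j
      · show ((wa (aw (A.pow r)) l0 y, xor false b) : UY Y r × Bool) = (Dat.act A r d0 y, xor false b)
        rw [ha0 Y A hA y]
      · show ((wa (aw (A.pow r)) l1 y, xor true b) : UY Y r × Bool) = (Dat.act A r d1 y, xor true b)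
        rw [ha1 Y A hA y]

theorem dat_len (r : ℕ) (d : Dat r) (h : Dat.red r d) : Dat.len r d ≤ Dat.wt r d + 2 ^ r := by
  induction r with
  | zero =>
    exact red_len d h
  | succ r ih =>
    obtain ⟨b, d0, d1⟩ := (d : Bool × Dat r × Dat r)
    have h1 := ih d0 h.1
    have h2 := ih d1 h.2
    show Dat.len r d0 + Dat.len r d1 ≤ Dat.wt r d0 + Dat.wt r d1 + 2 ^ (r + 1)
    rw [pow_succ]
    omega


end IG
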