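import Mathlib
import Pool.Agent.Helper529.IG.QP8

open Classical Equiv

namespace IG


/-- the letters as an option -/
def slEquiv_304 : Sl ≃ Option (V4 × Bool) where
  toFun s := match s with
    | Sl.a => none
    | Sl.v x i => some (x, i)
  invFun o := match o with
    | none => Sl.a
    | some p => Sl.v p.1 p.2
  left_inv s := by cases s <;> rfl
  right_inv o := by cases o <;> rfl

theorem card_sl_304 : Nat.card Sl = 9 := by
  rw [Nat.card_congr slEquiv_304, Nat.card_eq_fintype_card, Fintype.card_option,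
    Fintype.card_prod, Fintype.card_prod, ZMod.card, Fintype.card_bool]

theorem dat_sum_zero_304 (D : Finset (List Sl)) :
    ∑ d ∈ D, (1 / 18 : ℝ) ^ d.length ≤ 2 := by
  haveI : Finite Sl := Finite.of_equiv _ slEquiv_304.symm
  haveI : Fintype Sl := Fintype.ofFinite Sl
  obtain ⟨M, hM⟩ : ∃ M : ℕ, ∀ d ∈ D, d.length < M := by
    refine ⟨D.sup List.length + 1, fun d hd => ?_⟩
    exact Nat.lt_succ_of_le (Finset.le_sup (f := List.length) hd)
  have h1 : ∑ d ∈ D, (1 / 18 : ℝ) ^ d.length =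
      ∑ n ∈ Finset.range M, ∑ d ∈ D with d.length = n, (1 / 18 : ℝ) ^ d.length := by
    rw [Finset.sum_fiberwise_of_maps_to]
    intro d hd
    exact Finset.mem_range.2 (hM d hd)
  rw [h1]
  have h2 : ∀ n ∈ Finset.range M, ∑ d ∈ D with d.length = n, (1 / 18 : ℝ) ^ d.length ≤
      (1 / 2 : ℝ) ^ n := by
    intro n _
    have h3 : (D.filter (fun d => d.length = n)).card ≤ 9 ^ n := by
      have h4 : D.filter (fun d => d.length = n) ⊆
          (Finset.univ : Finset (List.Vector Sl n)).image (fun v => v.toList) := by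
        intro d hd
        rw [Finset.mem_filter] at hd
        rw [Finset.mem_image]
        exact ⟨⟨d, hd.2⟩, Finset.mem_univ _, rfl⟩
      refine (Finset.card_le_card h4).trans (Finset.card_image_le.trans ?_)
      rw [Finset.card_univ, card_vector, ← Nat.card_eq_fintype_card, card_sl_304]
    have h5 : ∑ d ∈ D with d.length = n, (1 / 18 : ℝ) ^ d.length =
        ∑ d ∈ D with d.length = n, (1 / 18 : ℝ) ^ n := by
      refine Finset.sum_congr rfl (fun d hd => ?_)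
      rw [(Finset.mem_filter.1 hd).2]
    rw [h5, Finset.sum_const, nsmul_eq_mul]
    have h6 : ((D.filter (fun d => d.length = n)).card : ℝ) ≤ 9 ^ n := by exact_mod_cast h3
    calc ((D.filter (fun d => d.length = n)).card : ℝ) * (1 / 18 : ℝ) ^ n
        ≤ 9 ^ n * (1 / 18 : ℝ) ^ n := by
          apply mul_le_mul_of_nonneg_right h6
          positivity
      _ = (1 / 2 : ℝ) ^ n := by
          rw [← mul_pow]
          norm_num
  refine (Finset.sum_le_sum h2).trans ?_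
  rw [geom_sum_eq (by norm_num)]
  have h7 : (0 : ℝ) ≤ (1 / 2 : ℝ) ^ M := by positivity
  rw [div_le_iff_of_neg (by norm_num)]
  linarith

theorem dat_sum_succ_304 {A B : Type} (f : A → ℕ) (g : B → ℕ) (C : ℝ)
    (hf : ∀ D : Finset A, ∑ d ∈ D, (1 / 18 : ℝ) ^ f d ≤ C / 2)
    (hg : ∀ D : Finset B, ∑ d ∈ D, (1 / 18 : ℝ) ^ g d ≤ C / 2)
    (D : Finset (Bool × A × B)) :
    ∑ d ∈ D, (1 / 18 : ℝ) ^ (f d.2.1 + g d.2.2) ≤ (C * C) / 2 := by
  have hD : D ⊆ ((Finset.univ : Finset Bool) ×ˢ ((D.image (fun d => d.2.1)) ×ˢ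
      (D.image (fun d => d.2.2))) : Finset (Bool × A × B)) := by
    intro d hd
    rw [Finset.mem_product, Finset.mem_product]
    exact ⟨Finset.mem_univ _, Finset.mem_image_of_mem _ hd, Finset.mem_image_of_mem _ hd⟩
  have h1 : ∑ d ∈ D, (1 / 18 : ℝ) ^ (f d.2.1 + g d.2.2) ≤
      ∑ d ∈ ((Finset.univ : Finset Bool) ×ˢ ((D.image (fun d => d.2.1)) ×ˢ
        (D.image (fun d => d.2.2))) : Finset (Bool × A × B)),
        (1 / 18 : ℝ) ^ (f d.2.1 + g d.2.2) := by
    refine Finset.sum_le_sum_of_subset_of_nonneg hD ?_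
    intro d _ _
    positivity
  refine h1.trans ?_
  have h2 := hf (D.image (fun d => d.2.1))
  have h3 := hg (D.image (fun d => d.2.2))
  have h4 : (0 : ℝ) ≤ ∑ d ∈ D.image (fun d => d.2.1), (1 / 18 : ℝ) ^ (f d) :=
    Finset.sum_nonneg (fun _ _ => by positivity)
  have h5 : (0 : ℝ) ≤ ∑ d ∈ D.image (fun d => d.2.2), (1 / 18 : ℝ) ^ (g d) :=
    Finset.sum_nonneg (fun _ _ => by positivity)
  have h6 := mul_le_mul h2 h3 h5 (h4.trans h2)
  have h8 : ∑ d ∈ ((Finset.univ : Finset Bool) ×ˢ ((D.image (fun d => d.2.1)) ×ˢ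
        (D.image (fun d => d.2.2))) : Finset (Bool × A × B)),
        (1 / 18 : ℝ) ^ (f d.2.1 + g d.2.2) = 2 * ((∑ d ∈ D.image (fun d => d.2.1),
          (1 / 18 : ℝ) ^ (f d)) * ∑ d ∈ D.image (fun d => d.2.2), (1 / 18 : ℝ) ^ (g d)) := by
    rw [Finset.sum_product, Fintype.sum_bool, Finset.sum_mul_sum, Finset.sum_product]
    simp only [pow_add]
    ring
  rw [h8]
  linarith

theorem dat_sum_304 (r : ℕ) : ∀ D : Finset (Dat r),
    ∑ d ∈ D, (1 / 18 : ℝ) ^ (Dat.len r d) ≤ 4 ^ (2 ^ r) / 2 := by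
  induction r with
  | zero =>
    intro D
    refine (dat_sum_zero_304 D).trans ?_
    norm_num
  | succ r ih =>
    intro D
    have h7 : (4 : ℝ) ^ (2 ^ (r + 1)) = 4 ^ (2 ^ r) * 4 ^ (2 ^ r) := by
      rw [← pow_add, pow_succ 2 r, mul_two]
    rw [h7]
    exact dat_sum_succ_304 (Dat.len r) (Dat.len r) (4 ^ (2 ^ r)) ih ih D

theorem dat_card_304 (r N : ℕ) (D : Finset (Dat r)) (hD : ∀ d ∈ D, Dat.len r d ≤ N) :
    D.card ≤ 18 ^ N * 4 ^ (2 ^ r) := by
  have h1 := dat_sum_304 r D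
  have h2 : (D.card : ℝ) * (1 / 18 : ℝ) ^ N ≤ ∑ d ∈ D, (1 / 18 : ℝ) ^ (Dat.len r d) := by
    rw [← nsmul_eq_mul, ← Finset.sum_const]
    refine Finset.sum_le_sum (fun d hd => ?_)
    exact pow_le_pow_of_le_one (by norm_num) (by norm_num) (hD d hd)
  have h3 : (D.card : ℝ) * (1 / 18 : ℝ) ^ N ≤ 4 ^ (2 ^ r) := by
    have h4 : (0 : ℝ) < 4 ^ (2 ^ r) := by positivity
    linarith
  have h5 : (D.card : ℝ) ≤ 18 ^ N * 4 ^ (2 ^ r) := by
    rw [one_div, inv_pow, ← div_eq_mul_inv, div_le_iff₀ (by positivity)] at h3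
    linarith
  exact_mod_cast h5

theorem dat_count (r N : ℕ) : {d : Dat r | Dat.len r d ≤ N}.Finite ∧
    {d : Dat r | Dat.len r d ≤ N}.ncard ≤ 18 ^ N * 4 ^ (2 ^ r) := by
  have hfin : {d : Dat r | Dat.len r d ≤ N}.Finite := by
    by_contra hinf
    obtain ⟨D, hD, hc⟩ := Set.Infinite.exists_subset_card_eq hinf (18 ^ N * 4 ^ (2 ^ r) + 1)
    have := dat_card_304 r N D (fun d hd => hD hd)
    omega
  refine ⟨hfin, ?_⟩
  rw [Set.ncard_eq_toFinset_card _ hfin]
  exact dat_card_304 r N _ (fun d hd => (Set.Finite.mem_toFinset hfin).1 hd)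


end IG
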