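import Mathlib
import Pool.Agent.Helper529.IG.QP9

open Classical Equiv

namespace IG


/-- subexponential count of the permutations of the slow graph induced by short words -/
theorem count_slow {Y : Type} (A : AV Y) (hA : A.Ok) (r N : ℕ) :
    ∃ S : Set (Perm (UY Y r)), S.Finite ∧ (∀ l : List Sl, wtl l ≤ N → wa (aw (A.pow r)) l ∈ S) ∧
      (S.ncard : ℝ) ≤ Real.exp (16 * ((7 / 8 : ℝ) ^ r * N + 2 ^ r)) := by
  obtain ⟨R, hR⟩ : ∃ R : ℝ, R = (7 / 8 : ℝ) ^ r * N + 44 / 9 * 2 ^ r := ⟨_, rfl⟩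
  have hR0 : 0 ≤ R := by rw [hR]; positivity
  obtain ⟨N', hN'⟩ : ∃ N' : ℕ, N' = ⌊R⌋₊ := ⟨_, rfl⟩
  have hN'R : (N' : ℝ) ≤ R := by rw [hN']; exact Nat.floor_le hR0
  obtain ⟨hfin, hcard⟩ := dat_count r N'
  let g : Dat r → Perm (UY Y r) := fun d =>
    if h : ∃ π : Perm (UY Y r), ∀ u, π u = Dat.act A r d u then h.choose else 1
  have hsub : {π : Perm (UY Y r) | ∃ d : Dat r, Dat.len r d ≤ N' ∧ ∀ u, π u = Dat.act A r d u} ⊆
      g '' {d : Dat r | Dat.len r d ≤ N'} := by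
    rintro π ⟨d, hd, hπ⟩
    refine ⟨d, hd, ?_⟩
    have h : ∃ π : Perm (UY Y r), ∀ u, π u = Dat.act A r d u := ⟨π, hπ⟩
    have hg : g d = h.choose := dif_pos h
    rw [hg]
    apply Equiv.ext
    intro u
    rw [h.choose_spec u, hπ u]
  have hfimg : (g '' {d : Dat r | Dat.len r d ≤ N'}).Finite := hfin.image g
  refine ⟨{π : Perm (UY Y r) | ∃ d : Dat r, Dat.len r d ≤ N' ∧ ∀ u, π u = Dat.act A r d u},
    hfimg.subset hsub, ?_, ?_⟩
  · intro l hl
    obtain ⟨d, hd1, hd2, hd3⟩ := exists_dat r l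
    refine ⟨d, ?_, fun u => hd3 Y A hA u⟩
    rw [hN', Nat.le_floor_iff hR0]
    have h1 := dat_len r d hd1
    have h2 : (Dat.len r d : ℝ) ≤ (Dat.wt r d : ℝ) + 2 ^ r := by exact_mod_cast h1
    have h3 : (7 / 8 : ℝ) ^ r * wtl l ≤ (7 / 8 : ℝ) ^ r * N :=
      mul_le_mul_of_nonneg_left (by exact_mod_cast hl) (by positivity)
    have h4 : (0 : ℝ) ≤ (7 / 8 : ℝ) ^ r := by positivity
    rw [hR]
    linarith
  · have h1 : ({π : Perm (UY Y r) | ∃ d : Dat r, Dat.len r d ≤ N' ∧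
        ∀ u, π u = Dat.act A r d u}).ncard ≤ 18 ^ N' * 4 ^ (2 ^ r) :=
      (Set.ncard_le_ncard hsub hfimg).trans ((Set.ncard_image_le hfin).trans hcard)
    have h2 : (({π : Perm (UY Y r) | ∃ d : Dat r, Dat.len r d ≤ N' ∧
        ∀ u, π u = Dat.act A r d u}).ncard : ℝ) ≤ (18 : ℝ) ^ N' * 4 ^ (2 ^ r) := by
      exact_mod_cast h1
    refine h2.trans ?_
    have hl2 := Real.log_two_lt_d9
    have hl18 : Real.log 18 ≤ 2.9 := by
      have h3 : Real.log 18 = 4 * Real.log 2 + Real.log (18 / 16) := by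
        have : Real.log 16 = 4 * Real.log 2 := by
          rw [show (16 : ℝ) = 2 ^ 4 by norm_num, Real.log_pow]; norm_num
        rw [← this, ← Real.log_mul (by norm_num) (by norm_num)]
        norm_num
      have h4 : Real.log (18 / 16) ≤ 18 / 16 - 1 := Real.log_le_sub_one_of_pos (by norm_num)
      rw [h3]
      norm_num at h4 hl2 ⊢
      linarith
    have hl4 : Real.log 4 ≤ 1.4 := by
      have : Real.log 4 = 2 * Real.log 2 := by
        rw [show (4 : ℝ) = 2 ^ 2 by norm_num, Real.log_pow]; norm_num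
      rw [this]
      norm_num at hl2 ⊢
      linarith
    have h18 : (18 : ℝ) ^ N' ≤ Real.exp (2.9 * R) := by
      have h3 : (18 : ℝ) ≤ Real.exp 2.9 := by
        rw [← Real.log_le_iff_le_exp (by norm_num)]
        exact hl18
      calc (18 : ℝ) ^ N' ≤ Real.exp 2.9 ^ N' := pow_le_pow_left₀ (by norm_num) h3 N'
        _ = Real.exp (N' * 2.9) := (Real.exp_nat_mul _ _).symm
        _ ≤ Real.exp (2.9 * R) := by
          apply Real.exp_le_exp.2
          norm_num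
          linarith
    have h4' : (4 : ℝ) ^ (2 ^ r) ≤ Real.exp (1.4 * 2 ^ r) := by
      have h3 : (4 : ℝ) ≤ Real.exp 1.4 := by
        rw [← Real.log_le_iff_le_exp (by norm_num)]
        exact hl4
      calc (4 : ℝ) ^ (2 ^ r) ≤ Real.exp 1.4 ^ (2 ^ r) := pow_le_pow_left₀ (by norm_num) h3 _
        _ = Real.exp ((2 ^ r : ℕ) * 1.4) := (Real.exp_nat_mul _ _).symm
        _ = Real.exp (1.4 * 2 ^ r) := by
          congr 1
          push_cast
          ring
    calc (18 : ℝ) ^ N' * 4 ^ (2 ^ r) ≤ Real.exp (2.9 * R) * Real.exp (1.4 * 2 ^ r) :=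
          mul_le_mul h18 h4' (by positivity) (Real.exp_pos _).le
      _ = Real.exp (2.9 * R + 1.4 * 2 ^ r) := (Real.exp_add _ _).symm
      _ ≤ Real.exp (16 * ((7 / 8 : ℝ) ^ r * N + 2 ^ r)) := by
        apply Real.exp_le_exp.2
        rw [hR]
        have h5 : (0 : ℝ) ≤ (7 / 8 : ℝ) ^ r * N := by positivity
        have h6 : (0 : ℝ) ≤ 2 ^ r := by positivity
        norm_num
        nlinarith


end IG
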