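import Mathlib
import Pool.Agent.Helper529.IG.QP10

open Classical Equiv

namespace IG


theorem lmp_ok {Y : Type} (A : AV Y) (hA : A.Ok) (e : Y) : (A.lmp e).Ok := by
  have hxx : ∀ (x : V4) (y : Y), A.v x (A.v x y) = y := by
    intro x y
    have h1 : A.v (x + x) = A.v x * A.v x := hA.v_add x x
    have h2 : ∀ x : V4, x + x = 0 := by decide
    rw [h2, hA.v_zero] at h1
    have h3 := congrArg (fun p : Perm Y => p y) h1
    simpa using h3.symm
  have hadd : ∀ (x x' : V4) (y : Y), A.v x (A.v x' y) = A.v (x + x') y := by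
    intro x x' y
    rw [hA.v_add]; rfl
  refine ⟨?_, ?_, ?_, ?_, ?_⟩
  · ext p
    · have h3 := congrArg (fun q : Perm Y => q p.1) hA.a_sq
      simpa [AV.lmp] using h3
    · simp [AV.lmp]
  · ext p
    · simp [AV.lmp, hA.v_zero]
    · simp [AV.lmp]
  · intro x y
    ext p
    · simp [AV.lmp, hA.v_add]
    · simp [AV.lmp]
  · apply Equiv.ext
    rintro ⟨y, b⟩
    show ((y, if ∃ x, y = A.v x e then !(if ∃ x, y = A.v x e then !b else b)
      else (if ∃ x, y = A.v x e then !b else b)) : Y × Bool) = (y, b)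
    by_cases h : ∃ x, y = A.v x e
    · rw [if_pos h, if_pos h, Bool.not_not]
    · rw [if_neg h, if_neg h]
  · intro x
    apply Equiv.ext
    rintro ⟨y, b⟩
    have hiff : (∃ x', A.v x y = A.v x' e) ↔ ∃ x', y = A.v x' e := by
      constructor
      · rintro ⟨x', hx'⟩
        refine ⟨x + x', ?_⟩
        rw [← hadd, ← hx', hxx]
      · rintro ⟨x', hx'⟩
        exact ⟨x + x', by rw [hx', hadd]⟩
    show ((A.v x y, if ∃ x', A.v x y = A.v x' e then !b else b) : Y × Bool) =
      (A.v x y, if ∃ x', y = A.v x' e then !b else b)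
    by_cases h : ∃ x', y = A.v x' e
    · rw [if_pos h, if_pos (hiff.2 h)]
    · rw [if_neg h, if_neg (fun h' => h (hiff.1 h'))]

/-- point with given projection and bit -/
def j10435_mk2 {Y : Type} : (r : ℕ) → UY Y r → Bool → UY (Y × Bool) r
  | 0 => fun u b => ((u, b) : Y × Bool)
  | r + 1 => fun u b => (j10435_mk2 r u.1 b, u.2)

theorem j10435_mk2_inj {Y : Type} : ∀ (r : ℕ) (u u' : UY Y r) (b b' : Bool),
    j10435_mk2 r u b = j10435_mk2 r u' b' → u = u' ∧ b = b'
  | 0, u, u', b, b', h => by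
    have h1 : ((u, b) : Y × Bool) = (u', b') := h
    exact Prod.mk.inj h1
  | r + 1, u, u', b, b', h => by
    have h1 : ((j10435_mk2 r u.1 b, u.2) : UY (Y × Bool) r × Bool) =
      (j10435_mk2 r u'.1 b', u'.2) := h
    obtain ⟨h2, h3⟩ := Prod.mk.inj h1
    obtain ⟨h4, h5⟩ := j10435_mk2_inj r _ _ _ _ h2
    exact ⟨Prod.ext h4 h3, h5⟩

theorem j10435_a {Y : Type} (A : AV Y) (e : Y) : ∀ (r : ℕ) (u : UY Y r) (b : Bool),
    ((A.lmp e).pow r).a (j10435_mk2 r u b) = j10435_mk2 r ((A.pow r).a u) b
  | 0, u, b => rfl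
  | r + 1, u, b => rfl

theorem j10435_v {Y : Type} (A : AV Y) (e : Y) : ∀ (r : ℕ) (x : V4) (u : UY Y r) (b : Bool),
    ((A.lmp e).pow r).v x (j10435_mk2 r u b) = j10435_mk2 r ((A.pow r).v x u) b
  | 0, x, u, b => rfl
  | r + 1, x, (u, false), b => by
    show (((if om x = 1 then ((A.lmp e).pow r).a else 1) (j10435_mk2 r u b), false) :
      UY (Y × Bool) r × Bool) =
      (j10435_mk2 r ((if om x = 1 then (A.pow r).a else 1) u) b, false)
    congr 1
    by_cases h : om x = 1
    · simp only [h, if_true]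
      exact j10435_a A e r u b
    · simp only [h, if_false]
      rfl
  | r + 1, x, (u, true), b => by
    show ((((A.lmp e).pow r).v (psi x) (j10435_mk2 r u b), true) :
      UY (Y × Bool) r × Bool) =
      (j10435_mk2 r ((A.pow r).v (psi x) u) b, true)
    rw [j10435_v A e r (psi x) u b]

/-- indicator of the tip set -/
noncomputable def j10435_tau {Y : Type} (A : AV Y) (e : Y) (r : ℕ) (u : UY Y r) : Bool :=
  decide (∃ x, u = tip (A.v x e) r)

theorem j10435_tau_false {Y : Type} (A : AV Y) (e : Y) (r : ℕ) (u : UY Y r) :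
    j10435_tau A e (r + 1) (u, false) = false := by
  unfold j10435_tau
  rw [decide_eq_false_iff_not]
  rintro ⟨x, hx⟩
  have h1 : ((u, false) : UY Y r × Bool) = (tip (A.v x e) r, true) := hx
  simp at h1

theorem j10435_tau_true {Y : Type} (A : AV Y) (e : Y) (r : ℕ) (u : UY Y r) :
    j10435_tau A e (r + 1) (u, true) = j10435_tau A e r u := by
  unfold j10435_tau
  rw [decide_eq_decide]
  constructor
  · rintro ⟨x, hx⟩
    have h1 : ((u, true) : UY Y r × Bool) = (tip (A.v x e) r, true) := hx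
    exact ⟨x, (Prod.mk.inj h1).1⟩
  · rintro ⟨x, hx⟩
    refine ⟨x, ?_⟩
    show ((u, true) : UY Y r × Bool) = (tip (A.v x e) r, true)
    rw [hx]

theorem j10435_z {Y : Type} (A : AV Y) (e : Y) : ∀ (r : ℕ) (u : UY Y r) (b : Bool),
    ((A.lmp e).pow r).z (j10435_mk2 r u b) = j10435_mk2 r u (xor b (j10435_tau A e r u))
  | 0, u, b => by
    show ((u, if ∃ x, u = A.v x e then !b else b) : Y × Bool) =
      (u, xor b (j10435_tau A e 0 u))
    congr 1
    have h1 : j10435_tau A e 0 u = decide (∃ x, u = A.v x e) := rfl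
    rw [h1]
    by_cases h : ∃ x, u = A.v x e
    · simp [h]
    · simp [h]
  | r + 1, (u, false), b => by
    rw [j10435_tau_false]
    show ((j10435_mk2 r u b, false) : UY (Y × Bool) r × Bool) =
      (j10435_mk2 r u (xor b false), false)
    simp
  | r + 1, (u, true), b => by
    rw [j10435_tau_true]
    show ((((A.lmp e).pow r).z (j10435_mk2 r u b), true) : UY (Y × Bool) r × Bool) =
      (j10435_mk2 r u (xor b (j10435_tau A e r u)), true)
    rw [j10435_z A e r u b]

theorem j10435_pow_z {Y : Type} (A : AV Y) (hz : A.z = 1) : ∀ r, (A.pow r).z = 1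
  | 0 => hz
  | r + 1 => by
    show fw 1 (A.pow r).z = 1
    rw [j10435_pow_z A hz r]
    apply Equiv.ext
    rintro ⟨u, _ | _⟩ <;> rfl

def j10435_strip : Sl → Sl
  | Sl.a => Sl.a
  | Sl.v x _ => Sl.v x false

theorem j10435_strip_wt (s : Sl) : wt (j10435_strip s) ≤ 6 := by
  cases s with
  | a => decide
  | v x i =>
    have h : ∀ x : V4, wt (Sl.v x false) ≤ 6 := by decide
    exact h x

theorem j10435_strip_act {Y : Type} (A : AV Y) (hz : A.z = 1) (e : Y) (r : ℕ) (s : Sl)
    (u : UY Y r) (b : Bool) :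
    aw ((A.lmp e).pow r) (j10435_strip s) (j10435_mk2 r u b) =
      j10435_mk2 r (aw (A.pow r) s u) b := by
  cases s with
  | a => exact j10435_a A e r u b
  | v x i =>
    have h1 : aw ((A.lmp e).pow r) (j10435_strip (Sl.v x i)) = ((A.lmp e).pow r).v x := by
      simp [aw, j10435_strip]
    have h2 : aw (A.pow r) (Sl.v x i) = (A.pow r).v x := by
      cases i <;> simp [aw, j10435_pow_z A hz r]
    rw [h1, h2]
    exact j10435_v A e r x u b

theorem j10435_lam_act {Y : Type} (A : AV Y) (hA : A.Ok) (e : Y) (r : ℕ)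
    (u : UY Y r) (b : Bool) :
    aw ((A.lmp e).pow r) (Sl.v 0 true) (j10435_mk2 r u b) =
      j10435_mk2 r u (xor b (j10435_tau A e r u)) := by
  have h1 : aw ((A.lmp e).pow r) (Sl.v 0 true) = ((A.lmp e).pow r).z := by
    simp [aw, (pow_ok _ (lmp_ok A hA e) r).v_zero]
  rw [h1]
  exact j10435_z A e r u b

/-- lamp functions -/
noncomputable def j10435_LF {Y : Type} (A : AV Y) (e : Y) (r : ℕ) :
    List Sl → Set (UY Y r → Bool)
  | [] => {fun _ => false, j10435_tau A e r}
  | s :: l => j10435_LF A e r l ∪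
      (fun (f : UY Y r → Bool) (u : UY Y r) =>
        xor (f u) (j10435_tau A e r (wa (aw (A.pow r)) (s :: l) u))) '' j10435_LF A e r l

theorem j10435_real {Y : Type} (A : AV Y) (hA : A.Ok) (hz : A.z = 1) (e : Y) (r : ℕ)
    (l : List Sl) : ∀ f ∈ j10435_LF A e r l, ∃ l' : List Sl, wtl l' ≤ 7 * l.length + 1 ∧
      ∀ u b, wa (aw ((A.lmp e).pow r)) l' (j10435_mk2 r u b) =
        j10435_mk2 r (wa (aw (A.pow r)) l u) (xor b (f u)) := by
  induction l with
  | nil =>
    intro f hf
    rcases hf with hf | hf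
    · subst hf
      refine ⟨[], by simp [wtl], ?_⟩
      intro u b
      simp [wa]
    · rw [Set.mem_singleton_iff] at hf
      subst hf
      refine ⟨[Sl.v 0 true], by decide, ?_⟩
      intro u b
      have := j10435_lam_act A hA e r u b
      simpa [wa] using this
  | cons s l ih =>
    intro f hf
    rcases hf with hf | ⟨g, hg, rfl⟩
    · obtain ⟨l', hl', hact⟩ := ih f hf
      refine ⟨j10435_strip s :: l', ?_, ?_⟩
      · have := j10435_strip_wt s
        simp only [wtl, List.length_cons]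
        omega
      · intro u b
        show aw ((A.lmp e).pow r) (j10435_strip s) (wa (aw ((A.lmp e).pow r)) l'
          (j10435_mk2 r u b)) = _
        rw [hact u b, j10435_strip_act A hz e r]
        rfl
    · obtain ⟨l', hl', hact⟩ := ih g hg
      refine ⟨Sl.v 0 true :: j10435_strip s :: l', ?_, ?_⟩
      · have := j10435_strip_wt s
        have h2 : wt (Sl.v 0 true) = 1 := by decide
        simp only [wtl, List.length_cons]
        omega
      · intro u b
        show aw ((A.lmp e).pow r) (Sl.v 0 true) (aw ((A.lmp e).pow r) (j10435_strip s)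
          (wa (aw ((A.lmp e).pow r)) l' (j10435_mk2 r u b))) = _
        rw [hact u b, j10435_strip_act A hz e r, j10435_lam_act A hA e r]
        have h3 : aw (A.pow r) s (wa (aw (A.pow r)) l u) = wa (aw (A.pow r)) (s :: l) u := rfl
        rw [h3, Bool.xor_assoc]

/-- union of supports -/
def j10435_O {Y : Type} (A : AV Y) (e : Y) (r : ℕ) : List Sl → Set (UY Y r)
  | [] => {u | ∃ x, u = tip (A.v x e) r}
  | s :: l => j10435_O A e r l ∪ {u | ∃ x, wa (aw (A.pow r)) (s :: l) u = tip (A.v x e) r}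

theorem j10435_supp {Y : Type} (A : AV Y) (e : Y) (r : ℕ) (l : List Sl) :
    ∀ f ∈ j10435_LF A e r l, ∀ u, u ∉ j10435_O A e r l → f u = false := by
  induction l with
  | nil =>
    intro f hf u hu
    rcases hf with hf | hf
    · rw [hf]
    · rw [Set.mem_singleton_iff] at hf
      rw [hf]
      unfold j10435_tau
      rw [decide_eq_false_iff_not]
      exact hu
  | cons s l ih =>
    intro f hf u hu
    have hu1 : u ∉ j10435_O A e r l := fun h => hu (Or.inl h)
    have hu2 : ¬ ∃ x, wa (aw (A.pow r)) (s :: l) u = tip (A.v x e) r := fun h => hu (Or.inr h)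
    rcases hf with hf | ⟨g, hg, rfl⟩
    · exact ih f hf u hu1
    · have h1 : j10435_tau A e r (wa (aw (A.pow r)) (s :: l) u) = false := by
        unfold j10435_tau
        rw [decide_eq_false_iff_not]
        exact hu2
      simp only [h1, ih g hg u hu1]
      rfl

theorem j10435_tip_card {Y : Type} [Finite Y] (A : AV Y) (e : Y) (r : ℕ) :
    {u : UY Y r | ∃ x, u = tip (A.v x e) r}.ncard ≤ 4 := by
  have h1 : {u : UY Y r | ∃ x, u = tip (A.v x e) r} =
      (fun x : V4 => tip (A.v x e) r) '' Set.univ := by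
    ext u
    simp only [Set.mem_setOf_eq, Set.image_univ, Set.mem_range]
    constructor
    · rintro ⟨x, hx⟩; exact ⟨x, hx.symm⟩
    · rintro ⟨x, hx⟩; exact ⟨x, hx.symm⟩
  rw [h1]
  refine (Set.ncard_image_le Set.finite_univ).trans ?_
  rw [Set.ncard_univ]
  simp [Nat.card_eq_fintype_card]

theorem j10435_pre_card {Y : Type} [Finite Y] (A : AV Y) (e : Y) (r : ℕ)
    (p : Perm (UY Y r)) :
    {u : UY Y r | ∃ x, p u = tip (A.v x e) r}.ncard ≤ 4 := by
  haveI := finite_UY Y r
  have h1 : {u : UY Y r | ∃ x, p u = tip (A.v x e) r} =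
      p.symm '' {u : UY Y r | ∃ x, u = tip (A.v x e) r} := by
    ext u
    simp only [Set.mem_setOf_eq, Set.mem_image]
    constructor
    · rintro ⟨x, hx⟩
      exact ⟨p u, ⟨x, hx⟩, p.symm_apply_apply u⟩
    · rintro ⟨w, ⟨x, hx⟩, rfl⟩
      exact ⟨x, by rw [p.apply_symm_apply, hx]⟩
  rw [h1]
  exact (Set.ncard_image_le (Set.toFinite _)).trans (j10435_tip_card A e r)

theorem j10435_grow {Y : Type} [Finite Y] (A : AV Y) (hA : A.Ok) (e : Y) (r : ℕ) (l : List Sl) :
    2 ^ (j10435_O A e r l).ncard ≤ (j10435_LF A e r l).ncard ^ 4 := by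
  haveI := finite_UY Y r
  induction l with
  | nil =>
    have h1 : (j10435_LF A e r []).ncard = 2 := by
      show ({fun _ => false, j10435_tau A e r} : Set (UY Y r → Bool)).ncard = 2
      apply Set.ncard_pair
      intro h
      have h2 := congrFun h (tip e r)
      have h3 : j10435_tau A e r (tip e r) = true := by
        unfold j10435_tau
        rw [decide_eq_true_iff]
        exact ⟨0, by rw [hA.v_zero]; rfl⟩
      rw [h3] at h2
      exact absurd h2 (by decide)
    rw [h1]
    exact Nat.pow_le_pow_right (by norm_num) (j10435_tip_card A e r)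
  | cons s l ih =>
    set N : Set (UY Y r) := {u | ∃ x, wa (aw (A.pow r)) (s :: l) u = tip (A.v x e) r} with hN
    have hO : j10435_O A e r (s :: l) = j10435_O A e r l ∪ N := rfl
    set φ : (UY Y r → Bool) → (UY Y r → Bool) := fun f u =>
        xor (f u) (j10435_tau A e r (wa (aw (A.pow r)) (s :: l) u)) with hφ
    have hLF : j10435_LF A e r (s :: l) = j10435_LF A e r l ∪ φ '' j10435_LF A e r l := rfl
    by_cases hsub : N ⊆ j10435_O A e r l
    · rw [hO, Set.union_eq_left.2 hsub]
      refine ih.trans (Nat.pow_le_pow_left ?_ 4)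
      exact Set.ncard_le_ncard (by rw [hLF]; exact Set.subset_union_left) (Set.toFinite _)
    · obtain ⟨u, huN, huO⟩ := Set.not_subset.1 hsub
      have hinj : Function.Injective φ := by
        intro f g hfg
        funext w
        have := congrFun hfg w
        simpa [hφ] using this
      have hdisj : Disjoint (j10435_LF A e r l) (φ '' j10435_LF A e r l) := by
        rw [Set.disjoint_left]
        rintro f hf ⟨g, hg, rfl⟩
        have h1 := j10435_supp A e r l _ hf u huO
        have h2 := j10435_supp A e r l g hg u huO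
        have h3 : j10435_tau A e r (wa (aw (A.pow r)) (s :: l) u) = true := by
          unfold j10435_tau
          rw [decide_eq_true_iff]
          exact huN
        simp only [hφ, h2, h3] at h1
        exact absurd h1 (by decide)
      have hcard : (j10435_LF A e r (s :: l)).ncard = 2 * (j10435_LF A e r l).ncard := by
        rw [hLF, Set.ncard_union_eq hdisj (Set.toFinite _) (Set.toFinite _),
          Set.ncard_image_of_injective _ hinj]
        ring
      have hOc : (j10435_O A e r (s :: l)).ncard ≤ (j10435_O A e r l).ncard + 4 := by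
        rw [hO]
        exact (Set.ncard_union_le _ _).trans (Nat.add_le_add_left (j10435_pre_card A e r _) _)
      rw [hcard]
      calc 2 ^ (j10435_O A e r (s :: l)).ncard ≤ 2 ^ ((j10435_O A e r l).ncard + 4) :=
            Nat.pow_le_pow_right (by norm_num) hOc
        _ = 2 ^ (j10435_O A e r l).ncard * 2 ^ 4 := pow_add _ _ _
        _ ≤ (j10435_LF A e r l).ncard ^ 4 * 2 ^ 4 := Nat.mul_le_mul_right _ ih
        _ = (2 * (j10435_LF A e r l).ncard) ^ 4 := by rw [mul_pow]; ring

theorem j10435_iO {Y : Type} (A : AV Y) (hA : A.Ok) (e : Y) (r : ℕ) (l : List Sl) :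
    iO (aw (A.pow r)) (tip e r) l ⊆ j10435_O A e r l := by
  induction l with
  | nil =>
    intro u hu
    have h1 : u = tip e r := hu
    exact ⟨0, by rw [h1, hA.v_zero]; rfl⟩
  | cons s l ih =>
    intro u hu
    rcases hu with hu | hu
    · right
      have h1 : u = (wa (aw (A.pow r)) (s :: l))⁻¹ (tip e r) := hu
      refine ⟨0, ?_⟩
      rw [h1, hA.v_zero]
      exact (wa (aw (A.pow r)) (s :: l)).apply_symm_apply (tip e r)
    · exact Or.inl (ih hu)

/-- the lamp group lower bound: inverted orbits are small. -/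
theorem iO_bound {Y : Type} [Finite Y] (A : AV Y) (hA : A.Ok) (hz : A.z = 1) (e : Y) (r : ℕ)
    (l : List Sl) :
    ((iO (aw (A.pow r)) (tip e r) l).ncard : ℝ) ≤ 700 * ((7 / 8 : ℝ) ^ r * l.length + 2 ^ r) := by
  haveI := finite_UY Y r
  obtain ⟨S, hSfin, hSmem, hScard⟩ := count_slow (A.lmp e) (lmp_ok A hA e) r (7 * l.length + 1)
  -- injection of the lamp functions
  have hcard : (j10435_LF A e r l).ncard ≤ S.ncard := by
    have hex : ∀ f : UY Y r → Bool, ∃ p : Perm (UY (Y × Bool) r), f ∈ j10435_LF A e r l →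
        p ∈ S ∧ ∀ u b, p (j10435_mk2 r u b) =
          j10435_mk2 r (wa (aw (A.pow r)) l u) (xor b (f u)) := by
      intro f
      by_cases hf : f ∈ j10435_LF A e r l
      · obtain ⟨l', hl', hact⟩ := j10435_real A hA hz e r l f hf
        exact ⟨_, fun _ => ⟨hSmem l' hl', hact⟩⟩
      · exact ⟨1, fun h => absurd h hf⟩
    choose P hP using hex
    refine Set.ncard_le_ncard_of_injOn P (fun f hf => (hP f hf).1) ?_ hSfin
    intro f hf g hg hfg
    funext u
    have h1 := (hP f hf).2 u false
    have h2 := (hP g hg).2 u false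
    rw [hfg, h2] at h1
    have h3 := (j10435_mk2_inj r _ _ _ _ h1).2
    simpa using h3.symm
  set m := (j10435_O A e r l).ncard with hm
  have hle : (iO (aw (A.pow r)) (tip e r) l).ncard ≤ m :=
    Set.ncard_le_ncard (j10435_iO A hA e r l) (Set.toFinite _)
  have hgrow : (2:ℝ) ^ m ≤ ((j10435_LF A e r l).ncard : ℝ) ^ 4 := by
    exact_mod_cast j10435_grow A hA e r l
  set X : ℝ := (7 / 8 : ℝ) ^ r with hX
  set T : ℝ := (2:ℝ) ^ r with hT
  have hX1 : X ≤ 1 := pow_le_one₀ (by norm_num) (by norm_num)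
  have hX0 : 0 ≤ X := by positivity
  have hT1 : 1 ≤ T := one_le_pow₀ (by norm_num)
  have hn0 : (0:ℝ) ≤ (l.length : ℝ) := Nat.cast_nonneg _
  have h1 : ((j10435_LF A e r l).ncard : ℝ) ≤
      Real.exp (16 * (X * ((7 * l.length + 1 : ℕ) : ℝ) + T)) :=
    le_trans (by exact_mod_cast hcard) hScard
  have h2 : (2:ℝ) ^ m ≤ Real.exp (16 * (X * ((7 * l.length + 1 : ℕ) : ℝ) + T)) ^ 4 :=
    hgrow.trans (pow_le_pow_left₀ (Nat.cast_nonneg _) h1 4)
  rw [← Real.exp_nat_mul] at h2
  have h3 : (m:ℝ) * Real.log 2 ≤ ((4:ℕ):ℝ) * (16 * (X * ((7 * l.length + 1 : ℕ) : ℝ) + T)) := by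
    have := Real.log_le_log (by positivity) h2
    rwa [Real.log_exp, Real.log_pow] at this
  have hlog : 0.6931471803 < Real.log 2 := Real.log_two_gt_d9
  have hm0 : (0:ℝ) ≤ m := Nat.cast_nonneg _
  have h4 : (m:ℝ) * 0.6931 ≤ 448 * (X * l.length) + 64 * X + 64 * T := by
    have h5 : (m:ℝ) * 0.6931 ≤ m * Real.log 2 := mul_le_mul_of_nonneg_left (by linarith) hm0
    refine h5.trans (h3.trans (le_of_eq ?_))
    push_cast
    ring
  have hXn : 0 ≤ X * l.length := mul_nonneg hX0 hn0
  have h6 : (m:ℝ) ≤ 700 * (X * l.length + T) := by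
    linarith
  exact le_trans (by exact_mod_cast hle) h6


end IG
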