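import Mathlib
import Pool.Agent.Helper529.IG.QP11

open Classical Equiv

namespace IG


theorem iO_finite {S Y : Type} (th : S → Perm Y) (e : Y) (l : List S) : (iO th e l).Finite := by
  induction l with
  | nil => exact Set.finite_singleton e
  | cons s l ih => exact (Set.finite_singleton _).union ih

/-- words in the generic action on `Option` -/
theorem wa_thY (r : ℕ) (l : List Sl) : wa (thY r) l = Equiv.optionCongr (wa (aw (gA r)) l) := by
  induction l with
  | nil =>
    ext1 x
    rcases x with _ | x <;> rfl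
  | cons s l ih =>
    show thY r s * wa (thY r) l = Equiv.optionCongr (aw (gA r) s * wa (aw (gA r)) l)
    rw [ih]
    ext1 x
    rcases x with _ | x <;> rfl

theorem iO_thY_none (r : ℕ) (l : List Sl) : iO (thY r) none l = {none} := by
  induction l with
  | nil => rfl
  | cons s l ih =>
    show {(wa (thY r) (s :: l))⁻¹ none} ∪ iO (thY r) none l = {none}
    rw [ih, wa_thY]
    have : (Equiv.optionCongr (wa (aw (gA r)) (s :: l)))⁻¹ (none : Option (UY (Bq r) r)) = none :=
      rfl
    rw [this]
    simp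

theorem iO_thY_some (r : ℕ) (t : UY (Bq r) r) (l : List Sl) :
    iO (thY r) (some t) l = some '' iO (aw (gA r)) t l := by
  induction l with
  | nil =>
    show {some t} = some '' {t}
    simp
  | cons s l ih =>
    show {(wa (thY r) (s :: l))⁻¹ (some t)} ∪ iO (thY r) (some t) l =
      some '' ({(wa (aw (gA r)) (s :: l))⁻¹ t} ∪ iO (aw (gA r)) t l)
    rw [ih, wa_thY, Set.image_union, Set.image_singleton]
    rfl

theorem iO_thY (r : ℕ) (e : Option (UY (Bq r) r)) (he : e ∈ exE r) (l : List Sl) :
    ((iO (thY r) e l).ncard : ℝ) ≤ 700 * ((7 / 8 : ℝ) ^ r * l.length + 2 ^ r) + 1 := by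
  have h0 : (0 : ℝ) ≤ 700 * ((7 / 8 : ℝ) ^ r * l.length + 2 ^ r) := by positivity
  have key : ∀ b : Bq r, e = some (tip b r) →
      ((iO (thY r) e l).ncard : ℝ) ≤ 700 * ((7 / 8 : ℝ) ^ r * l.length + 2 ^ r) + 1 := by
    intro b hb
    rw [hb, iO_thY_some, Set.ncard_image_of_injective _ (Option.some_injective _)]
    haveI : Finite (Bq r) := inferInstanceAs (Finite (Fin _))
    have := iO_bound (path (hq r)) (path_ok _) rfl b r l
    exact this.trans (by linarith)
  rcases he with h | h | h | h
  · rw [h, iO_thY_none, Set.ncard_singleton]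
    push_cast
    linarith
  · exact key _ h
  · exact key _ h
  · exact key _ h

theorem wt_le (s : Sl) : wt s ≤ 7 := by
  rcases s with _ | ⟨x, i⟩
  · show 5 ≤ 7
    omega
  · show w4 x + (if i = true then 1 else 0) ≤ 7
    have h : w4 x ≤ 6 := by
      unfold w4
      split_ifs <;> omega
    split_ifs <;> omega

theorem wtl_le (l : List Sl) : wtl l ≤ 7 * l.length := by
  induction l with
  | nil => show 0 ≤ _; omega
  | cons s l ih =>
    show wt s + wtl l ≤ 7 * (l.length + 1)
    have := wt_le s
    omega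

theorem count_thY (r n : ℕ) : ∃ S : Set (Perm (Option (UY (Bq r) r))), S.Finite ∧
    (∀ l : List Sl, l.length ≤ n → wa (thY r) l ∈ S) ∧
      (S.ncard : ℝ) ≤ Real.exp (112 * ((7 / 8 : ℝ) ^ r * n + 2 ^ r)) := by
  obtain ⟨S, hS, h1, h2⟩ := count_slow (path (hq r)) (path_ok _) r (7 * n)
  refine ⟨Equiv.optionCongr '' S, hS.image _, fun l hl => ?_, ?_⟩
  · rw [wa_thY]
    refine ⟨_, h1 l ((wtl_le l).trans ?_), rfl⟩
    exact Nat.mul_le_mul_left 7 hl
  · have h3 : ((Equiv.optionCongr '' S : Set (Perm (Option (UY (Bq r) r)))).ncard : ℝ) ≤ S.ncard := by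
      exact_mod_cast Set.ncard_image_le hS
    refine h3.trans (h2.trans ?_)
    apply Real.exp_le_exp.2
    push_cast
    have h4 : (0 : ℝ) ≤ 2 ^ r := by positivity
    nlinarith


end IG
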