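import Mathlib
import Pool.Agent.Helper529.IG.QP12

open Classical Equiv

namespace IG


theorem genl_append {F L S : Type} (k : Skew F L S) (l l' : List S) (f : F) :
    k.genl (l ++ l') f = k.genl l (k.genl l' f) := by
  induction l with
  | nil => rfl
  | cons s l ih =>
    show k.gen s (k.genl (l ++ l') f) = k.gen s (k.genl l (k.genl l' f))
    rw [ih]

theorem secl_append {F L S : Type} (k : Skew F L S) (l l' : List S) (f : F) :
    k.secl (l ++ l') f = k.secl l (k.genl l' f) ++ k.secl l' f := by
  induction l with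
  | nil => rfl
  | cons s l ih =>
    show k.sec s (k.genl (l ++ l') f) :: k.secl (l ++ l') f =
      k.sec s (k.genl l (k.genl l' f)) :: (k.secl l (k.genl l' f) ++ k.secl l' f)
    rw [ih, genl_append]

theorem secl_length {F L S : Type} (k : Skew F L S) (l : List S) (f : F) : (k.secl l f).length = l.length := by
  induction l with
  | nil => rfl
  | cons s l ih =>
    show (k.sec s (k.genl l f) :: k.secl l f).length = (s :: l).length
    rw [List.length_cons, List.length_cons, ih]

theorem exc_out {F L S : Type} (k : Skew F L S) (hk : k.Ok) (l : List S) (p : F × L) (hp : p ∉ k.Exc l) :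
    wa k.act l p = (k.genl l p.1, wa k.th (k.secl l p.1) p.2) := by
  induction l with
  | nil => rfl
  | cons s l ih =>
    have h1 : p ∉ k.Exc l := by
      rintro ⟨l1, l2, rfl, h⟩
      exact hp ⟨s :: l1, l2, rfl, h⟩
    have h2 : wa k.th (k.secl l p.1) p.2 ∉ k.E := fun h => hp ⟨[s], l, rfl, h⟩
    show k.act s (wa k.act l p) = _
    rw [ih h1, hk.h s _ _ h2]
    rfl

theorem exc_suffix {F L S : Type} (k : Skew F L S) (l l' : List S) (p : F × L) (hp : p ∈ k.Exc l') :
    p ∈ k.Exc (l ++ l') := by
  obtain ⟨l1, l2, rfl, h⟩ := hp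
  exact ⟨l ++ l1, l2, by rw [List.append_assoc], h⟩

/-- points whose actual trajectory hits the exceptional set -/
theorem exc_hit {F L S : Type} (k : Skew F L S) (hk : k.Ok) (l l' : List S) (f : F) (e : L) (he : e ∈ k.E) :
    (wa k.act l')⁻¹ (f, e) ∈ k.Exc (l ++ l') := by
  by_contra hcon
  have h1 : (wa k.act l')⁻¹ (f, e) ∉ k.Exc l' := fun h => hcon (exc_suffix k l l' _ h)
  have h2 := exc_out k hk l' _ h1
  have h3 : wa k.act l' ((wa k.act l')⁻¹ (f, e)) = (f, e) := by
    rw [← Equiv.Perm.mul_apply, mul_inv_cancel, Equiv.Perm.one_apply]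
  rw [h3] at h2
  apply h1
  refine ⟨[], l', rfl, ?_⟩
  have h4 := congrArg Prod.snd h2
  simp only at h4
  rw [← h4]
  exact he


end IG
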