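import Mathlib
import Pool.Agent.Helper529.IG.QQ1

open Classical Equiv

namespace IG


theorem iO_suffix_mem {S Y : Type} (th : S → Perm Y) (e : Y) (u' u : List S) :
    (wa th u)⁻¹ e ∈ iO th e (u' ++ u) := by
  induction u' with
  | nil =>
    cases u with
    | nil => simp [wa, iO]
    | cons a u =>
      show _ ∈ ({(wa th (a :: u))⁻¹ e} ∪ iO th e u : Set Y)
      exact Or.inl rfl
  | cons a u' ih =>
    show _ ∈ ({(wa th (a :: (u' ++ u)))⁻¹ e} ∪ iO th e (u' ++ u) : Set Y)
    exact Or.inr ih

theorem exc_card {F L S : Type} (k : Skew F L S) [Finite F] [Finite L] (l : List S) (V : ℕ)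
    (hV : ∀ u : List Sl, u.length ≤ l.length → ∀ e ∈ k.E, (iO k.th e u).ncard ≤ V) :
    (k.Exc l).ncard ≤ Nat.card F * k.E.ncard * V := by
  classical
  have hE : k.E.Finite := Set.toFinite _
  let _ : Fintype F := Fintype.ofFinite F
  have hfin : ∀ (f : F) (e : L), (Prod.mk f '' iO k.th e (k.secl l f)).Finite :=
    fun f e => (iO_finite k.th e (k.secl l f)).image _
  let B : F × L → Finset (F × L) := fun q => (hfin q.1 q.2).toFinset
  have hsub : k.Exc l ⊆ ((Finset.univ ×ˢ hE.toFinset : Finset (F × L)).biUnion B : Finset (F × L)) := by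
    rintro ⟨f, y⟩ ⟨l1, l2, hl, he⟩
    simp only [Finset.coe_biUnion, Set.mem_iUnion]
    refine ⟨(f, wa k.th (k.secl l2 f) y), ?_, ?_⟩
    · simp only [Finset.coe_product, Set.mem_prod, Finset.coe_univ, Set.mem_univ, true_and,
        Set.Finite.coe_toFinset]
      exact he
    · simp only [B, Set.Finite.coe_toFinset]
      refine ⟨y, ?_, rfl⟩
      have h := iO_suffix_mem k.th (wa k.th (k.secl l2 f) y) (k.secl l1 (k.genl l2 f)) (k.secl l2 f)
      rw [← secl_append, ← hl] at h
      simpa using h
  have h1 : (k.Exc l).ncard ≤ ((Finset.univ ×ˢ hE.toFinset : Finset (F × L)).biUnion B).card := by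
    rw [← Set.ncard_coe_finset]
    exact Set.ncard_le_ncard hsub (Finset.finite_toSet _)
  refine h1.trans ?_
  have h2 : ((Finset.univ ×ˢ hE.toFinset : Finset (F × L)).biUnion B).card ≤
      (Finset.univ ×ˢ hE.toFinset : Finset (F × L)).card * V := by
    refine Finset.card_biUnion_le_card_mul _ _ _ ?_
    rintro ⟨f, e⟩ hfe
    have he : e ∈ k.E := by
      have := (Finset.mem_product.1 hfe).2
      simpa using this
    have h3 : (B (f, e)).card = (Prod.mk f '' iO k.th e (k.secl l f)).ncard := by
      rw [Set.ncard_eq_toFinset_card _ (hfin f e)]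
    rw [h3]
    refine (Set.ncard_image_le (iO_finite k.th e (k.secl l f))).trans ?_
    exact hV _ (by rw [secl_length]) e he
  refine h2.trans ?_
  rw [Finset.card_product, Finset.card_univ, ← Nat.card_eq_fintype_card,
    ← Set.ncard_eq_toFinset_card _ hE]


end IG
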