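import Mathlib
import Pool.Agent.Helper529.IG.QQ2

open Classical Equiv

namespace IG


theorem exc_det {F L S : Type} (k : Skew F L S) (hk : k.Ok) (l l' : List S) (h1 : k.genl l = k.genl l')
    (h2 : ∀ f, wa k.th (k.secl l f) = wa k.th (k.secl l' f)) (h3 : k.Exc l = k.Exc l')
    (h4 : ∀ p ∈ k.Exc l, wa k.act l p = wa k.act l' p) : wa k.act l = wa k.act l' := by
  ext1 p
  by_cases hp : p ∈ k.Exc l
  · exact h4 p hp
  · have hp' : p ∉ k.Exc l' := by rw [← h3]; exact hp
    rw [exc_out k hk l p hp, exc_out k hk l' p hp', h1, h2]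


end IG
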