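import Mathlib
import Pool.Agent.Helper529.IG.QQ3

open Classical Equiv

namespace IG


/-- number of partial functions with small domain -/
theorem pfun_count (Z : Type) [Finite Z] (k : ℕ) :
    {f : Z → Option Z | {z | f z ≠ none}.ncard ≤ k}.ncard ≤ (Nat.card Z ^ 2 + 1) ^ k := by
  set Φ : (Fin k → Option (Z × Z)) → (Z → Option Z) := fun l z =>
    if h : ∃ w, ∃ i, l i = some (z, w) then some h.choose else none with hΦ
  have hsub : {f : Z → Option Z | {z | f z ≠ none}.ncard ≤ k} ⊆ Set.range Φ := by
    intro f hf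
    have hf' : {z | f z ≠ none}.ncard ≤ k := hf
    obtain ⟨D, hD⟩ : ∃ D : Set Z, D = {z | f z ≠ none} := ⟨_, rfl⟩
    rw [← hD] at hf'
    have hDm : ∀ z, z ∈ D ↔ f z ≠ none := by intro z; rw [hD]; rfl
    have : Fintype D := Fintype.ofFinite D
    have hcard : Fintype.card D ≤ Fintype.card (Fin k) := by
      rw [Fintype.card_fin, ← Nat.card_eq_fintype_card]
      exact hf'
    obtain ⟨e⟩ := Function.Embedding.nonempty_of_card_le hcard
    set l : Fin k → Option (Z × Z) := fun i =>
      if h : ∃ z : D, e z = i then (f (h.choose : Z)).map (fun w => ((h.choose : Z), w)) else none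
      with hl
    have key : ∀ i z w, l i = some (z, w) → f z = some w := by
      intro i z w h
      simp only [hl] at h
      split_ifs at h with h1
      rw [Option.map_eq_some_iff] at h
      obtain ⟨w', hw', hzw⟩ := h
      rw [Prod.mk.injEq] at hzw
      rw [← hzw.1, ← hzw.2]
      exact hw'
    refine ⟨l, ?_⟩
    funext z
    simp only [hΦ]
    split_ifs with h
    · obtain ⟨i, hi⟩ := h.choose_spec
      exact (key i z _ hi).symm
    · by_contra hne
      apply h
      have hz : f z ≠ none := fun h0 => hne h0.symm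
      obtain ⟨w, hw⟩ := Option.ne_none_iff_exists'.1 hz
      have hzD : z ∈ D := (hDm z).2 hz
      have h1 : ∃ z' : D, e z' = e ⟨z, hzD⟩ := ⟨_, rfl⟩
      refine ⟨w, e ⟨z, hzD⟩, ?_⟩
      simp only [hl]
      rw [dif_pos h1]
      have h2 : h1.choose = ⟨z, hzD⟩ := e.injective h1.choose_spec
      have h3 : (h1.choose : Z) = z := by rw [h2]
      rw [h3, hw]
      rfl
  have hcard : Nat.card (Fin k → Option (Z × Z)) = (Nat.card Z ^ 2 + 1) ^ k := by
    rw [Nat.card_fun, Finite.card_option, Nat.card_prod, Nat.card_eq_fintype_card (α := Fin k),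
      Fintype.card_fin, sq]
  calc {f : Z → Option Z | {z | f z ≠ none}.ncard ≤ k}.ncard
      ≤ (Set.range Φ).ncard := Set.ncard_le_ncard hsub (Set.finite_range Φ)
    _ = (Φ '' Set.univ).ncard := by rw [Set.image_univ]
    _ ≤ (Set.univ : Set (Fin k → Option (Z × Z))).ncard := Set.ncard_image_le Set.finite_univ
    _ = (Nat.card Z ^ 2 + 1) ^ k := by rw [Set.ncard_univ, hcard]


end IG
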