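import Mathlib
import Pool.Agent.Helper529.IG.QQ4

open Classical Equiv

namespace IG


theorem exc_count {F L S : Type} (k : Skew F L S) (hk : k.Ok) [Finite F] [Finite L] (n V : ℕ)
    (TH : Set (Perm L)) (hTH : TH.Finite)
    (hth : ∀ u : List Sl, u.length ≤ n → wa k.th u ∈ TH)
    (hV : ∀ u : List Sl, u.length ≤ n → ∀ e ∈ k.E, (iO k.th e u).ncard ≤ V) :
    {π | ∃ l : List S, l.length ≤ n ∧ wa k.act l = π}.ncard ≤
      Nat.card F ^ Nat.card F * TH.ncard ^ Nat.card F *
        ((Nat.card F * Nat.card L) ^ 2 + 1) ^ (Nat.card F * k.E.ncard * V) := by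
  obtain ⟨P, hP⟩ : ∃ P : Set (Perm (F × L)),
      P = {π | ∃ l : List S, l.length ≤ n ∧ wa k.act l = π} := ⟨_, rfl⟩
  rw [← hP]
  have hch : ∀ π : P, ∃ l : List S, l.length ≤ n ∧ wa k.act l = π.1 := by
    rintro ⟨π, hπ⟩
    have h : π ∈ {π | ∃ l : List S, l.length ≤ n ∧ wa k.act l = π} := hP ▸ hπ
    exact h
  choose l hl hlπ using hch
  obtain ⟨Q, hQ⟩ : ∃ Q : Set ((F × L) → Option (F × L)),
      Q = {f | {z | f z ≠ none}.ncard ≤ Nat.card F * k.E.ncard * V} := ⟨_, rfl⟩
  have hTHf : Finite TH := hTH.to_subtype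
  have hqd : ∀ (π : P) (z : F × L),
      (if z ∈ k.Exc (l π) then some (wa k.act (l π) z) else none) ≠ none ↔
        z ∈ k.Exc (l π) := by
    intro π z
    by_cases h : z ∈ k.Exc (l π)
    · simp [h]
    · simp [h]
  have hq : ∀ π : P, (fun z : F × L =>
      if z ∈ k.Exc (l π) then some (wa k.act (l π) z) else none) ∈ Q := by
    intro π
    rw [hQ]
    have h1 : {z : F × L | (if z ∈ k.Exc (l π) then some (wa k.act (l π) z) else none) ≠ none} =
        k.Exc (l π) := by
      ext z
      exact hqd π z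
    show Set.ncard {z : F × L |
      (if z ∈ k.Exc (l π) then some (wa k.act (l π) z) else none) ≠ none} ≤ _
    rw [h1]
    exact exc_card k (l π) V (fun u hu e he => hV u (hu.trans (hl π)) e he)
  have hqs : Finite Q := inferInstance
  obtain ⟨Φ, hΦdef⟩ : ∃ Φ : P → (F → F) × (F → TH) × Q, Φ = fun π =>
      (k.genl (l π), (fun f => ⟨wa k.th (k.secl (l π) f), hth _ (by
        rw [secl_length]; exact hl π)⟩), ⟨_, hq π⟩) := ⟨_, rfl⟩
  have hΦ : Function.Injective Φ := by
    intro π π' h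
    rw [hΦdef] at h
    simp only [Prod.mk.injEq, Subtype.mk.injEq] at h
    obtain ⟨h1, h2, h3⟩ := h
    apply Subtype.ext
    rw [← hlπ π, ← hlπ π']
    have hE : k.Exc (l π) = k.Exc (l π') := by
      ext z
      rw [← hqd π z, ← hqd π' z]
      have := congrFun h3 z
      rw [this]
    refine exc_det k hk _ _ h1 ?_ hE ?_
    · intro f
      have := congrFun h2 f
      exact congrArg Subtype.val this
    · intro p hp
      have h4 := congrFun h3 p
      have hp' : p ∈ k.Exc (l π') := by rw [← hE]; exact hp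
      simp only [hp, hp', if_true, Option.some.injEq] at h4
      exact h4
  have h1 : Nat.card P ≤ Nat.card ((F → F) × (F → TH) × Q) :=
    Nat.card_le_card_of_injective Φ hΦ
  rw [Nat.card_prod, Nat.card_prod, Nat.card_fun, Nat.card_fun] at h1
  have h2 : Nat.card Q ≤ ((Nat.card F * Nat.card L) ^ 2 + 1) ^ (Nat.card F * k.E.ncard * V) := by
    have h3 := pfun_count (F × L) (Nat.card F * k.E.ncard * V)
    rw [Nat.card_prod, ← hQ] at h3
    exact h3
  have h3 : Nat.card TH = TH.ncard := rfl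
  have h4 : Nat.card P = P.ncard := rfl
  rw [h3, h4, ← mul_assoc] at h1
  exact h1.trans (Nat.mul_le_mul_left _ h2)


end IG
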