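import Mathlib
import Pool.Agent.Helper529.IG.QQ5

open Classical Equiv

namespace IG


/-- products of commuting involutions along lists with few distinct letters -/
theorem par_nodup_10442 {Γ I : Type} [Group Γ] (τ : I → Γ)
    (comm : ∀ i j, τ i * τ j = τ j * τ i) (sq : ∀ i, τ i * τ i = 1) (L : List I) :
    ∃ J : List I, J.Nodup ∧ (∀ i ∈ J, i ∈ L) ∧ (J.map τ).prod = (L.map τ).prod := by
  induction L with
  | nil => exact ⟨[], List.nodup_nil, by simp, rfl⟩
  | cons a L ih =>
    obtain ⟨J, hJ, hs, hp⟩ := ih
    by_cases ha : a ∈ J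
    · refine ⟨J.erase a, hJ.erase a, fun i hi => List.mem_cons_of_mem _ (hs i (List.mem_of_mem_erase hi)), ?_⟩
      have h1 : J.Perm (a :: J.erase a) := List.perm_cons_erase ha
      have h2 : (J.map τ).prod = ((a :: J.erase a).map τ).prod := by
        apply List.Perm.prod_eq' (h1.map τ)
        apply List.Pairwise.map (R := fun _ _ => True)
        · intro x y _
          exact comm x y
        · exact List.pairwise_of_forall (fun _ _ => trivial)
      rw [List.map_cons, List.prod_cons, ← hp, h2, List.map_cons, List.prod_cons, ← mul_assoc, sq,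
        one_mul]
    · refine ⟨a :: J, List.nodup_cons.2 ⟨ha, hJ⟩, ?_, ?_⟩
      · intro i hi
        rcases List.mem_cons.1 hi with h | h
        · rw [h]; exact List.mem_cons_self
        · exact List.mem_cons_of_mem _ (hs i h)
      · rw [List.map_cons, List.prod_cons, List.map_cons, List.prod_cons, hp]

theorem par_ofFn_10442 {Γ I : Type} [Group Γ] (τ : I → Γ) (k : ℕ) : ∀ J : List I, J.length ≤ k →
    (List.ofFn (fun j : Fin k => (J[(j : ℕ)]?).elim 1 τ)).prod = (J.map τ).prod := by
  induction k with
  | zero =>
    intro J hJ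
    have : J = [] := List.length_eq_zero_iff.1 (by omega)
    subst this
    simp
  | succ k ih =>
    intro J hJ
    rw [List.ofFn_succ, List.prod_cons]
    cases J with
    | nil =>
      have := ih [] (by simp)
      simpa using this
    | cons a J =>
      have h := ih J (by simpa using hJ)
      rw [List.map_cons, List.prod_cons, ← h]
      simp

theorem par_count {Γ I : Type} [Group Γ] [Finite I] (τ : I → Γ)
    (comm : ∀ i j, τ i * τ j = τ j * τ i) (sq : ∀ i, τ i * τ i = 1) (k : ℕ) :
    {g | ∃ L : List I, {i | i ∈ L}.ncard ≤ k ∧ (L.map τ).prod = g}.ncard ≤ (Nat.card I + 1) ^ k := by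
  have hsub : {g | ∃ L : List I, {i | i ∈ L}.ncard ≤ k ∧ (L.map τ).prod = g} ⊆
      Set.range (fun f : Fin k → Option I => (List.ofFn (fun j : Fin k => (f j).elim 1 τ)).prod) := by
    rintro g ⟨L, hL, rfl⟩
    obtain ⟨J, hJ, hs, hp⟩ := par_nodup_10442 τ comm sq L
    have hlen : J.length ≤ k := by
      have h1 : J.length = ((J.toFinset : Finset I) : Set I).ncard := by
        rw [Set.ncard_coe_finset, List.toFinset_card_of_nodup hJ]
      rw [h1]
      refine le_trans (Set.ncard_le_ncard ?_ (List.finite_toSet L)) hL
      intro i hi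
      have : i ∈ J := by simpa using hi
      exact hs i this
    refine ⟨fun j => J[(j : ℕ)]?, ?_⟩
    show (List.ofFn (fun j : Fin k => (J[(j : ℕ)]?).elim 1 τ)).prod = _
    rw [par_ofFn_10442 τ k J hlen, hp]
  refine le_trans (Set.ncard_le_ncard hsub (Set.finite_range _)) ?_
  have h2 : (Set.range (fun f : Fin k → Option I =>
      (List.ofFn (fun j : Fin k => (f j).elim 1 τ)).prod)).ncard ≤ Nat.card (Fin k → Option I) := by
    rw [← Set.image_univ]
    refine le_trans (Set.ncard_image_le Set.finite_univ) ?_
    rw [Set.ncard_univ]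
  refine le_trans h2 ?_
  rw [Nat.card_fun, Nat.card_fin, Finite.card_option]


end IG
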