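import Mathlib
import Pool.Agent.Helper529.IG.QQ6
import Pool.Agent.Helper529.IG.PK8

open Classical Equiv

namespace IG


theorem DR_ok (rho : ℕ → ℕ → ℕ) (M n : ℕ) : (DR rho M n).Ok :=
  slow_ok _

theorem finite_Gen : Finite Gen := by
  haveI : Finite (Perm (Option K)) := inferInstance
  let f : Gen → (Perm (Option K) ⊕ Unit) ⊕ (V4 ⊕ (Unit ⊕ K)) := fun s => match s with
    | Gen.r ρ => Sum.inl (Sum.inl ρ)
    | Gen.a => Sum.inl (Sum.inr ())
    | Gen.v v => Sum.inr (Sum.inl v)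
    | Gen.x => Sum.inr (Sum.inr (Sum.inl ()))
    | Gen.z c => Sum.inr (Sum.inr (Sum.inr c))
  refine Finite.of_injective f ?_
  intro s t h
  cases s <;> cases t <;> simp_all [f]

theorem finite_DY (rho : ℕ → ℕ → ℕ) (M : ℕ) : Finite (DD (DR rho) M).Y :=
  (slow_ok _).fin

theorem card_DY (rho : ℕ → ℕ → ℕ) (M : ℕ) :
    Nat.card (DD (DR rho) M).Y = 8 ^ (rr rho M + 1) + 1 :=
  card_slow _

theorem exE_card (r : ℕ) : (exE r).ncard ≤ 4 := by
  unfold exE
  refine (Set.ncard_insert_le _ _).trans ?_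
  refine Nat.succ_le_succ ((Set.ncard_insert_le _ _).trans ?_)
  refine Nat.succ_le_succ ((Set.ncard_insert_le _ _).trans ?_)
  rw [Set.ncard_singleton]


end IG
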