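import Mathlib
import Pool.Agent.Helper529.IG.QR1

open Classical Equiv

namespace IG


theorem sw_fix_aux {Z : Type} (a b y : Z) (h1 : y ≠ a) (h2 : y ≠ b) : sw a b y = y := by
  unfold sw
  exact Equiv.swap_apply_of_ne_of_ne h1 h2

theorem thY_id_aux (r : ℕ) (y : Option (UY (Bq r) r)) : thY r Sl.id y = y := by
  have h : aw (gA r) Sl.id = 1 := by
    show (gA r).v 0 * (if (false : Bool) = true then (gA r).z else 1) = 1
    simp [(gA_ok r).v_zero]
  unfold thY
  rw [h]
  cases y <;> rfl

theorem thY_a_aux (r : ℕ) (y : Option (UY (Bq r) r)) : thY r Sl.a y = (slow r).pa y := rfl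

theorem thY_v_aux (r : ℕ) (x : V4) (y : Option (UY (Bq r) r)) (hy : y ∉ exE r) :
    thY r (Sl.v x false) y = (slow r).pv x y := by
  have h1 : y ≠ none := fun h => hy (by simp [exE, h])
  have h2 : y ≠ some (tip (bl r) r) := fun h => hy (by simp [exE, h])
  have h : aw (gA r) (Sl.v x false) = (gA r).v x := by
    show (gA r).v x * (if (false : Bool) = true then (gA r).z else 1) = (gA r).v x
    simp
  unfold thY
  rw [h]
  show Equiv.optionCongr ((gA r).v x) y = (if x.1 = 1 then Equiv.optionCongr ((gA r).v x) * sw none (some (tip (bl r) r))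
    else Equiv.optionCongr ((gA r).v x)) y
  by_cases hx : x.1 = 1
  · rw [if_pos hx, Equiv.Perm.mul_apply, sw_fix_aux _ _ _ h1 h2]
  · rw [if_neg hx]

theorem fibP_aux {X Y : Type} (x : X) (π : Perm Y) (p : X × Y) :
    fibP x π p = if p.1 = x then (p.1, π p.2) else p := rfl

theorem ze_aux {Z : Type} (u : K → Z) (c : K) (p : Z × K) (h : p.1 ≠ u p.2) : ze u c p = p := by
  show (if p.1 = u p.2 then (u (kx c p.2), kx c p.2) else p) = p
  rw [if_neg h]

theorem sys2_ok_aux (rho : ℕ → ℕ → ℕ) (M : ℕ) (s : Gen) (x : XX (DR rho) M)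
    (y : Option (UY (Bq (rr rho M)) (rr rho M))) (hy : y ∉ exE (rr rho M)) :
    bb (DR rho) M s (x, y) = (bX (DR rho) M s x, thY (rr rho M) (scl (DR rho) M s x) y) := by
  cases s with
  | r ρ =>
    show (bX (DR rho) M (Gen.r ρ) x, y) = (bX (DR rho) M (Gen.r ρ) x, thY (rr rho M) Sl.id y)
    rw [thY_id_aux]
  | a =>
    show fibP (T (DR rho) M).pos.o (slow (rr rho M)).pa ((T (DR rho) M).root Gen.a x, y) =
      ((T (DR rho) M).root Gen.a x, thY (rr rho M)
        (if (T (DR rho) M).root Gen.a x = (T (DR rho) M).pos.o then Sl.a else Sl.id) y)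
    rw [fibP_aux]
    by_cases h : (T (DR rho) M).root Gen.a x = (T (DR rho) M).pos.o
    · simp only [h, if_true]
      rw [thY_a_aux]
      rfl
    · simp only [h, if_false]
      rw [thY_id_aux]
      rfl
  | v v =>
    show fibP ((T (DR rho) M).pos.s 0) ((slow (rr rho M)).pv v) ((T (DR rho) M).root (Gen.v v) x, y) =
      ((T (DR rho) M).root (Gen.v v) x, thY (rr rho M)
        (if (T (DR rho) M).root (Gen.v v) x = (T (DR rho) M).pos.s 0 then Sl.v v false else Sl.id) y)
    rw [fibP_aux]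
    by_cases h : (T (DR rho) M).root (Gen.v v) x = (T (DR rho) M).pos.s 0
    · simp only [h, if_true]
      rw [thY_v_aux _ _ _ hy]
      rfl
    · simp only [h, if_false]
      rw [thY_id_aux]
      rfl
  | x =>
    show (bX (DR rho) M Gen.x x, y) = (bX (DR rho) M Gen.x x, thY (rr rho M) Sl.id y)
    rw [thY_id_aux]
  | z c =>
    show (bX (DR rho) M (Gen.z c) x, y) = (bX (DR rho) M (Gen.z c) x, thY (rr rho M) Sl.id y)
    rw [thY_id_aux]

theorem dl_bb_aux (rho : ℕ → ℕ → ℕ) (M : ℕ) (s : Gen) (t x : XX (DR rho) M)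
    (y : (DD (DR rho) M).Y) (k : K) (hy : y ≠ (DD (DR rho) M).mid) :
    dl (DD (DR rho) M) s (T (DR rho) M).pos t (gW ((T (DR rho) M).root s) ((x, y), k)) =
      (bb (DR rho) M s (x, y), k) := by
  cases s with
  | r ρ => rfl
  | a => rfl
  | v v => rfl
  | x => rfl
  | z c =>
    show (if t = (T (DR rho) M).pos.s 0 then
        ze (fun k => ((T (DR rho) M).pos.s (ph k), (DD (DR rho) M).mid)) c else 1)
        (((T (DR rho) M).root (Gen.z c) x, y), k) = (((T (DR rho) M).root (Gen.z c) x, y), k)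
    by_cases h : t = (T (DR rho) M).pos.s 0
    · rw [if_pos h]
      apply ze_aux
      intro e
      exact hy (congrArg Prod.snd e)
    · rw [if_neg h]
      rfl

theorem sys1_ok (rho : ℕ → ℕ → ℕ) (M : ℕ) : (sys1 rho M).Ok := by
  constructor
  intro s f y hy
  obtain ⟨t, x, k⟩ := f
  have hy' : y ∉ exE (rr rho M) := hy
  have hm : y ≠ (DD (DR rho) M).mid := by
    intro h
    apply hy'
    have : y = some (tip (bm (rr rho M)) (rr rho M)) := h
    simp [exE, this]
  have h1 := dl_bb_aux rho M s ((T (DR rho) M).root s t) x y k hm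
  have h2 := sys2_ok_aux rho M s x y hy'
  show reo (XX (DR rho) M) (Option (UY (Bq (rr rho M)) (rr rho M)))
    ((T (DR rho) M).root s t, dl (DD (DR rho) M) s (T (DR rho) M).pos ((T (DR rho) M).root s t)
      (gW ((T (DR rho) M).root s) ((x, y), k))) = (((T (DR rho) M).root s t, bX (DR rho) M s x, k),
        thY (rr rho M) (scl (DR rho) M s x) y)
  rw [h1]
  have h3 : (bb (DR rho) M s (x, y)) = (bX (DR rho) M s x, thY (rr rho M) (scl (DR rho) M s x) y) := h2
  rw [h3]
  rfl

theorem sys2_ok (rho : ℕ → ℕ → ℕ) (M : ℕ) : (sys2 rho M).Ok := by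
  constructor
  intro s x y hy
  exact sys2_ok_aux rho M s x y hy


end IG
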