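import Mathlib
import Pool.Agent.Helper529.IG.QR2

open Classical Equiv

namespace IG


theorem pA_spec {D : ℕ → ℕ → SD} (M : ℕ) (l : List Gen) (f : XX D (M + 1)) (t : XX D M) :
    wa (pA D M) l (t, f t) =
      (ev D l M t, (ev D l (M + 1) f : XX D M → WW D M) (ev D l M t)) := by
  induction l with
  | nil => rfl
  | cons s l ih =>
    have h1 : wa (pA D M) (s :: l) (t, f t) = pA D M s (wa (pA D M) l (t, f t)) := rfl
    rw [h1, ih]
    have h2 : ev D (s :: l) M t = (T D M).root s (ev D l M t) := rfl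
    have h3 : (ev D (s :: l) (M + 1) f : XX D M → WW D M)
        = wr ((T D M).root s) (fun t => dl (DD D M) s (T D M).pos t * gW ((T D M).root s))
          (ev D l (M + 1) f : XX D M → WW D M) := rfl
    rw [h3, h2, wr_apply]
    have h4 : ((T D M).root s)⁻¹ ((T D M).root s (ev D l M t)) = ev D l M t := by simp
    rw [h4]
    rfl

theorem pA_det {D : ℕ → ℕ → SD} (M : ℕ) (l l' : List Gen)
    (h : wa (pA D M) l = wa (pA D M) l') : ev D l (M + 1) = ev D l' (M + 1) := by
  apply Equiv.ext
  intro f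
  have key : (ev D l (M + 1) f : XX D M → WW D M) = (ev D l' (M + 1) f : XX D M → WW D M) := by
    funext t'
    obtain ⟨t, ht⟩ : ∃ t, ev D l M t = t' := ⟨(ev D l M).symm t', by simp⟩
    have h1 := pA_spec M l f t
    have h2 := pA_spec M l' f t
    rw [h, h2] at h1
    have h3 := (Prod.mk.inj h1).1
    have h4 := (Prod.mk.inj h1).2
    rw [h3, ht] at h4
    exact h4.symm
  exact key

theorem pA_of_ev {D : ℕ → ℕ → SD} (M : ℕ) (l l' : List Gen) (h : ev D l = ev D l') :
    wa (pA D M) l = wa (pA D M) l' := by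
  apply Equiv.ext
  rintro ⟨t, w⟩
  have h1 := pA_spec (D := D) M l (fun _ => w) t
  have h2 := pA_spec (D := D) M l' (fun _ => w) t
  rw [h] at h1
  exact h1.trans h2.symm

theorem sys1_wa (rho : ℕ → ℕ → ℕ) (M : ℕ) (l : List Gen) :
    wa (sys1 rho M).act l = ((reo (XX (DR rho) M) (Option (UY (Bq (rr rho M)) (rr rho M)))).symm.trans
      (wa (pA (DR rho) M) l)).trans (reo (XX (DR rho) M) (Option (UY (Bq (rr rho M)) (rr rho M)))) := by
  induction l with
  | nil =>
    apply Equiv.ext
    intro p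
    rfl
  | cons s l ih =>
    have h1 : wa (sys1 rho M).act (s :: l) = (sys1 rho M).act s * wa (sys1 rho M).act l := rfl
    rw [h1, ih]
    apply Equiv.ext
    intro p
    rfl


end IG
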