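import Mathlib
import Pool.Agent.Helper529.IG.QR3

open Classical Equiv

namespace IG

/-- bound on the number of points visited -/
noncomputable def Vn (r n : ℕ) : ℕ := ⌊700 * ((7 / 8 : ℝ) ^ r * n + 2 ^ r) + 1⌋₊


theorem hV (r n : ℕ) (u : List Sl) (hu : u.length ≤ n) (e : Option (UY (Bq r) r))
    (he : e ∈ exE r) : (iO (thY r) e u).ncard ≤ Vn r n := by
  unfold Vn
  apply Nat.le_floor
  refine (iO_thY r e he u).trans ?_
  have : (u.length : ℝ) ≤ n := by exact_mod_cast hu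
  gcongr

theorem cnt1_inj (rho : ℕ → ℕ → ℕ) (M : ℕ) (l l' : List Gen)
    (h : wa (sys1 rho M).act l = wa (sys1 rho M).act l') :
    ev (DR rho) l (M + 1) = ev (DR rho) l' (M + 1) := by
  rw [sys1_wa, sys1_wa] at h
  apply pA_det M l l'
  apply Equiv.ext
  intro p
  have h2 := congrArg (fun e => e ((reo (XX (DR rho) M) (Option (UY (Bq (rr rho M)) (rr rho M)))) p)) h
  simp only [Equiv.trans_apply, Equiv.symm_apply_apply] at h2
  exact (reo (XX (DR rho) M) (Option (UY (Bq (rr rho M)) (rr rho M)))).injective h2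

/-- number of actions of short words on the next level. -/
theorem cnt1 (rho : ℕ → ℕ → ℕ) (M n : ℕ) :
    ({g : Perm (XX (DR rho) (M + 1)) | ∃ l : List Gen, l.length ≤ n ∧
      ev (DR rho) l (M + 1) = g}.ncard : ℝ) ≤
      (8 * (Nat.card (XX (DR rho) M) : ℝ) ^ 2) ^ (8 * Nat.card (XX (DR rho) M) ^ 2) *
      Real.exp (112 * ((7 / 8 : ℝ) ^ (rr rho M) * n + 2 ^ (rr rho M))) ^
        (8 * Nat.card (XX (DR rho) M) ^ 2) *
      ((8 * (Nat.card (XX (DR rho) M) : ℝ) ^ 2 * (8 ^ (rr rho M + 1) + 1)) ^ 2 + 1) ^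
        (8 * Nat.card (XX (DR rho) M) ^ 2 * 4 * Vn (rr rho M) n) := by
  haveI hfX : Finite (XX (DR rho) M) := fin_XX (fun M n => DR_ok rho M n) M
  haveI hfL : Finite (Option (UY (Bq (rr rho M)) (rr rho M))) := finite_DY rho M
  obtain ⟨TH, hTH, hth, hcard⟩ := count_thY (rr rho M) n
  have hmain := exc_count (sys1 rho M) (sys1_ok rho M) n (Vn (rr rho M) n) TH hTH hth
    (fun u hu e he => hV (rr rho M) n u hu e he)
  have hF : Nat.card (XX (DR rho) M × XX (DR rho) M × K) = 8 * Nat.card (XX (DR rho) M) ^ 2 := by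
    rw [Nat.card_prod, Nat.card_prod]
    have : Nat.card K = 8 := by simp
    rw [this]; ring
  have hL : Nat.card (Option (UY (Bq (rr rho M)) (rr rho M))) = 8 ^ (rr rho M + 1) + 1 :=
    card_DY rho M
  have hE : (sys1 rho M).E.ncard ≤ 4 := exE_card (rr rho M)
  have hfin : {π | ∃ l : List Gen, l.length ≤ n ∧ wa (sys1 rho M).act l = π}.Finite :=
    Set.toFinite _
  have hle : {g : Perm (XX (DR rho) (M + 1)) | ∃ l : List Gen, l.length ≤ n ∧
      ev (DR rho) l (M + 1) = g}.ncard ≤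
      {π | ∃ l : List Gen, l.length ≤ n ∧ wa (sys1 rho M).act l = π}.ncard := by
    let G : Perm ((XX (DR rho) M × XX (DR rho) M × K) ×
        (Option (UY (Bq (rr rho M)) (rr rho M)))) → Perm (XX (DR rho) (M + 1)) := fun π =>
      if h : ∃ l : List Gen, l.length ≤ n ∧ wa (sys1 rho M).act l = π then
        ev (DR rho) h.choose (M + 1) else 1
    have hsub : {g : Perm (XX (DR rho) (M + 1)) | ∃ l : List Gen, l.length ≤ n ∧
      ev (DR rho) l (M + 1) = g} ⊆
      G '' {π | ∃ l : List Gen, l.length ≤ n ∧ wa (sys1 rho M).act l = π} := by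
      rintro g ⟨l, hl, rfl⟩
      refine ⟨wa (sys1 rho M).act l, ⟨l, hl, rfl⟩, ?_⟩
      have hex : ∃ l' : List Gen, l'.length ≤ n ∧
          wa (sys1 rho M).act l' = wa (sys1 rho M).act l := ⟨l, hl, rfl⟩
      show (if h : ∃ l' : List Gen, l'.length ≤ n ∧
          wa (sys1 rho M).act l' = wa (sys1 rho M).act l then
        ev (DR rho) h.choose (M + 1) else 1) = _
      rw [dif_pos hex]
      exact cnt1_inj rho M _ _ hex.choose_spec.2
    exact (Set.ncard_le_ncard hsub (hfin.image _)).trans (Set.ncard_image_le hfin)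
  set k := Nat.card (XX (DR rho) M) with hk
  have h1 : ({g : Perm (XX (DR rho) (M + 1)) | ∃ l : List Gen, l.length ≤ n ∧
      ev (DR rho) l (M + 1) = g}.ncard : ℝ) ≤
      (((8 * k ^ 2) ^ (8 * k ^ 2) * TH.ncard ^ (8 * k ^ 2) *
        (((8 * k ^ 2) * (8 ^ (rr rho M + 1) + 1)) ^ 2 + 1) ^
          ((8 * k ^ 2) * 4 * Vn (rr rho M) n) : ℕ) : ℝ) := by
    have h2 := hle.trans hmain
    rw [hF, hL] at h2
    have h3 : (((8 * k ^ 2) * (8 ^ (rr rho M + 1) + 1)) ^ 2 + 1) ^
          ((8 * k ^ 2) * (sys1 rho M).E.ncard * Vn (rr rho M) n) ≤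
        (((8 * k ^ 2) * (8 ^ (rr rho M + 1) + 1)) ^ 2 + 1) ^
          ((8 * k ^ 2) * 4 * Vn (rr rho M) n) := by
      apply Nat.pow_le_pow_right (by omega)
      gcongr
    exact_mod_cast h2.trans (Nat.mul_le_mul_left _ h3)
  refine h1.trans ?_
  push_cast
  gcongr


end IG
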