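import Mathlib
import Pool.Agent.Helper529.IG.QR4

open Classical Equiv

namespace IG


theorem r5_fibP {X Y : Type} (x : X) (π : Perm Y) (p : X × Y) :
    fibP x π p = if p.1 = x then (p.1, π p.2) else p := rfl

theorem r5_root (D : ℕ → ℕ → SD) (M : ℕ) (s : Gen) (f : XX D (M + 1)) (t : XX D M) :
    (Phi D s (M + 1) f : XX D M → WW D M) t =
      dl (DD D M) s (T D M).pos t (gW ((T D M).root s) ((f : XX D M → WW D M) (((T D M).root s)⁻¹ t))) := rfl

theorem r5_mid (r : ℕ) : pp r (slow r).mid = hq r := by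
  show ((bas r (tip (bm r) r) : Bq r) : ℕ) = hq r
  rw [bas_tip]
  rfl

theorem r5_ze {Z : Type} (u : K → Z) (c : K) (p : Z × K) (h : p.1 ≠ u p.2) : ze u c p = p := by
  show (if p.1 = u p.2 then (u (kx c p.2), kx c p.2) else p) = p
  rw [if_neg h]

theorem r5_one (rho : ℕ → ℕ → ℕ) (M : ℕ) (s : Gen)
    (q : XX (DR rho) M × (DD (DR rho) M).Y) (k : K)
    (h : ∀ c, s = Gen.z c → pp (rr rho M) q.2 ≠ hq (rr rho M)) :
    Phi (DR rho) s (M + 1) (fun _ => (q, k)) = fun _ => (bb (DR rho) M s q, k) := by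
  have key : ∀ t : XX (DR rho) M, dl (DD (DR rho) M) s (T (DR rho) M).pos t
      (((((T (DR rho) M).root s q.1), q.2), k) : WW (DR rho) M) = (bb (DR rho) M s q, k) := by
    intro t
    cases s with
    | r ρ => rfl
    | a => rfl
    | v v => rfl
    | x => rfl
    | z c =>
      have hne := h c rfl
      show (if t = (T (DR rho) M).pos.s 0 then
        ze (fun k => ((T (DR rho) M).pos.s (ph k), (DD (DR rho) M).mid)) c else 1)
          (((((T (DR rho) M).root (Gen.z c) q.1), q.2), k) : WW (DR rho) M) =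
            (bb (DR rho) M (Gen.z c) q, k)
      have hout : ∀ w : WW (DR rho) M, w = (((((T (DR rho) M).root (Gen.z c) q.1), q.2), k) : WW (DR rho) M) →
          w = (bb (DR rho) M (Gen.z c) q, k) := by
        intro w hw
        rw [hw]; rfl
      apply hout
      split_ifs with ht
      · apply r5_ze
        intro heq
        apply hne
        have h2 : q.2 = (DD (DR rho) M).mid := congrArg Prod.snd heq
        rw [h2]
        exact r5_mid (rr rho M)
      · rfl
  funext t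
  exact key t

theorem r5_pp1 (rho : ℕ → ℕ → ℕ) (M : ℕ) (s : Gen)
    (q : XX (DR rho) M × (DD (DR rho) M).Y) :
    pp (rr rho M) (bb (DR rho) M s q).2 ≤ pp (rr rho M) q.2 + 1 ∧
    pp (rr rho M) q.2 ≤ pp (rr rho M) (bb (DR rho) M s q).2 + 1 := by
  cases s with
  | r ρ => exact ⟨Nat.le_succ _, Nat.le_succ _⟩
  | a =>
    have h : (bb (DR rho) M Gen.a q).2 = q.2 ∨
        (bb (DR rho) M Gen.a q).2 = (slow (rr rho M)).pa q.2 := by
      have e : bb (DR rho) M Gen.a q = fibP (T (DR rho) M).pos.o (DD (DR rho) M).pa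
        ((T (DR rho) M).root Gen.a q.1, q.2) := rfl
      rw [e, r5_fibP]
      split_ifs
      · exact Or.inr rfl
      · exact Or.inl rfl
    rcases h with h | h
    · rw [h]; exact ⟨Nat.le_succ _, Nat.le_succ _⟩
    · rw [h]; exact pp_a (rr rho M) q.2
  | v v =>
    have h : (bb (DR rho) M (Gen.v v) q).2 = q.2 ∨
        (bb (DR rho) M (Gen.v v) q).2 = (slow (rr rho M)).pv v q.2 := by
      have e : bb (DR rho) M (Gen.v v) q = fibP ((T (DR rho) M).pos.s 0) ((DD (DR rho) M).pv v)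
        ((T (DR rho) M).root (Gen.v v) q.1, q.2) := rfl
      rw [e, r5_fibP]
      split_ifs
      · exact Or.inr rfl
      · exact Or.inl rfl
    rcases h with h | h
    · rw [h]; exact ⟨Nat.le_succ _, Nat.le_succ _⟩
    · rw [h]; exact pp_v (rr rho M) v q.2
  | x => exact ⟨Nat.le_succ _, Nat.le_succ _⟩
  | z c => exact ⟨Nat.le_succ _, Nat.le_succ _⟩

theorem r5_pp1i (rho : ℕ → ℕ → ℕ) (M : ℕ) (s : Gen)
    (p : XX (DR rho) M × (DD (DR rho) M).Y) :
    pp (rr rho M) ((bb (DR rho) M s)⁻¹ p).2 ≤ pp (rr rho M) p.2 + 1 ∧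
    pp (rr rho M) p.2 ≤ pp (rr rho M) ((bb (DR rho) M s)⁻¹ p).2 + 1 := by
  have h := r5_pp1 rho M s ((bb (DR rho) M s)⁻¹ p)
  have e : bb (DR rho) M s ((bb (DR rho) M s)⁻¹ p) = p := (bb (DR rho) M s).apply_symm_apply p
  rw [e] at h
  exact ⟨h.2, h.1⟩

theorem r5_wa (D : ℕ → ℕ → SD) (M : ℕ) (s : Gen) (l : List Gen) (p : XX D M × (DD D M).Y) :
    (wa (bb D M) (s :: l))⁻¹ p = (wa (bb D M) l)⁻¹ ((bb D M s)⁻¹ p) := rfl

theorem r5_ev (D : ℕ → ℕ → SD) (M : ℕ) (s : Gen) (l : List Gen) (f : XX D (M + 1)) :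
    (ev D (s :: l) (M + 1))⁻¹ f = (ev D l (M + 1))⁻¹ ((Phi D s (M + 1))⁻¹ f) := rfl

/-- positions of constant points under short words -/
theorem pos_inv (rho : ℕ → ℕ → ℕ) (M : ℕ) (l : List Gen)
    (p : XX (DR rho) M × (DD (DR rho) M).Y) (k : K)
    (h : pp (rr rho M) p.2 + l.length < hq (rr rho M) ∨
      hq (rr rho M) + l.length < pp (rr rho M) p.2) :
    (ev (DR rho) l (M + 1))⁻¹ (fun _ => (p, k)) = fun _ => ((wa (bb (DR rho) M) l)⁻¹ p, k) := by
  induction l generalizing p with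
  | nil => rfl
  | cons s l ih =>
    rw [List.length_cons] at h
    have h1 := r5_pp1i rho M s p
    have hz : ∀ c, s = Gen.z c → pp (rr rho M) ((bb (DR rho) M s)⁻¹ p).2 ≠ hq (rr rho M) := by
      intro c hc
      subst hc
      have e : ((bb (DR rho) M (Gen.z c))⁻¹ p).2 = p.2 := rfl
      rw [e]
      omega
    have h2 := r5_one rho M s ((bb (DR rho) M s)⁻¹ p) k hz
    have e : bb (DR rho) M s ((bb (DR rho) M s)⁻¹ p) = p := (bb (DR rho) M s).apply_symm_apply p
    rw [e] at h2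
    have h3 : (Phi (DR rho) s (M + 1))⁻¹ (fun _ => (p, k)) = fun _ => ((bb (DR rho) M s)⁻¹ p, k) := by
      rw [← h2]
      exact (Phi (DR rho) s (M + 1)).symm_apply_apply _
    have h4 := r5_ev (DR rho) M s l (fun _ => (p, k))
    exact h4.trans ((congrArg (fun f => (ev (DR rho) l (M + 1))⁻¹ f) h3).trans
      (ih ((bb (DR rho) M s)⁻¹ p) (by omega)))

theorem pp_inv (rho : ℕ → ℕ → ℕ) (M : ℕ) (l : List Gen)
    (p : XX (DR rho) M × (DD (DR rho) M).Y) :
    pp (rr rho M) ((wa (bb (DR rho) M) l)⁻¹ p).2 ≤ pp (rr rho M) p.2 + l.length ∧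
    pp (rr rho M) p.2 ≤ pp (rr rho M) ((wa (bb (DR rho) M) l)⁻¹ p).2 + l.length := by
  induction l generalizing p with
  | nil => exact ⟨Nat.le_add_right _ _, Nat.le_add_right _ _⟩
  | cons s l ih =>
    rw [r5_wa, List.length_cons]
    have h1 := r5_pp1i rho M s p
    have h2 := ih ((bb (DR rho) M s)⁻¹ p)
    omega


end IG
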