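import Mathlib
import Pool.Agent.Helper529.IG.QR5

open Classical Equiv

namespace IG


/-- recursive sequence of positions, started at level `m` -/
noncomputable def Qrec (D : ℕ → ℕ → SD) (m : ℕ) (P : Pos (XX D m)) : ∀ M, Pos (XX D M)
  | 0 => if h : m = 0 then h ▸ P else (T D 0).pos
  | M + 1 => if h : m = M + 1 then h ▸ P else (Qrec D m P M).nxt (DD D M)

theorem exists_seq {D : ℕ → ℕ → SD} (m : ℕ) (P : Pos (XX D m)) :
    ∃ Q : ∀ M, Pos (XX D M), Q m = P ∧ Seq D m Q := by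
  refine ⟨Qrec D m P, ?_, ?_⟩
  · cases m with
    | zero => simp [Qrec]
    | succ m => simp [Qrec]
  · intro M hM
    have h : m ≠ M + 1 := by omega
    simp only [Qrec, dif_neg h]

theorem cp_ne {D : ℕ → ℕ → SD} {M : ℕ} {p p' : XX D M × (DD D M).Y} (h : p ≠ p') (k k' : K) :
    (fun _ => (p, k) : XX D M → WW D M) ≠ fun _ => (p', k') := by
  intro e
  have := congrFun e ((T D M).pos.o)
  exact h (Prod.ext_iff.1 this).1

theorem okp_cpos {D : ℕ → ℕ → SD} {M : ℕ} (s s' : Gen) (p p' : XX D M × (DD D M).Y)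
    (h : (∀ ρ, s ≠ Gen.r ρ) → (∀ ρ, s' ≠ Gen.r ρ) → p = p' → (s = Gen.a ↔ s' = Gen.a)) :
    OKp s (cpos p) s' (cpos p') := by
  have key : ∀ (k k' : K), p ≠ p' →
      (fun _ => (p, k) : XX D M → WW D M) ≠ fun _ => (p', k') := fun k k' hp => cp_ne hp k k'
  have inj : Function.Injective (cpos p : Pos (XX D (M + 1))).s := by
    intro k k' e
    have e' : (fun _ => (p, k) : XX D M → WW D M) = fun _ => (p, k') := e
    have := congrFun e' ((T D M).pos.o)
    exact (Prod.ext_iff.1 this).2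
  by_cases hp : p = p'
  · subst hp
    cases s <;> cases s' <;> simp [OKp, Rel] at h ⊢ <;> exact inj
  · left
    rw [Set.disjoint_left]
    cases s <;> cases s' <;> simp only [Rel, Set.mem_empty_iff_false, Set.mem_singleton_iff,
      Set.mem_range, not_false_eq_true, implies_true, IsEmpty.forall_iff]
    · rintro x rfl e
      exact key 0 0 hp e
    · rintro x rfl ⟨k, e⟩
      exact key 0 k hp e.symm
    · rintro x rfl ⟨k, e⟩
      exact key 0 k hp e.symm
    · rintro x rfl ⟨k, e⟩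
      exact key 0 k hp e.symm
    · rintro x ⟨k, rfl⟩ e
      exact key k 0 hp e
    · rintro x ⟨k, rfl⟩ ⟨k', e⟩
      exact key k k' hp e.symm
    · rintro x ⟨k, rfl⟩ ⟨k', e⟩
      exact key k k' hp e.symm
    · rintro x ⟨k, rfl⟩ ⟨k', e⟩
      exact key k k' hp e.symm
    · rintro x ⟨k, rfl⟩ e
      exact key k 0 hp e
    · rintro x ⟨k, rfl⟩ ⟨k', e⟩
      exact key k k' hp e.symm
    · rintro x ⟨k, rfl⟩ ⟨k', e⟩
      exact key k k' hp e.symm
    · rintro x ⟨k, rfl⟩ ⟨k', e⟩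
      exact key k k' hp e.symm
    · rintro x ⟨k, rfl⟩ e
      exact key k 0 hp e
    · rintro x ⟨k, rfl⟩ ⟨k', e⟩
      exact key k k' hp e.symm
    · rintro x ⟨k, rfl⟩ ⟨k', e⟩
      exact key k k' hp e.symm
    · rintro x ⟨k, rfl⟩ ⟨k', e⟩
      exact key k k' hp e.symm

theorem tq_r {D : ℕ → ℕ → SD} (m : ℕ) (ρ : Perm (Option K)) (Q : ∀ M, Pos (XX D M)) :
    tq D m (Gen.r ρ) Q = 1 := by
  unfold tq
  rw [← mk_one]
  congr 1
  funext M t
  split_ifs <;> rfl

/-- sequence started at a constant position -/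
noncomputable def Qp (rho : ℕ → ℕ → ℕ) (M : ℕ) (p : XX (DR rho) M × (DD (DR rho) M).Y) :
    ∀ M', Pos (XX (DR rho) M') :=
  Classical.choose (exists_seq (D := DR rho) (M + 1) (cpos p))

theorem Qp_spec (rho : ℕ → ℕ → ℕ) (M : ℕ) (p : XX (DR rho) M × (DD (DR rho) M).Y) :
    Qp rho M p (M + 1) = cpos p ∧ Seq (DR rho) (M + 1) (Qp rho M p) :=
  Classical.choose_spec (exists_seq (D := DR rho) (M + 1) (cpos p))

/-- condition for an index to be active -/
def Actv (rho : ℕ → ℕ → ℕ) (M : ℕ) (i : Gen × (XX (DR rho) M × (DD (DR rho) M).Y)) : Prop :=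
  (i.1 = Gen.a ∧ hq (rr rho M) < pp (rr rho M) i.2.2) ∨
    (i.1 ≠ Gen.a ∧ pp (rr rho M) i.2.2 < hq (rr rho M))

noncomputable def tauF (rho : ℕ → ℕ → ℕ) (M : ℕ)
    (i : Gen × (XX (DR rho) M × (DD (DR rho) M).Y)) : Gam (DR rho) :=
  if Actv rho M i then tq (DR rho) (M + 1) i.1 (Qp rho M i.2) else 1

theorem tauF_comm (rho : ℕ → ℕ → ℕ) (M : ℕ)
    (i j : Gen × (XX (DR rho) M × (DD (DR rho) M).Y)) :
    tauF rho M i * tauF rho M j = tauF rho M j * tauF rho M i := by
  unfold tauF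
  by_cases hi : Actv rho M i
  · by_cases hj : Actv rho M j
    · rw [if_pos hi, if_pos hj]
      refine (tq_comm (fun M n => DR_ok rho M n) (M + 1) i.1 j.1 _ _ (Qp_spec rho M i.2).2
        (Qp_spec rho M j.2).2 ?_).eq
      rw [(Qp_spec rho M i.2).1, (Qp_spec rho M j.2).1]
      apply okp_cpos
      intro _ _ e
      unfold Actv at hi hj
      rw [← e] at hj
      constructor
      · intro h
        rcases hi with ⟨_, hi⟩ | ⟨hi, _⟩
        · rcases hj with ⟨hj, _⟩ | ⟨_, hj⟩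
          · exact hj
          · omega
        · exact absurd h hi
      · intro h
        rcases hj with ⟨_, hj⟩ | ⟨hj, _⟩
        · rcases hi with ⟨hi, _⟩ | ⟨_, hi⟩
          · exact hi
          · omega
        · exact absurd h hj
    · rw [if_neg hj, mul_one, one_mul]
  · rw [if_neg hi, mul_one, one_mul]

theorem tauF_sq (rho : ℕ → ℕ → ℕ) (M : ℕ)
    (i : Gen × (XX (DR rho) M × (DD (DR rho) M).Y)) :
    tauF rho M i * tauF rho M i = 1 := by
  unfold tauF
  by_cases hi : Actv rho M i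
  · rw [if_pos hi]
    by_cases hr : ∃ ρ, i.1 = Gen.r ρ
    · obtain ⟨ρ, hρ⟩ := hr
      rw [hρ, tq_r, mul_one]
    · push Not at hr
      refine tq_sq (fun M n => DR_ok rho M n) (M + 1) i.1 hr _ (Qp_spec rho M i.2).2 ?_
      rw [(Qp_spec rho M i.2).1]
      apply okp_cpos
      intro _ _ _
      rfl
  · rw [if_neg hi, mul_one]

theorem step_one (rho : ℕ → ℕ → ℕ) (M : ℕ) (s : Gen) (l : List Gen)
    (hl : l.length < hq (rr rho M)) :
    ∃ L : List (Gen × (XX (DR rho) M × (DD (DR rho) M).Y)),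
      (EE (DR rho) (M + 1) l)⁻¹ * tl (DR rho) (M + 1) s * EE (DR rho) (M + 1) l =
        (L.map (tauF rho M)).prod ∧ ∀ i ∈ L, i.2 ∈ (sys2 rho M).Exc (s :: l) := by
  set g : Gam (DR rho) := (EE (DR rho) (M + 1) l)⁻¹ with hg
  have hgc : Can (DR rho) (M + 1) g := can_inv _ _ (EE_can _ _)
  have hgi : EE (DR rho) (M + 1) l = g⁻¹ := by rw [hg, inv_inv]
  have hgM : g (M + 1) = (ev (DR rho) l (M + 1))⁻¹ := by
    rw [hg, Pi.inv_apply, EE_le _ _ _ le_rfl]
  have hseq := seq_map (M + 1) g hgc _ (seq_pos (D := DR rho) (M + 1))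
  have main : ∀ p : XX (DR rho) M × (DD (DR rho) M).Y,
      Agr s (((T (DR rho) (M + 1)).pos).map (g (M + 1))) (cpos p) →
      Actv rho M (s, p) →
      g * tl (DR rho) (M + 1) s * EE (DR rho) (M + 1) l = tauF rho M (s, p) := by
    intro p hp hact
    rw [hgi, tl_eq, tq_conj _ _ _ hgc]
    unfold tauF
    rw [if_pos hact]
    refine tq_agr (M + 1) s _ _ hseq (Qp_spec rho M p).2 ?_
    rw [(Qp_spec rho M p).1]
    exact hp
  have posS : ∀ k : K, g (M + 1) ((T (DR rho) (M + 1)).pos.s k) =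
      fun _ => ((wa (bb (DR rho) M) l)⁻¹ ((T (DR rho) M).pos.s 0, (DD (DR rho) M).e1), k) := by
    intro k
    rw [hgM]
    refine pos_inv rho M l ((T (DR rho) M).pos.s 0, (DD (DR rho) M).e1) k (Or.inl ?_)
    have : pp (rr rho M) (DD (DR rho) M).e1 = 0 := by
      show ((bas (rr rho M) (tip (b0 (rr rho M)) (rr rho M)) : Bq (rr rho M)) : ℕ) = 0
      rw [bas_tip]; rfl
    show pp (rr rho M) (DD (DR rho) M).e1 + l.length < hq (rr rho M)
    rw [this]; omega
  have posO : g (M + 1) ((T (DR rho) (M + 1)).pos.o) =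
      fun _ => ((wa (bb (DR rho) M) l)⁻¹ ((T (DR rho) M).pos.o, (DD (DR rho) M).e0), 0) := by
    rw [hgM]
    refine pos_inv rho M l ((T (DR rho) M).pos.o, (DD (DR rho) M).e0) 0 (Or.inr ?_)
    have : pp (rr rho M) (DD (DR rho) M).e0 = 2 * hq (rr rho M) := rfl
    show hq (rr rho M) + l.length < pp (rr rho M) (DD (DR rho) M).e0
    rw [this]; omega
  have e0E : (DD (DR rho) M).e0 ∈ exE (rr rho M) := by
    show (none : Option (UY (Bq (rr rho M)) (rr rho M))) ∈ exE (rr rho M)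
    simp [exE]
  have e1E : (DD (DR rho) M).e1 ∈ exE (rr rho M) := by
    show (some (tip (b0 (rr rho M)) (rr rho M))) ∈ exE (rr rho M)
    simp [exE]
  have pS : pp (rr rho M) ((wa (bb (DR rho) M) l)⁻¹
      ((T (DR rho) M).pos.s 0, (DD (DR rho) M).e1)).2 < hq (rr rho M) := by
    have h1 := (pp_inv rho M l ((T (DR rho) M).pos.s 0, (DD (DR rho) M).e1)).1
    have : pp (rr rho M) (DD (DR rho) M).e1 = 0 := by
      show ((bas (rr rho M) (tip (b0 (rr rho M)) (rr rho M)) : Bq (rr rho M)) : ℕ) = 0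
      rw [bas_tip]; rfl
    have h2 : pp (rr rho M) ((T (DR rho) M).pos.s 0, (DD (DR rho) M).e1).2 = 0 := this
    rw [h2] at h1
    omega
  have pO : hq (rr rho M) < pp (rr rho M) ((wa (bb (DR rho) M) l)⁻¹
      ((T (DR rho) M).pos.o, (DD (DR rho) M).e0)).2 := by
    have h1 := (pp_inv rho M l ((T (DR rho) M).pos.o, (DD (DR rho) M).e0)).2
    have h2 : pp (rr rho M) ((T (DR rho) M).pos.o, (DD (DR rho) M).e0).2 = 2 * hq (rr rho M) := rfl
    rw [h2] at h1
    omega
  have hitS := exc_hit (sys2 rho M) (sys2_ok rho M) [s] l ((T (DR rho) M).pos.s 0) _ e1E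
  have hitO := exc_hit (sys2 rho M) (sys2_ok rho M) [s] l ((T (DR rho) M).pos.o) _ e0E
  have notA : (∀ ρ, s ≠ Gen.r ρ) → s ≠ Gen.a → 
      ∃ L : List (Gen × (XX (DR rho) M × (DD (DR rho) M).Y)),
      g * tl (DR rho) (M + 1) s * EE (DR rho) (M + 1) l =
        (L.map (tauF rho M)).prod ∧ ∀ i ∈ L, i.2 ∈ (sys2 rho M).Exc (s :: l) := by
    intro hr ha
    refine ⟨[(s, (wa (bb (DR rho) M) l)⁻¹ ((T (DR rho) M).pos.s 0, (DD (DR rho) M).e1))], ?_, ?_⟩
    · rw [List.map_singleton, List.prod_singleton]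
      refine main _ ?_ (Or.inr ⟨ha, pS⟩)
      have hs : (((T (DR rho) (M + 1)).pos).map (g (M + 1))).s =
          (cpos ((wa (bb (DR rho) M) l)⁻¹ ((T (DR rho) M).pos.s 0, (DD (DR rho) M).e1)) :
            Pos (XX (DR rho) (M + 1))).s := by
        funext k
        exact posS k
      cases s with
      | r ρ => exact absurd rfl (hr ρ)
      | a => exact absurd rfl ha
      | v v => exact hs
      | x => exact hs
      | z c => exact hs
    · intro i hi
      rw [List.mem_singleton] at hi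
      subst hi
      exact hitS
  by_cases hr : ∃ ρ, s = Gen.r ρ
  · obtain ⟨ρ, rfl⟩ := hr
    refine ⟨[], ?_, by simp⟩
    rw [tl_eq, tq_r, mul_one, hg]
    simp
  · push Not at hr
    by_cases ha : s = Gen.a
    · subst ha
      refine ⟨[(Gen.a, (wa (bb (DR rho) M) l)⁻¹ ((T (DR rho) M).pos.o, (DD (DR rho) M).e0))],
        ?_, ?_⟩
      · rw [List.map_singleton, List.prod_singleton]
        refine main _ ?_ (Or.inl ⟨rfl, pO⟩)
        exact posO
      · intro i hi
        rw [List.mem_singleton] at hi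
        subst hi
        exact hitO
    · exact notA hr ha

/-- the tail part of a short word is a product of commuting involutions. -/
theorem tail_prod (rho : ℕ → ℕ → ℕ) (M : ℕ) :
    ∃ τ : Gen × (XX (DR rho) M × (DD (DR rho) M).Y) → Gam (DR rho),
      (∀ i j, τ i * τ j = τ j * τ i) ∧ (∀ i, τ i * τ i = 1) ∧
      ∀ l : List Gen, l.length < hq (rr rho M) →
        ∃ L : List (Gen × (XX (DR rho) M × (DD (DR rho) M).Y)),
          Th (DR rho) (M + 1) l = (L.map τ).prod ∧ ∀ i ∈ L, i.2 ∈ (sys2 rho M).Exc l := by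
  refine ⟨tauF rho M, tauF_comm rho M, tauF_sq rho M, ?_⟩
  intro l
  induction l with
  | nil =>
    intro _
    exact ⟨[], by simp [Th], by simp⟩
  | cons s l ih =>
    intro hl
    rw [List.length_cons] at hl
    obtain ⟨L, h1, h2⟩ := ih (by omega)
    obtain ⟨L', h3, h4⟩ := step_one rho M s l (by omega)
    refine ⟨L' ++ L, ?_, ?_⟩
    · rw [List.map_append, List.prod_append, ← h1, ← h3]
      rfl
    · intro i hi
      rcases List.mem_append.1 hi with hi | hi
      · exact h4 i hi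
      · exact exc_suffix (sys2 rho M) [s] l i.2 (h2 i hi)


end IG
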