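import Mathlib
import Pool.Agent.Helper529.IG.QR6

open Classical Equiv

namespace IG


theorem prodset_finite {Γ I : Type} [Group Γ] [Finite I] (τ : I → Γ)
    (comm : ∀ i j, τ i * τ j = τ j * τ i) (sq : ∀ i, τ i * τ i = 1) :
    {g | ∃ L : List I, (L.map τ).prod = g}.Finite := by
  set H : Subgroup Γ := Subgroup.closure (Set.range τ) with hH
  have hfin : Finite H := by
    apply fin_gen (⊥ : Subgroup H) inferInstance ((fun h : H => (h : Γ)) ⁻¹' Set.range τ)
    · exact (Set.finite_range τ).preimage Subtype.val_injective.injOn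
    · rintro a ⟨i, hi⟩ b ⟨j, hj⟩
      apply Subtype.ext
      simp only at hi hj
      rw [Subgroup.coe_mul, Subgroup.coe_mul, ← hi, ← hj, comm]
    · rintro a ⟨i, hi⟩
      apply Subtype.ext
      simp only at hi
      rw [Subgroup.coe_mul, ← hi, sq]
      rfl
    · intro c hc a ha
      rw [Subgroup.mem_bot] at hc
      subst hc
      simpa using ha
    · rw [← top_le_iff]
      calc (⊤ : Subgroup H) = Subgroup.closure ((fun h : H => (h : Γ)) ⁻¹' Set.range τ) :=
            (Subgroup.closure_closure_coe_preimage (k := Set.range τ)).symm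
        _ ≤ _ := Subgroup.closure_mono Set.subset_union_right
  have hfin2 : (H : Set Γ).Finite := Set.toFinite _
  apply hfin2.subset
  rintro g ⟨L, rfl⟩
  apply H.list_prod_mem
  intro x hx
  rw [List.mem_map] at hx
  obtain ⟨i, _, rfl⟩ := hx
  exact Subgroup.subset_closure ⟨i, rfl⟩

theorem cnt2 (rho : ℕ → ℕ → ℕ) (M n : ℕ) (hn : n < hq (rr rho M)) :
    ({g : Gam (DR rho) | ∃ l : List Gen, l.length ≤ n ∧
      Th (DR rho) (M + 1) l = g}.ncard : ℝ) ≤
      ((Nat.card Gen : ℝ) * Nat.card (XX (DR rho) M) * (8 ^ (rr rho M + 1) + 1) + 1) ^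
        (Nat.card Gen * (Nat.card (XX (DR rho) M) * 4 * Vn (rr rho M) n)) := by
  haveI hfX : Finite (XX (DR rho) M) := fin_XX (fun M n => DR_ok rho M n) M
  haveI hfY : Finite (DD (DR rho) M).Y := finite_DY rho M
  haveI hfL : Finite (Option (UY (Bq (rr rho M)) (rr rho M))) := finite_DY rho M
  haveI hfG : Finite Gen := finite_Gen
  obtain ⟨τ, comm, sq, hτ⟩ := tail_prod rho M
  set k := Nat.card (XX (DR rho) M) with hk
  set KK := Nat.card Gen * (k * 4 * Vn (rr rho M) n) with hKK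
  have hI : Nat.card (Gen × (XX (DR rho) M × (DD (DR rho) M).Y)) =
      Nat.card Gen * (k * (8 ^ (rr rho M + 1) + 1)) := by
    rw [Nat.card_prod, Nat.card_prod, card_DY]
  have hE : (sys2 rho M).E.ncard ≤ 4 := exE_card (rr rho M)
  have hpar := par_count τ comm sq KK
  have hsub : {g : Gam (DR rho) | ∃ l : List Gen, l.length ≤ n ∧ Th (DR rho) (M + 1) l = g} ⊆
      {g | ∃ L : List (Gen × (XX (DR rho) M × (DD (DR rho) M).Y)),
        {i | i ∈ L}.ncard ≤ KK ∧ (L.map τ).prod = g} := by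
    rintro g ⟨l, hl, rfl⟩
    obtain ⟨L, hL1, hL2⟩ := hτ l (lt_of_le_of_lt hl hn)
    refine ⟨L, ?_, hL1.symm⟩
    have hexc : ((sys2 rho M).Exc l).ncard ≤ Nat.card (XX (DR rho) M) *
        (sys2 rho M).E.ncard * Vn (rr rho M) n :=
      exc_card (sys2 rho M) l (Vn (rr rho M) n)
        (fun u hu e he => hV (rr rho M) n u (hu.trans hl) e he)
    have hs : {i | i ∈ L} ⊆ (Set.univ : Set Gen) ×ˢ ((sys2 rho M).Exc l :
        Set (XX (DR rho) M × (DD (DR rho) M).Y)) := by
      intro i hi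
      exact ⟨trivial, hL2 i hi⟩
    calc {i | i ∈ L}.ncard ≤ ((Set.univ : Set Gen) ×ˢ ((sys2 rho M).Exc l :
        Set (XX (DR rho) M × (DD (DR rho) M).Y))).ncard := Set.ncard_le_ncard hs (Set.toFinite _)
      _ = Nat.card Gen * ((sys2 rho M).Exc l).ncard := by
          rw [Set.ncard_prod, Set.ncard_univ]
      _ ≤ Nat.card Gen * (k * 4 * Vn (rr rho M) n) := by
          apply Nat.mul_le_mul_left
          refine hexc.trans ?_
          gcongr
  have hfin : {g | ∃ L : List (Gen × (XX (DR rho) M × (DD (DR rho) M).Y)),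
        {i | i ∈ L}.ncard ≤ KK ∧ (L.map τ).prod = g}.Finite := by
    apply (prodset_finite τ comm sq).subset
    rintro g ⟨L, _, hL⟩
    exact ⟨L, hL⟩
  have h1 := (Set.ncard_le_ncard hsub hfin).trans hpar
  rw [hI] at h1
  have h2 : ({g : Gam (DR rho) | ∃ l : List Gen, l.length ≤ n ∧
      Th (DR rho) (M + 1) l = g}.ncard : ℝ) ≤
      (((Nat.card Gen * (k * (8 ^ (rr rho M + 1) + 1)) + 1) ^ KK : ℕ) : ℝ) := by
    exact_mod_cast h1
  refine h2.trans (le_of_eq ?_)
  push_cast
  rw [mul_assoc]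

theorem ball_finite {D : ℕ → ℕ → SD} (n : ℕ) :
    {g : Gam D | ∃ l : List Gen, l.length ≤ n ∧ ev D l = g}.Finite := by
  haveI hfG : Finite Gen := finite_Gen
  have h := (List.finite_length_le Gen n).image (ev D)
  apply h.subset
  rintro g ⟨l, hl, rfl⟩
  exact ⟨l, hl, rfl⟩


end IG
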