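import Mathlib
import Pool.Agent.Helper529.IG.QR7

open Classical Equiv

namespace IG


theorem cnt (rho : ℕ → ℕ → ℕ) (M n : ℕ) (hn : n < hq (rr rho M)) :
    ({g : Gam (DR rho) | ∃ l : List Gen, l.length ≤ n ∧ ev (DR rho) l = g}.ncard : ℝ) ≤
      ((8 * (Nat.card (XX (DR rho) M) : ℝ) ^ 2) ^ (8 * Nat.card (XX (DR rho) M) ^ 2) *
      Real.exp (112 * ((7 / 8 : ℝ) ^ (rr rho M) * n + 2 ^ (rr rho M))) ^
        (8 * Nat.card (XX (DR rho) M) ^ 2) *
      ((8 * (Nat.card (XX (DR rho) M) : ℝ) ^ 2 * (8 ^ (rr rho M + 1) + 1)) ^ 2 + 1) ^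
        (8 * Nat.card (XX (DR rho) M) ^ 2 * 4 * Vn (rr rho M) n)) *
      ((Nat.card Gen : ℝ) * Nat.card (XX (DR rho) M) * (8 ^ (rr rho M + 1) + 1) + 1) ^
        (Nat.card Gen * (Nat.card (XX (DR rho) M) * 4 * Vn (rr rho M) n)) := by
  haveI : Finite Gen := finite_Gen
  have hfl : {l : List Gen | l.length ≤ n}.Finite := List.finite_length_le Gen n
  set A : Set (Perm (XX (DR rho) (M + 1))) := {g | ∃ l : List Gen, l.length ≤ n ∧
      ev (DR rho) l (M + 1) = g} with hA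
  set B : Set (Gam (DR rho)) := {g | ∃ l : List Gen, l.length ≤ n ∧
      Th (DR rho) (M + 1) l = g} with hB
  set C : Set (Gam (DR rho)) := {g | ∃ l : List Gen, l.length ≤ n ∧
      EE (DR rho) (M + 1) l = g} with hC
  set S : Set (Gam (DR rho)) := {g | ∃ l : List Gen, l.length ≤ n ∧
      ev (DR rho) l = g} with hS
  have hAf : A.Finite := by
    have : A = (fun l : List Gen => ev (DR rho) l (M + 1)) '' {l : List Gen | l.length ≤ n} := by
      ext g
      simp only [hA, Set.mem_setOf_eq, Set.mem_image]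
    rw [this]
    exact hfl.image _
  have hBf : B.Finite := by
    have : B = (fun l : List Gen => Th (DR rho) (M + 1) l) '' {l : List Gen | l.length ≤ n} := by
      ext g
      simp only [hB, Set.mem_setOf_eq, Set.mem_image]
    rw [this]
    exact hfl.image _
  have hCf : C.Finite := by
    have : C = (fun l : List Gen => EE (DR rho) (M + 1) l) '' {l : List Gen | l.length ≤ n} := by
      ext g
      simp only [hC, Set.mem_setOf_eq, Set.mem_image]
    rw [this]
    exact hfl.image _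
  have hCA : C.ncard ≤ A.ncard := by
    apply Set.ncard_le_ncard_of_injOn (fun g : Gam (DR rho) => g (M + 1)) _ _ hAf
    · rintro g ⟨l, hl, rfl⟩
      exact ⟨l, hl, (EE_le (M + 1) l (M + 1) le_rfl).symm⟩
    · rintro g ⟨l, hl, rfl⟩ h ⟨l', hl', rfl⟩ e
      exact can_ext (M + 1) _ _ (EE_can _ _) (EE_can _ _) e
  have hSs : S ⊆ (fun p : Gam (DR rho) × Gam (DR rho) => p.1 * p.2) '' (C ×ˢ B) := by
    rintro g ⟨l, hl, rfl⟩
    refine ⟨(EE (DR rho) (M + 1) l, Th (DR rho) (M + 1) l), ⟨⟨l, hl, rfl⟩, ⟨l, hl, rfl⟩⟩, ?_⟩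
    exact (ev_split (fun M k => DR_ok rho M k) (M + 1) l).symm
  have hSc : S.ncard ≤ C.ncard * B.ncard := by
    calc S.ncard ≤ ((fun p : Gam (DR rho) × Gam (DR rho) => p.1 * p.2) '' (C ×ˢ B)).ncard :=
          Set.ncard_le_ncard hSs ((hCf.prod hBf).image _)
      _ ≤ (C ×ˢ B).ncard := Set.ncard_image_le (hCf.prod hBf)
      _ = C.ncard * B.ncard := Set.ncard_prod
  have h1 : (S.ncard : ℝ) ≤ (A.ncard : ℝ) * (B.ncard : ℝ) := by
    have : S.ncard ≤ A.ncard * B.ncard := hSc.trans (Nat.mul_le_mul_right _ hCA)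
    exact_mod_cast this
  have hA1 := cnt1 rho M n
  have hB1 := cnt2 rho M n hn
  refine h1.trans (mul_le_mul hA1 hB1 (Nat.cast_nonneg _) ?_)
  exact le_trans (Nat.cast_nonneg _) hA1


end IG
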