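import Mathlib
import Pool.Agent.Helper529.IG.QR8

open Classical Equiv

namespace IG

/-- the numerical bound -/
noncomputable def Bd (κ k r : ℕ) : ℝ :=
  ((8 * (k : ℝ) ^ 2) ^ (8 * k ^ 2) *
      Real.exp (112 * ((7 / 8 : ℝ) ^ r * (4 ^ r : ℕ) + 2 ^ r)) ^ (8 * k ^ 2) *
      ((8 * (k : ℝ) ^ 2 * (8 ^ (r + 1) + 1)) ^ 2 + 1) ^ (8 * k ^ 2 * 4 * Vn r (4 ^ r))) *
      ((κ : ℝ) * k * (8 ^ (r + 1) + 1) + 1) ^ (κ * (k * 4 * Vn r (4 ^ r)))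


theorem pow_le_exp_352 {x y : ℝ} (hx : 0 ≤ x) (hxy : x ≤ Real.exp y) (n : ℕ) :
    x ^ n ≤ Real.exp (n * y) := by
  rw [Real.exp_nat_mul]
  exact pow_le_pow_left₀ hx hxy n

theorem eight_pow_le_352 (r : ℕ) : (8 : ℝ) ^ r ≤ Real.exp (3 * r) := by
  have h1 : (8 : ℝ) ≤ Real.exp 3 := by
    have h2 : (2 : ℝ) ≤ Real.exp 1 := by
      have := Real.add_one_le_exp (1 : ℝ)
      linarith
    have h3 : Real.exp 3 = Real.exp 1 ^ 3 := by
      rw [← Real.exp_nat_mul]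
      norm_num
    rw [h3]
    calc (8 : ℝ) = 2 ^ 3 := by norm_num
      _ ≤ Real.exp 1 ^ 3 := pow_le_pow_left₀ (by norm_num) h2 3
  have h := pow_le_exp_352 (by norm_num : (0 : ℝ) ≤ 8) h1 r
  rwa [mul_comm] at h

theorem self_le_exp_352 (x : ℝ) : x ≤ Real.exp x := by
  have := Real.add_one_le_exp x
  linarith

theorem lin_le_exp_352 (C : ℝ) (hC : 1 ≤ C) (r : ℕ) :
    C * (8 ^ (r + 1) + 1) + 1 ≤ Real.exp (10 * C + 3 * r) := by
  have h8 : (1 : ℝ) ≤ 8 ^ r := one_le_pow₀ (by norm_num)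
  have h1 : C * (8 ^ (r + 1) + 1) + 1 ≤ (10 * C) * 8 ^ r := by
    rw [pow_succ]
    nlinarith [mul_le_mul hC h8 zero_le_one (by linarith)]
  refine h1.trans ?_
  rw [Real.exp_add]
  exact mul_le_mul (self_le_exp_352 _) (eight_pow_le_352 r) (by positivity) (Real.exp_pos _).le

theorem Vn_le_352 (r : ℕ) : ((Vn r (4 ^ r) : ℕ) : ℝ) ≤ 1401 * (7 / 2 : ℝ) ^ r := by
  have h0 : (0 : ℝ) ≤ 700 * ((7 / 8 : ℝ) ^ r * ((4 ^ r : ℕ) : ℝ) + 2 ^ r) + 1 := by positivity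
  have h1 : ((Vn r (4 ^ r) : ℕ) : ℝ) ≤ 700 * ((7 / 8 : ℝ) ^ r * ((4 ^ r : ℕ) : ℝ) + 2 ^ r) + 1 :=
    Nat.floor_le h0
  have h2 : (7 / 8 : ℝ) ^ r * ((4 ^ r : ℕ) : ℝ) = (7 / 2 : ℝ) ^ r := by
    push_cast
    rw [← mul_pow]
    norm_num
  have h3 : (2 : ℝ) ^ r ≤ (7 / 2 : ℝ) ^ r := pow_le_pow_left₀ (by norm_num) (by norm_num) r
  have h4 : (1 : ℝ) ≤ (7 / 2 : ℝ) ^ r := one_le_pow₀ (by norm_num)
  rw [h2] at h1
  linarith

theorem Bd_le_352 (κ k : ℕ) (hκ : 0 < κ) (hk : 0 < k) : ∃ C : ℝ, 0 < C ∧ ∀ r : ℕ,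
    Bd κ k r ≤ Real.exp (C * (((r : ℝ) + 1) * (7 / 2 : ℝ) ^ r)) := by
  have hk1 : (1 : ℝ) ≤ k := by exact_mod_cast hk
  have hκ1 : (1 : ℝ) ≤ κ := by exact_mod_cast hκ
  set N : ℝ := 8 * (k : ℝ) ^ 2 with hN
  have hN1 : 1 ≤ N := by rw [hN]; nlinarith
  set Q : ℝ := (κ : ℝ) * k with hQ
  have hQ1 : 1 ≤ Q := by rw [hQ]; nlinarith
  refine ⟨N * N + 224 * N + (20 * N + 6) * (N * 4 * 1401) + (10 * Q + 3) * (Q * 4 * 1401),
    by positivity, ?_⟩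
  intro r
  have hr : (0 : ℝ) ≤ r := Nat.cast_nonneg r
  have ha : (1 : ℝ) ≤ (7 / 2 : ℝ) ^ r := one_le_pow₀ (by norm_num)
  set a : ℝ := (7 / 2 : ℝ) ^ r with hadef
  have hV := Vn_le_352 r
  have hV0 : (0 : ℝ) ≤ ((Vn r (4 ^ r) : ℕ) : ℝ) := Nat.cast_nonneg _
  have cN : ((8 * k ^ 2 : ℕ) : ℝ) = N := by rw [hN]; push_cast; ring
  -- first factor
  have b1 : N ^ (8 * k ^ 2) ≤ Real.exp (N * N) := by
    have h := pow_le_exp_352 (by linarith : (0 : ℝ) ≤ N) (self_le_exp_352 N) (8 * k ^ 2)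
    rwa [cN] at h
  -- second factor
  have b2 : Real.exp (112 * ((7 / 8 : ℝ) ^ r * ((4 ^ r : ℕ) : ℝ) + 2 ^ r)) ^ (8 * k ^ 2) ≤
      Real.exp (N * (224 * a)) := by
    have h2 : (7 / 8 : ℝ) ^ r * ((4 ^ r : ℕ) : ℝ) = a := by
      rw [hadef]
      push_cast
      rw [← mul_pow]
      norm_num
    have h3 : (2 : ℝ) ^ r ≤ a := pow_le_pow_left₀ (by norm_num) (by norm_num) r
    have h := pow_le_exp_352 (y := 224 * a) (Real.exp_pos _).le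
      (Real.exp_le_exp.2 (by rw [h2]; linarith :
        112 * ((7 / 8 : ℝ) ^ r * ((4 ^ r : ℕ) : ℝ) + 2 ^ r) ≤ 224 * a)) (8 * k ^ 2)
    rwa [cN] at h
  -- third factor
  have b3 : ((N * (8 ^ (r + 1) + 1)) ^ 2 + 1) ^ (8 * k ^ 2 * 4 * Vn r (4 ^ r)) ≤
      Real.exp ((N * 4 * (Vn r (4 ^ r) : ℕ)) * (20 * N + 6 * r)) := by
    have h1 := lin_le_exp_352 N hN1 r
    have h2 : (N * (8 ^ (r + 1) + 1)) ^ 2 + 1 ≤ (N * (8 ^ (r + 1) + 1) + 1) ^ 2 := by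
      have : 0 ≤ N * (8 ^ (r + 1) + 1) := by positivity
      nlinarith
    have h3 : (N * (8 ^ (r + 1) + 1) + 1) ^ 2 ≤ Real.exp (20 * N + 6 * r) := by
      have h4 := pow_le_exp_352 (by positivity : (0 : ℝ) ≤ N * (8 ^ (r + 1) + 1) + 1) h1 2
      refine h4.trans (le_of_eq ?_)
      congr 1
      push_cast
      ring
    have h := pow_le_exp_352 (by positivity : (0 : ℝ) ≤ (N * (8 ^ (r + 1) + 1)) ^ 2 + 1)
      (h2.trans h3) (8 * k ^ 2 * 4 * Vn r (4 ^ r))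
    refine h.trans (le_of_eq ?_)
    congr 1
    rw [hN]
    push_cast
    ring
  -- fourth factor
  have b4 : (Q * (8 ^ (r + 1) + 1) + 1) ^ (κ * (k * 4 * Vn r (4 ^ r))) ≤
      Real.exp ((Q * 4 * (Vn r (4 ^ r) : ℕ)) * (10 * Q + 3 * r)) := by
    have h1 := lin_le_exp_352 Q hQ1 r
    have h := pow_le_exp_352 (by positivity : (0 : ℝ) ≤ Q * (8 ^ (r + 1) + 1) + 1) h1
      (κ * (k * 4 * Vn r (4 ^ r)))
    refine h.trans (le_of_eq ?_)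
    congr 1
    rw [hQ]
    push_cast
    ring
  have b : Bd κ k r ≤ Real.exp (N * N) * Real.exp (N * (224 * a)) *
      Real.exp ((N * 4 * (Vn r (4 ^ r) : ℕ)) * (20 * N + 6 * r)) *
      Real.exp ((Q * 4 * (Vn r (4 ^ r) : ℕ)) * (10 * Q + 3 * r)) := by
    unfold Bd
    refine mul_le_mul (mul_le_mul (mul_le_mul b1 b2 (by positivity) (Real.exp_pos _).le) b3
      (by positivity) (by positivity)) b4 (by positivity) (by positivity)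
  rw [← Real.exp_add, ← Real.exp_add, ← Real.exp_add] at b
  refine b.trans (Real.exp_le_exp.2 ?_)
  set V : ℝ := ((Vn r (4 ^ r) : ℕ) : ℝ) with hVdef
  have t1 : N * N ≤ N * N * ((r + 1) * a) := by
    have h1 : 1 ≤ ((r : ℝ) + 1) * a := by nlinarith
    nlinarith [mul_nonneg (by linarith : (0 : ℝ) ≤ N) (by linarith : (0 : ℝ) ≤ N)]
  have t2 : N * (224 * a) ≤ 224 * N * (((r : ℝ) + 1) * a) := by
    have : 0 ≤ 224 * N * ((r : ℝ) * a) := by positivity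
    nlinarith
  have t3 : N * 4 * V * (20 * N + 6 * r) ≤
      (20 * N + 6) * (N * 4 * 1401) * (((r : ℝ) + 1) * a) := by
    have h1 : N * 4 * V ≤ N * 4 * (1401 * a) := mul_le_mul_of_nonneg_left hV (by positivity)
    have h2 : 20 * N + 6 * (r : ℝ) ≤ (20 * N + 6) * ((r : ℝ) + 1) := by
      have : 0 ≤ 20 * N * (r : ℝ) := by positivity
      nlinarith
    calc N * 4 * V * (20 * N + 6 * r) ≤ (N * 4 * (1401 * a)) * ((20 * N + 6) * ((r : ℝ) + 1)) :=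
          mul_le_mul h1 h2 (by positivity) (by positivity)
      _ = (20 * N + 6) * (N * 4 * 1401) * (((r : ℝ) + 1) * a) := by ring
  have t4 : Q * 4 * V * (10 * Q + 3 * r) ≤
      (10 * Q + 3) * (Q * 4 * 1401) * (((r : ℝ) + 1) * a) := by
    have h1 : Q * 4 * V ≤ Q * 4 * (1401 * a) := mul_le_mul_of_nonneg_left hV (by positivity)
    have h2 : 10 * Q + 3 * (r : ℝ) ≤ (10 * Q + 3) * ((r : ℝ) + 1) := by
      have : 0 ≤ 10 * Q * (r : ℝ) := by positivity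
      nlinarith
    calc Q * 4 * V * (10 * Q + 3 * r) ≤ (Q * 4 * (1401 * a)) * ((10 * Q + 3) * ((r : ℝ) + 1)) :=
          mul_le_mul h1 h2 (by positivity) (by positivity)
      _ = (10 * Q + 3) * (Q * 4 * 1401) * (((r : ℝ) + 1) * a) := by ring
  calc N * N + N * (224 * a) + N * 4 * V * (20 * N + 6 * r) + Q * 4 * V * (10 * Q + 3 * r)
      ≤ N * N * ((r + 1) * a) + 224 * N * (((r : ℝ) + 1) * a) +
        (20 * N + 6) * (N * 4 * 1401) * (((r : ℝ) + 1) * a) +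
        (10 * Q + 3) * (Q * 4 * 1401) * (((r : ℝ) + 1) * a) :=
        add_le_add (add_le_add (add_le_add t1 t2) t3) t4
    _ = _ := by ring

theorem Bd_small (κ k : ℕ) (hκ : 0 < κ) (hk : 0 < k) (ε : ℝ) (hε : 0 < ε) :
    ∃ r0 : ℕ, ∀ r, r0 ≤ r → Bd κ k r ≤ Real.exp (ε * 4 ^ r) := by
  obtain ⟨C, hC, hB⟩ := Bd_le_352 κ k hκ hk
  have h1 : Filter.Tendsto (fun r : ℕ => (r : ℝ) * (7 / 8 : ℝ) ^ r) Filter.atTop (nhds 0) :=
    tendsto_self_mul_const_pow_of_lt_one (by norm_num) (by norm_num)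
  have h2 : Filter.Tendsto (fun r : ℕ => (7 / 8 : ℝ) ^ r) Filter.atTop (nhds 0) :=
    tendsto_pow_atTop_nhds_zero_of_lt_one (by norm_num) (by norm_num)
  have h3 : Filter.Tendsto (fun r : ℕ => C * (((r : ℝ) + 1) * (7 / 8 : ℝ) ^ r)) Filter.atTop
      (nhds 0) := by
    have h4 := (h1.add h2).const_mul C
    simp only [add_zero, mul_zero] at h4
    refine h4.congr fun r => ?_
    ring
  have h5 : ∀ᶠ r : ℕ in Filter.atTop, C * (((r : ℝ) + 1) * (7 / 8 : ℝ) ^ r) < ε :=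
    h3.eventually_lt_const hε
  obtain ⟨r0, hr0⟩ := Filter.eventually_atTop.1 h5
  refine ⟨r0, fun r hr => (hB r).trans (Real.exp_le_exp.2 ?_)⟩
  have h6 := hr0 r hr
  have h7 : (7 / 2 : ℝ) ^ r = (7 / 8 : ℝ) ^ r * 4 ^ r := by
    rw [← mul_pow]
    norm_num
  rw [h7]
  have h8 : (0 : ℝ) < 4 ^ r := by positivity
  nlinarith


end IG
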