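import Mathlib
import Pool.Agent.Helper529.IG.QR9

open Classical Equiv

namespace IG


theorem exists_rho (κ : ℕ) (hκ : 0 < κ) : ∃ rho : ℕ → ℕ → ℕ, ∀ M k, k ≤ rho M k ∧ M ≤ rho M k ∧
    (0 < k → Bd κ k (rho M k) ≤ Real.exp (1 / ((M : ℝ) + 1) * 4 ^ (rho M k))) := by
  choose r0 hr0 using fun (M k : ℕ) (hk : 0 < k) =>
    Bd_small κ k hκ hk (1 / ((M : ℝ) + 1)) (by positivity)
  refine ⟨fun M k => if hk : 0 < k then max (max k M) (r0 M k hk) else max k M, fun M k => ?_⟩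
  by_cases hk : 0 < k
  · simp only [hk, dite_true]
    exact ⟨(le_max_left _ _).trans (le_max_left _ _), (le_max_right _ _).trans (le_max_left _ _),
      fun _ => hr0 M k hk _ (le_max_right _ _)⟩
  · simp only [hk, dite_false]
    exact ⟨le_max_left _ _, le_max_right _ _, fun h => absurd h (by simp)⟩

theorem subexp (rho : ℕ → ℕ → ℕ) (h : ∀ M k, 0 < k → Bd (Nat.card Gen) k (rho M k) ≤
    Real.exp (1 / ((M : ℝ) + 1) * 4 ^ (rho M k))) (c : ℝ) (hc : 1 < c) :
    ∃ n : ℕ, ({g : Gam (DR rho) | ∃ l : List Gen, l.length ≤ n ∧ ev (DR rho) l = g}.ncard : ℝ)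
      < c ^ n := by
  have hlog : 0 < Real.log c := Real.log_pos hc
  obtain ⟨M, hM⟩ := exists_nat_one_div_lt hlog
  have hcard : 0 < Nat.card (XX (DR rho) M) := by
    have := card_XX (DR_ok rho) M
    omega
  have hn : 4 ^ (rr rho M) < hq (rr rho M) := by
    unfold hq
    rw [pow_succ]
    have : 0 < 4 ^ (rr rho M) := by positivity
    omega
  refine ⟨4 ^ (rr rho M), ?_⟩
  have h1 := cnt rho M (4 ^ (rr rho M)) hn
  have h2 := h M (Nat.card (XX (DR rho) M)) hcard
  refine (h1.trans h2).trans_lt ?_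
  have h3 : (c : ℝ) ^ (4 ^ (rr rho M)) = Real.exp (Real.log c * 4 ^ (rr rho M)) := by
    have h4 : Real.log c * 4 ^ (rr rho M) = ((4 ^ (rr rho M) : ℕ) : ℝ) * Real.log c := by
      push_cast
      ring
    rw [h4, Real.exp_nat_mul, Real.exp_log (by linarith)]
  rw [h3, Real.exp_lt_exp]
  exact mul_lt_mul_of_pos_right hM (by positivity)


end IG
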