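import Mathlib
import Pool.Agent.Helper529.IG.QR10

open Classical Equiv

namespace IG

/-- letters which fix the copies -/
def Plain : Gen → Prop
  | Gen.r _ => True
  | Gen.a => True
  | Gen.v _ => True
  | _ => False


/-- plain words act on constant points through `bb`. -/
theorem plain_const {D : ℕ → ℕ → SD} (M : ℕ) (l : List Gen) (hl : ∀ s ∈ l, Plain s)
    (p : XX D M × (DD D M).Y) (k : K) :
    ev D l (M + 1) (fun _ => (p, k)) = fun _ => (wa (bb D M) l p, k) := by
  induction l with
  | nil => rfl
  | cons s l ih =>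
    have ih' := ih (fun t ht => hl t (List.mem_cons_of_mem _ ht))
    have hs : Plain s := hl s (List.mem_cons_self ..)
    have e1 : ev D (s :: l) (M + 1) (fun _ => (p, k)) =
        Phi D s (M + 1) (ev D l (M + 1) (fun _ => (p, k))) := rfl
    rw [e1, ih']
    match s, hs with
    | Gen.r ρ, _ => rfl
    | Gen.a, _ => rfl
    | Gen.v v, _ => rfl
    | Gen.x, h => exact h.elim
    | Gen.z c, h => exact h.elim

theorem reach_short {S Y : Type} [Finite Y] (th : S → Perm Y) (P : S → Prop) (p q : Y)
    (h : ∃ l : List S, (∀ s ∈ l, P s) ∧ wa th l p = q) :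
    ∃ l : List S, (∀ s ∈ l, P s) ∧ l.length ≤ Nat.card Y ∧ wa th l p = q := by
  have hex : ∃ n, ∃ l : List S, l.length = n ∧ (∀ s ∈ l, P s) ∧ wa th l p = q := by
    obtain ⟨l, h1, h2⟩ := h
    exact ⟨l.length, l, rfl, h1, h2⟩
  obtain ⟨l, hl, h1, h2⟩ := Nat.find_spec hex
  refine ⟨l, h1, ?_, h2⟩
  by_contra hc
  push Not at hc
  have hni : ¬ Function.Injective (fun i : Fin (l.length + 1) => wa th (l.drop i) p) := by
    intro hi
    have := Nat.card_le_card_of_injective _ hi
    simp at this
    omega
  have key : ∀ i j : ℕ, i < j → j ≤ l.length → wa th (l.drop i) p = wa th (l.drop j) p → False := by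
    intro i j hij hj he
    have hmin := Nat.find_min hex (m := i + (l.length - j)) (by omega)
    apply hmin
    refine ⟨l.take i ++ l.drop j, ?_, ?_, ?_⟩
    · simp; omega
    · intro s hs
      rcases List.mem_append.1 hs with hs | hs
      · exact h1 s (List.mem_of_mem_take hs)
      · exact h1 s (List.mem_of_mem_drop hs)
    · have e : wa th (l.take i ++ l.drop i) p = q := by rw [List.take_append_drop]; exact h2
      rw [wa_append] at e ⊢
      rw [Perm.mul_apply] at e ⊢
      rw [← he]
      exact e
  rw [Function.Injective] at hni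
  push Not at hni
  obtain ⟨i, j, he, hij⟩ := hni
  rcases lt_or_gt_of_ne (fun h => hij (Fin.ext h)) with h | h
  · exact key i j h (by omega) he
  · exact key j i h (by omega) he.symm


end IG
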