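import Mathlib
import Pool.Agent.Helper529.IG.QR11

open Classical Equiv

namespace IG


/-- reachable pairs -/
def PR (D : ℕ → ℕ → SD) (M : ℕ) (p : XX D M × (DD D M).Y) : Prop :=
  ∃ l', (∀ s ∈ l', Plain s) ∧ wa (bb D M) l' ((T D M).pos.s 0, (DD D M).e1) = p

theorem PR_step {D : ℕ → ℕ → SD} (M : ℕ) (s : Gen) (hs : Plain s) (p : XX D M × (DD D M).Y)
    (h : PR D M p) : PR D M (bb D M s p) := by
  obtain ⟨l', hl', h'⟩ := h
  refine ⟨s :: l', ?_, ?_⟩
  · intro t ht
    rcases List.mem_cons.1 ht with rfl | ht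
    · exact hs
    · exact hl' t ht
  · show (bb D M s * wa (bb D M) l') _ = _
    rw [Equiv.Perm.mul_apply, h']

theorem root_o {D : ℕ → ℕ → SD} (hD : ∀ M n, (D M n).Ok) (M : ℕ) :
    (T D M).root Gen.a (T D M).pos.o = (T D M).pos.o := pos_fix hD Gen.a M

theorem root_s {D : ℕ → ℕ → SD} (hD : ∀ M n, (D M n).Ok) (M : ℕ) (v : V4) :
    (T D M).root (Gen.v v) ((T D M).pos.s 0) = (T D M).pos.s 0 :=
  congrFun (pos_fix hD (Gen.v v) M) 0

theorem bb_a {D : ℕ → ℕ → SD} (M : ℕ) (x : XX D M) (y : (DD D M).Y) :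
    bb D M Gen.a (x, y) = if (T D M).root Gen.a x = (T D M).pos.o then
      ((T D M).root Gen.a x, (DD D M).pa y) else ((T D M).root Gen.a x, y) := rfl

theorem bb_v {D : ℕ → ℕ → SD} (M : ℕ) (v : V4) (x : XX D M) (y : (DD D M).Y) :
    bb D M (Gen.v v) (x, y) = if (T D M).root (Gen.v v) x = (T D M).pos.s 0 then
      ((T D M).root (Gen.v v) x, (DD D M).pv v y) else ((T D M).root (Gen.v v) x, y) := rfl

theorem PR_root {D : ℕ → ℕ → SD} (hD : ∀ M n, (D M n).Ok) (M : ℕ) (s : Gen) (hs : Plain s)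
    (x : XX D M) (y : (DD D M).Y) (h : PR D M (x, y)) : PR D M ((T D M).root s x, y) := by
  match s, hs with
  | Gen.r σ, _ => exact PR_step M (Gen.r σ) trivial _ h
  | Gen.a, _ =>
    by_cases hx : (T D M).root Gen.a x = (T D M).pos.o
    · have : x = (T D M).pos.o := ((T D M).root Gen.a).injective (hx.trans (root_o hD M).symm)
      rw [hx, ← this]; exact h
    · have := PR_step M Gen.a trivial _ h
      rw [bb_a, if_neg hx] at this
      exact this
  | Gen.v v, _ =>
    by_cases hx : (T D M).root (Gen.v v) x = (T D M).pos.s 0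
    · have : x = (T D M).pos.s 0 := ((T D M).root (Gen.v v)).injective (hx.trans (root_s hD M v).symm)
      rw [hx, ← this]; exact h
    · have := PR_step M (Gen.v v) trivial _ h
      rw [bb_v, if_neg hx] at this
      exact this

theorem PR_root' {D : ℕ → ℕ → SD} (hD : ∀ M n, (D M n).Ok) (M : ℕ) (s : Gen) (hs : Plain s)
    (x : XX D M) (y : (DD D M).Y) (h : PR D M ((T D M).root s x, y)) : PR D M (x, y) := by
  match s, hs with
  | Gen.r σ, _ =>
    have h1 := PR_root hD M (Gen.r σ⁻¹) trivial _ _ h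
    have h2 : (T D M).root (Gen.r σ⁻¹) ((T D M).root (Gen.r σ) x) = x := by
      have h3 : (Phi D (Gen.r σ))⁻¹ M = Phi D (Gen.r σ⁻¹) M := congrFun (Phi_r_inv σ) M
      have h4 : (T D M).root (Gen.r σ⁻¹) = ((T D M).root (Gen.r σ))⁻¹ := h3.symm
      rw [h4]; exact Equiv.symm_apply_apply _ _
    rwa [h2] at h1
  | Gen.a, _ =>
    have h1 := PR_root hD M Gen.a trivial _ _ h
    have h2 : (T D M).root Gen.a ((T D M).root Gen.a x) = x := by
      have h3 : (Phi D Gen.a * Phi D Gen.a) M = 1 := congrFun (Phi_sq hD Gen.a (by simp)) M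
      exact congrArg (fun π : Perm (XX D M) => π x) h3
    rwa [h2] at h1
  | Gen.v v, _ =>
    have h1 := PR_root hD M (Gen.v v) trivial _ _ h
    have h2 : (T D M).root (Gen.v v) ((T D M).root (Gen.v v) x) = x := by
      have h3 : (Phi D (Gen.v v) * Phi D (Gen.v v)) M = 1 := congrFun (Phi_sq hD (Gen.v v) (by simp)) M
      exact congrArg (fun π : Perm (XX D M) => π x) h3
    rwa [h2] at h1

theorem PR_ev {D : ℕ → ℕ → SD} (hD : ∀ M n, (D M n).Ok) (M : ℕ) (l : List Gen)
    (hl : ∀ s ∈ l, Plain s) (x : XX D M) (y : (DD D M).Y) :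
    PR D M (ev D l M x, y) ↔ PR D M (x, y) := by
  induction l with
  | nil => exact Iff.rfl
  | cons s l ih =>
    have ih' := ih (fun t ht => hl t (List.mem_cons_of_mem _ ht))
    have hs : Plain s := hl s (List.mem_cons_self)
    rw [← ih']
    constructor
    · intro h; exact PR_root' hD M s hs _ _ h
    · intro h; exact PR_root hD M s hs _ _ h

theorem PR_all {D : ℕ → ℕ → SD} (hD : ∀ M n, (D M n).Ok) (M : ℕ)
    (ho : ∃ l, (∀ s ∈ l, Plain s) ∧ ev D l M ((T D M).pos.s 0) = (T D M).pos.o) (y : (DD D M).Y) :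
    PR D M ((T D M).pos.s 0, y) := by
  obtain ⟨lo, hlo, ho⟩ := ho
  have hok : (DD D M).Ok := hD M _
  have c1 : ∀ y, PR D M ((T D M).pos.s 0, y) → PR D M ((T D M).pos.s 0, (DD D M).pa y) := by
    intro y hy
    have h1 := (PR_ev hD M lo hlo _ y).2 hy
    rw [ho] at h1
    have h2 := PR_step M Gen.a trivial _ h1
    rw [bb_a, root_o hD M, if_pos rfl] at h2
    rw [← ho] at h2
    exact (PR_ev hD M lo hlo _ _).1 h2
  have c2 : ∀ y, PR D M ((T D M).pos.s 0, y) → ∀ v, PR D M ((T D M).pos.s 0, (DD D M).pv v y) := by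
    intro y hy v
    have h2 := PR_step M (Gen.v v) trivial _ hy
    rw [bb_v, root_s hD M, if_pos rfl] at h2
    exact h2
  have h0 : PR D M ((T D M).pos.s 0, (DD D M).e1) := ⟨[], by simp, rfl⟩
  by_cases hm : PR D M ((T D M).pos.s 0, (DD D M).mid)
  · exact hok.conn {y | PR D M ((T D M).pos.s 0, y)} hm c1 c2 y
  · exfalso
    refine hok.conn {y | ¬ PR D M ((T D M).pos.s 0, y)} hm ?_ ?_ (DD D M).e1 h0
    · intro z hz hz'
      apply hz
      have := c1 _ hz'
      have e : (DD D M).pa ((DD D M).pa z) = z :=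
        congrArg (fun π : Perm (DD D M).Y => π z) hok.pa_sq
      rwa [e] at this
    · intro z hz v hz'
      apply hz
      have := c2 _ hz' v
      have e : (DD D M).pv v ((DD D M).pv v z) = z :=
        congrArg (fun π : Perm (DD D M).Y => π z) (hok.pv_sq v)
      rwa [e] at this

theorem PR_o {D : ℕ → ℕ → SD} (hD : ∀ M n, (D M n).Ok) (M : ℕ) :
    ∃ l, (∀ s ∈ l, Plain s) ∧ ev D l M ((T D M).pos.s 0) = (T D M).pos.o := by
  induction M with
  | zero =>
    refine ⟨[Gen.r (sw (some 0) none)], ?_, ?_⟩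
    · intro s hs
      rw [List.mem_singleton] at hs
      subst hs
      trivial
    · show (sw (some 0) none : Perm (Option K)) (some 0) = none
      unfold sw
      exact @Equiv.swap_apply_left (Option K) (fun x y => propDecidable (x = y)) _ _
  | succ M ih =>
    obtain ⟨lo, hlo, ho⟩ := ih
    have h1 := PR_all hD M ⟨lo, hlo, ho⟩ (DD D M).e0
    have h2 := (PR_ev hD M lo hlo _ _).2 h1
    rw [ho] at h2
    obtain ⟨l', hl', h'⟩ := h2
    refine ⟨l', hl', ?_⟩
    have h3 := plain_const (D := D) M l' hl' ((T D M).pos.s 0, (DD D M).e1) 0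
    rw [h'] at h3
    exact h3

/-- everything with `x` in the plain orbit is reachable. -/
theorem plain_reach {D : ℕ → ℕ → SD} (hD : ∀ M n, (D M n).Ok) (M : ℕ) (l : List Gen)
    (hl : ∀ s ∈ l, Plain s) (y : (DD D M).Y) :
    ∃ l', (∀ s ∈ l', Plain s) ∧
      wa (bb D M) l' ((T D M).pos.s 0, (DD D M).e1) = (ev D l M ((T D M).pos.s 0), y) :=
  (PR_ev hD M l hl _ y).2 (PR_all hD M (PR_o hD M) y)


end IG
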