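import Mathlib
import Pool.Agent.Helper529.IG.QR12

open Classical Equiv

namespace IG


/-- inverse letter -/
def blIv : Gen → Gen
  | Gen.r ρ => Gen.r ρ⁻¹
  | s => s

/-- inverse word -/
def blIw : List Gen → List Gen
  | [] => []
  | s :: l => blIw l ++ [blIv s]

theorem bl_Phi_iv {D : ℕ → ℕ → SD} (hD : ∀ M n, (D M n).Ok) (s : Gen) :
    Phi D (blIv s) = (Phi D s)⁻¹ := by
  cases s with
  | r ρ => exact (Phi_r_inv ρ).symm
  | a => exact eq_inv_of_mul_eq_one_left (Phi_sq hD Gen.a (by intro ρ h; cases h))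
  | v v => exact eq_inv_of_mul_eq_one_left (Phi_sq hD (Gen.v v) (by intro ρ h; cases h))
  | x => exact eq_inv_of_mul_eq_one_left (Phi_sq hD Gen.x (by intro ρ h; cases h))
  | z c => exact eq_inv_of_mul_eq_one_left (Phi_sq hD (Gen.z c) (by intro ρ h; cases h))

theorem bl_ev_iw {D : ℕ → ℕ → SD} (hD : ∀ M n, (D M n).Ok) (l : List Gen) :
    ev D (blIw l) = (ev D l)⁻¹ := by
  induction l with
  | nil => simp [blIw, ev]
  | cons s l ih =>
    show ev D (blIw l ++ [blIv s]) = (Phi D s * ev D l)⁻¹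
    rw [ev_append, ih, mul_inv_rev]
    show _ * (Phi D (blIv s) * 1) = _
    rw [bl_Phi_iv hD, mul_one]

theorem bl_len_iw (l : List Gen) : (blIw l).length = l.length := by
  induction l with
  | nil => rfl
  | cons s l ih => simp [blIw, ih]

theorem bl_plain_iw (l : List Gen) (hl : ∀ s ∈ l, Plain s) : ∀ s ∈ blIw l, Plain s := by
  induction l with
  | nil => intro s hs; simp [blIw] at hs
  | cons s l ih =>
    intro u hu
    simp only [blIw, List.mem_append, List.mem_singleton] at hu
    rcases hu with hu | hu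
    · exact ih (fun s hs => hl s (List.mem_cons_of_mem _ hs)) u hu
    · have := hl s (List.mem_cons_self ..)
      subst hu
      cases s <;> simp_all [blIv, Plain]

theorem bl_pA_plain {D : ℕ → ℕ → SD} (M : ℕ) (l : List Gen) (hl : ∀ s ∈ l, Plain s)
    (t x : XX D M) (y : (DD D M).Y) (k : K) :
    ∃ y', wa (pA D M) l (t, ((x, y), k)) = (ev D l M t, ((ev D l M x, y'), k)) := by
  induction l with
  | nil => exact ⟨y, rfl⟩
  | cons s l ih =>
    obtain ⟨y1, h1⟩ := ih (fun s hs => hl s (List.mem_cons_of_mem _ hs))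
    have hs := hl s (List.mem_cons_self ..)
    have h2 : wa (pA D M) (s :: l) (t, ((x, y), k)) = pA D M s (ev D l M t, ((ev D l M x, y1), k)) := by
      show pA D M s (wa (pA D M) l (t, ((x, y), k))) = _
      rw [h1]
    rw [h2]
    cases s with
    | r ρ => exact ⟨y1, rfl⟩
    | a =>
      refine ⟨(fibP (T D M).pos.o (DD D M).pa ((T D M).root Gen.a (ev D l M x), y1)).2, ?_⟩
      show ((T D M).root Gen.a (ev D l M t),
        (fibP (T D M).pos.o (DD D M).pa ((T D M).root Gen.a (ev D l M x), y1), k)) = _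
      have h3 : (fibP (T D M).pos.o (DD D M).pa ((T D M).root Gen.a (ev D l M x), y1)).1 =
          (T D M).root Gen.a (ev D l M x) := by
        simp only [fibP, Equiv.coe_fn_mk]
        split_ifs <;> rfl
      refine Prod.ext rfl (Prod.ext (Prod.ext ?_ rfl) rfl)
      exact h3
    | v v =>
      refine ⟨(fibP ((T D M).pos.s 0) ((DD D M).pv v) ((T D M).root (Gen.v v) (ev D l M x), y1)).2, ?_⟩
      show ((T D M).root (Gen.v v) (ev D l M t),
        (fibP ((T D M).pos.s 0) ((DD D M).pv v) ((T D M).root (Gen.v v) (ev D l M x), y1), k)) = _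
      have h3 : (fibP ((T D M).pos.s 0) ((DD D M).pv v) ((T D M).root (Gen.v v) (ev D l M x), y1)).1 =
          (T D M).root (Gen.v v) (ev D l M x) := by
        simp only [fibP, Equiv.coe_fn_mk]
        split_ifs <;> rfl
      refine Prod.ext rfl (Prod.ext (Prod.ext ?_ rfl) rfl)
      exact h3
    | x => exact absurd hs (by simp [Plain])
    | z c => exact absurd hs (by simp [Plain])

theorem bl_bb_fst {D : ℕ → ℕ → SD} (M : ℕ) (l : List Gen) (hl : ∀ s ∈ l, Plain s)
    (p : XX D M × (DD D M).Y) : (wa (bb D M) l p).1 = ev D l M p.1 := by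
  induction l with
  | nil => rfl
  | cons s l ih =>
    have h1 := ih (fun s hs => hl s (List.mem_cons_of_mem _ hs))
    have hs := hl s (List.mem_cons_self ..)
    show (bb D M s (wa (bb D M) l p)).1 = (T D M).root s (ev D l M p.1)
    rw [← h1]
    have key : ∀ (x0 : XX D M) (π : Perm (DD D M).Y) (q : XX D M × (DD D M).Y),
        (fibP x0 π q).1 = q.1 := by
      intro x0 π q
      simp only [fibP, Equiv.coe_fn_mk]
      split_ifs <;> rfl
    cases s with
    | r ρ => rfl
    | a =>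
      show (fibP _ _ (lX (bX D M Gen.a) (wa (bb D M) l p))).1 = _
      rw [key]
      rfl
    | v v =>
      show (fibP _ _ (lX (bX D M (Gen.v v)) (wa (bb D M) l p))).1 = _
      rw [key]
      rfl
    | x => exact absurd hs (by simp [Plain])
    | z c => exact absurd hs (by simp [Plain])

/-- the letter `z 1` fixes the constants over `(s 0, y)` with copies `0`, `4`. -/
theorem bl_root_z {D : ℕ → ℕ → SD} (hD : ∀ M n, (D M n).Ok) (M : ℕ) (y : (DD D M).Y) (k : K) :
    (T D (M + 1)).root (Gen.z 1) (fun _ => (((T D M).pos.s 0, y), k)) =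
      fun _ => (((T D M).pos.s 0, y), k) := by
  funext t
  show dl (DD D M) (Gen.z 1) (T D M).pos t
    (gW ((T D M).root (Gen.z 1)) (((T D M).pos.s 0, y), k)) = _
  have h1 : (T D M).root (Gen.z 1) ((T D M).pos.s 0) = (T D M).pos.s 0 := by
    have := pos_fix hD (Gen.z 1) M
    exact congrFun this 0
  have h2 : gW ((T D M).root (Gen.z 1)) (((T D M).pos.s 0, y), k) =
      ((((T D M).pos.s 0, y), k) : WW D M) := by
    show (((T D M).root (Gen.z 1) ((T D M).pos.s 0), y), k) = _
    rw [h1]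
  rw [h2]
  show (if t = (T D M).pos.s 0 then ze (fun k => ((T D M).pos.s (ph k), (DD D M).mid)) 1 else 1)
    (((T D M).pos.s 0, y), k) = _
  split_ifs with ht
  · have hne : ¬ (((T D M).pos.s 0, y) = ((T D M).pos.s (ph k), (DD D M).mid)) := by
      intro h
      have h3 := (pos_inj hD M).1 (Prod.ext_iff.1 h).1
      revert h3
      unfold ph
      split_ifs <;> decide
    simp only [ze, Equiv.coe_fn_mk]
    rw [if_neg hne]
  · rfl

theorem bl_z_fix {D : ℕ → ℕ → SD} (M : ℕ) (u w : XX D (M + 1))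
    (hu : (T D (M + 1)).root (Gen.z 1) u = u) (hw : (T D (M + 1)).root (Gen.z 1) w = w)
    (hne : u ≠ (T D (M + 1)).pos.s 0) (y4 : (DD D (M + 1)).Y) :
    pA D (M + 1) (Gen.z 1) (u, ((w, y4), 4)) = (u, ((w, y4), 4)) := by
  show ((T D (M + 1)).root (Gen.z 1) u,
        dl (DD D (M + 1)) (Gen.z 1) (T D (M + 1)).pos
          ((T D (M + 1)).root (Gen.z 1) u)
          (((T D (M + 1)).root (Gen.z 1) w, y4), 4)) = _
  rw [hu, hw]
  simp only [dl]
  rw [if_neg hne]
  rfl

/-- blocks and test points -/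
theorem blocks {D : ℕ → ℕ → SD} (hD : ∀ M n, (D M n).Ok) (M : ℕ) :
    ∃ (blk : (DD D M).Y → List Gen) (st : (DD D M).Y → XX D (M + 1) × WW D (M + 1)),
      (∀ y, (blk y).length ≤ 2 * (Nat.card (XX D M) * Nat.card (DD D M).Y) + 1) ∧
      (∀ y y', y ≠ y' → wa (pA D (M + 1)) (blk y') (st y) = st y) ∧
      ∀ y, wa (pA D (M + 1)) (blk y) (st y) ≠ st y := by
  have := fin_XX hD M
  have : Finite (DD D M).Y := (hD M _).fin
  have hex : ∀ y : (DD D M).Y, ∃ l : List Gen, (∀ s ∈ l, Plain s) ∧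
      l.length ≤ Nat.card (XX D M × (DD D M).Y) ∧
      wa (bb D M) l ((T D M).pos.s 0, (DD D M).e1) = ((T D M).pos.s 0, y) := by
    intro y
    apply reach_short
    obtain ⟨l, h1, h2⟩ := plain_reach hD M [] (by intro s hs; simp at hs) y
    exact ⟨l, h1, h2⟩
  choose h hpl hlen hreach using hex
  -- basic facts on words
  have hcan1 : ∀ (m : ℕ) (l : List Gen), wa (pA D m) (blIw l ++ l) = 1 := by
    intro m l
    have : ev D (blIw l ++ l) = ev D [] := by
      rw [ev_append, bl_ev_iw hD, inv_mul_cancel]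
      rfl
    rw [pA_of_ev m _ _ this]
    rfl
  have hcan2 : ∀ (m : ℕ) (l : List Gen), wa (pA D m) (l ++ blIw l) = 1 := by
    intro m l
    have : ev D (l ++ blIw l) = ev D [] := by
      rw [ev_append, bl_ev_iw hD, mul_inv_cancel]
      rfl
    rw [pA_of_ev m _ _ this]
    rfl
  have hbb : ∀ (l : List Gen), (∀ s ∈ l, Plain s) → ∀ p, wa (bb D M) (blIw l) (wa (bb D M) l p) = p := by
    intro l hl p
    have hp : ∀ s ∈ blIw l ++ l, Plain s := by
      intro s hs
      rcases List.mem_append.1 hs with hs | hs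
      · exact bl_plain_iw l hl s hs
      · exact hl s hs
    have h1 := plain_const M (blIw l ++ l) hp p 0
    have h2 : ev D (blIw l ++ l) = 1 := by
      rw [ev_append, bl_ev_iw hD, inv_mul_cancel]
    rw [h2, wa_append] at h1
    have h3 := congrFun h1 ((T D M).pos.o)
    exact ((Prod.ext_iff.1 h3).1).symm
  refine ⟨fun y => h y ++ ([Gen.z 1] ++ blIw (h y)),
    fun y => wa (pA D (M + 1)) (h y) ((T D (M + 1)).pos.s 0,
      (((T D (M + 1)).pos.s 4, (DD D (M + 1)).mid), 4)), ?_, ?_, ?_⟩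
  · intro y
    have h1 := hlen y
    rw [Nat.card_prod] at h1
    simp only [List.length_append, bl_len_iw, List.length_singleton]
    omega
  · intro y y' hyy
    show wa (pA D (M + 1)) (h y' ++ ([Gen.z 1] ++ blIw (h y'))) (wa (pA D (M + 1)) (h y) _) =
      wa (pA D (M + 1)) (h y) _
    rw [wa_append, wa_append]
    show wa (pA D (M + 1)) (h y') (wa (pA D (M + 1)) [Gen.z 1] (wa (pA D (M + 1)) (blIw (h y'))
      (wa (pA D (M + 1)) (h y) _))) = _
    have hl : ∀ s ∈ blIw (h y') ++ h y, Plain s := by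
      intro s hs
      rcases List.mem_append.1 hs with hs | hs
      · exact bl_plain_iw _ (hpl y') s hs
      · exact hpl y s hs
    obtain ⟨y4, hy4⟩ := bl_pA_plain (M + 1) (blIw (h y') ++ h y) hl ((T D (M + 1)).pos.s 0)
      ((T D (M + 1)).pos.s 4) (DD D (M + 1)).mid 4
    have hq : wa (pA D (M + 1)) (blIw (h y')) (wa (pA D (M + 1)) (h y)
        ((T D (M + 1)).pos.s 0, (((T D (M + 1)).pos.s 4, (DD D (M + 1)).mid), 4))) =
        (ev D (blIw (h y') ++ h y) (M + 1) ((T D (M + 1)).pos.s 0),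
          ((ev D (blIw (h y') ++ h y) (M + 1) ((T D (M + 1)).pos.s 4), y4), 4)) := by
      rw [← hy4, wa_append]
      rfl
    have hc : ∀ k : K, ev D (blIw (h y') ++ h y) (M + 1) ((T D (M + 1)).pos.s k) =
        fun _ => (wa (bb D M) (blIw (h y') ++ h y) ((T D M).pos.s 0, (DD D M).e1), k) := by
      intro k
      exact plain_const M _ hl ((T D M).pos.s 0, (DD D M).e1) k
    obtain ⟨y2, hy2, hy2n⟩ : ∃ y2, wa (bb D M) (blIw (h y') ++ h y)
        ((T D M).pos.s 0, (DD D M).e1) = ((T D M).pos.s 0, y2) ∧ y2 ≠ (DD D M).e1 := by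
      have e1 : wa (bb D M) (blIw (h y') ++ h y) ((T D M).pos.s 0, (DD D M).e1) =
          wa (bb D M) (blIw (h y')) ((T D M).pos.s 0, y) := by
        rw [wa_append, ← hreach y]
        rfl
      have e2 : wa (bb D M) (blIw (h y')) ((T D M).pos.s 0, y') =
          ((T D M).pos.s 0, (DD D M).e1) := by
        rw [← hreach y']
        exact hbb _ (hpl y') _
      have e3 : (wa (bb D M) (blIw (h y')) ((T D M).pos.s 0, y)).1 = (T D M).pos.s 0 := by
        rw [bl_bb_fst M _ (bl_plain_iw _ (hpl y'))]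
        have := bl_bb_fst M _ (bl_plain_iw _ (hpl y')) ((T D M).pos.s 0, y')
        rw [e2] at this
        exact this.symm
      refine ⟨(wa (bb D M) (blIw (h y')) ((T D M).pos.s 0, y)).2, ?_, ?_⟩
      · rw [e1]
        exact Prod.ext e3 rfl
      · intro hcon
        have e4 : wa (bb D M) (blIw (h y')) ((T D M).pos.s 0, y) =
            wa (bb D M) (blIw (h y')) ((T D M).pos.s 0, y') := by
          rw [e2]
          exact Prod.ext e3 hcon
        have e5 := (wa (bb D M) (blIw (h y'))).injective e4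
        exact hyy (Prod.ext_iff.1 e5).2
    have hcc : ∀ k : K, (T D (M + 1)).root (Gen.z 1)
        (ev D (blIw (h y') ++ h y) (M + 1) ((T D (M + 1)).pos.s k)) =
        ev D (blIw (h y') ++ h y) (M + 1) ((T D (M + 1)).pos.s k) := by
      intro k
      rw [hc k, hy2]
      exact bl_root_z hD M y2 k
    have hne : ev D (blIw (h y') ++ h y) (M + 1) ((T D (M + 1)).pos.s 0) ≠
        (T D (M + 1)).pos.s 0 := by
      rw [hc 0, hy2]
      intro hcon
      have h3 := congrFun hcon ((T D M).pos.o)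
      have h4 : (((T D M).pos.s 0, y2) : XX D M × (DD D M).Y) = ((T D M).pos.s 0, (DD D M).e1) :=
        (Prod.ext_iff.1 h3).1
      exact hy2n (Prod.ext_iff.1 h4).2
    have hz := bl_z_fix M _ _ (hcc 0) (hcc 4) hne y4
    have hz' : wa (pA D (M + 1)) [Gen.z 1] (wa (pA D (M + 1)) (blIw (h y'))
        (wa (pA D (M + 1)) (h y) ((T D (M + 1)).pos.s 0,
          (((T D (M + 1)).pos.s 4, (DD D (M + 1)).mid), 4)))) =
        wa (pA D (M + 1)) (blIw (h y'))
        (wa (pA D (M + 1)) (h y) ((T D (M + 1)).pos.s 0,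
          (((T D (M + 1)).pos.s 4, (DD D (M + 1)).mid), 4))) := by
      rw [hq]
      exact hz
    rw [hz']
    show (wa (pA D (M + 1)) (h y') * wa (pA D (M + 1)) (blIw (h y'))) _ = _
    rw [← wa_append, hcan2]
    rfl
  · intro y
    show wa (pA D (M + 1)) (h y ++ ([Gen.z 1] ++ blIw (h y))) (wa (pA D (M + 1)) (h y) _) ≠
      wa (pA D (M + 1)) (h y) _
    rw [wa_append, wa_append]
    show wa (pA D (M + 1)) (h y) (wa (pA D (M + 1)) [Gen.z 1] (wa (pA D (M + 1)) (blIw (h y))
      (wa (pA D (M + 1)) (h y) _))) ≠ _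
    have h1 : ∀ q, wa (pA D (M + 1)) (blIw (h y)) (wa (pA D (M + 1)) (h y) q) = q := by
      intro q
      show (wa (pA D (M + 1)) (blIw (h y)) * wa (pA D (M + 1)) (h y)) q = q
      rw [← wa_append, hcan1]
      rfl
    rw [h1]
    intro hcon
    have h2 := (wa (pA D (M + 1)) (h y)).injective hcon
    have h3 : (pA D (M + 1) (Gen.z 1) ((T D (M + 1)).pos.s 0,
      (((T D (M + 1)).pos.s 4, (DD D (M + 1)).mid), 4))).2.2 = 4 := by
      have := congrArg (fun q => q.2.2) h2
      exact this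
    have hfix : ∀ k, (T D (M + 1)).root (Gen.z 1) ((T D (M + 1)).pos.s k) = (T D (M + 1)).pos.s k := by
      intro k
      exact congrFun (pos_fix hD (Gen.z 1) (M + 1)) k
    have h4 : (dl (DD D (M + 1)) (Gen.z 1) (T D (M + 1)).pos
          ((T D (M + 1)).root (Gen.z 1) ((T D (M + 1)).pos.s 0))
          (((T D (M + 1)).root (Gen.z 1) ((T D (M + 1)).pos.s 4), (DD D (M + 1)).mid), 4)).2 = 4 := h3
    rw [hfix 0, hfix 4] at h4
    simp only [dl, if_true] at h4
    have h5 : ze (fun k => ((T D (M + 1)).pos.s (ph k), (DD D (M + 1)).mid)) 1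
        (((T D (M + 1)).pos.s 4, (DD D (M + 1)).mid), 4) =
        (((T D (M + 1)).pos.s (ph (kx 1 4)), (DD D (M + 1)).mid), kx 1 4) := by
      simp only [ze, Equiv.coe_fn_mk]
      rw [if_pos]
      rfl
    rw [h5] at h4
    have h6 : (kx 1 4 : K) ≠ 4 := by decide
    exact h6 h4


end IG
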