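import Mathlib
import Pool.Agent.Helper529.IG.QR13

open Classical Equiv

namespace IG


/-- concatenation of the blocks -/
def lowW {Y : Type} (blk : Y → List Gen) : List Y → List Gen
  | [] => []
  | y :: L => blk y ++ lowW blk L

theorem lowW_length {Y : Type} (blk : Y → List Gen) (b : ℕ) (hb : ∀ y, (blk y).length ≤ b)
    (L : List Y) : (lowW blk L).length ≤ L.length * b := by
  induction L with
  | nil => simp [lowW]
  | cons y L ih =>
    rw [lowW, List.length_append, List.length_cons, Nat.succ_mul]
    have := hb y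
    omega

theorem lowW_fix {Y Z : Type} (th : Gen → Perm Z) (blk : Y → List Gen) (st : Y → Z)
    (h2 : ∀ y y', y ≠ y' → wa th (blk y') (st y) = st y) (L : List Y) (y : Y) (hy : y ∉ L) :
    wa th (lowW blk L) (st y) = st y := by
  induction L with
  | nil => rfl
  | cons z L ih =>
    rw [List.mem_cons, not_or] at hy
    rw [lowW, wa_append, Perm.mul_apply, ih hy.2, h2 y z hy.1]

theorem lowW_move {Y Z : Type} (th : Gen → Perm Z) (blk : Y → List Gen) (st : Y → Z)
    (h2 : ∀ y y', y ≠ y' → wa th (blk y') (st y) = st y)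
    (h3 : ∀ y, wa th (blk y) (st y) ≠ st y) (L : List Y) (hL : L.Nodup) (y : Y) (hy : y ∈ L) :
    wa th (lowW blk L) (st y) ≠ st y := by
  induction L with
  | nil => simp at hy
  | cons z L ih =>
    rw [List.nodup_cons] at hL
    rw [lowW, wa_append, Perm.mul_apply]
    by_cases hyz : y = z
    · subst hyz
      rw [lowW_fix th blk st h2 L y hL.1]
      exact h3 y
    · have hyL : y ∈ L := by
        rcases List.mem_cons.mp hy with h | h
        · exact absurd h hyz
        · exact h
      intro h
      apply ih hL.2 hyL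
      apply (wa th (blk z)).injective
      rw [h, h2 y z hyz]

theorem lower {D : ℕ → ℕ → SD} (hD : ∀ M n, (D M n).Ok) (M : ℕ) :
    2 ^ Nat.card (DD D M).Y ≤ {g : Gam D | ∃ l : List Gen,
      l.length ≤ Nat.card (DD D M).Y * (2 * (Nat.card (XX D M) * Nat.card (DD D M).Y) + 1) ∧
      ev D l = g}.ncard := by
  obtain ⟨blk, st, h1, h2, h3⟩ := blocks hD M
  haveI : Finite (DD D M).Y := (hD M (Nat.card (XX D M))).fin
  haveI : Fintype (DD D M).Y := Fintype.ofFinite _
  have hinj : Function.Injective
      (fun S : Finset (DD D M).Y => ev D (lowW blk S.toList)) := by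
    intro S S' hSS
    have hpA := pA_of_ev (M + 1) _ _ hSS
    have key : ∀ (S : Finset (DD D M).Y) (y : (DD D M).Y), y ∈ S ↔
        wa (pA D (M + 1)) (lowW blk S.toList) (st y) ≠ st y := by
      intro S y
      constructor
      · intro hy
        exact lowW_move _ blk st h2 h3 S.toList S.nodup_toList y (Finset.mem_toList.mpr hy)
      · intro hy
        by_contra hn
        exact hy (lowW_fix _ blk st h2 S.toList y (fun h => hn (Finset.mem_toList.mp h)))
    ext y
    rw [key S y, key S' y]
    have hpA' : wa (pA D (M + 1)) (lowW blk S.toList) = wa (pA D (M + 1)) (lowW blk S'.toList) :=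
      hpA
    rw [hpA']
  have hcard : (Set.univ : Set (Finset (DD D M).Y)).ncard = 2 ^ Nat.card (DD D M).Y := by
    rw [Set.ncard_univ, Nat.card_eq_fintype_card, Nat.card_eq_fintype_card, Fintype.card_finset]
  rw [← hcard, ← Set.ncard_image_of_injective Set.univ hinj]
  apply Set.ncard_le_ncard _ (ball_finite _)
  rintro _ ⟨S, -, rfl⟩
  refine ⟨lowW blk S.toList, ?_, rfl⟩
  refine (lowW_length blk _ h1 S.toList).trans ?_
  rw [Finset.length_toList]
  apply Nat.mul_le_mul_right
  rw [Nat.card_eq_fintype_card]
  exact Finset.card_le_univ S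


end IG
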