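import Mathlib
import Pool.Agent.Helper529.IG.QR14

open Classical Equiv

namespace IG


theorem superpoly_num (C d : ℕ) : ∃ Y0 : ℕ, ∀ y, Y0 ≤ y → C * (4 * y ^ 3) ^ d < 2 ^ y := by
  have h1 := tendsto_pow_const_div_const_pow_of_one_lt (3 * d) (one_lt_two : (1 : ℝ) < 2)
  have h2 := h1.const_mul ((C : ℝ) * 4 ^ d)
  rw [mul_zero] at h2
  have h3 := h2.eventually (gt_mem_nhds (zero_lt_one : (0 : ℝ) < 1))
  obtain ⟨Y0, hY0⟩ := Filter.eventually_atTop.1 h3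
  refine ⟨Y0, fun y hy => ?_⟩
  have h4 := hY0 y hy
  have h5 : (C : ℝ) * 4 ^ d * (y : ℝ) ^ (3 * d) < 2 ^ y := by
    rw [← mul_div_assoc, div_lt_one (by positivity)] at h4
    exact h4
  have h6 : ((C * (4 * y ^ 3) ^ d : ℕ) : ℝ) < ((2 ^ y : ℕ) : ℝ) := by
    push_cast
    calc (C : ℝ) * (4 * (y : ℝ) ^ 3) ^ d = (C : ℝ) * 4 ^ d * (y : ℝ) ^ (3 * d) := by
          rw [mul_pow, ← pow_mul]; ring
      _ < 2 ^ y := h5
  exact_mod_cast h6

theorem superpoly (rho : ℕ → ℕ → ℕ) (h : ∀ M k, k ≤ rho M k ∧ M ≤ rho M k) (C d : ℕ) :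
    ∃ n : ℕ, C * (n + 1) ^ d <
      {g : Gam (DR rho) | ∃ l : List Gen, l.length ≤ n ∧ ev (DR rho) l = g}.ncard := by
  obtain ⟨M, hM⟩ := superpoly_num C d
  have hl := lower (D := DR rho) (fun M n => DR_ok rho M n) M
  have hy := card_DY rho M
  obtain ⟨k, hk⟩ : ∃ k, k = Nat.card (XX (DR rho) M) := ⟨_, rfl⟩
  obtain ⟨y, hyy⟩ : ∃ y, y = Nat.card (DD (DR rho) M).Y := ⟨_, rfl⟩
  rw [← hk, ← hyy] at hl
  rw [← hyy] at hy
  have hr1 : k ≤ rr rho M := by rw [hk]; exact (h M _).1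
  have hr2 : M ≤ rr rho M := (h M _).2
  have hpow : rr rho M + 1 < 8 ^ (rr rho M + 1) := Nat.lt_pow_self (by norm_num)
  have hky : k ≤ y := by omega
  have hMy : M ≤ y := by omega
  have hy1 : 1 ≤ y := by omega
  refine ⟨y * (2 * (k * y) + 1), lt_of_lt_of_le ?_ hl⟩
  refine lt_of_le_of_lt ?_ (hM y hMy)
  refine Nat.mul_le_mul_left C (Nat.pow_le_pow_left ?_ d)
  have h1 : k * y ≤ y * y := Nat.mul_le_mul_right y hky
  have h2 : y * (2 * (k * y) + 1) ≤ y * (2 * (y * y) + 1) :=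
    Nat.mul_le_mul_left y (by omega)
  have h3 : y ≤ y ^ 3 := Nat.le_self_pow (by norm_num) y
  have h4 : 1 ≤ y ^ 3 := Nat.one_le_pow _ _ hy1
  have h5 : y * (2 * (y * y) + 1) = 2 * y ^ 3 + y := by ring
  omega


end IG
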