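import Mathlib
import Pool.Agent.Helper529.IG.QR15

open Classical Equiv

namespace IG


/-- a letter as an element of the group generated by the letters -/
noncomputable def letG (D : ℕ → ℕ → SD) (s : Gen) : GG D :=
  ⟨Phi D s, Subgroup.subset_closure ⟨s, rfl⟩⟩

theorem coe_prod_letG (D : ℕ → ℕ → SD) (l : List Gen) :
    (((l.map (letG D)).prod : GG D) : Gam D) = ev D l := by
  induction l with
  | nil => rfl
  | cons s l ih =>
    rw [List.map_cons, List.prod_cons, Subgroup.coe_mul, ih]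
    rfl

theorem letG_inv {D : ℕ → ℕ → SD} (hD : ∀ M n, (D M n).Ok) (s : Gen) :
    ∃ s', letG D s' = (letG D s)⁻¹ := by
  by_cases hs : ∃ ρ, s = Gen.r ρ
  · obtain ⟨ρ, rfl⟩ := hs
    refine ⟨Gen.r ρ⁻¹, ?_⟩
    apply Subtype.ext
    show Phi D (Gen.r ρ⁻¹) = (Phi D (Gen.r ρ))⁻¹
    exact (Phi_r_inv ρ).symm
  · push Not at hs
    refine ⟨s, ?_⟩
    apply Subtype.ext
    show Phi D s = (Phi D s)⁻¹
    exact eq_inv_of_mul_eq_one_left (Phi_sq hD s hs)

/-- balls in the group -/
theorem ball_eq (rho : ℕ → ℕ → ℕ) : ∃ S : Finset (GG (DR rho)),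
    Subgroup.closure (S : Set (GG (DR rho))) = ⊤ ∧
    ∀ n : ℕ, {g : GG (DR rho) | ∃ l : List (GG (DR rho)), l.length ≤ n ∧
      (∀ x ∈ l, x ∈ S ∨ x⁻¹ ∈ S) ∧ l.prod = g}.ncard =
      {g : Gam (DR rho) | ∃ l : List Gen, l.length ≤ n ∧ ev (DR rho) l = g}.ncard := by
  haveI := finite_Gen
  have hD : ∀ M n, (DR rho M n).Ok := DR_ok rho
  have hfin : (Set.range (letG (DR rho))).Finite := Set.finite_range _
  refine ⟨hfin.toFinset, ?_, ?_⟩
  · rw [Set.Finite.coe_toFinset, eq_top_iff]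
    rintro ⟨g, hg⟩ -
    obtain ⟨l, hl⟩ := (GG_iff hD g).1 hg
    have h1 : (⟨g, hg⟩ : GG (DR rho)) = (l.map (letG (DR rho))).prod := by
      apply Subtype.ext
      rw [coe_prod_letG]
      exact hl.symm
    rw [h1]
    apply Subgroup.list_prod_mem
    intro x hx
    obtain ⟨s, -, rfl⟩ := List.mem_map.1 hx
    exact Subgroup.subset_closure ⟨s, rfl⟩
  · intro n
    rw [← Set.ncard_image_of_injective _ (Subtype.val_injective (p := fun g => g ∈ GG (DR rho)))]
    congr 1
    ext g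
    constructor
    · rintro ⟨g', ⟨l, hl, hx, hp⟩, rfl⟩
      have h1 : ∀ x ∈ l, x ∈ Set.range (letG (DR rho)) := by
        intro x hxl
        rcases hx x hxl with h | h
        · exact hfin.mem_toFinset.1 h
        · obtain ⟨s, hs⟩ := hfin.mem_toFinset.1 h
          obtain ⟨s', hs'⟩ := letG_inv hD s
          refine ⟨s', ?_⟩
          rw [hs', hs, inv_inv]
      have h2 : l ∈ Set.range (List.map (letG (DR rho))) := by
        rw [Set.range_list_map]
        exact h1
      obtain ⟨l', rfl⟩ := h2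
      refine ⟨l', ?_, ?_⟩
      · rw [List.length_map] at hl
        exact hl
      · rw [← hp, coe_prod_letG]
    · rintro ⟨l, hl, rfl⟩
      refine ⟨(l.map (letG (DR rho))).prod, ⟨l.map (letG (DR rho)), ?_, ?_, rfl⟩, ?_⟩
      · rw [List.length_map]
        exact hl
      · intro x hx
        obtain ⟨s, -, rfl⟩ := List.mem_map.1 hx
        exact Or.inl (hfin.mem_toFinset.2 ⟨s, rfl⟩)
      · exact coe_prod_letG _ _


end IG
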