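import Mathlib
import Pool.Agent.Helper529.IG.QR16

open Classical Equiv

namespace IG


/-- The group of intermediate growth. -/
theorem main :
    ¬ (∀ (G : Type) [Group G], Group.FG G → Infinite G →
      (∀ g : G, g ≠ 1 → ∃ H : Subgroup G, H.index ≠ 0 ∧ g ∉ H) →
      (∀ H : Subgroup G, H.index ≠ 0 →
        ∀ N : Subgroup H, N.Normal → N ≠ ⊥ → N.index ≠ 0) →
      ∀ S : Finset G, Subgroup.closure (S : Set G) = ⊤ →
        (∃ C d : ℕ, ∀ n : ℕ,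
          {g : G | ∃ l : List G, l.length ≤ n ∧ (∀ x ∈ l, x ∈ S ∨ x⁻¹ ∈ S) ∧ l.prod = g}.ncard
            ≤ C * (n + 1) ^ d) ∨
        (∃ c : ℝ, 1 < c ∧ ∀ n : ℕ,
          c ^ n ≤ ({g : G | ∃ l : List G, l.length ≤ n ∧ (∀ x ∈ l, x ∈ S ∨ x⁻¹ ∈ S) ∧ l.prod = g}.ncard : ℝ))) := by
  intro hall
  have hfin := finite_Gen
  have hne : Nonempty Gen := ⟨Gen.a⟩
  obtain ⟨rho, hrho⟩ := exists_rho (Nat.card Gen) Nat.card_pos
  obtain ⟨S, hS, hball⟩ := ball_eq rho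
  have hD : ∀ M n, (DR rho M n).Ok := DR_ok rho
  rcases hall (GG (DR rho)) ⟨⟨S, hS⟩⟩ (GG_infinite hD) (GG_rf hD)
    (fun H hH N hN hb => (hji hD H ⟨hH⟩ N hN hb).index_ne_zero) S hS with h | h
  · obtain ⟨C, d, hCd⟩ := h
    obtain ⟨n, hn⟩ := superpoly rho (fun M k => ⟨(hrho M k).1, (hrho M k).2.1⟩) C d
    have h1 := hCd n
    rw [hball n] at h1
    exact absurd h1 (not_le.2 hn)
  · obtain ⟨c, hc, hcn⟩ := h
    obtain ⟨n, hn⟩ := subexp rho (fun M k hk => (hrho M k).2.2 hk) c hc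
    have h1 := hcn n
    rw [hball n] at h1
    exact absurd h1 (not_le.2 hn)


end IG
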